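import Mathlib
import Pool.Agent.Lib.P0c8ca5R.Final
import Pool.Agent.Lib.P0c8ca5P.FrH

/-!
# Navarro's equality when the fixed points in the defect group are cyclic: definitions

* `WEq p K c`: the blockwise weight equality for the idempotent `c` of `Z(kK)`, in the weighted form
  `|K| * l(K, c) = ∑ |N_K(Q)| * |dz(N_K(Q)/Q, c)|`, the sum over all p-subgroups `Q` of `K`
  (`Fr.Ws p K c` is this sum).
* `Psi N H s = ∑ |H ⊓ s x| * |H ⊓ s x : N ⊓ s x|` for a family `s` of subgroups.
* `aS C s L = ∑ |C ⊓ s x|` over the `x` with `L ≤ C (s x)`.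
* `CycExt p N H`: `N` is a normal subgroup of `H`, `H / N` is cyclic of order prime to `p`.
* `HypExt p C N H`: moreover `C ≤ N` is normal in `H` and `N / C` is a p-group.
* `OvSet h f δ`: the irreducible representations of `H` in the idempotent `f`, up to isomorphism, that
  lie over the irreducible representation `δ` of `N ≤ H`.
* `cst g`: the stabilizer of `g` under conjugation.
* `Star p Pr C f`: every p-subgroup `P` of `C` with `Br_P(f) ≠ 0` is cyclic and `Pr |P|` holds.
* `BaseHyp p k Pr`: Alperin's weight conjecture holds for the blocks whose Brauer pairs satisfy this.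
-/

namespace Pool.Agent.Lib.P0c8ca5.Cy

open MonoidAlgebra

universe u v

variable {p : ℕ} {k : Type*} [Field k] {A : Type*} [Group A]

/-- the weight equality for the idempotent `c` of `Z(kK)` -/
def WEq (p : ℕ) [Fintype A] (K : Subgroup A) (c : MonoidAlgebra k A) : Prop :=
  Nat.card K * Nat.card (IrX K c) = Fr.Ws p K c

/-- the sum `∑ |H ⊓ s x| * |H ⊓ s x : N ⊓ s x|` -/
noncomputable def Psi {X : Type*} [Fintype X] (N H : Subgroup A) (s : X → Subgroup A) : ℕ :=
  ∑ x, Nat.card ↥(H ⊓ s x) * N.relIndex (H ⊓ s x)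

open Classical in
/-- the sum of `|C ⊓ s x|` over the `x` with `L ≤ C (s x)` -/
noncomputable def aS {X : Type*} [Fintype X] (C : Subgroup A) (s : X → Subgroup A)
    (L : Subgroup A) : ℕ :=
  ∑ x, if L ≤ C ⊔ s x then Nat.card ↥(C ⊓ s x) else 0

/-- `H / N` is cyclic of order prime to `p` -/
structure CycExt (p : ℕ) (N H : Subgroup A) : Prop where
  NH : N ≤ H
  hN : H ≤ Subgroup.normalizer (N : Set A)
  cyc : ∃ t ∈ H, N ⊔ Subgroup.zpowers t = H
  idx : ¬ p ∣ N.relIndex H

/-- `H / N` is cyclic of order prime to `p` and `N / C` is a p-group -/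
structure HypExt (p : ℕ) (C N H : Subgroup A) : Prop where
  CN : C ≤ N
  hC : H ≤ Subgroup.normalizer (C : Set A)
  ext : CycExt p N H
  pgrp : ∀ x ∈ N, ∃ n : ℕ, x ^ p ^ n ∈ C

/-- the irreducible representations of `H` in `f` over `δ` -/
def OvSet {N H : Subgroup A} (hNH : N ≤ H) (f : MonoidAlgebra k A) {n : ℕ} (δ : Rp k N n) :
    Set (IrX H f) :=
  {c | ∃ γ : IrrInv H ⊥ f, (⟦γ⟧ : IrX H f) = c ∧ Over hNH γ.ρ δ}

/-- the stabilizer of `g` under conjugation -/
def cst (g : MonoidAlgebra k A) : Subgroup A where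
  carrier := {x | cj x g = g}
  one_mem' := cj_one_left g
  mul_mem' := fun {a b} ha hb => by
    change cj (a * b) g = g
    rw [← cj_cj, hb, ha]
  inv_mem' := fun {a} ha => by
    change cj a⁻¹ g = g
    conv_lhs => rw [← (show cj a g = g from ha)]
    exact cj_inv_cj a g

theorem mem_cst {g : MonoidAlgebra k A} {x : A} : x ∈ cst g ↔ cj x g = g := Iff.rfl

/-- an element of the group algebra of `N` that acts as the identity on `δ` and as zero on the
irreducible representations of `N` that are not isomorphic to `δ` -/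
structure IsEps (N : Subgroup A) {n : ℕ} (δ : Rp k N n) (ε : MonoidAlgebra k A) : Prop where
  supp : SuppIn N ε
  one : ∀ {m : ℕ} (σ : Rp k N m), Irr' σ → Iso σ δ → act σ ε = 1
  zero : ∀ {m : ℕ} (σ : Rp k N m), Irr' σ → ¬ Iso σ δ → act σ ε = 0

/-- `θ` identifies the representation `τ` of `T` with the range of `ε` on the representation `γ` -/
structure SubT {T H : Subgroup A} (hTH : T ≤ H) (ε : MonoidAlgebra k A) {V W : Type*}
    [AddCommGroup V] [Module k V] [AddCommGroup W] [Module k W] (γ : Representation k H V)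
    (τ : Representation k T W) (θ : W →ₗ[k] V) : Prop where
  inj : Function.Injective θ
  range : LinearMap.range θ = LinearMap.range (act γ ε)
  eqv : ∀ (t : T) (w : W), θ (τ t w) = γ (Subgroup.inclusion hTH t) (θ w)

/-- the situation of the Clifford correspondence: `δ` is irreducible, `N` is normal in `H` and `T` is
the stabilizer of `δ` in `H` -/
structure Cliff (N T H : Subgroup A) {n : ℕ} (δ : Rp k N n) (ε : MonoidAlgebra k A) : Prop where
  hNT : N ≤ T
  hTH : T ≤ H
  hn : H ≤ Subgroup.normalizer (N : Set A)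
  hT : ∀ (h : A) (hh : h ∈ H), h ∈ T ↔ Iso (tw (hn hh) δ) δ
  irr : Irr' δ
  eps : IsEps N δ ε

/-- the p-subgroups `P` of `C` with `Br_P(f) ≠ 0` are cyclic and their orders satisfy `Pr` -/
def Star (p : ℕ) (Pr : ℕ → Prop) (C : Subgroup A) (f : MonoidAlgebra k A) : Prop :=
  ∀ P : Subgroup A, P ≤ C → IsPGroup p P → HasBr P f → IsCyclic P ∧ Pr (Nat.card P)

/-- the blockwise weight conjecture for the blocks of the finite groups in the universe `u` whose
p-subgroups `P` with `Br_P(e) ≠ 0` are cyclic with `Pr |P|` -/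
def BaseHyp (p : ℕ) (k : Type v) [Field k] (Pr : ℕ → Prop) : Prop :=
  ∀ (B : Type u) [Group B] [Fintype B] (e : MonoidAlgebra k B), IsBlock (⊤ : Subgroup B) e →
    Star p Pr ⊤ e → NavarroEq p (⊤ : Subgroup B) ⊤ e

end Pool.Agent.Lib.P0c8ca5.Cy
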