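import Mathlib
import Pool.Agent.Lib.P0c8ca5C.Defs

/-!
# Module AutExt: the action of a group on a normal subgroup of order `p`

PROOF.  Conjugation gives a homomorphism `K → MulAut Ω` with kernel `K ⊓ centralizer Ω`.  `Ω` is cyclic of
order `p` (`isCyclic_of_prime_card`), so `MulAut Ω` is isomorphic to `(ZMod p)ˣ`
(`IsCyclic.mulAutMulEquiv`), which is cyclic of order `p - 1` (units of a finite field,
`ZMod.card_units`).  So `K / K₀` is isomorphic to a subgroup of a cyclic group of order `p - 1`; it is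
cyclic (generated by the class of some `t ∈ K`: `K₀ ⊔ zpowers t = K`) and
`K₀.relIndex K ∣ p - 1` is not divisible by `p`.  `K₀` is normal in `K`.
-/

namespace Pool.Agent.Lib.P0c8ca5.Cy

variable {p : ℕ} {A : Type*} [Group A]

theorem cycExt_of_card [Fact p.Prime] [Finite A] {K Ω : Subgroup A} (hΩ : Nat.card Ω = p)
    (hK : K ≤ Subgroup.normalizer (Ω : Set A)) :
    CycExt p (K ⊓ Subgroup.centralizer (Ω : Set A)) K := by
  have hp : p.Prime := Fact.out
  have hcyc : IsCyclic Ω := isCyclic_of_prime_card hΩ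
  let φ : K →* MulAut Ω := (Subgroup.normalizerMonoidHom Ω).comp (Subgroup.inclusion hK)
  have hker : φ.ker = (K ⊓ Subgroup.centralizer (Ω : Set A)).subgroupOf K := by
    have h1 : φ.ker = (Subgroup.normalizerMonoidHom Ω).ker.comap (Subgroup.inclusion hK) :=
      (MonoidHom.comap_ker _ _).symm
    rw [h1, Subgroup.normalizerMonoidHom_ker]
    ext y
    rw [Subgroup.mem_comap, Subgroup.mem_subgroupOf, Subgroup.mem_subgroupOf, Subgroup.mem_inf]
    exact ⟨fun h => ⟨y.2, h⟩, fun h => h.2⟩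
  have hcard : Nat.card (MulAut Ω) = p - 1 := by
    rw [Nat.card_congr (IsCyclic.mulAutMulEquiv Ω).toEquiv, hΩ, Nat.card_eq_fintype_card,
      ZMod.card_units]
  have hM : IsCyclic (MulAut Ω) := by
    have h1 : IsCyclic (ZMod (Nat.card Ω))ˣ := by
      rw [hΩ]; exact ZMod.isCyclic_units_prime hp
    exact isCyclic_of_injective (IsCyclic.mulAutMulEquiv Ω).toMonoidHom
      (IsCyclic.mulAutMulEquiv Ω).injective
  refine ⟨inf_le_left, ?_, ?_, ?_⟩
  · -- normality
    have h1 : φ.ker.Normal := inferInstance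
    rw [hker] at h1
    exact (Subgroup.normal_subgroupOf_iff_le_normalizer inf_le_left).1 h1
  · obtain ⟨g, hg⟩ := (inferInstance : IsCyclic φ.range).exists_generator
    obtain ⟨t, ht⟩ := g.2
    refine ⟨t, t.2, le_antisymm (sup_le inf_le_left ((Subgroup.zpowers_le).mpr t.2)) ?_⟩
    intro h hh
    obtain ⟨n, hn⟩ := Subgroup.mem_zpowers_iff.mp (hg ⟨φ ⟨h, hh⟩, ⟨_, rfl⟩⟩)
    have h2 : φ t ^ n = φ ⟨h, hh⟩ := by
      have := congrArg Subtype.val hn
      rw [ht]
      exact this
    have h3 : (⟨h, hh⟩ : K) * (t ^ n)⁻¹ ∈ φ.ker := by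
      rw [MonoidHom.mem_ker, map_mul, map_inv, map_zpow, h2, mul_inv_cancel]
    rw [hker, Subgroup.mem_subgroupOf] at h3
    have h4 : h * ((t : A) ^ n)⁻¹ ∈ K ⊓ Subgroup.centralizer (Ω : Set A) := by
      simpa using h3
    have h5 : h = (h * ((t : A) ^ n)⁻¹) * (t : A) ^ n := by group
    rw [h5]
    exact Subgroup.mul_mem _ ((le_sup_left :
      _ ≤ (K ⊓ Subgroup.centralizer (Ω : Set A)) ⊔ Subgroup.zpowers (t : A)) h4)
      ((le_sup_right : _ ≤ (K ⊓ Subgroup.centralizer (Ω : Set A)) ⊔ Subgroup.zpowers (t : A))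
        (Subgroup.zpow_mem_zpowers _ _))
  · have h1 : (K ⊓ Subgroup.centralizer (Ω : Set A)).relIndex K = φ.ker.index := by
      rw [hker]; rfl
    rw [h1, Subgroup.index_ker]
    intro hd
    have h2 : Nat.card φ.range ∣ p - 1 := by
      rw [← hcard]
      exact Subgroup.card_subgroup_dvd_card _
    have h3 := Nat.le_of_dvd (by have := hp.two_le; omega) (hd.trans h2)
    have := hp.two_le
    omega

end Pool.Agent.Lib.P0c8ca5.Cy
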