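import Mathlib
import Pool.Agent.Lib.P0c8ca5N.CopB

/-!
# Module AxB: Thompson's lemma for `⟨x⟩ × S` acting on the p-group `R`

PROOF.  Strong induction on the order: claim that every `R' ≤ R` normalized by `x` and by `S` satisfies
`R' ≤ centralizer {x}`; note `R' ⊓ centralizer S ≤ R ⊓ centralizer S ≤ centralizer {x}`.
Let `T = ⁅R', zpowers x⁆ ≤ R'`; it is normalized by `R'`, `x` and `S` (`S` normalizes `R'` and centralizes
`x`).
Case `T ≠ R'`: by induction `T ≤ centralizer {x}`.  For `q ∈ R'` `q⁻¹ * (x⁻¹ * q * x) ∈ T`, so by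
`coprime_fix` (P0c8ca5N.CopA, in the group `↥(R' ⊔ zpowers x)` or in `↥(normalizer T)`, with `U = T`) there
is `r ∈ T` such that `q * r` commutes with `x`; `r` commutes with `x` too, so `q` does.
Case `T = R'`: if `R' = ⊥` nothing to do.  Otherwise `U = ⁅R', S⁆` is a proper subgroup of `R'`: `R' S` is a
nontrivial p-group, hence nilpotent, and if `⁅R', S⁆ = R'` then `R'` would be contained in all members
of the lower central series of `R' ⊔ S`.  `U` is normalized by `R'`, `S` and `x` (`x` normalizes `R'` and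
centralizes `S`).  By induction `U ≤ centralizer {x}`, that is `⁅⁅R', S⁆, zpowers x⁆ = ⊥`; also
`⁅⁅S, zpowers x⁆, R'⁆ = ⊥`.  By the three subgroups lemma
(`Subgroup.commutator_commutator_eq_bot_of_rotate`) `⁅⁅zpowers x, R'⁆, S⁆ = ⊥`, that is `⁅R', S⁆ = ⊥`,
so `R' ≤ centralizer S`, and `R' ≤ centralizer {x}` by the remark at the beginning.
-/

namespace Pool.Agent.Lib.P0c8ca5.Cy

variable {p : ℕ} {A : Type*} [Group A]

namespace AxBAux

open CopB46
open scoped commutatorElement

/-- an element normalizing two subgroups normalizes their commutator -/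
theorem norm_comm {H K M : Subgroup A} (h1 : M ≤ Subgroup.normalizer (H : Set A))
    (h2 : M ≤ Subgroup.normalizer (K : Set A)) :
    M ≤ Subgroup.normalizer ((⁅H, K⁆ : Subgroup A) : Set A) := by
  intro g hg
  have e1 : cg g H = H := cg_eq_self_iff.2 (h1 hg)
  have e2 : cg g K = K := cg_eq_self_iff.2 (h2 hg)
  apply cg_eq_self_iff.1
  have h3 : cg g ⁅H, K⁆ = ⁅cg g H, cg g K⁆ := Subgroup.map_commutator _ _ _
  rw [h3, e1, e2]

theorem comm_le {H K : Subgroup A} (h : K ≤ Subgroup.normalizer (H : Set A)) : ⁅H, K⁆ ≤ H :=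
  Subgroup.le_normalizer_iff_commutator_le_left.mp h

/-- `⁅H, K⁆ ≠ H` for a nontrivial finite p-group `H K` -/
theorem comm_ne [Fact p.Prime] [Finite A] {H K : Subgroup A} (hH : IsPGroup p H)
    (hK : IsPGroup p K) (h : K ≤ Subgroup.normalizer (H : Set A)) (hne : H ≠ ⊥) : ⁅H, K⁆ ≠ H := by
  intro heq
  have hP : IsPGroup p (H ⊔ K : Subgroup A) := IsPGroup.to_sup_of_normal_left' hH hK h
  have hnil : Group.IsNilpotent (H ⊔ K : Subgroup A) := hP.isNilpotent
  obtain ⟨n, hn⟩ := (Subgroup.isNilpotent_iff_lowerCentralSeries _).mp hnil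
  have key : ∀ m : ℕ, H ≤ (H ⊔ K).lowerCentralSeries m := by
    intro m
    induction m with
    | zero => exact le_sup_left
    | succ m ih =>
      rw [Subgroup.lowerCentralSeries_succ]
      conv_lhs => rw [← heq]
      exact Subgroup.commutator_mono ih le_sup_right
  have := key n
  rw [hn] at this
  exact hne (le_bot_iff.mp this)

theorem main [Fact p.Prime] [Finite A] {R S : Subgroup A} {x : A} (hR : IsPGroup p R)
    (hS : IsPGroup p S) (hx : Preg p x)
    (hxS : S ≤ Subgroup.centralizer ({x} : Set A))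
    (hfix : R ⊓ Subgroup.centralizer (S : Set A) ≤ Subgroup.centralizer ({x} : Set A)) (n : ℕ) :
    ∀ Q : Subgroup A, Nat.card Q = n → Q ≤ R → x ∈ Subgroup.normalizer (Q : Set A) →
      S ≤ Subgroup.normalizer (Q : Set A) → Q ≤ Subgroup.centralizer ({x} : Set A) := by
  induction n using Nat.strong_induction_on with
  | _ n ih =>
  intro Q hn hQR hxQ hSQ
  set Z : Subgroup A := Subgroup.zpowers x with hZ
  have hxZ : x ∈ Z := Subgroup.mem_zpowers x
  have hZQ : Z ≤ Subgroup.normalizer (Q : Set A) := (Subgroup.zpowers_le).mpr hxQ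
  have hSx : ∀ s ∈ S, x * s = s * x := fun s hs => mem_cent.1 (hxS hs)
  -- `S` and `Z` centralize each other
  have hZS : Z ≤ Subgroup.centralizer (S : Set A) := by
    rw [hZ, Subgroup.zpowers_le, Subgroup.mem_centralizer_iff]
    intro s hs
    exact (hSx s hs).symm
  have hSZ : S ≤ Subgroup.centralizer (Z : Set A) := Subgroup.le_centralizer_iff.mp hZS
  have hSZn : S ≤ Subgroup.normalizer (Z : Set A) :=
    hSZ.trans (Subgroup.centralizer_le_normalizer _)
  have hZSn : Z ≤ Subgroup.normalizer (S : Set A) :=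
    hZS.trans (Subgroup.centralizer_le_normalizer _)
  -- smaller subgroups
  have small : ∀ T : Subgroup A, T ≤ Q → T ≠ Q → x ∈ Subgroup.normalizer (T : Set A) →
      S ≤ Subgroup.normalizer (T : Set A) → T ≤ Subgroup.centralizer ({x} : Set A) := by
    intro T hTQ hne hxT hST
    have hlt : Nat.card T < n := by
      rw [← hn]
      have h1 : T < Q := lt_of_le_of_ne hTQ hne
      exact Set.Finite.card_lt_card (Set.toFinite _) h1
    exact ih _ hlt T rfl (hTQ.trans hQR) hxT hST
  set T : Subgroup A := ⁅Q, Z⁆ with hT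
  have hTQ : T ≤ Q := comm_le hZQ
  have hQT : Q ≤ Subgroup.normalizer (T : Set A) := Subgroup.normalizer_commutator_ge_left Q Z
  have hZT : Z ≤ Subgroup.normalizer (T : Set A) := Subgroup.normalizer_commutator_ge_right Q Z
  by_cases hTe : T = Q
  · by_cases hQb : Q = ⊥
    · rw [hQb]; exact bot_le
    · set U : Subgroup A := ⁅Q, S⁆ with hU
      have hUQ : U ≤ Q := comm_le hSQ
      have hUne : U ≠ Q := comm_ne (hR.to_le hQR) hS hSQ hQb
      have hSU : S ≤ Subgroup.normalizer (U : Set A) :=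
        Subgroup.normalizer_commutator_ge_right Q S
      have hZU : Z ≤ Subgroup.normalizer (U : Set A) := norm_comm hZQ hZSn
      have hUx := small U hUQ hUne (hZU hxZ) hSU
      have hUZ : ⁅⁅Q, S⁆, Z⁆ = ⊥ := by
        rw [Subgroup.commutator_eq_bot_iff_le_centralizer]
        intro u hu
        rw [Subgroup.mem_centralizer_iff]
        intro z hz
        have h1 : Z ≤ Subgroup.centralizer ({u} : Set A) := by
          rw [hZ, Subgroup.zpowers_le]
          exact mem_cent.2 (mem_cent.1 (hUx hu)).symm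
        exact (mem_cent.1 (h1 hz)).symm
      have hSZb : ⁅⁅S, Z⁆, Q⁆ = ⊥ := by
        have h1 : ⁅S, Z⁆ = ⊥ := Subgroup.commutator_eq_bot_iff_le_centralizer.mpr hSZ
        rw [h1, Subgroup.commutator_bot_left]
      have h3 : ⁅⁅Z, Q⁆, S⁆ = ⊥ :=
        Subgroup.commutator_commutator_eq_bot_of_rotate hUZ hSZb
      have h4 : ⁅Z, Q⁆ = Q := by rw [Subgroup.commutator_comm]; exact hTe
      rw [h4] at h3
      have h5 : Q ≤ Subgroup.centralizer (S : Set A) :=
        Subgroup.commutator_eq_bot_iff_le_centralizer.mp h3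
      exact (le_inf hQR h5).trans hfix
  · have hST : S ≤ Subgroup.normalizer (T : Set A) := norm_comm hSQ hSZn
    have hTx := small T hTQ hTe (hZT hxZ) hST
    intro q hq
    set B : Subgroup A := Subgroup.normalizer (T : Set A) with hB
    have hTB : T ≤ B := Subgroup.le_normalizer
    have hnorm : (T.subgroupOf B).Normal :=
      (Subgroup.normal_subgroupOf_iff_le_normalizer hTB).2 le_rfl
    have hTp : IsPGroup p (T.subgroupOf B) :=
      (hR.to_le (hTQ.trans hQR)).comap_of_injective _ B.subtype_injective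
    have hxB : x ∈ B := hZT hxZ
    have hqB : q ∈ B := hQT hq
    have hxp : Preg p (⟨x, hxB⟩ : B) := by
      unfold Preg
      rw [Subgroup.orderOf_mk]
      exact hx
    have hmem : (⟨q, hqB⟩ : B)⁻¹ * ((⟨x, hxB⟩ : B)⁻¹ * ⟨q, hqB⟩ * ⟨x, hxB⟩) ∈ T.subgroupOf B := by
      rw [Subgroup.mem_subgroupOf]
      change q⁻¹ * (x⁻¹ * q * x) ∈ T
      have h1 : ⁅q⁻¹, x⁻¹⁆ ∈ T :=
        Subgroup.commutator_mem_commutator (Q.inv_mem hq) (Z.inv_mem hxZ)
      have h2 : ⁅q⁻¹, x⁻¹⁆ = q⁻¹ * (x⁻¹ * q * x) := by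
        rw [commutatorElement_def]; group
      rwa [h2] at h1
    obtain ⟨r, hr, hc⟩ := coprime_fix (T.subgroupOf B) hTp hxp hmem
    rw [Subgroup.mem_subgroupOf] at hr
    have hc' : q * (r : A) * x = x * (q * (r : A)) := congrArg Subtype.val hc
    have h3 : q * (r : A) ∈ Subgroup.centralizer ({x} : Set A) := mem_cent.2 hc'.symm
    have h4 := Subgroup.mul_mem _ h3 (Subgroup.inv_mem _ (hTx hr))
    rwa [mul_inv_cancel_right] at h4

end AxBAux

theorem axb [Fact p.Prime] [Finite A] {R S : Subgroup A} {x : A} (hR : IsPGroup p R)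
    (hS : IsPGroup p S) (hSR : S ≤ Subgroup.normalizer (R : Set A)) (hx : Preg p x)
    (hxR : x ∈ Subgroup.normalizer (R : Set A))
    (hxS : S ≤ Subgroup.centralizer ({x} : Set A))
    (hfix : R ⊓ Subgroup.centralizer (S : Set A) ≤ Subgroup.centralizer ({x} : Set A)) :
    R ≤ Subgroup.centralizer ({x} : Set A) := by
  exact AxBAux.main hR hS hx hxS hfix (Nat.card R) R rfl le_rfl hxR hSR

end Pool.Agent.Lib.P0c8ca5.Cy
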