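import Mathlib
import Pool.Agent.Lib.P0c8ca5N.CopB

/-!
# Module CycAut: p-regular automorphisms of a cyclic p-group

PROOF.  `W' = W ⊓ centralizer {x} ≥ Ω ≠ ⊥`.  Suppose `W' ≠ W`.  `W` is a cyclic p-group, so its
subgroups form a chain; every nontrivial subgroup contains all elements `u ∈ W` with `u ^ p = 1`
(a cyclic group has at most one subgroup of order `p`).  There is `w ∈ W`, `w ∉ W'`, `w ^ p ∈ W'`
(`W / W'` is a nontrivial p-group).  `u = w⁻¹ * (x⁻¹ * w * x) ∈ W` and, as `W` is abelian,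
`u ^ p = (w ^ p)⁻¹ * (x⁻¹ * w ^ p * x) = 1`, so `u ∈ W'`.  Let `U = W'`; apply `coprime_fix`
(P0c8ca5N.CopA; in the group `B = ↥(normalizer W)` or in `↥(W ⊔ zpowers x)`, where `W'` is normal since
`W` is abelian and `x` centralizes it) to `U`, `x`, `q = w`: there is `r ∈ W'` such that `w * r` commutes
with `x`, so `w * r ∈ W'` and `w ∈ W'`, a contradiction.  (See the proof of `supp_centralizer` in
P0c8ca5N.CopB for an application of `coprime_fix` in a subgroup.)
-/

namespace Pool.Agent.Lib.P0c8ca5.Cy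

variable {p : ℕ} {A : Type*} [Group A]

private theorem tors_mem [Fact p.Prime] [Finite A] {W Ω : Subgroup A} (hW : IsPGroup p W)
    (hc : IsCyclic W) (hΩW : Ω ≤ W) (hΩ : Ω ≠ ⊥) {u : A} (hu : u ∈ W) (hup : u ^ p = 1) :
    u ∈ Ω := by
  classical
  have hp : p.Prime := Fact.out
  have hΩp : IsPGroup p Ω := hW.to_le hΩW
  have hnt : Nontrivial Ω := (Subgroup.nontrivial_iff_ne_bot Ω).2 hΩ
  obtain ⟨z, hz⟩ : ∃ z : Ω, orderOf z = p := by
    have hdvd : p ∣ Nat.card Ω := by
      obtain ⟨n, hn⟩ := IsPGroup.iff_card.1 hΩp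
      rw [hn]
      refine dvd_pow_self p ?_
      rintro rfl
      rw [pow_zero, Nat.card_eq_one_iff_unique] at hn
      exact not_subsingleton Ω hn.1
    exact exists_prime_orderOf_dvd_card' p hdvd
  have hzW : (z : A) ∈ W := hΩW z.2
  set z' : W := ⟨(z : A), hzW⟩ with hz'
  have hoz : orderOf z' = p := by
    rw [hz', Subgroup.orderOf_mk, Subgroup.orderOf_coe, hz]
  haveI : Fintype W := Fintype.ofFinite W
  have hcard := IsCyclic.card_pow_eq_one_le (α := W) hp.pos
  set F : Finset W := Finset.univ.filter (fun a : W => a ^ p = 1) with hF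
  set Z : Finset W := Finset.univ.filter (fun a : W => a ∈ Subgroup.zpowers z') with hZ
  have hZF : Z ⊆ F := by
    intro a ha
    rw [hZ, Finset.mem_filter] at ha
    rw [hF, Finset.mem_filter]
    refine ⟨Finset.mem_univ _, ?_⟩
    obtain ⟨k, hk⟩ := Subgroup.mem_zpowers_iff.1 ha.2
    rw [← hk, ← zpow_natCast, ← zpow_mul, mul_comm, zpow_mul, zpow_natCast, ← hoz,
      pow_orderOf_eq_one, one_zpow]
  have hZc : Z.card = p := by
    have h1 : Nat.card (Subgroup.zpowers z') = p := by rw [Nat.card_zpowers, hoz]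
    rw [← h1, Nat.card_eq_fintype_card, Fintype.card_subtype]
  have hEq : Z = F := Finset.eq_of_subset_of_card_le hZF (by rw [hZc]; exact hcard)
  have huF : (⟨u, hu⟩ : W) ∈ F := by
    rw [hF, Finset.mem_filter]
    refine ⟨Finset.mem_univ _, ?_⟩
    ext
    exact hup
  rw [← hEq, hZ, Finset.mem_filter] at huF
  obtain ⟨k, hk⟩ := Subgroup.mem_zpowers_iff.1 huF.2
  have hk' : (z : A) ^ k = u := by
    have := congrArg (Subtype.val) hk
    simpa using this
  rw [← hk']
  exact Ω.zpow_mem z.2 k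

theorem cyc_fix [Fact p.Prime] [Finite A] {W Ω : Subgroup A} {x : A} (hW : IsPGroup p W)
    (hc : IsCyclic W) (hx : Preg p x) (hxW : x ∈ Subgroup.normalizer (W : Set A)) (hΩW : Ω ≤ W)
    (hΩ : Ω ≠ ⊥) (hfix : Ω ≤ Subgroup.centralizer ({x} : Set A)) :
    W ≤ Subgroup.centralizer ({x} : Set A) := by
  have hcomm : ∀ a ∈ W, ∀ b ∈ W, a * b = b * a := by
    intro a ha b hb
    letI := IsCyclic.commGroup (α := W)
    have := mul_comm (⟨a, ha⟩ : W) ⟨b, hb⟩
    exact congrArg Subtype.val this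
  by_contra hcon
  obtain ⟨w0, hw0, hw0'⟩ := Set.not_subset.1 hcon
  have hw0W : w0 ∈ W := hw0
  have hw0C : w0 ∉ Subgroup.centralizer ({x} : Set A) := hw0'
  -- the least power in the centralizer
  have hex : ∃ k : ℕ, w0 ^ p ^ k ∈ Subgroup.centralizer ({x} : Set A) := by
    obtain ⟨k, hk⟩ := hW ⟨w0, hw0W⟩
    refine ⟨k, ?_⟩
    have : w0 ^ p ^ k = 1 := congrArg Subtype.val hk
    rw [this]
    exact Subgroup.one_mem _
  classical
  set k := Nat.find hex with hk
  have hkC : w0 ^ p ^ k ∈ Subgroup.centralizer ({x} : Set A) := Nat.find_spec hex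
  have hk0 : k ≠ 0 := by
    intro h0
    rw [h0, pow_zero, pow_one] at hkC
    exact hw0C hkC
  obtain ⟨m, hm⟩ := Nat.exists_eq_succ_of_ne_zero hk0
  set w := w0 ^ p ^ m with hw
  have hwW : w ∈ W := W.pow_mem hw0W _
  have hwC : w ∉ Subgroup.centralizer ({x} : Set A) :=
    Nat.find_min hex (by rw [← hk, hm]; exact Nat.lt_succ_self m)
  have hwp : w ^ p ∈ Subgroup.centralizer ({x} : Set A) := by
    rw [hw, ← pow_mul, ← pow_succ, ← Nat.succ_eq_add_one, ← hm]
    exact hkC
  have hconj : ∀ y ∈ W, x⁻¹ * y * x ∈ W := by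
    intro y hy
    have := (Subgroup.mem_normalizer_iff.1 (Subgroup.inv_mem _ hxW) y).1 hy
    rwa [inv_inv] at this
  set W' : Subgroup A := W ⊓ Subgroup.centralizer ({x} : Set A) with hW'
  -- the commutator
  have huW : w⁻¹ * (x⁻¹ * w * x) ∈ W := W.mul_mem (W.inv_mem hwW) (hconj w hwW)
  have hup : (w⁻¹ * (x⁻¹ * w * x)) ^ p = 1 := by
    have hcm : Commute w⁻¹ (x⁻¹ * w * x) := hcomm _ (W.inv_mem hwW) _ (hconj w hwW)
    rw [hcm.mul_pow]
    have h1 : (x⁻¹ * w * x) ^ p = x⁻¹ * w ^ p * x := by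
      have := conj_pow (i := p) (a := x⁻¹) (b := w)
      rwa [inv_inv] at this
    have h2 : x⁻¹ * w ^ p * x = w ^ p := by
      have h3 : x * w ^ p = w ^ p * x := CopB46.mem_cent.1 hwp
      rw [mul_assoc, ← h3, inv_mul_cancel_left]
    rw [h1, h2, inv_pow, inv_mul_cancel]
  have huΩ : w⁻¹ * (x⁻¹ * w * x) ∈ W' :=
    Subgroup.mem_inf.2 ⟨huW, hfix (tors_mem hW hc hΩW hΩ huW hup)⟩
  set B : Subgroup A := Subgroup.normalizer (W : Set A) ⊓ Subgroup.normalizer (W' : Set A) with hB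
  have hW'W : W' ≤ W := inf_le_left
  have hWB : W ≤ B := by
    refine le_inf Subgroup.le_normalizer ?_
    intro g hg
    rw [Subgroup.mem_normalizer_iff]
    intro y
    constructor
    · intro hy
      have : g * y * g⁻¹ = y := by rw [hcomm g hg y (hW'W hy), mul_inv_cancel_right]
      rwa [this]
    · intro hy
      have h1 : g⁻¹ * (g * y * g⁻¹) * g = g * y * g⁻¹ := by
        rw [hcomm g⁻¹ (W.inv_mem hg) _ (hW'W hy), inv_mul_cancel_right]
      have h2 : g⁻¹ * (g * y * g⁻¹) * g = y := by group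
      rw [← h2, h1]
      exact hy
  have hxB : x ∈ B := by
    refine Subgroup.mem_inf.2 ⟨hxW, ?_⟩
    rw [Subgroup.mem_normalizer_iff]
    intro y
    constructor
    · intro hy
      have h3 : x * y = y * x := CopB46.mem_cent.1 (Subgroup.mem_inf.1 hy).2
      have : x * y * x⁻¹ = y := by rw [h3, mul_inv_cancel_right]
      rwa [this]
    · intro hy
      have h3 : x * (x * y * x⁻¹) = (x * y * x⁻¹) * x := CopB46.mem_cent.1 (Subgroup.mem_inf.1 hy).2
      have h1 : y = x * y * x⁻¹ := by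
        have h4 : x * y = (x * y * x⁻¹) * x := by group
        rw [← h4] at h3
        exact (mul_left_cancel h3).symm
      rw [h1]
      exact hy
  have hnorm : (W'.subgroupOf B).Normal :=
    (Subgroup.normal_subgroupOf_iff_le_normalizer (hW'W.trans hWB)).2 inf_le_right
  have hUp : IsPGroup p (W'.subgroupOf B) :=
    (hW.to_le hW'W).comap_of_injective _ B.subtype_injective
  have hxp : Preg p (⟨x, hxB⟩ : B) := by
    unfold Preg
    rw [Subgroup.orderOf_mk]
    exact hx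
  have hmem : (⟨w, hWB hwW⟩ : B)⁻¹ * ((⟨x, hxB⟩ : B)⁻¹ * ⟨w, hWB hwW⟩ * ⟨x, hxB⟩) ∈
      W'.subgroupOf B := by
    rw [Subgroup.mem_subgroupOf]
    exact huΩ
  obtain ⟨r, hr, hc'⟩ := coprime_fix (W'.subgroupOf B) hUp hxp hmem
  rw [Subgroup.mem_subgroupOf] at hr
  have hr1 := Subgroup.mem_inf.1 hr
  have hc2 : w * (r : A) * x = x * (w * (r : A)) := congrArg Subtype.val hc'
  have h3 : w * (r : A) ∈ Subgroup.centralizer ({x} : Set A) := CopB46.mem_cent.2 hc2.symm
  apply hwC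
  have e : w = w * (r : A) * (r : A)⁻¹ := by group
  rw [e]
  exact Subgroup.mul_mem _ h3 (Subgroup.inv_mem _ hr1.2)

end Pool.Agent.Lib.P0c8ca5.Cy
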