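import Mathlib
import Pool.Agent.Lib.P0c8ca5C.CycAut
import Pool.Agent.Lib.P0c8ca5C.AxB
import Pool.Agent.Lib.P0c8ca5C.AutExt

/-!
# Module AutMain: the action of `K` on `Q`

PROOF.  `R = Q ⊓ G`, `C = G ⊓ centralizer Q`.  `K` normalizes `Q`, `R` and `C`.
If `R = ⊥`: for `x ∈ K`, `q ∈ Q` the commutator of `x` and `q` lies in `G ⊓ Q = ⊥` (`x ∈ G` and `Q`
normalizes `G`; `x` normalizes `Q`), so `K ≤ C`, `K = C`; take `K₀ = K` (`HypExt p K K K`, `t = 1`,
relative index `1`).
If `R ≠ ⊥`: `Q` acts on the p-group `R ≠ ⊥` by conjugation, so `Z = R ⊓ centralizer Q ≠ ⊥` (a normal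
nontrivial subgroup of a p-group meets the centre, or `IsPGroup.card_modEq_card_fixedPoints`).  `Z` is
cyclic (`hcyc` with `S = Q`).  Let `Ω ≤ Z` be its subgroup of order `p`, that is the set of the `z ∈ Z`
with `z ^ p = 1`; it is normalized by `K` (which normalizes `Z`).  `K₀ = K ⊓ centralizer Ω`;
`cycExt_of_card` gives `CycExt p K₀ K`.  `C ≤ K₀`: `C` centralizes `Q ≥ Ω`.
It remains to see that for `x ∈ K₀` some `x ^ p ^ n` lies in `C`.  `y = pr p x = x ^ (p ^ r)`
(`uexp_eq`) is p-regular (`preg_pr`) and lies in `K₀`; so it is enough to see: a p-regular `y ∈ K₀`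
centralizes `Q`.
`S = Q ⊓ centralizer {y}`: `supp_centralizer` (P0c8ca5N.CopB; see its hypotheses) gives
`S ∈ Supp p G X`, in particular `G ⊔ S = X`.  `W = R ⊓ centralizer S` is cyclic (`hcyc`), a p-group, and
contains `Z ≥ Ω`; `y` normalizes `W` (it normalizes `R` and centralizes `S`) and centralizes `Ω`, so it
centralizes `W` (`cyc_fix`).  By `axb` (for `R`, `S`, `y`; `S ≤ Q` normalizes `R`) `y` centralizes `R`.
Finally `Q = R S`: for `q ∈ Q ≤ X = G S` write `q = g s`; `g = q s⁻¹ ∈ Q ⊓ G = R`.  So `y` centralizes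
`Q`, and `y ∈ K ≤ G`, so `y ∈ C`.
-/

namespace Pool.Agent.Lib.P0c8ca5.Cy

variable {p : ℕ} {A : Type*} [Group A]

namespace AutMainAux

theorem le_norm_cent {K Q : Subgroup A} (h : K ≤ Subgroup.normalizer (Q : Set A)) :
    K ≤ Subgroup.normalizer ((Subgroup.centralizer (Q : Set A) : Subgroup A) : Set A) := by
  have key : ∀ g ∈ K, ∀ x, x ∈ Subgroup.centralizer (Q : Set A) →
      g * x * g⁻¹ ∈ Subgroup.centralizer (Q : Set A) := by
    intro g hg x hx
    rw [Subgroup.mem_centralizer_iff] at hx ⊢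
    intro q hq
    have h1 : g⁻¹ * q * g ∈ Q := by
      have h2 := (Subgroup.mem_normalizer_iff.1 (h (K.inv_mem hg)) q).1 hq
      rwa [inv_inv] at h2
    have h2 : g⁻¹ * q * g * x = x * (g⁻¹ * q * g) := hx _ h1
    calc q * (g * x * g⁻¹) = g * (g⁻¹ * q * g * x) * g⁻¹ := by group
      _ = g * (x * (g⁻¹ * q * g)) * g⁻¹ := by rw [h2]
      _ = g * x * g⁻¹ * q := by group
  intro g hg
  rw [Subgroup.mem_normalizer_iff]
  intro x
  constructor
  · exact key g hg x
  · intro hx
    have h1 := key g⁻¹ (K.inv_mem hg) _ hx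
    have e : g⁻¹ * (g * x * g⁻¹) * g⁻¹⁻¹ = x := by group
    rwa [e] at h1

theorem fix_ne [Fact p.Prime] [Finite A] {Q R : Subgroup A} (hQ : IsPGroup p Q)
    (hR : IsPGroup p R) (hQR : Q ≤ Subgroup.normalizer (R : Set A)) (hne : R ≠ ⊥) :
    R ⊓ Subgroup.centralizer (Q : Set A) ≠ ⊥ := by
  let act : MulAction Q R :=
    { smul := fun q r => ⟨(q : A) * r * (q : A)⁻¹,
        (Subgroup.mem_normalizer_iff.1 (hQR q.2) r).1 r.2⟩
      one_smul := fun r => by
        apply Subtype.ext
        change ((1 : Q) : A) * (r : A) * ((1 : Q) : A)⁻¹ = r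
        simp
      mul_smul := fun q q' r => by
        apply Subtype.ext
        change ((q * q' : Q) : A) * (r : A) * ((q * q' : Q) : A)⁻¹ =
          (q : A) * ((q' : A) * (r : A) * (q' : A)⁻¹) * (q : A)⁻¹
        rw [Subgroup.coe_mul]
        group }
  have hp : p ∣ Nat.card R := by
    have : Nontrivial R := (Subgroup.nontrivial_iff_ne_bot R).2 hne
    obtain ⟨n, hn0, hn⟩ := hR.nontrivial_iff_card.mp this
    exact hn.symm ▸ dvd_pow_self _ (ne_of_gt hn0)
  obtain ⟨b, hb, hb1⟩ := hQ.exists_fixed_point_of_prime_dvd_card_of_fixed_point R hp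
    (a := (1 : R)) (by
      intro q
      apply Subtype.ext
      change (q : A) * ((1 : R) : A) * (q : A)⁻¹ = ((1 : R) : A)
      simp)
  intro hbot
  apply hb1
  have h1 : (b : A) ∈ R ⊓ Subgroup.centralizer (Q : Set A) := by
    refine Subgroup.mem_inf.2 ⟨b.2, ?_⟩
    rw [Subgroup.mem_centralizer_iff]
    intro q hq
    have h2 : (q : A) * (b : A) * (q : A)⁻¹ = b := congrArg Subtype.val (hb ⟨q, hq⟩)
    calc q * (b : A) = q * b * q⁻¹ * q := by group
      _ = b * q := by rw [h2]
  rw [hbot, Subgroup.mem_bot] at h1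
  exact (Subtype.ext h1).symm

/-- the elements of a commutative subgroup killed by `p` -/
def om (p : ℕ) (Z : Subgroup A) (hc : ∀ a ∈ Z, ∀ b ∈ Z, a * b = b * a) : Subgroup A where
  carrier := {z | z ∈ Z ∧ z ^ p = 1}
  one_mem' := ⟨Z.one_mem, one_pow p⟩
  mul_mem' := fun {a b} ha hb => ⟨Z.mul_mem ha.1 hb.1, by
    rw [(show Commute a b from hc a ha.1 b hb.1).mul_pow, ha.2, hb.2, one_mul]⟩
  inv_mem' := fun {a} ha => ⟨Z.inv_mem ha.1, by rw [inv_pow, ha.2, inv_one]⟩

theorem card_om [Fact p.Prime] [Finite A] {Z : Subgroup A}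
    (hc : ∀ a ∈ Z, ∀ b ∈ Z, a * b = b * a) (hZ : IsCyclic Z) (hp : p ∣ Nat.card Z) :
    Nat.card (om p Z hc) = p := by
  let i1 : CommGroup Z := IsCyclic.commGroup
  have h1 := IsCyclic.card_powMonoidHom_ker (G := Z) p
  rw [Nat.gcd_eq_right hp] at h1
  refine Eq.trans (Nat.card_congr ?_) h1
  exact
    { toFun := fun z => ⟨⟨z.1, z.2.1⟩, by
        rw [MonoidHom.mem_ker]
        exact Subtype.ext z.2.2⟩
      invFun := fun z => ⟨z.1.1, z.1.2, congrArg Subtype.val (MonoidHom.mem_ker.1 z.2)⟩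
      left_inv := fun z => rfl
      right_inv := fun z => rfl }

theorem norm_om {K Z : Subgroup A} (hc : ∀ a ∈ Z, ∀ b ∈ Z, a * b = b * a)
    (h : K ≤ Subgroup.normalizer (Z : Set A)) :
    K ≤ Subgroup.normalizer ((om p Z hc : Subgroup A) : Set A) := by
  intro g hg
  rw [Subgroup.mem_normalizer_iff]
  intro x
  have h1 := Subgroup.mem_normalizer_iff.1 (h hg) x
  have h2 : (g * x * g⁻¹) ^ p = 1 ↔ x ^ p = 1 := by
    rw [conj_pow]
    constructor
    · intro h3
      calc x ^ p = g⁻¹ * (g * x ^ p * g⁻¹) * g := by group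
        _ = 1 := by rw [h3]; group
    · intro h3
      rw [h3]
      group
  exact and_congr h1 h2.symm

end AutMainAux

open CopB46 AutMainAux in
theorem aut_main [Fact p.Prime] [Finite A] {G X Q K : Subgroup A} (hGX : G ≤ X)
    (hn : X ≤ Subgroup.normalizer (G : Set A)) (hQ : Q ∈ Supp p G X) (hKG : K ≤ G)
    (hKQ : K ≤ Subgroup.normalizer (Q : Set A))
    (hCK : G ⊓ Subgroup.centralizer (Q : Set A) ≤ K)
    (hcyc : ∀ S ≤ Q, G ⊔ S = X →
      IsCyclic ↥((Q ⊓ G) ⊓ Subgroup.centralizer (S : Set A))) :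
    ∃ K₀ : Subgroup A, HypExt p (G ⊓ Subgroup.centralizer (Q : Set A)) K₀ K := by
  obtain ⟨hQX, hQp, hsup⟩ := hQ
  have hKN : K ≤ Subgroup.normalizer (G : Set A) := hKG.trans Subgroup.le_normalizer
  have hKC : K ≤ Subgroup.normalizer
      ((G ⊓ Subgroup.centralizer (Q : Set A) : Subgroup A) : Set A) :=
    normalizer_inf hKN (le_norm_cent hKQ)
  by_cases hR : Q ⊓ G = ⊥
  · have hle : K ≤ G ⊓ Subgroup.centralizer (Q : Set A) := by
      intro x hx
      refine Subgroup.mem_inf.2 ⟨hKG hx, ?_⟩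
      rw [Subgroup.mem_centralizer_iff]
      intro q hq
      have hq : q ∈ Q := hq
      have h1 : q * x * q⁻¹ * x⁻¹ ∈ Q ⊓ G := by
        refine Subgroup.mem_inf.2 ⟨?_, ?_⟩
        · have h2 := (Subgroup.mem_normalizer_iff.1 (hKQ hx) q⁻¹).1 (Q.inv_mem hq)
          have h3 := Q.mul_mem hq h2
          have e : q * (x * q⁻¹ * x⁻¹) = q * x * q⁻¹ * x⁻¹ := by group
          rwa [e] at h3
        · have h2 := (Subgroup.mem_normalizer_iff.1 (hn (hQX hq)) x).1 (hKG hx)
          exact G.mul_mem h2 (G.inv_mem (hKG hx))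
      rw [hR, Subgroup.mem_bot] at h1
      calc q * x = q * x * q⁻¹ * x⁻¹ * (x * q) := by group
        _ = x * q := by rw [h1, one_mul]
    refine ⟨K, hCK, hKC, ⟨le_rfl, Subgroup.le_normalizer, ⟨1, K.one_mem, ?_⟩, ?_⟩, ?_⟩
    · rw [Subgroup.zpowers_one_eq_bot, sup_bot_eq]
    · rw [Subgroup.relIndex_self]
      intro h
      exact (Fact.out : p.Prime).one_lt.ne' (Nat.dvd_one.1 h)
    · intro x hx
      refine ⟨0, ?_⟩
      rw [pow_zero, pow_one]
      exact hle hx
  · have hRp : IsPGroup p ↥(Q ⊓ G) := hQp.to_le inf_le_left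
    have hQR : Q ≤ Subgroup.normalizer ((Q ⊓ G : Subgroup A) : Set A) :=
      normalizer_inf Subgroup.le_normalizer (hQX.trans hn)
    have hKR : K ≤ Subgroup.normalizer ((Q ⊓ G : Subgroup A) : Set A) := normalizer_inf hKQ hKN
    set Z : Subgroup A := (Q ⊓ G) ⊓ Subgroup.centralizer (Q : Set A) with hZdef
    have hZne : Z ≠ ⊥ := fix_ne hQp hRp hQR hR
    have hZc : IsCyclic Z := hcyc Q le_rfl hsup
    have hZp : IsPGroup p Z := hRp.to_le inf_le_left
    have hcomm : ∀ a ∈ Z, ∀ b ∈ Z, a * b = b * a := by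
      intro a ha b hb
      have h1 := (Subgroup.mem_centralizer_iff.1 (Subgroup.mem_inf.1 ha).2) b
        (Subgroup.mem_inf.1 (Subgroup.mem_inf.1 hb).1).1
      exact h1.symm
    have hpZ : p ∣ Nat.card Z := by
      have : Nontrivial Z := (Subgroup.nontrivial_iff_ne_bot Z).2 hZne
      obtain ⟨n, hn0, hn'⟩ := hZp.nontrivial_iff_card.mp this
      exact hn'.symm ▸ dvd_pow_self _ (ne_of_gt hn0)
    have hΩc := card_om (p := p) hcomm hZc hpZ
    have hKZ : K ≤ Subgroup.normalizer (Z : Set A) := normalizer_inf hKR (le_norm_cent hKQ)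
    have hKΩ := norm_om (p := p) hcomm hKZ
    set Ω : Subgroup A := om p Z hcomm with hΩdef
    have hΩZ : Ω ≤ Z := fun z hz => hz.1
    have hΩne : Ω ≠ ⊥ := by
      intro h
      rw [h, Subgroup.card_bot] at hΩc
      exact (Fact.out : p.Prime).one_lt.ne hΩc
    have hΩQ : Ω ≤ Q := hΩZ.trans (inf_le_left.trans inf_le_left)
    have hext := cycExt_of_card hΩc hKΩ
    refine ⟨K ⊓ Subgroup.centralizer (Ω : Set A), ?_, hKC, hext, ?_⟩
    · refine le_inf hCK ?_
      refine inf_le_right.trans ?_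
      exact Subgroup.centralizer_le hΩQ
    · intro x hx
      obtain ⟨r, hr⟩ := uexp_eq p A
      refine ⟨r, ?_⟩
      rw [← hr]
      change pr p x ∈ _
      set y : A := pr p x with hy
      have hyp : Preg p y := preg_pr x
      have hyK0 : y ∈ K ⊓ Subgroup.centralizer (Ω : Set A) := pr_mem hx
      have hyK : y ∈ K := (Subgroup.mem_inf.1 hyK0).1
      have hyΩ := Subgroup.mem_centralizer_iff.1 (Subgroup.mem_inf.1 hyK0).2
      have hyG : y ∈ G := hKG hyK
      have hS := supp_centralizer hGX hn ⟨hQX, hQp, hsup⟩ hyG hyp (hKQ hyK)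
      set S : Subgroup A := Q ⊓ Subgroup.centralizer ({y} : Set A) with hSdef
      obtain ⟨hSX, hSp, hSsup⟩ := hS
      have hSQ : S ≤ Q := inf_le_left
      have hWc := hcyc S hSQ hSsup
      have hyS : y ∈ Subgroup.centralizer (S : Set A) := by
        rw [Subgroup.mem_centralizer_iff]
        intro q hq
        have h1 := mem_cent.1 (Subgroup.mem_inf.1 (show q ∈ S from hq)).2
        exact h1.symm
      have hyNS : y ∈ Subgroup.normalizer (S : Set A) := by
        rw [Subgroup.mem_normalizer_iff]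
        intro q
        have h1 : ∀ q ∈ S, y * q * y⁻¹ = q := by
          intro q hq
          have h2 := (Subgroup.mem_centralizer_iff.1 hyS) q hq
          rw [← h2]
          group
        constructor
        · intro hq
          rw [h1 q hq]
          exact hq
        · intro hq
          have h2 := h1 _ hq
          have h3 : y * q * y⁻¹ = q := by
            have h4 := congrArg (fun u => y⁻¹ * u * y) h2
            have e1 : y⁻¹ * (y * (y * q * y⁻¹) * y⁻¹) * y = y * q * y⁻¹ := by group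
            have e2 : y⁻¹ * (y * q * y⁻¹) * y = q := by group
            rwa [e1, e2] at h4
          rwa [h3] at hq
      have hyW : y ∈ Subgroup.normalizer
          ((Q ⊓ G ⊓ Subgroup.centralizer (S : Set A) : Subgroup A) : Set A) := by
        have h1 : Subgroup.zpowers y ≤ Subgroup.normalizer ((Q ⊓ G : Subgroup A) : Set A) := by
          rw [Subgroup.zpowers_le]
          exact hKR hyK
        have h2 : Subgroup.zpowers y ≤ Subgroup.normalizer (S : Set A) := by
          rw [Subgroup.zpowers_le]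
          exact hyNS
        exact normalizer_inf h1 (le_norm_cent h2) (Subgroup.mem_zpowers y)
      have hΩW : Ω ≤ Q ⊓ G ⊓ Subgroup.centralizer (S : Set A) := by
        refine hΩZ.trans (inf_le_inf le_rfl ?_)
        exact Subgroup.centralizer_le hSQ
      have hfix : Ω ≤ Subgroup.centralizer ({y} : Set A) := by
        intro z hz
        exact mem_cent.2 (hyΩ z hz).symm
      have hW := cyc_fix (hRp.to_le inf_le_left) hWc hyp hyW hΩW hΩne hfix
      have hRy := axb hRp hSp (hSQ.trans hQR) hyp (hKR hyK) inf_le_right hW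
      refine Subgroup.mem_inf.2 ⟨hyG, ?_⟩
      rw [Subgroup.mem_centralizer_iff]
      intro q hq
      have hq : q ∈ Q := hq
      have h1 : q ∈ G ⊔ S := by
        rw [hSsup]
        exact hQX hq
      obtain ⟨g, hg, s', hs', e⟩ := (mem_sup_norm (hSX.trans hn)).1 h1
      have hs1 : s' ∈ S := hs'
      have hgR : g ∈ Q ⊓ G := by
        refine Subgroup.mem_inf.2 ⟨?_, hg⟩
        have h2 : g = q * s'⁻¹ := by
          rw [← e]
          group
        rw [h2]
        exact Q.mul_mem hq (Q.inv_mem (hSQ hs1))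
      have h3 := mem_cent.1 (hRy hgR)
      have h4 := mem_cent.1 (Subgroup.mem_inf.1 hs1).2
      have h5 : y * q = q * y := by
        rw [← e]
        calc y * (g * s') = (y * g) * s' := by group
          _ = g * (y * s') := by rw [h3]; group
          _ = g * s' * y := by rw [h4]; group
      exact h5.symm

end Pool.Agent.Lib.P0c8ca5.Cy
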