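import Mathlib
import Pool.Agent.Lib.P0c8ca5C.Defs
import Pool.Agent.Lib.P0c8ca5R.CardDZ

/-!
# Module Eps: an element that separates `δ` from the other irreducible representations

PROOF of `exists_eps`.  Let `ι = IrX N 1` (finite: `instFiniteIrX`), `ρ i = (Quotient.out i).ρ`: these are
irreducible and pairwise not isomorphic (`mk_eq_mk`, `iso_iff`), and every irreducible `σ : Rp k N m` is
isomorphic to `ρ i` for `i = ⟦mkIrr σ hσ h1⟧` (`act σ 1 = 1`: write out the sum in `act_apply`, or
`Rk.ac_one`, `Rk.ac_ofRep`).  Let `j` be the class of `δ`; `ChBAux.density` with `T = 1` gives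
`a : MonoidAlgebra k N` that acts as zero on `ρ i`, `i ≠ j`, and as `1` on `ρ j`.  Take
`ε = Rk.CardDZAux.up N a` (`up_suppIn`, `Rk.CardDZAux.act_up`); for an irreducible `σ` transport the
action of `ε` along the isomorphism with `ρ i` (`act_iso`, or directly: if `P` is an isomorphism from
`σ` to `ρ` then `P (act σ ε v) = act ρ ε (P v)`).
PROOF of `IsEps.one'`, `IsEps.zero'`.  Transport to `Fin (finrank k V) → k` by
`trRep σ (Module.finBasis k V).equivFun` (P0c8ca5.Rep, see `exists_under` in P0c8ca5.CliffB).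
PROOF of `act_sub`.  As `act_over` (P0c8ca5.CliffC): `act_apply`, `Fintype.sum_of_injective`.
-/

namespace Pool.Agent.Lib.P0c8ca5.Cy

open MonoidAlgebra

variable {p : ℕ} {k : Type*} [Field k] {A : Type*} [Group A]

namespace EpsAux

/-- an isomorphism commutes with the action of the group algebra -/
theorem act_conj [Finite A] {N : Subgroup A} {V V' : Type*} [AddCommGroup V] [Module k V]
    [AddCommGroup V'] [Module k V'] {σ : Representation k N V} {ρ : Representation k N V'}
    (P : V ≃ₗ[k] V') (hP : ∀ (x : N) (v : V), P (σ x v) = ρ x (P v)) (e : MonoidAlgebra k A)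
    (v : V) : P (act σ e v) = act ρ e (P v) := by
  have : Fintype N := Fintype.ofFinite N
  rw [act_apply, act_apply, map_sum]
  refine Finset.sum_congr rfl (fun x _ => ?_)
  rw [map_smul, hP]

theorem act_zero_iso [Finite A] {N : Subgroup A} {V V' : Type*} [AddCommGroup V] [Module k V]
    [AddCommGroup V'] [Module k V'] {σ : Representation k N V} {ρ : Representation k N V'}
    (h : Iso σ ρ) {e : MonoidAlgebra k A} (h0 : act ρ e = 0) : act σ e = 0 := by
  obtain ⟨P, hP⟩ := h
  apply LinearMap.ext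
  intro v
  apply P.injective
  rw [act_conj P hP, h0, LinearMap.zero_apply, LinearMap.zero_apply, map_zero]

theorem act_one [Finite A] {N : Subgroup A} {V : Type*} [AddCommGroup V] [Module k V]
    (σ : Representation k N V) : act σ (1 : MonoidAlgebra k A) = 1 := by
  classical
  have : Fintype N := Fintype.ofFinite N
  apply LinearMap.ext
  intro v
  rw [act_apply, Finset.sum_eq_single 1]
  · rw [coeff_one', if_pos (OneMemClass.coe_one N), one_smul, map_one]
  · intro x _ hx
    rw [coeff_one', if_neg (fun h => hx (OneMemClass.coe_eq_one.1 h)), zero_smul]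
  · intro h
    exact absurd (Finset.mem_univ _) h

/-- transport to a coordinate space -/
theorem exists_coord {N : Subgroup A} {V : Type*} [AddCommGroup V] [Module k V]
    [Module.Finite k V] {σ : Representation k N V} (hσ : Irr' σ) :
    ∃ (m : ℕ) (τ : Rp k N m), Irr' τ ∧ Iso σ τ := by
  let E : V ≃ₗ[k] (Fin (Module.finrank k V) → k) := (Module.finBasis k V).equivFun
  exact ⟨Module.finrank k V, trRep σ E, hσ.trRep E, E, fun x v => (trRep_apply σ E x v).symm⟩

end EpsAux

open EpsAux

theorem exists_eps [IsAlgClosed k] [Finite A] {N : Subgroup A} {n : ℕ} {δ : Rp k N n}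
    (hδ : Irr' δ) : ∃ ε : MonoidAlgebra k A, IsEps N δ ε := by
  classical
  have : Fintype (IrX N (1 : MonoidAlgebra k A)) := Fintype.ofFinite _
  let c : IrX N (1 : MonoidAlgebra k A) → IrrInv N ⊥ (1 : MonoidAlgebra k A) := fun i => i.out
  have hc : ∀ i, (⟦c i⟧ : IrX N (1 : MonoidAlgebra k A)) = i := fun i => Quotient.out_eq _
  have hrep : ∀ {m : ℕ} (σ : Rp k N m) (hσ : Irr' σ),
      Iso σ (c (⟦mkIrr σ hσ (act_one σ)⟧ : IrX N (1 : MonoidAlgebra k A))).ρ := by
    intro m σ hσ
    have h1 := hc (⟦mkIrr σ hσ (act_one σ)⟧ : IrX N (1 : MonoidAlgebra k A))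
    exact (mk_eq_mk.1 h1).symm
  let j : IrX N (1 : MonoidAlgebra k A) := ⟦mkIrr δ hδ (act_one δ)⟧
  have hj : Iso δ (c j).ρ := hrep δ hδ
  obtain ⟨a, ha0, ha1⟩ := ChBAux.density (fun i => (c i).n) (fun i => (c i).ρ)
    (fun i => (c i).irr)
    (fun i i' hii => by
      rw [← not_nonempty_iff]
      intro h
      apply hii
      rw [← hc i, ← hc i']
      exact mk_eq_mk.2 (iso_iff.2 h)) j 1
  refine ⟨Rk.CardDZAux.up N a, Rk.CardDZAux.up_suppIn N a, ?_, ?_⟩
  · intro m σ hσ hi
    have h1 : act (c j).ρ (Rk.CardDZAux.up N a) = 1 := by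
      rw [Rk.CardDZAux.act_up]; exact ha1
    exact act_iso (hi.trans hj).symm h1
  · intro m σ hσ hi
    have h2 : (⟦mkIrr σ hσ (act_one σ)⟧ : IrX N (1 : MonoidAlgebra k A)) ≠ j := by
      intro h
      apply hi
      exact mk_eq_mk.1 h
    have h1 : act (c (⟦mkIrr σ hσ (act_one σ)⟧ : IrX N (1 : MonoidAlgebra k A))).ρ
        (Rk.CardDZAux.up N a) = 0 := by
      rw [Rk.CardDZAux.act_up]; exact ha0 _ h2
    exact act_zero_iso (hrep σ hσ) h1

theorem IsEps.one' [Finite A] {N : Subgroup A} {n : ℕ} {δ : Rp k N n} {ε : MonoidAlgebra k A}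
    (h : IsEps N δ ε) {V : Type*} [AddCommGroup V] [Module k V] [Module.Finite k V]
    {σ : Representation k N V} (hσ : Irr' σ) (hi : Iso σ δ) : act σ ε = 1 := by
  obtain ⟨m, τ, hτ, h1⟩ := exists_coord hσ
  exact act_iso h1.symm (h.one τ hτ (h1.symm.trans hi))

theorem IsEps.zero' [Finite A] {N : Subgroup A} {n : ℕ} {δ : Rp k N n} {ε : MonoidAlgebra k A}
    (h : IsEps N δ ε) {V : Type*} [AddCommGroup V] [Module k V] [Module.Finite k V]
    {σ : Representation k N V} (hσ : Irr' σ) (hi : ¬ Iso σ δ) : act σ ε = 0 := by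
  obtain ⟨m, τ, hτ, h1⟩ := exists_coord hσ
  exact act_zero_iso h1 (h.zero τ hτ (fun h2 => hi (h1.trans h2)))

theorem act_sub [Finite A] {N H : Subgroup A} (hNH : N ≤ H) {V W : Type*} [AddCommGroup V]
    [Module k V] [AddCommGroup W] [Module k W] {γ : Representation k H V}
    {τ : Representation k N W} (j : W →ₗ[k] V)
    (hj : ∀ (g : N) (w : W), j (τ g w) = γ (Subgroup.inclusion hNH g) (j w))
    {e : MonoidAlgebra k A} (he : SuppIn N e) (w : W) : j (act τ e w) = act γ e (j w) := by
  classical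
  have : Fintype N := Fintype.ofFinite N
  have : Fintype H := Fintype.ofFinite H
  rw [act_apply, act_apply, map_sum]
  apply Fintype.sum_of_injective (fun g : N => Subgroup.inclusion hNH g)
    (Subgroup.inclusion_injective hNH)
  · intro x hx
    have : e.coeff (x : A) = 0 := by
      by_contra h
      exact hx ⟨⟨x, he x h⟩, rfl⟩
    rw [this, zero_smul]
  · intro g
    rw [map_smul, hj]
    rfl

end Pool.Agent.Lib.P0c8ca5.Cy
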