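import Mathlib
import Pool.Agent.Lib.P0c8ca5C.Eps

/-!
# Module Key: the element `ε` on an irreducible representation of `H`

PROOF.  Let `S` be an irreducible `N`-submodule of `V` (`exists_irr_sub` for
`γ.comp (Subgroup.inclusion hNH)`), `τ` its representation of `N`.  For `h ∈ H` put
`τ_h = tw (hn hh) τ` and `j_h : S → V`, `s ↦ γ h s`; then `j_h (τ_h g s) = γ g (j_h s)` for `g ∈ N`, so by
`act_sub` `act γ ε (γ h s) = γ h (act τ_h ε s)`, which is `γ h s` if `τ_h` is isomorphic to `δ`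
(`IsEps.one'`, `Irr'.tw`) and `0` otherwise (`IsEps.zero'`).  The span of all `γ h s` is `H`-stable and
not zero, hence is `V` (`Irr'.sub`), so it is enough to prove the three claims for `v = γ h s`
(`Submodule.span_induction`; all claims are linear in `v`).
(1) clear.  (2) `Iso (tw t δ) δ`: `γ t (γ h s) = γ (t * h) s` and `τ_(t h) = tw t τ_h` (`tw_tw`) is
isomorphic to `δ` if and only if `τ_h` is: if `τ_h ≅ δ` then `tw t τ_h ≅ tw t δ ≅ δ` (`Iso.tw`); if
`tw t τ_h ≅ δ ≅ tw t δ` twist with `t⁻¹` (`tw_tw`, `tw_one`).  (3) if `τ_h` is not isomorphic to `δ` then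
`act γ ε v = 0`; if `τ_h ≅ δ` then `act γ ε v = v` and `τ_(t h) ≅ tw t δ` is not isomorphic to `δ`.
-/

namespace Pool.Agent.Lib.P0c8ca5.Cy

open MonoidAlgebra

variable {p : ℕ} {k : Type*} [Field k] {A : Type*} [Group A]

namespace KeyAux

theorem tw_of_eq_one {N : Subgroup A} {V : Type*} [AddCommGroup V] [Module k V] {h : A}
    (hN : h ∈ Subgroup.normalizer (N : Set A)) (e : h = 1) (ρ : Representation k N V) :
    tw hN ρ = ρ := by
  subst e
  exact tw_one hN ρ

/-- untwisting -/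
theorem untwist {N H : Subgroup A} (hn : H ≤ Subgroup.normalizer (N : Set A)) {V W : Type*}
    [AddCommGroup V] [Module k V] [AddCommGroup W] [Module k W] {ρ : Representation k N V}
    {σ : Representation k N W} {t : A} (ht : t ∈ H) (h : Iso (tw (hn ht) ρ) σ)
    (hs : Iso (tw (hn ht) σ) σ) : Iso ρ σ := by
  have ht' : t⁻¹ ∈ H := H.inv_mem ht
  have hm : t⁻¹ * t ∈ Subgroup.normalizer (N : Set A) := hn (H.mul_mem ht' ht)
  have h1 := h.tw (hn ht')
  rw [tw_tw (hn ht') (hn ht) hm, tw_of_eq_one hm (inv_mul_cancel t)] at h1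
  have h2 := hs.tw (hn ht')
  rw [tw_tw (hn ht') (hn ht) hm, tw_of_eq_one hm (inv_mul_cancel t)] at h2
  exact h1.trans h2.symm

theorem hom_eq {N H : Subgroup A} (hNH : N ≤ H)
    (hn : H ≤ Subgroup.normalizer (N : Set A)) {V : Type*} [AddCommGroup V] [Module k V]
    {γ : Representation k H V} (S : Submodule k V)
    (hS : ∀ g, ∀ w ∈ S, (γ.comp (Subgroup.inclusion hNH)) g w ∈ S) {h : A} (hh : h ∈ H)
    (g : N) (s : S) :
    ((γ ⟨h, hh⟩) ∘ₗ S.subtype) (tw (hn hh) (subRep (γ.comp (Subgroup.inclusion hNH)) S hS) g s) =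
      γ (Subgroup.inclusion hNH g) (((γ ⟨h, hh⟩) ∘ₗ S.subtype) s) := by
  change γ ⟨h, hh⟩ (γ (Subgroup.inclusion hNH (cjN (hn hh) g)) (s : V)) =
    γ (Subgroup.inclusion hNH g) (γ ⟨h, hh⟩ (s : V))
  rw [← Module.End.mul_apply, ← Module.End.mul_apply, ← map_mul, ← map_mul]
  congr 2
  apply Subtype.ext
  change h * (h⁻¹ * (g : A) * h) = g * h
  group

theorem val_one [Finite A] {N H : Subgroup A} (hNH : N ≤ H)
    (hn : H ≤ Subgroup.normalizer (N : Set A)) {V : Type*} [AddCommGroup V] [Module k V]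
    [Module.Finite k V] {γ : Representation k H V} {n : ℕ} {δ : Rp k N n}
    {ε : MonoidAlgebra k A} (hε : IsEps N δ ε) (S : Submodule k V)
    (hS : ∀ g, ∀ w ∈ S, (γ.comp (Subgroup.inclusion hNH)) g w ∈ S)
    (hSi : Irr' (subRep (γ.comp (Subgroup.inclusion hNH)) S hS)) {h : A} (hh : h ∈ H)
    (hi : Iso (tw (hn hh) (subRep (γ.comp (Subgroup.inclusion hNH)) S hS)) δ) (s : S) :
    act γ ε (γ ⟨h, hh⟩ (s : V)) = γ ⟨h, hh⟩ (s : V) := by
  have h1 := act_sub hNH ((γ ⟨h, hh⟩) ∘ₗ S.subtype) (hom_eq hNH hn S hS hh) hε.supp s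
  rw [hε.one' (hSi.tw (hn hh)) hi] at h1
  exact h1.symm

theorem val_zero [Finite A] {N H : Subgroup A} (hNH : N ≤ H)
    (hn : H ≤ Subgroup.normalizer (N : Set A)) {V : Type*} [AddCommGroup V] [Module k V]
    [Module.Finite k V] {γ : Representation k H V} {n : ℕ} {δ : Rp k N n}
    {ε : MonoidAlgebra k A} (hε : IsEps N δ ε) (S : Submodule k V)
    (hS : ∀ g, ∀ w ∈ S, (γ.comp (Subgroup.inclusion hNH)) g w ∈ S)
    (hSi : Irr' (subRep (γ.comp (Subgroup.inclusion hNH)) S hS)) {h : A} (hh : h ∈ H)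
    (hi : ¬ Iso (tw (hn hh) (subRep (γ.comp (Subgroup.inclusion hNH)) S hS)) δ) (s : S) :
    act γ ε (γ ⟨h, hh⟩ (s : V)) = 0 := by
  have h1 := act_sub hNH ((γ ⟨h, hh⟩) ∘ₗ S.subtype) (hom_eq hNH hn S hS hh) hε.supp s
  rw [hε.zero' (hSi.tw (hn hh)) hi, LinearMap.zero_apply, map_zero] at h1
  exact h1.symm

/-- the translates of a submodule span -/
theorem ind {H : Subgroup A} {V : Type*} [AddCommGroup V] [Module k V]
    {γ : Representation k H V} (hγ : Irr' γ) (S : Submodule k V) (hS0 : S ≠ ⊥) {P : V → Prop}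
    (h0 : P 0) (ha : ∀ a b, P a → P b → P (a + b)) (hs : ∀ (c : k) (a : V), P a → P (c • a))
    (hg : ∀ (h : A) (hh : h ∈ H), ∀ s ∈ S, P (γ ⟨h, hh⟩ s)) : ∀ v, P v := by
  set W : Submodule k V := Submodule.span k {v | ∃ h : H, ∃ s ∈ S, v = γ h s} with hW
  have hst : ∀ g, ∀ w ∈ W, γ g w ∈ W := by
    intro g w hw
    refine Submodule.span_induction (p := fun w _ => γ g w ∈ W) ?_ ?_ ?_ ?_ hw
    · rintro _ ⟨h, s, hsS, rfl⟩
      apply Submodule.subset_span
      refine ⟨g * h, s, hsS, ?_⟩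
      rw [map_mul, Module.End.mul_apply]
    · rw [map_zero]
      exact W.zero_mem
    · intro x y _ _ hx hy
      rw [map_add]
      exact W.add_mem hx hy
    · intro c x _ hx
      rw [map_smul]
      exact W.smul_mem c hx
  have htop : W = ⊤ := by
    rcases hγ.sub W hst with h1 | h1
    · exfalso
      apply hS0
      rw [eq_bot_iff]
      intro s hsS
      have h2 : s ∈ W := by
        apply Submodule.subset_span
        refine ⟨1, s, hsS, ?_⟩
        rw [map_one]
        rfl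
      rwa [h1] at h2
    · exact h1
  intro v
  have hv : v ∈ W := by rw [htop]; exact Submodule.mem_top
  refine Submodule.span_induction (p := fun w _ => P w) ?_ h0 (fun x y _ _ => ha x y)
    (fun c x _ => hs c x) hv
  rintro _ ⟨h, s, hsS, rfl⟩
  exact hg h h.2 s hsS

end KeyAux

open KeyAux

theorem eps_key [Finite A] {N H : Subgroup A} (hNH : N ≤ H)
    (hn : H ≤ Subgroup.normalizer (N : Set A)) {V : Type*} [AddCommGroup V] [Module k V]
    [Module.Finite k V] {γ : Representation k H V} (hγ : Irr' γ) {n : ℕ} {δ : Rp k N n}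
    (hδ : Irr' δ) {ε : MonoidAlgebra k A} (hε : IsEps N δ ε) :
    (∀ v, act γ ε (act γ ε v) = act γ ε v) ∧
    (∀ (t : A) (ht : t ∈ H), Iso (tw (hn ht) δ) δ →
      ∀ v, act γ ε (γ ⟨t, ht⟩ v) = γ ⟨t, ht⟩ (act γ ε v)) ∧
    (∀ (t : A) (ht : t ∈ H), ¬ Iso (tw (hn ht) δ) δ →
      ∀ v, act γ ε (γ ⟨t, ht⟩ (act γ ε v)) = 0) := by
  have := hγ.nontriv
  have _ := hδ
  obtain ⟨S, hS, hSi⟩ := exists_irr_sub (γ.comp (Subgroup.inclusion hNH))
  have hS0 : S ≠ ⊥ := by
    have := hSi.nontriv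
    rwa [Submodule.nontrivial_iff_ne_bot] at this
  have hmul : ∀ (t : A) (ht : t ∈ H) (h : A) (hh : h ∈ H) (v : V),
      γ ⟨t, ht⟩ (γ ⟨h, hh⟩ v) = γ ⟨t * h, H.mul_mem ht hh⟩ v := by
    intro t ht h hh v
    rw [← Module.End.mul_apply, ← map_mul]
    rfl
  have htw : ∀ (t : A) (ht : t ∈ H) (h : A) (hh : h ∈ H),
      tw (hn (H.mul_mem ht hh)) (subRep (γ.comp (Subgroup.inclusion hNH)) S hS) =
      tw (hn ht) (tw (hn hh) (subRep (γ.comp (Subgroup.inclusion hNH)) S hS)) := fun t ht h hh =>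
    (tw_tw (hn ht) (hn hh) (hn (H.mul_mem ht hh)) _).symm
  refine ⟨?_, ?_, ?_⟩
  · refine ind hγ S hS0 ?_ ?_ ?_ ?_
    · simp only [map_zero]
    · intro a b h1 h2
      simp only [map_add, h1, h2]
    · intro c a h1
      simp only [map_smul, h1]
    · intro h hh s hs
      by_cases hi : Iso (tw (hn hh) (subRep (γ.comp (Subgroup.inclusion hNH)) S hS)) δ
      · have h1 := val_one hNH hn hε S hS hSi hh hi ⟨s, hs⟩
        simp only [h1]
      · have h1 := val_zero hNH hn hε S hS hSi hh hi ⟨s, hs⟩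
        simp only [h1, map_zero]
  · intro t ht hti
    refine ind hγ S hS0 ?_ ?_ ?_ ?_
    · simp only [map_zero]
    · intro a b h1 h2
      simp only [map_add, h1, h2]
    · intro c a h1
      simp only [map_smul, h1]
    · intro h hh s hs
      by_cases hi : Iso (tw (hn hh) (subRep (γ.comp (Subgroup.inclusion hNH)) S hS)) δ
      · have h1 := val_one hNH hn hε S hS hSi hh hi ⟨s, hs⟩
        have hi2 : Iso (tw (hn (H.mul_mem ht hh))
            (subRep (γ.comp (Subgroup.inclusion hNH)) S hS)) δ := by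
          rw [htw t ht h hh]
          exact (hi.tw (hn ht)).trans hti
        have h2 := val_one hNH hn hε S hS hSi (H.mul_mem ht hh) hi2 ⟨s, hs⟩
        change act γ ε (γ ⟨h, hh⟩ s) = γ ⟨h, hh⟩ s at h1
        change act γ ε (γ ⟨t * h, H.mul_mem ht hh⟩ s) = γ ⟨t * h, H.mul_mem ht hh⟩ s at h2
        rw [h1, hmul, h2]
      · have h1 := val_zero hNH hn hε S hS hSi hh hi ⟨s, hs⟩
        have hi2 : ¬ Iso (tw (hn (H.mul_mem ht hh))
            (subRep (γ.comp (Subgroup.inclusion hNH)) S hS)) δ := by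
          rw [htw t ht h hh]
          intro h3
          exact hi (untwist hn ht h3 hti)
        have h2 := val_zero hNH hn hε S hS hSi (H.mul_mem ht hh) hi2 ⟨s, hs⟩
        change act γ ε (γ ⟨h, hh⟩ s) = 0 at h1
        change act γ ε (γ ⟨t * h, H.mul_mem ht hh⟩ s) = 0 at h2
        rw [h1, hmul, h2, map_zero]
  · intro t ht hti
    refine ind hγ S hS0 ?_ ?_ ?_ ?_
    · simp only [map_zero]
    · intro a b h1 h2
      simp only [map_add, h1, h2, add_zero]
    · intro c a h1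
      simp only [map_smul, h1, smul_zero]
    · intro h hh s hs
      by_cases hi : Iso (tw (hn hh) (subRep (γ.comp (Subgroup.inclusion hNH)) S hS)) δ
      · have h1 := val_one hNH hn hε S hS hSi hh hi ⟨s, hs⟩
        have hi2 : ¬ Iso (tw (hn (H.mul_mem ht hh))
            (subRep (γ.comp (Subgroup.inclusion hNH)) S hS)) δ := by
          rw [htw t ht h hh]
          intro h3
          exact hti ((hi.tw (hn ht)).symm.trans h3)
        have h2 := val_zero hNH hn hε S hS hSi (H.mul_mem ht hh) hi2 ⟨s, hs⟩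
        change act γ ε (γ ⟨h, hh⟩ s) = γ ⟨h, hh⟩ s at h1
        change act γ ε (γ ⟨t * h, H.mul_mem ht hh⟩ s) = 0 at h2
        rw [h1, hmul, h2]
      · have h1 := val_zero hNH hn hε S hS hSi hh hi ⟨s, hs⟩
        change act γ ε (γ ⟨h, hh⟩ s) = 0 at h1
        rw [h1, map_zero, map_zero]

end Pool.Agent.Lib.P0c8ca5.Cy
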