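import Mathlib
import Pool.Agent.Lib.P0c8ca5C.Key

/-!
# Module CorrA: Clifford correspondence, from `H` to `T`

Notation: `V` the space of `γ`, `W = range (act γ ε) = {v | act γ ε v = v}` (first claim of `eps_key`).
By `Cliff.hT` and `eps_key`: for `t ∈ T` `γ t` commutes with `act γ ε`, so `W` is `T`-stable; for
`x ∈ H`, `x ∉ T`, `act γ ε (γ x w) = 0` for `w ∈ W`.

PROOF of `act_ne`: if `π : V → δ` is as in `Over` then `π (act γ ε v) = act δ ε (π v) = π v`
(`act_over`, `h.eps.one δ h.irr (Iso.refl δ)`), and `π ≠ 0`.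
PROOF of `Cliff.irr_range`: let `U ≤ W` be `T`-stable and not zero.  The sum over `x ∈ H` of the
`γ x U` is `H`-stable, so it is `V` (`Irr'.sub`), and `W = act γ ε V` is the sum of the
`act γ ε (γ x U)`, which is `0` for `x ∉ T` and `γ x U ≤ U` for `x ∈ T`.  So `W ≤ U`.  `W ≠ 0` by `act_ne`.
PROOF of `Cliff.exists_sub`: `W` with the restriction of `γ` to `T` (`subRep`), transported to
`Fin l → k` (`trRep`, `Module.finBasis`); `θ` the inclusion composed with the isomorphism; `Over τ δ`: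
`π ∘ θ` is not zero since `π (act γ ε v) = π v`.
PROOF of `SubT.iso`: `θ` and `θ'` are injective with the same range (`LinearEquiv.ofInjective`).
PROOF of `Cliff.act_one`: `eps_key` for `τ` and `N ≤ T`: `act τ ε` is idempotent and commutes with `T`, so
its kernel is `T`-stable, hence `⊥` or `⊤`; `⊤` is impossible by `act_ne` (for `T` in place of `H`), and
if the kernel is `⊥` then `act τ ε (act τ ε v - v) = 0` gives `act τ ε v = v`.
-/

namespace Pool.Agent.Lib.P0c8ca5.Cy

open MonoidAlgebra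

variable {p : ℕ} {k : Type*} [Field k] {A : Type*} [Group A]

theorem act_ne [Finite A] {N H : Subgroup A} (hNH : N ≤ H) {n m : ℕ} {δ : Rp k N n}
    (hδ : Irr' δ) {ε : MonoidAlgebra k A} (hε : IsEps N δ ε) {γ : Rp k H m}
    (ho : Over hNH γ δ) : act γ ε ≠ 0 := by
  intro h0
  obtain ⟨π, hπ0, hπ⟩ := ho
  apply hπ0
  apply LinearMap.ext
  intro v
  have h1 := act_over hNH π hπ hε.supp v
  rw [h0, hε.one δ hδ (Iso.refl δ)] at h1
  change π 0 = π v at h1
  rw [← h1, map_zero]
  rfl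

namespace CorrAAux

theorem idem [Finite A] {N T H : Subgroup A} {n m : ℕ} {δ : Rp k N n}
    {ε : MonoidAlgebra k A} (h : Cliff N T H δ ε) {γ : Rp k H m} (hγ : Irr' γ) (v : Fin m → k) :
    act γ ε (act γ ε v) = act γ ε v :=
  (eps_key (h.hNT.trans h.hTH) h.hn hγ h.irr h.eps).1 v

theorem fix_range [Finite A] {N T H : Subgroup A} {n m : ℕ} {δ : Rp k N n}
    {ε : MonoidAlgebra k A} (h : Cliff N T H δ ε) {γ : Rp k H m} (hγ : Irr' γ) {v : Fin m → k}
    (hv : v ∈ LinearMap.range (act γ ε)) : act γ ε v = v := by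
  obtain ⟨w, rfl⟩ := hv
  exact idem h hγ w

theorem comm_T [Finite A] {N T H : Subgroup A} {n m : ℕ} {δ : Rp k N n}
    {ε : MonoidAlgebra k A} (h : Cliff N T H δ ε) {γ : Rp k H m} (hγ : Irr' γ) (x : H)
    (hx : (x : A) ∈ T) (v : Fin m → k) : act γ ε (γ x v) = γ x (act γ ε v) :=
  (eps_key (h.hNT.trans h.hTH) h.hn hγ h.irr h.eps).2.1 x x.2 ((h.hT x x.2).1 hx) v

theorem zero_T [Finite A] {N T H : Subgroup A} {n m : ℕ} {δ : Rp k N n}
    {ε : MonoidAlgebra k A} (h : Cliff N T H δ ε) {γ : Rp k H m} (hγ : Irr' γ) (x : H)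
    (hx : (x : A) ∉ T) (v : Fin m → k) : act γ ε (γ x (act γ ε v)) = 0 :=
  (eps_key (h.hNT.trans h.hTH) h.hn hγ h.irr h.eps).2.2 x x.2
    (fun hi => hx ((h.hT x x.2).2 hi)) v

end CorrAAux

/-- the range of `ε` on `γ` has no proper nonzero `T`-stable subspaces -/
theorem Cliff.irr_range [Finite A] {N T H : Subgroup A} {n m : ℕ} {δ : Rp k N n}
    {ε : MonoidAlgebra k A} (h : Cliff N T H δ ε) {γ : Rp k H m} (hγ : Irr' γ)
    (U : Submodule k (Fin m → k)) (hU : U ≤ LinearMap.range (act γ ε))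
    (hst : ∀ (t : T), ∀ u ∈ U, γ (Subgroup.inclusion h.hTH t) u ∈ U) :
    U = ⊥ ∨ U = LinearMap.range (act γ ε) := by
  by_cases h0 : U = ⊥
  · exact Or.inl h0
  right
  apply le_antisymm hU
  let X : Submodule k (Fin m → k) := ⨆ x : H, U.map (γ x)
  have hXst : ∀ g, ∀ w ∈ X, γ g w ∈ X := by
    intro g w hw
    have h1 : X ≤ X.comap (γ g) := by
      apply iSup_le
      intro x
      rw [Submodule.map_le_iff_le_comap]
      intro v hv
      change γ g (γ x v) ∈ X
      have h2 : U.map (γ (g * x)) ≤ X := le_iSup (fun x : H => U.map (γ x)) (g * x)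
      apply h2
      refine ⟨v, hv, ?_⟩
      rw [map_mul]; rfl
    exact h1 hw
  have hUX : U ≤ X := by
    have h2 : U.map (γ (1 : H)) ≤ X := le_iSup (fun x : H => U.map (γ x)) 1
    intro u hu
    apply h2
    refine ⟨u, hu, ?_⟩
    rw [map_one]; rfl
  have hXtop : X = ⊤ := by
    rcases hγ.sub X hXst with h1 | h1
    · exfalso
      apply h0
      rw [eq_bot_iff, ← h1]
      exact hUX
    · exact h1
  have hcomap : X ≤ U.comap (act γ ε) := by
    apply iSup_le
    intro x
    rw [Submodule.map_le_iff_le_comap]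
    intro u hu
    change act γ ε (γ x u) ∈ U
    have hfix : act γ ε u = u := CorrAAux.fix_range h hγ (hU hu)
    by_cases hx : (x : A) ∈ T
    · rw [CorrAAux.comm_T h hγ x hx, hfix]
      exact hst ⟨x, hx⟩ u hu
    · have h1 := CorrAAux.zero_T h hγ x hx u
      rw [hfix] at h1
      rw [h1]
      exact U.zero_mem
  rintro _ ⟨v, rfl⟩
  have hv : v ∈ X := by rw [hXtop]; exact Submodule.mem_top
  exact hcomap hv

theorem Cliff.exists_sub [Finite A] {N T H : Subgroup A} {n m : ℕ} {δ : Rp k N n}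
    {ε : MonoidAlgebra k A} (h : Cliff N T H δ ε) {γ : Rp k H m} (hγ : Irr' γ)
    (ho : Over (h.hNT.trans h.hTH) γ δ) :
    ∃ (l : ℕ) (τ : Rp k T l) (θ : (Fin l → k) →ₗ[k] (Fin m → k)),
      Irr' τ ∧ Over h.hNT τ δ ∧ SubT h.hTH ε γ τ θ := by
  let W : Submodule k (Fin m → k) := LinearMap.range (act γ ε)
  let γT : Representation k T (Fin m → k) := γ.comp (Subgroup.inclusion h.hTH)
  have hW : ∀ g, ∀ w ∈ W, γT g w ∈ W := by
    rintro g _ ⟨v, rfl⟩
    exact ⟨γ (Subgroup.inclusion h.hTH g) v, CorrAAux.comm_T h hγ _ g.2 v⟩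
  have hWne : W ≠ ⊥ := by
    intro h1
    exact act_ne _ h.irr h.eps ho (LinearMap.range_eq_bot.1 h1)
  have hWirr : Irr' (subRep γT W hW) := by
    refine ⟨?_, ?_⟩
    · rw [Submodule.nontrivial_iff_ne_bot]
      exact hWne
    · intro U hUst
      have h1 : U.map W.subtype ≤ LinearMap.range (act γ ε) := Submodule.map_subtype_le W U
      rcases h.irr_range hγ (U.map W.subtype) h1 (by
        rintro t _ ⟨u, hu, rfl⟩
        exact ⟨_, hUst t u hu, rfl⟩) with h2 | h2
      · left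
        exact (Submodule.map_injective_of_injective W.injective_subtype)
          (h2.trans (Submodule.map_bot _).symm)
      · right
        rw [eq_top_iff]
        intro w _
        have h4 : (w : Fin m → k) ∈ U.map W.subtype := by rw [h2]; exact w.2
        obtain ⟨u, hu, huw⟩ := h4
        have : u = w := Subtype.ext huw
        rwa [this] at hu
  let E : W ≃ₗ[k] (Fin (Module.finrank k W) → k) := (Module.finBasis k W).equivFun
  refine ⟨Module.finrank k W, trRep (subRep γT W hW) E, W.subtype ∘ₗ E.symm.toLinearMap,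
    hWirr.trRep E, ?_, ?_⟩
  · obtain ⟨π, hπ0, hπ⟩ := ho
    refine ⟨π ∘ₗ (W.subtype ∘ₗ E.symm.toLinearMap), ?_, ?_⟩
    · intro h1
      apply hπ0
      apply LinearMap.ext
      intro v
      have h2 := act_over (h.hNT.trans h.hTH) π hπ h.eps.supp v
      rw [h.eps.one δ h.irr (Iso.refl δ)] at h2
      change π (act γ ε v) = π v at h2
      have h3 := LinearMap.congr_fun h1 (E ⟨act γ ε v, ⟨v, rfl⟩⟩)
      change π ((E.symm (E ⟨act γ ε v, ⟨v, rfl⟩⟩) : W) : Fin m → k) = 0 at h3
      rw [LinearEquiv.symm_apply_apply] at h3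
      rw [← h2]
      exact h3
    · intro g v
      obtain ⟨w, rfl⟩ := E.surjective v
      rw [trRep_apply]
      change π ((E.symm (E (subRep γT W hW (Subgroup.inclusion h.hNT g) w)) : W) : Fin m → k) =
        δ g (π ((E.symm (E w) : W) : Fin m → k))
      rw [LinearEquiv.symm_apply_apply, LinearEquiv.symm_apply_apply]
      exact hπ g (w : Fin m → k)
  · refine ⟨?_, ?_, ?_⟩
    · exact W.injective_subtype.comp E.symm.injective
    · change LinearMap.range (W.subtype ∘ₗ E.symm.toLinearMap) = W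
      rw [LinearMap.range_comp, LinearEquiv.range, Submodule.map_top, Submodule.range_subtype]
    · intro t v
      obtain ⟨w, rfl⟩ := E.surjective v
      rw [trRep_apply]
      change ((E.symm (E (subRep γT W hW t w)) : W) : Fin m → k) =
        γ (Subgroup.inclusion h.hTH t) ((E.symm (E w) : W) : Fin m → k)
      rw [LinearEquiv.symm_apply_apply, LinearEquiv.symm_apply_apply]
      rfl

theorem SubT.iso {T H : Subgroup A} {hTH : T ≤ H} {ε : MonoidAlgebra k A} {m l l' : ℕ}
    {γ : Rp k H m} {τ : Rp k T l} {τ' : Rp k T l'} {θ : (Fin l → k) →ₗ[k] (Fin m → k)}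
    {θ' : (Fin l' → k) →ₗ[k] (Fin m → k)} (h : SubT hTH ε γ τ θ) (h' : SubT hTH ε γ τ' θ') :
    Iso τ τ' := by
  let P : (Fin l → k) ≃ₗ[k] (Fin l' → k) :=
    (LinearEquiv.ofInjective θ h.inj).trans
      ((LinearEquiv.ofEq _ _ (h.range.trans h'.range.symm)).trans
        (LinearEquiv.ofInjective θ' h'.inj).symm)
  have hP : ∀ w, θ' (P w) = θ w := by
    intro w
    have h1 : (LinearEquiv.ofInjective θ' h'.inj) (P w) =
        (LinearEquiv.ofEq _ _ (h.range.trans h'.range.symm)) (LinearEquiv.ofInjective θ h.inj w) :=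
      LinearEquiv.apply_symm_apply _ _
    exact congrArg Subtype.val h1
  refine ⟨P, ?_⟩
  intro x v
  apply h'.inj
  rw [hP, h.eqv, h'.eqv, hP]

theorem Cliff.act_one [Finite A] {N T H : Subgroup A} {n l : ℕ} {δ : Rp k N n}
    {ε : MonoidAlgebra k A} (h : Cliff N T H δ ε) {τ : Rp k T l} (hτ : Irr' τ)
    (ho : Over h.hNT τ δ) : act τ ε = 1 := by
  obtain ⟨h1, h2, -⟩ := eps_key h.hNT (h.hTH.trans h.hn) hτ h.irr h.eps
  have hcomm : ∀ (t : T) (v : Fin l → k), act τ ε (τ t v) = τ t (act τ ε v) := by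
    intro t v
    exact h2 t t.2 ((h.hT t (h.hTH t.2)).1 t.2) v
  rcases hτ.sub (LinearMap.ker (act τ ε)) (fun g w hw => by
    rw [LinearMap.mem_ker, hcomm, LinearMap.mem_ker.1 hw, map_zero]) with h3 | h3
  · apply LinearMap.ext
    intro v
    apply LinearMap.ker_eq_bot.1 h3
    exact h1 v
  · exact absurd (LinearMap.ker_eq_top.1 h3) (act_ne h.hNT h.irr h.eps ho)

end Pool.Agent.Lib.P0c8ca5.Cy
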