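import Mathlib
import Pool.Agent.Lib.P0c8ca5C.CorrA

/-!
# Module CorrB: Clifford correspondence, from `T` to `H`, and uniqueness

PROOF of `Cliff.exists_sup`.  `exists_over h.hTH hτ` gives an irreducible `γ` and a nonzero `T`-map
`π : V → τ`; it is surjective (`Irr'.surjective`).  Composition with a nonzero `N`-map `π' : τ → δ` is not
zero, so `Over _ γ δ`.  `π (act γ ε v) = act τ ε (π v) = π v` (`act_over` for `T ≤ H`; `ε` is supported in
`N ≤ T`; `Cliff.act_one`).  So `π` maps `W = range (act γ ε)` onto the space of `τ`, and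
`W ⊓ ker π` is `T`-stable and not `W`, so it is zero (`Cliff.irr_range`).  Let `θ` be the inverse of the
bijection `W → τ`, composed with the inclusion of `W`.

PROOF of `Cliff.sup_iso`.  Let `V`, `V'` be the spaces of `γ`, `γ'`; let `D` be the span in `V × V'` of the
`(γ x (θ w), γ' x (θ' w))` with `x ∈ H`, `w` in the space of `τ`; it is `H`-stable.  Claim: for
`(v, v') ∈ D` there is `w` with `act γ ε v = θ w` and `act γ' ε v' = θ' w`.  It is enough to see this for
the generators: for `x ∉ T` both sides are `0` by `eps_key` (third claim; `θ w` is in the range of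
`act γ ε`), for `x ∈ T` the generator is `(θ (τ x w), θ' (τ x w))` and `act γ ε` is the identity on the
range of `θ`.  The projection of `D` to `V` is surjective: its image is `H`-stable and not zero.  It is
injective: `{v' | (0, v') ∈ D}` is `H`-stable, so it is `⊥` or `⊤`; if it is `⊤` then for all `v'` there
is `w` with `0 = θ w`, so `w = 0` and `act γ' ε v' = 0`; but `act γ' ε ≠ 0` as `θ'` is injective and
`τ` is not zero.  In the same way the projection to `V'` is bijective, and `D` is the graph of an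
isomorphism.  (Compare `iso_of_sub` in P0c8ca5P.FrE.)
-/

namespace Pool.Agent.Lib.P0c8ca5.Cy

open MonoidAlgebra

variable {p : ℕ} {k : Type*} [Field k] {A : Type*} [Group A]

theorem Cliff.exists_sup [Finite A] {N T H : Subgroup A} {n l : ℕ} {δ : Rp k N n}
    {ε : MonoidAlgebra k A} (h : Cliff N T H δ ε) {τ : Rp k T l} (hτ : Irr' τ)
    (ho : Over h.hNT τ δ) :
    ∃ (m : ℕ) (γ : Rp k H m) (θ : (Fin l → k) →ₗ[k] (Fin m → k)),
      Irr' γ ∧ Over (h.hNT.trans h.hTH) γ δ ∧ SubT h.hTH ε γ τ θ := by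
  obtain ⟨m, γ, hγ, π, hπ0, hπ⟩ := exists_over h.hTH hτ
  have hsurj : Function.Surjective π := hτ.surjective π hπ0 (fun g v => ⟨_, hπ g v⟩)
  have hact : ∀ v, π (act γ ε v) = π v := by
    intro v
    rw [act_over h.hTH π hπ (h.eps.supp.mono h.hNT) v, h.act_one hτ ho]
    rfl
  let W : Submodule k (Fin m → k) := LinearMap.range (act γ ε)
  have hstab : ∀ (t : T), ∀ w ∈ W, γ (Subgroup.inclusion h.hTH t) w ∈ W := by
    rintro t _ ⟨v, rfl⟩
    exact ⟨γ (Subgroup.inclusion h.hTH t) v, CorrAAux.comm_T h hγ _ t.2 v⟩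
  have hker : W ⊓ LinearMap.ker π = ⊥ := by
    rcases h.irr_range hγ (W ⊓ LinearMap.ker π) inf_le_left (by
      intro t u hu
      refine ⟨hstab t u hu.1, ?_⟩
      rw [SetLike.mem_coe, LinearMap.mem_ker, hπ t u, LinearMap.mem_ker.1 hu.2, map_zero]) with
      h1 | h1
    · exact h1
    · exfalso
      apply hπ0
      apply LinearMap.ext
      intro v
      have h2 : act γ ε v ∈ W ⊓ LinearMap.ker π := by
        rw [h1]
        exact ⟨v, rfl⟩
      rw [← hact v]
      exact LinearMap.mem_ker.1 h2.2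
  have hinj : ∀ w ∈ W, ∀ w' ∈ W, π w = π w' → w = w' := by
    intro w hw w' hw' he
    have h1 : w - w' ∈ W ⊓ LinearMap.ker π := by
      refine ⟨W.sub_mem hw hw', ?_⟩
      rw [SetLike.mem_coe, LinearMap.mem_ker, map_sub, he, sub_self]
    rw [hker, Submodule.mem_bot] at h1
    exact sub_eq_zero.1 h1
  let π₁ : W →ₗ[k] (Fin l → k) := π ∘ₗ W.subtype
  have hbij : Function.Bijective π₁ := by
    constructor
    · intro w w' he
      exact Subtype.ext (hinj w w.2 w' w'.2 he)
    · intro v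
      obtain ⟨u, rfl⟩ := hsurj v
      exact ⟨⟨act γ ε u, ⟨u, rfl⟩⟩, hact u⟩
  let E : W ≃ₗ[k] (Fin l → k) := LinearEquiv.ofBijective π₁ hbij
  let θ : (Fin l → k) →ₗ[k] (Fin m → k) := W.subtype ∘ₗ E.symm.toLinearMap
  have hθ : ∀ v, π (θ v) = v := by
    intro v
    exact E.apply_symm_apply v
  have hθW : ∀ v, θ v ∈ W := fun v => (E.symm v).2
  refine ⟨m, γ, θ, hγ, ?_, ?_⟩
  · obtain ⟨π', hπ'0, hπ'⟩ := ho
    refine ⟨π' ∘ₗ π, ?_, ?_⟩
    · intro h1
      apply hπ'0
      apply LinearMap.ext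
      intro v
      obtain ⟨u, rfl⟩ := hsurj v
      exact LinearMap.congr_fun h1 u
    · intro g v
      change π' (π (γ (Subgroup.inclusion h.hTH (Subgroup.inclusion h.hNT g)) v)) =
        δ g (π' (π v))
      rw [hπ, hπ']
  · refine ⟨?_, ?_, ?_⟩
    · exact W.injective_subtype.comp E.symm.injective
    · change LinearMap.range (W.subtype ∘ₗ E.symm.toLinearMap) = W
      rw [LinearMap.range_comp, LinearEquiv.range, Submodule.map_top, Submodule.range_subtype]
    · intro t v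
      apply hinj _ (hθW _) _ (hstab t _ (hθW _))
      rw [hθ, hπ, hθ]

namespace CorrBAux

variable {V V' W : Type*} [AddCommGroup V] [Module k V] [AddCommGroup V'] [Module k V']
  [AddCommGroup W] [Module k W] {H : Subgroup A}

/-- the graph -/
def D (γ : Representation k H V) (γ' : Representation k H V')
    (θ : W →ₗ[k] V) (θ' : W →ₗ[k] V') : Submodule k (V × V') :=
  Submodule.span k (Set.range fun x : H × W => (γ x.1 (θ x.2), γ' x.1 (θ' x.2)))

theorem mem_D {γ : Representation k H V} {γ' : Representation k H V'}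
    {θ : W →ₗ[k] V} {θ' : W →ₗ[k] V'} (w : W) : (θ w, θ' w) ∈ D γ γ' θ θ' := by
  refine Submodule.subset_span ⟨(1, w), ?_⟩
  simp

theorem stable_D {γ : Representation k H V} {γ' : Representation k H V'}
    {θ : W →ₗ[k] V} {θ' : W →ₗ[k] V'} (g : H) {d : V × V'} (hd : d ∈ D γ γ' θ θ') :
    (γ g d.1, γ' g d.2) ∈ D γ γ' θ θ' := by
  unfold D at hd
  induction hd using Submodule.span_induction with
  | mem x hx =>
    obtain ⟨⟨y, w⟩, rfl⟩ := hx
    refine Submodule.subset_span ⟨(g * y, w), ?_⟩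
    simp only [map_mul, Module.End.mul_apply]
  | zero =>
    rw [Prod.fst_zero, Prod.snd_zero, map_zero, map_zero]
    exact Submodule.zero_mem _
  | add x y _ _ hx hy =>
    have := (D γ γ' θ θ').add_mem hx hy
    simpa using this
  | smul c x _ hx =>
    have := (D γ γ' θ θ').smul_mem c hx
    simpa using this

/-- the graph with the two factors exchanged -/
theorem swap_D {γ : Representation k H V} {γ' : Representation k H V'}
    {θ : W →ₗ[k] V} {θ' : W →ₗ[k] V'} {d : V × V'} (hd : d ∈ D γ γ' θ θ') :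
    (d.2, d.1) ∈ D γ' γ θ' θ := by
  unfold D at hd
  induction hd using Submodule.span_induction with
  | mem x hx =>
    obtain ⟨⟨y, w⟩, rfl⟩ := hx
    exact Submodule.subset_span ⟨(y, w), rfl⟩
  | zero => exact Submodule.zero_mem _
  | add x y _ _ hx hy => exact (D γ' γ θ' θ).add_mem hx hy
  | smul c x _ hx => exact (D γ' γ θ' θ).smul_mem c hx

theorem surj_fst {γ : Representation k H V} {γ' : Representation k H V'}
    {θ : W →ₗ[k] V} {θ' : W →ₗ[k] V'} (hγ : Irr' γ) (hW : Nontrivial W)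
    (hθ : Function.Injective θ) (v : V) : ∃ d ∈ D γ γ' θ θ', d.1 = v := by
  have h1 := hγ.sub ((D γ γ' θ θ').map (LinearMap.fst k V V')) (by
    rintro g v ⟨d, hd, rfl⟩
    exact ⟨_, stable_D g hd, rfl⟩)
  rcases h1 with h1 | h1
  · exfalso
    obtain ⟨w, hw⟩ := exists_ne (0 : W)
    have h2 : θ w ∈ (D γ γ' θ θ').map (LinearMap.fst k V V') := ⟨_, mem_D w, rfl⟩
    rw [h1, Submodule.mem_bot] at h2
    exact hw (hθ (by rw [h2, map_zero]))
  · have h2 : v ∈ (D γ γ' θ θ').map (LinearMap.fst k V V') := by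
      rw [h1]
      exact Submodule.mem_top
    obtain ⟨d, hd, hdv⟩ := h2
    exact ⟨d, hd, hdv⟩

variable [Finite A] {N T : Subgroup A} {n l m m' : ℕ} {δ : Rp k N n} {ε : MonoidAlgebra k A}

theorem act_theta (h : Cliff N T H δ ε) {τ : Rp k T l} {γ : Rp k H m} (hγ : Irr' γ)
    {θ : (Fin l → k) →ₗ[k] (Fin m → k)} (hs : SubT h.hTH ε γ τ θ) (w : Fin l → k) :
    act γ ε (θ w) = θ w := by
  apply CorrAAux.fix_range h hγ
  rw [← hs.range]
  exact LinearMap.mem_range_self θ w

theorem key_D (h : Cliff N T H δ ε) {τ : Rp k T l}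
    {γ : Rp k H m} (hγ : Irr' γ) {γ' : Rp k H m'} (hγ' : Irr' γ')
    {θ : (Fin l → k) →ₗ[k] (Fin m → k)} (hs : SubT h.hTH ε γ τ θ)
    {θ' : (Fin l → k) →ₗ[k] (Fin m' → k)} (hs' : SubT h.hTH ε γ' τ θ')
    {d : (Fin m → k) × (Fin m' → k)} (hd : d ∈ D γ γ' θ θ') :
    ∃ w, act γ ε d.1 = θ w ∧ act γ' ε d.2 = θ' w := by
  classical
  unfold D at hd
  induction hd using Submodule.span_induction with
  | mem x hx =>
    obtain ⟨⟨y, w⟩, rfl⟩ := hx
    by_cases hS : (y : A) ∈ T
    · refine ⟨τ ⟨y, hS⟩ w, ?_, ?_⟩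
      · change act γ ε (γ y (θ w)) = _
        rw [hs.eqv, CorrAAux.comm_T h hγ y hS, act_theta h hγ hs]
        rfl
      · change act γ' ε (γ' y (θ' w)) = _
        rw [hs'.eqv, CorrAAux.comm_T h hγ' y hS, act_theta h hγ' hs']
        rfl
    · refine ⟨0, ?_, ?_⟩
      · change act γ ε (γ y (θ w)) = _
        rw [← act_theta h hγ hs, CorrAAux.zero_T h hγ y hS, map_zero]
      · change act γ' ε (γ' y (θ' w)) = _
        rw [← act_theta h hγ' hs', CorrAAux.zero_T h hγ' y hS, map_zero]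
  | zero => exact ⟨0, by simp, by simp⟩
  | add x y _ _ hx hy =>
    obtain ⟨w, h1, h2⟩ := hx
    obtain ⟨w', h3, h4⟩ := hy
    exact ⟨w + w', by rw [Prod.fst_add, map_add, map_add, h1, h3],
      by rw [Prod.snd_add, map_add, map_add, h2, h4]⟩
  | smul c x _ hx =>
    obtain ⟨w, h1, h2⟩ := hx
    exact ⟨c • w, by rw [Prod.smul_fst, map_smul, map_smul, h1],
      by rw [Prod.smul_snd, map_smul, map_smul, h2]⟩

theorem fst_zero (h : Cliff N T H δ ε) {τ : Rp k T l} (hτ : Irr' τ)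
    {γ : Rp k H m} (hγ : Irr' γ) {γ' : Rp k H m'} (hγ' : Irr' γ')
    {θ : (Fin l → k) →ₗ[k] (Fin m → k)} (hs : SubT h.hTH ε γ τ θ)
    {θ' : (Fin l → k) →ₗ[k] (Fin m' → k)} (hs' : SubT h.hTH ε γ' τ θ')
    {d : (Fin m → k) × (Fin m' → k)} (hd : d ∈ D γ γ' θ θ') (h0 : d.1 = 0) : d.2 = 0 := by
  have h1 := hγ'.sub ((D γ γ' θ θ').comap (LinearMap.inr k (Fin m → k) (Fin m' → k))) (by
    intro g v hv
    rw [Submodule.mem_comap] at hv ⊢
    have h2 := stable_D g hv
    simpa using h2)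
  rcases h1 with h1 | h1
  · have h2 : d.2 ∈ (D γ γ' θ θ').comap (LinearMap.inr k (Fin m → k) (Fin m' → k)) := by
      rw [Submodule.mem_comap]
      have : LinearMap.inr k (Fin m → k) (Fin m' → k) d.2 = d := Prod.ext h0.symm rfl
      rw [this]
      exact hd
    rw [h1] at h2
    exact (Submodule.mem_bot k).1 h2
  · exfalso
    have hW := hτ.nontriv
    obtain ⟨w, hw⟩ := exists_ne (0 : Fin l → k)
    have h2 : θ' w ∈ (D γ γ' θ θ').comap (LinearMap.inr k (Fin m → k) (Fin m' → k)) := by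
      rw [h1]
      exact Submodule.mem_top
    rw [Submodule.mem_comap] at h2
    obtain ⟨w', h3, h4⟩ := key_D h hγ hγ' hs hs' h2
    have h5 : act γ ε (LinearMap.inr k (Fin m → k) (Fin m' → k) (θ' w)).1 = 0 := by
      simp
    rw [h5] at h3
    have h6 : w' = 0 := hs.inj (by rw [← h3, map_zero])
    have h7 : act γ' ε (LinearMap.inr k (Fin m → k) (Fin m' → k) (θ' w)).2 = θ' w :=
      act_theta h hγ' hs' w
    rw [h7, h6, map_zero] at h4
    exact hw (hs'.inj (by rw [h4, map_zero]))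

end CorrBAux

open CorrBAux in
theorem Cliff.sup_iso [Finite A] {N T H : Subgroup A} {n l m m' : ℕ} {δ : Rp k N n}
    {ε : MonoidAlgebra k A} (h : Cliff N T H δ ε) {τ : Rp k T l} (hτ : Irr' τ)
    {γ : Rp k H m} (hγ : Irr' γ) {γ' : Rp k H m'} (hγ' : Irr' γ')
    {θ : (Fin l → k) →ₗ[k] (Fin m → k)} (hs : SubT h.hTH ε γ τ θ)
    {θ' : (Fin l → k) →ₗ[k] (Fin m' → k)} (hs' : SubT h.hTH ε γ' τ θ') : Iso γ γ' := by
  let f : D γ γ' θ θ' →ₗ[k] (Fin m → k) :=
    (LinearMap.fst k (Fin m → k) (Fin m' → k)).comp (D γ γ' θ θ').subtype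
  let f' : D γ γ' θ θ' →ₗ[k] (Fin m' → k) :=
    (LinearMap.snd k (Fin m → k) (Fin m' → k)).comp (D γ γ' θ θ').subtype
  have hf : Function.Bijective f := by
    constructor
    · rw [injective_iff_map_eq_zero]
      rintro ⟨d, hd⟩ h0
      have h1 : d.1 = 0 := h0
      have h2 := fst_zero h hτ hγ hγ' hs hs' hd h1
      exact Subtype.ext (Prod.ext h1 h2)
    · intro v
      obtain ⟨d, hd, hdv⟩ := surj_fst (γ' := γ') (θ' := θ') hγ hτ.nontriv hs.inj v
      exact ⟨⟨d, hd⟩, hdv⟩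
  have hf' : Function.Bijective f' := by
    constructor
    · rw [injective_iff_map_eq_zero]
      rintro ⟨d, hd⟩ h0
      have h1 : d.2 = 0 := h0
      have h2 := fst_zero h hτ hγ' hγ hs' hs (swap_D hd) h1
      exact Subtype.ext (Prod.ext h2 h1)
    · intro v
      obtain ⟨d, hd, hdv⟩ := surj_fst (γ' := γ) (θ' := θ) hγ' hτ.nontriv hs'.inj v
      exact ⟨⟨_, swap_D hd⟩, hdv⟩
  let P : (Fin m → k) ≃ₗ[k] (Fin m' → k) :=
    (LinearEquiv.ofBijective f hf).symm.trans (LinearEquiv.ofBijective f' hf')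
  have hP : ∀ d : D γ γ' θ θ', P (f d) = f' d := by
    intro d
    have h1 : f d = LinearEquiv.ofBijective f hf d := rfl
    simp only [P, LinearEquiv.trans_apply]
    rw [h1, LinearEquiv.symm_apply_apply]
    rfl
  refine ⟨P, fun g v => ?_⟩
  obtain ⟨d, rfl⟩ := hf.2 v
  rw [hP d]
  exact hP ⟨_, stable_D g d.2⟩

end Pool.Agent.Lib.P0c8ca5.Cy
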