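import Mathlib
import Pool.Agent.Lib.P0c8ca5C.CorrB

/-!
# Module CorrC: the Clifford correspondence

PROOF.  `exists_eps hδ` gives `ε` and `Cliff N T H δ ε`.  Use `Fr.FrEAux.card_of_rel`
(P0c8ca5P.FrE) for the types `↥(OvSet _ f δ)` (representations of `H`) and `↥(OvSet _ f δ)`
(representations of `T`) and the relation
`R x y := ∃ (γ : IrrInv H ⊥ f) (τ : IrrInv T ⊥ f) θ, ⟦γ⟧ = x.1 ∧ ⟦τ⟧ = y.1 ∧ SubT hTH ε γ.ρ τ.ρ θ`.
`∀ x ∃ y`: `Cliff.exists_sub` (`mkIrr`; the representation lies in `f` by `over_blk`, as it lies over `δ`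
and `act δ f = 1`); `∀ y ∃ x`: `Cliff.exists_sup`.  Uniqueness: `SubT.iso`, `Cliff.sup_iso`; for
different representatives of the same class compose `θ` with the isomorphism (`mk_eq_mk`; if
`P : τ ≅ τ'` then `SubT γ τ' θ` gives `SubT γ τ (θ ∘ P)`; if `P : γ ≅ γ'` then `SubT γ τ θ` gives
`SubT γ' τ (P ∘ θ)`, the range of `act γ' ε` being the image under `P` of that of `act γ ε`, see
`congr_left`, `congr_right` in P0c8ca5P.FrE).
-/

namespace Pool.Agent.Lib.P0c8ca5.Cy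

open MonoidAlgebra

variable {p : ℕ} {k : Type*} [Field k] {A : Type*} [Group A]

namespace CorrCAux

variable {V V' W W' : Type*} [AddCommGroup V] [Module k V] [AddCommGroup V'] [Module k V']
  [AddCommGroup W] [Module k W] [AddCommGroup W'] [Module k W']

theorem congr_left [Finite A] {T H : Subgroup A} {hTH : T ≤ H} {ε : MonoidAlgebra k A}
    {γ : Representation k H V} {γ' : Representation k H V'} {τ : Representation k T W}
    {θ : W →ₗ[k] V} (hI : Iso γ γ') (h : SubT hTH ε γ τ θ) :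
    ∃ θ' : W →ₗ[k] V', SubT hTH ε γ' τ θ' := by
  obtain ⟨P, hP⟩ := hI
  refine ⟨P.toLinearMap.comp θ, ?_, ?_, ?_⟩
  · exact P.injective.comp h.inj
  · ext v
    constructor
    · rintro ⟨w, rfl⟩
      have h1 : θ w ∈ LinearMap.range (act γ ε) := by
        rw [← h.range]
        exact LinearMap.mem_range_self θ w
      obtain ⟨u, hu⟩ := h1
      refine ⟨P u, ?_⟩
      rw [← Fr.FrEAux.act_P P hP, hu]
      rfl
    · rintro ⟨u, rfl⟩
      have h1 : act γ ε (P.symm u) ∈ LinearMap.range θ := by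
        rw [h.range]
        exact LinearMap.mem_range_self _ _
      obtain ⟨w, hw⟩ := h1
      refine ⟨w, ?_⟩
      change P (θ w) = _
      rw [hw, Fr.FrEAux.act_P P hP, LinearEquiv.apply_symm_apply]
  · intro g w
    change P (θ (τ g w)) = γ' _ (P (θ w))
    rw [h.eqv, hP]

theorem congr_right {T H : Subgroup A} {hTH : T ≤ H} {ε : MonoidAlgebra k A}
    {γ : Representation k H V} {τ : Representation k T W} {τ' : Representation k T W'}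
    {θ : W →ₗ[k] V} (hI : Iso τ τ') (h : SubT hTH ε γ τ θ) :
    ∃ θ' : W' →ₗ[k] V, SubT hTH ε γ τ' θ' := by
  obtain ⟨P, hP⟩ := hI.symm
  refine ⟨θ.comp P.toLinearMap, ?_, ?_, ?_⟩
  · exact h.inj.comp P.injective
  · rw [← h.range]
    exact LinearMap.range_comp_of_range_eq_top _ (LinearMap.range_eq_top.2 P.surjective)
  · intro g w
    change θ (P (τ' g w)) = γ _ (θ (P w))
    rw [hP, h.eqv]

end CorrCAux

open CorrCAux in
theorem clifford [IsAlgClosed k] [Finite A] {N T H : Subgroup A} (hNT : N ≤ T) (hTH : T ≤ H)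
    (hn : H ≤ Subgroup.normalizer (N : Set A)) {f : MonoidAlgebra k A} (hf : SuppIn N f)
    (hfi : InvBy H f) (hff : f * f = f) {n : ℕ} {δ : Rp k N n} (hδ : Irr' δ)
    (hδf : act δ f = 1) (hT : ∀ (h : A) (hh : h ∈ H), h ∈ T ↔ Iso (tw (hn hh) δ) δ) :
    Nat.card ↥(OvSet (hNT.trans hTH) f δ) = Nat.card ↥(OvSet hNT f δ) := by
  obtain ⟨ε, hε⟩ := exists_eps hδ
  have h : Cliff N T H δ ε := ⟨hNT, hTH, hn, hT, hδ, hε⟩
  refine Fr.FrEAux.card_of_rel (fun x y => ∃ (γ : IrrInv H ⊥ f) (τ : IrrInv T ⊥ f)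
    (θ : (Fin τ.n → k) →ₗ[k] (Fin γ.n → k)), (⟦γ⟧ : IrX H f) = x.1 ∧ (⟦τ⟧ : IrX T f) = y.1 ∧
      SubT hTH ε γ.ρ τ.ρ θ) ?_ ?_ ?_ ?_
  · rintro ⟨x, γ, hγ, ho⟩
    obtain ⟨l, τ, θ, h1, h2, h3⟩ := h.exists_sub (irr_iff.1 γ.irr) ho
    have h4 : act τ f = 1 := (over_blk h1 hδ h2 hf (hfi.mono hTH) hff).2 hδf
    exact ⟨⟨(⟦mkIrr τ h1 h4⟧ : IrX T f), mkIrr τ h1 h4, rfl, h2⟩, γ, mkIrr τ h1 h4, θ, hγ, rfl, h3⟩
  · rintro ⟨y, τ, hτ, ho⟩
    obtain ⟨m, γ, θ, h1, h2, h3⟩ := h.exists_sup (irr_iff.1 τ.irr) ho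
    have h4 : act γ f = 1 := (over_blk h1 hδ h2 hf hfi hff).2 hδf
    exact ⟨⟨(⟦mkIrr γ h1 h4⟧ : IrX H f), mkIrr γ h1 h4, rfl, h2⟩, mkIrr γ h1 h4, τ, θ, rfl, hτ, h3⟩
  · rintro x y y' ⟨γ, τ, θ, h1, h2, h3⟩ ⟨γ', τ', θ', h1', h2', h3'⟩
    obtain ⟨θ₁, h4⟩ := congr_left (mk_eq_mk.1 (h1'.trans h1.symm)) h3'
    apply Subtype.ext
    rw [← h2, ← h2']
    exact mk_eq_mk.2 (h3.iso h4)
  · rintro x x' y ⟨γ, τ, θ, h1, h2, h3⟩ ⟨γ', τ', θ', h1', h2', h3'⟩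
    obtain ⟨θ₁, h4⟩ := congr_right (mk_eq_mk.1 (h2'.trans h2.symm)) h3'
    apply Subtype.ext
    rw [← h1, ← h1']
    exact mk_eq_mk.2 (h.sup_iso (irr_iff.1 τ.irr) (irr_iff.1 γ.irr) (irr_iff.1 γ'.irr) h3 h4)

end Pool.Agent.Lib.P0c8ca5.Cy
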