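import Mathlib
import Pool.Agent.Lib.P0c8ca5C.Defs

/-!
# Module Eig: over a stable representation, cyclic quotient

PROOF.  Let `t ∈ T` with `N ⊔ zpowers t = T` and `Θ : k^n → k^n` an isomorphism with
`Θ (δ (t⁻¹ x t) v) = δ x (Θ v)` (`hst t`, `tw_apply`, `coe_cjN`).  Let `E` be the space of the linear maps
`φ : k^m → k^n` with `φ (τ x v) = δ x (φ v)` for `x ∈ N` (a submodule of `(Fin m → k) →ₗ[k] (Fin n → k)`,
finite dimensional); `E ≠ 0` by `ho`.  `L φ = Θ⁻¹ ∘ φ ∘ τ t` is again in `E`: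
`φ (τ t (τ x v)) = φ (τ (t x t⁻¹) (τ t v)) = δ (t x t⁻¹) (φ (τ t v))` and
`Θ⁻¹ (δ (t x t⁻¹) u) = δ x (Θ⁻¹ u)`.  As `k` is algebraically closed `L` has an eigenvector
(`Module.End.exists_eigenvalue`): `φ ≠ 0` in `E`, `φ (τ t v) = c • Θ (φ v)` for all `v`.  The kernel of
`φ` is stable under `N` and under `τ t`, hence (finite group: `t⁻¹` is a power of `t`) under the subgroup
generated by `N` and `t`, that is `T` (`Subgroup.closure_induction` or `mem_sup_norm`: `T = N * zpowers t`).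
So it is `⊥` (`hτ.sub`; `φ ≠ 0`), `φ` is injective; it is surjective (`Irr'.surjective` for `δ`).
-/

namespace Pool.Agent.Lib.P0c8ca5.Cy

open MonoidAlgebra

variable {p : ℕ} {k : Type*} [Field k] {A : Type*} [Group A]

theorem iso_restrict [IsAlgClosed k] [Finite A] {N T : Subgroup A} (hNT : N ≤ T)
    (hn : T ≤ Subgroup.normalizer (N : Set A)) (hcyc : ∃ t ∈ T, N ⊔ Subgroup.zpowers t = T)
    {n : ℕ} {δ : Rp k N n} (hδ : Irr' δ)
    (hst : ∀ (t : A) (ht : t ∈ T), Iso (tw (hn ht) δ) δ) {m : ℕ} {τ : Rp k T m}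
    (hτ : Irr' τ) (ho : Over hNT τ δ) :
    Iso (τ.comp (Subgroup.inclusion hNT) : Representation k N (Fin m → k)) δ := by
  classical
  obtain ⟨t, ht, hNt⟩ := hcyc
  obtain ⟨P, hP⟩ := hst t ht
  obtain ⟨φ₀, hφ₀, hφ₀'⟩ := ho
  have htN := hn ht
  -- the conjugate
  have hcj : ∀ x : N, t * (x : A) * t⁻¹ ∈ N := fun x => (Subgroup.mem_normalizer_iff.1 htN _).1 x.2
  have hP2 : ∀ (x : N) (w : Fin n → k), P.symm (δ ⟨t * x * t⁻¹, hcj x⟩ w) = δ x (P.symm w) := by
    intro x w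
    apply P.injective
    rw [P.apply_symm_apply]
    have h1 := hP ⟨t * x * t⁻¹, hcj x⟩ (P.symm w)
    rw [P.apply_symm_apply] at h1
    rw [← h1, tw_apply]
    congr 3
    apply Subtype.ext
    rw [coe_cjN]
    change t⁻¹ * (t * x * t⁻¹) * t = (x : A)
    group
  let E : Submodule k ((Fin m → k) →ₗ[k] (Fin n → k)) :=
    { carrier := {φ | ∀ (x : N) (v : Fin m → k), φ (τ (Subgroup.inclusion hNT x) v) = δ x (φ v)}
      add_mem' := by
        intro φ ψ h1 h2 x v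
        rw [LinearMap.add_apply, LinearMap.add_apply, map_add, h1 x v, h2 x v]
      zero_mem' := by
        intro x v
        rw [LinearMap.zero_apply, LinearMap.zero_apply, map_zero]
      smul_mem' := by
        intro c φ h x v
        rw [LinearMap.smul_apply, LinearMap.smul_apply, map_smul, h x v] }
  have hE : ∀ φ : (Fin m → k) →ₗ[k] (Fin n → k), φ ∈ E ↔
      ∀ (x : N) (v : Fin m → k), φ (τ (Subgroup.inclusion hNT x) v) = δ x (φ v) := fun φ => Iff.rfl
  let L₀ : ((Fin m → k) →ₗ[k] (Fin n → k)) →ₗ[k] ((Fin m → k) →ₗ[k] (Fin n → k)) :=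
    { toFun := fun φ => P.symm.toLinearMap ∘ₗ φ ∘ₗ (τ ⟨t, ht⟩)
      map_add' := fun φ ψ => by
        ext v i
        simp
      map_smul' := fun c φ => by
        ext v i
        simp }
  have hL₀ : ∀ φ v, L₀ φ v = P.symm (φ (τ ⟨t, ht⟩ v)) := fun φ v => rfl
  have hL : ∀ φ ∈ E, L₀ φ ∈ E := by
    intro φ hφ
    rw [hE] at hφ ⊢
    intro x v
    rw [hL₀, hL₀]
    have e1 : τ ⟨t, ht⟩ (τ (Subgroup.inclusion hNT x) v)
        = τ (Subgroup.inclusion hNT ⟨t * x * t⁻¹, hcj x⟩) (τ ⟨t, ht⟩ v) := by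
      rw [← Module.End.mul_apply, ← Module.End.mul_apply, ← map_mul, ← map_mul]
      congr 2
      apply Subtype.ext
      change t * (x : A) = (t * x * t⁻¹) * t
      group
    rw [e1, hφ, hP2]
  let L : E →ₗ[k] E := L₀.restrict hL
  have hnt : Nontrivial E := ⟨⟨φ₀, hφ₀'⟩, 0, fun h => hφ₀ (congrArg Subtype.val h)⟩
  obtain ⟨c, hc⟩ := Module.End.exists_eigenvalue (K := k) (V := E) L
  obtain ⟨⟨φ, hφE⟩, hφ⟩ := hc.exists_hasEigenvector
  have hφ0 : φ ≠ 0 := fun h => hφ.2 (Subtype.ext h)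
  have h1 : ∀ v, φ (τ ⟨t, ht⟩ v) = c • P (φ v) := by
    intro v
    have h2 := congrArg Subtype.val (Module.End.mem_eigenspace_iff.1 hφ.1)
    have h3 : L₀ φ = c • φ := h2
    have h4 := congrArg (fun f : (Fin m → k) →ₗ[k] (Fin n → k) => P (f v)) h3
    change P (L₀ φ v) = P ((c • φ) v) at h4
    rw [hL₀, P.apply_symm_apply, LinearMap.smul_apply, map_smul] at h4
    exact h4
  rw [hE] at hφE
  -- the kernel is stable
  have hker : ∀ (g : T) (v : Fin m → k), φ v = 0 → φ (τ g v) = 0 := by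
    rintro ⟨g, hg⟩ v hv
    have hpow : ∀ j : ℕ, ∀ v, φ v = 0 → φ (τ (⟨t, ht⟩ ^ j) v) = 0 := by
      intro j
      induction j with
      | zero => intro v hv; rw [pow_zero, map_one]; exact hv
      | succ j ih =>
        intro v hv
        rw [pow_succ, map_mul, Module.End.mul_apply]
        apply ih
        rw [h1, hv, map_zero, smul_zero]
    have hg' : g ∈ N ⊔ Subgroup.zpowers t := by rw [hNt]; exact hg
    rw [mem_sup_norm (D := Subgroup.zpowers t) (by
      rw [Subgroup.zpowers_le]; exact htN)] at hg'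
    obtain ⟨x, hx, z, hz, rfl⟩ := hg'
    obtain ⟨j, rfl⟩ := (mem_powers_iff_mem_zpowers.2 hz : z ∈ Submonoid.powers t)
    have e1 : (⟨x * t ^ j, hg⟩ : T) = Subgroup.inclusion hNT ⟨x, hx⟩ * ⟨t, ht⟩ ^ j :=
      Subtype.ext rfl
    change φ (τ ⟨x * t ^ j, hg⟩ v) = 0
    rw [e1, map_mul, Module.End.mul_apply, hφE, hpow j v hv, map_zero]
  have hinj := hτ.injective φ hφ0 hker
  have hsurj := hδ.surjective φ hφ0 (fun g v => ⟨τ (Subgroup.inclusion hNT g) v, hφE g v⟩)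
  exact ⟨LinearEquiv.ofBijective φ ⟨hinj, hsurj⟩, fun x v => hφE x v⟩

end Pool.Agent.Lib.P0c8ca5.Cy
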