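import Mathlib
import Pool.Agent.Lib.P0c8ca5C.Defs

/-!
# Module HomT: the linear characters of a cyclic quotient of order prime to `p`

PROOF.  `N' = N.subgroupOf T` is normal in `T` (`Subgroup.normal_subgroupOf_iff_le_normalizer`), its
quotient `Z` is cyclic (generated by the class of `t`, from `hc.cyc`) of order `m = N.relIndex T`, and
`(m : k) ≠ 0` (`CharP.cast_eq_zero_iff`).  The homomorphisms `T →* kˣ` that are trivial on `N'`
correspond to the homomorphisms `Z →* kˣ` (`QuotientGroup.lift`, `QuotientGroup.mk'`), and there are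
`m` of these: `CommGroup.card_monoidHom_of_hasEnoughRootsOfUnity` (with the instance
`HasEnoughRootsOfUnity k m` for an algebraically closed field with `NeZero (m : k)`; the exponent of `Z`
is `m`), or directly: a homomorphism from a cyclic group with generator `z` of order `m` is given by
the image of `z`, an arbitrary root of unity with `ζ ^ m = 1`, and there are `m` of these.
-/

set_option linter.style.haveILetI false

namespace Pool.Agent.Lib.P0c8ca5.Cy

variable {p : ℕ} {k : Type*} [Field k] {A : Type*} [Group A]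

theorem card_homT [Fact p.Prime] [CharP k p] [IsAlgClosed k] [Finite A] {N T : Subgroup A}
    (hc : CycExt p N T) :
    Nat.card {χ : T →* kˣ // ∀ x : T, (x : A) ∈ N → χ x = 1} = N.relIndex T := by
  classical
  haveI hnorm : (N.subgroupOf T).Normal :=
    (Subgroup.normal_subgroupOf_iff_le_normalizer hc.NH).2 hc.hN
  obtain ⟨t, ht, htT⟩ := hc.cyc
  haveI hcyc : IsCyclic (T ⧸ N.subgroupOf T) := by
    refine ⟨QuotientGroup.mk' (N.subgroupOf T) ⟨t, ht⟩, fun z => ?_⟩
    obtain ⟨x, rfl⟩ := QuotientGroup.mk'_surjective (N.subgroupOf T) z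
    have hle : T ≤ ((Subgroup.zpowers (QuotientGroup.mk' (N.subgroupOf T) ⟨t, ht⟩)).comap
        (QuotientGroup.mk' (N.subgroupOf T))).map T.subtype := by
      conv_lhs => rw [← htT]
      refine sup_le ?_ ?_
      · intro n hn
        refine ⟨⟨n, hc.NH hn⟩, ?_, rfl⟩
        have h1 : QuotientGroup.mk' (N.subgroupOf T) ⟨n, hc.NH hn⟩ = 1 :=
          (QuotientGroup.eq_one_iff _).2 hn
        show QuotientGroup.mk' (N.subgroupOf T) ⟨n, hc.NH hn⟩ ∈ Subgroup.zpowers _
        rw [h1]
        exact Subgroup.one_mem _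
      · rw [Subgroup.zpowers_le]
        exact ⟨⟨t, ht⟩, Subgroup.mem_zpowers _, rfl⟩
    obtain ⟨y, hy, hyx⟩ := hle x.2
    have : y = x := Subtype.ext hyx
    subst this
    exact hy
  letI : CommGroup (T ⧸ N.subgroupOf T) := IsCyclic.commGroup
  have hcard : Nat.card (T ⧸ N.subgroupOf T) = N.relIndex T := rfl
  haveI : NeZero ((Monoid.exponent (T ⧸ N.subgroupOf T) : ℕ) : k) := by
    refine ⟨fun h0 => hc.idx ?_⟩
    rw [CharP.cast_eq_zero_iff k p] at h0
    rw [← hcard]
    exact h0.trans Group.exponent_dvd_nat_card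
  have h1 : Nat.card ((T ⧸ N.subgroupOf T) →* kˣ) = Nat.card (T ⧸ N.subgroupOf T) :=
    CommGroup.card_monoidHom_of_hasEnoughRootsOfUnity (T ⧸ N.subgroupOf T) k
  rw [← hcard, ← h1]
  refine Nat.card_congr
    { toFun := fun χ => QuotientGroup.lift (N.subgroupOf T) χ.1 (fun x hx => χ.2 x hx)
      invFun := fun ψ => ⟨ψ.comp (QuotientGroup.mk' (N.subgroupOf T)), fun x hx => ?_⟩
      left_inv := fun χ => Subtype.ext (MonoidHom.ext fun x => rfl)
      right_inv := fun ψ => MonoidHom.ext fun z => ?_ }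
  · have h2 : QuotientGroup.mk' (N.subgroupOf T) x = 1 := (QuotientGroup.eq_one_iff _).2 hx
    rw [MonoidHom.comp_apply, h2, map_one]
  · obtain ⟨x, rfl⟩ := QuotientGroup.mk'_surjective (N.subgroupOf T) z
    rfl

end Pool.Agent.Lib.P0c8ca5.Cy
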