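import Mathlib
import Pool.Agent.Lib.P0c8ca5C.Eig
import Pool.Agent.Lib.P0c8ca5C.HomT

/-!
# Module Ext: the representations over a stable representation, cyclic quotient of order prime to `p`

PROOF.  `exists_over hc.NH hδ` gives an irreducible `τ₀` of `T` over `δ`; it lies in `f` (`over_blk`).  By
`iso_restrict` the restriction of every irreducible representation of `T` over `δ` to `N` is isomorphic
to `δ`.  For `χ` in `X = {χ : T →* kˣ // ∀ x : T, (x : A) ∈ N → χ x = 1}` let `τ₀ χ` be the representation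
`x ↦ (χ x : k) • τ₀ x`; it is irreducible (same stable subspaces) and lies over `δ` (same restriction to
`N`), and in `f`.  The map `χ ↦ ⟦τ₀ χ⟧` from `X` to `OvSet hc.NH f δ` is a bijection, so the claim is
`card_homT`.
Injective: if `P : τ₀ χ ≅ τ₀ χ'` then `P` commutes with the restriction of `τ₀` to `N`, which is
isomorphic to `δ`, so `P` is a scalar `c ≠ 0` (Schur's lemma: `Rk.schur` in P0c8ca5R.PartD or
`ChBAux.end_scalar` in P0c8ca5N.ChB), and `χ x • τ₀ x = χ' x • τ₀ x`, so `χ = χ'` (`τ₀ x` is bijective and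
the space is not zero).
Surjective: let `τ` be irreducible over `δ`; the restrictions of `τ₀` and `τ` to `N` are isomorphic, by
`P : k^m₀ → k^m`, `P (τ₀ n v) = τ n (P v)` for `n ∈ N`.  For `x ∈ T` the map
`B x = P⁻¹ ∘ τ x ∘ P ∘ τ₀ x⁻¹` commutes with `τ₀ n`, `n ∈ N`:
`τ x ∘ P ∘ τ₀ (x⁻¹ n) = τ x ∘ P ∘ τ₀ (x⁻¹ n x) ∘ τ₀ x⁻¹ = τ x ∘ τ (x⁻¹ n x) ∘ P ∘ τ₀ x⁻¹
 = τ n ∘ τ x ∘ P ∘ τ₀ x⁻¹`.  So it is a scalar `χ x` (Schur), not zero, and `τ x ∘ P = χ x • P ∘ τ₀ x`.
This gives that `χ` is a homomorphism, `χ n = 1` for `n ∈ N`, and `P : τ₀ χ ≅ τ`.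
-/

namespace Pool.Agent.Lib.P0c8ca5.Cy

open MonoidAlgebra

variable {p : ℕ} {k : Type*} [Field k] {A : Type*} [Group A]

namespace ExtAux

/-- Schur's lemma by an eigenvalue argument -/
theorem schur_end [IsAlgClosed k] {G : Type*} [Group G] {V : Type*} [AddCommGroup V] [Module k V]
    [Module.Finite k V] {ρ : Representation k G V} (h : Irr' ρ) (Φ : V →ₗ[k] V)
    (hΦ : ∀ g v, Φ (ρ g v) = ρ g (Φ v)) : ∃ c : k, ∀ v, Φ v = c • v := by
  have := h.nontriv
  obtain ⟨c, hc⟩ := Module.End.exists_eigenvalue (K := k) (V := V) Φ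
  refine ⟨c, fun v => ?_⟩
  have hst : ∀ g, ∀ w ∈ Module.End.eigenspace Φ c, ρ g w ∈ Module.End.eigenspace Φ c := by
    intro g w hw
    rw [Module.End.mem_eigenspace_iff] at hw ⊢
    rw [hΦ g w, hw, map_smul]
  rcases h.sub _ hst with h1 | h1
  · exact absurd h1 hc
  · have hv : v ∈ Module.End.eigenspace Φ c := by rw [h1]; exact Submodule.mem_top
    exact Module.End.mem_eigenspace_iff.1 hv

theorem irr_of_iso {N : Subgroup A} {V V' : Type*} [AddCommGroup V] [Module k V]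
    [AddCommGroup V'] [Module k V'] {ρ : Representation k N V} {ρ' : Representation k N V'}
    (h : Iso ρ ρ') (hρ : Irr' ρ') : Irr' ρ := by
  obtain ⟨P, hP⟩ := h
  have := hρ.nontriv
  refine ⟨P.toEquiv.nontrivial, fun W hW => ?_⟩
  rcases hρ.sub (W.map P.toLinearMap) (by
    rintro g w ⟨v, hv, rfl⟩
    exact ⟨ρ g v, hW g v hv, hP g v⟩) with h1 | h1
  · left
    rw [Submodule.eq_bot_iff]
    intro v hv
    have h2 : P v ∈ W.map P.toLinearMap := ⟨v, hv, rfl⟩
    rw [h1, Submodule.mem_bot] at h2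
    exact P.injective (h2.trans (map_zero P).symm)
  · right
    rw [Submodule.eq_top_iff']
    intro v
    have h2 : P v ∈ W.map P.toLinearMap := by rw [h1]; exact Submodule.mem_top
    obtain ⟨w, hw, hwv⟩ := h2
    have h3 : w = v := P.injective hwv
    rwa [← h3]

/-- the twist by a linear character -/
def twx {T : Subgroup A} {m : ℕ} (χ : T →* kˣ) (τ : Rp k T m) : Rp k T m where
  toFun x := (χ x : k) • τ x
  map_one' := by rw [map_one, map_one, Units.val_one, one_smul]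
  map_mul' x y := by rw [map_mul, map_mul, Units.val_mul, smul_mul_smul_comm]

theorem twx_apply {T : Subgroup A} {m : ℕ} (χ : T →* kˣ) (τ : Rp k T m) (x : T)
    (v : Fin m → k) : twx χ τ x v = (χ x : k) • τ x v := rfl

theorem twx_irr {T : Subgroup A} {m : ℕ} (χ : T →* kˣ) {τ : Rp k T m} (h : Irr' τ) :
    Irr' (twx χ τ) := by
  refine ⟨h.nontriv, fun W hW => h.sub W fun g w hw => ?_⟩
  have h1 := hW g w hw
  rw [twx_apply] at h1
  have h2 := W.smul_mem ((χ g)⁻¹ : kˣ).val h1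
  rwa [smul_smul, ← Units.val_mul, inv_mul_cancel, Units.val_one, one_smul] at h2

theorem twx_over {N T : Subgroup A} (hNT : N ≤ T) {m : ℕ} {χ : T →* kˣ}
    (hχ : ∀ x : T, (x : A) ∈ N → χ x = 1) {τ : Rp k T m} {S : Type*} [AddCommGroup S]
    [Module k S] {δ : Representation k N S} (h : Over hNT τ δ) : Over hNT (twx χ τ) δ := by
  obtain ⟨π, h0, hπ⟩ := h
  refine ⟨π, h0, fun g v => ?_⟩
  rw [twx_apply, hχ (Subgroup.inclusion hNT g) g.2, Units.val_one, one_smul]
  exact hπ g v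

end ExtAux

open ExtAux in
theorem card_ext [Fact p.Prime] [CharP k p] [IsAlgClosed k] [Finite A] {N T : Subgroup A}
    (hc : CycExt p N T) {f : MonoidAlgebra k A} (hf : SuppIn N f) (hfi : InvBy T f)
    (hff : f * f = f) {n : ℕ} {δ : Rp k N n} (hδ : Irr' δ) (hδf : act δ f = 1)
    (hst : ∀ (t : A) (ht : t ∈ T), Iso (tw (hc.hN ht) δ) δ) :
    Nat.card ↥(OvSet hc.NH f δ) = N.relIndex T := by
  classical
  obtain ⟨m, τ₀, hτ₀, ho₀⟩ := exists_over hc.NH hδ
  have hres : ∀ {m : ℕ} {τ : Rp k T m}, Irr' τ → Over hc.NH τ δ →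
      Iso (τ.comp (Subgroup.inclusion hc.NH) : Representation k N (Fin m → k)) δ :=
    fun hτ ho => iso_restrict hc.NH hc.hN hc.cyc hδ hst hτ ho
  have hr₀ := hres hτ₀ ho₀
  have hi₀ : Irr' (τ₀.comp (Subgroup.inclusion hc.NH) : Representation k N (Fin m → k)) :=
    irr_of_iso hr₀ hδ
  have := hτ₀.nontriv
  obtain ⟨v₀, hv₀⟩ := exists_ne (0 : Fin m → k)
  have hinj : ∀ (x : T) (v : Fin m → k), v ≠ 0 → τ₀ x v ≠ 0 := by
    intro x v hv h0
    apply hv
    have h1 : τ₀ x⁻¹ (τ₀ x v) = v := by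
      rw [← Module.End.mul_apply, ← map_mul, inv_mul_cancel, map_one]
      rfl
    rw [← h1, h0, map_zero]
  rw [← card_homT (k := k) hc]
  have hblk : ∀ χ : {χ : T →* kˣ // ∀ x : T, (x : A) ∈ N → χ x = 1},
      act (twx χ.1 τ₀) f = 1 := fun χ =>
    (over_blk (twx_irr χ.1 hτ₀) hδ (twx_over hc.NH χ.2 ho₀) hf hfi hff).2 hδf
  let Φ : {χ : T →* kˣ // ∀ x : T, (x : A) ∈ N → χ x = 1} → ↥(OvSet hc.NH f δ) := fun χ =>
    ⟨(⟦mkIrr (twx χ.1 τ₀) (twx_irr χ.1 hτ₀) (hblk χ)⟧ : IrX T f),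
      mkIrr (twx χ.1 τ₀) (twx_irr χ.1 hτ₀) (hblk χ), rfl, twx_over hc.NH χ.2 ho₀⟩
  symm
  refine Nat.card_congr (Equiv.ofBijective Φ ⟨?_, ?_⟩)
  · intro χ χ' h
    have h1 : (⟦mkIrr (twx χ.1 τ₀) (twx_irr χ.1 hτ₀) (hblk χ)⟧ : IrX T f) =
        ⟦mkIrr (twx χ'.1 τ₀) (twx_irr χ'.1 hτ₀) (hblk χ')⟧ := congrArg Subtype.val h
    obtain ⟨P, hP⟩ : Iso (twx χ.1 τ₀) (twx χ'.1 τ₀) := mk_eq_mk.1 h1
    obtain ⟨c, hcP⟩ := schur_end hi₀ P.toLinearMap (by
      intro g v
      have h2 := hP (Subgroup.inclusion hc.NH g) v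
      rw [twx_apply, twx_apply, χ.2 (Subgroup.inclusion hc.NH g) g.2,
        χ'.2 (Subgroup.inclusion hc.NH g) g.2, Units.val_one, one_smul, one_smul] at h2
      exact h2)
    have hcP' : ∀ v, P v = c • v := hcP
    have hc0 : c ≠ 0 := by
      rintro rfl
      apply hv₀
      apply P.injective
      rw [hcP', zero_smul, map_zero]
    apply Subtype.ext
    apply MonoidHom.ext
    intro x
    apply Units.ext
    have h3 := hP x v₀
    rw [twx_apply, twx_apply, hcP', hcP', map_smul, smul_smul, smul_smul] at h3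
    have h4 : c * (χ.1 x : k) = (χ'.1 x : k) * c :=
      smul_left_injective k (hinj x v₀ hv₀) h3
    rw [mul_comm] at h4
    exact mul_right_cancel₀ hc0 h4
  · rintro ⟨c, γ, rfl, hγ⟩
    have hγi : Irr' γ.ρ := irr_iff.1 γ.irr
    obtain ⟨P, hP⟩ := hr₀.trans (hres hγi hγ).symm
    have hP' : ∀ (g : N) (v : Fin m → k), P (τ₀ (Subgroup.inclusion hc.NH g) v) =
        γ.ρ (Subgroup.inclusion hc.NH g) (P v) := hP
    have hex : ∀ x : T, ∃ a : k, ∀ v : Fin m → k, γ.ρ x (P v) = a • P (τ₀ x v) := by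
      intro x
      obtain ⟨a, ha⟩ := schur_end hi₀
        (P.symm.toLinearMap ∘ₗ γ.ρ x ∘ₗ P.toLinearMap ∘ₗ τ₀ x⁻¹) (by
          intro g v
          change P.symm (γ.ρ x (P (τ₀ x⁻¹ (τ₀ (Subgroup.inclusion hc.NH g) v)))) =
            τ₀ (Subgroup.inclusion hc.NH g) (P.symm (γ.ρ x (P (τ₀ x⁻¹ v))))
          have hmem : (x : A)⁻¹ * (g : A) * x ∈ N := by
            apply (Subgroup.mem_normalizer_iff.1 (hc.hN x.2) _).2
            have e1 : (x : A) * ((x : A)⁻¹ * (g : A) * x) * (x : A)⁻¹ = g := by group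
            rw [e1]
            exact g.2
          set g' : N := ⟨(x : A)⁻¹ * (g : A) * x, hmem⟩ with hg'
          have e2 : x⁻¹ * Subgroup.inclusion hc.NH g = Subgroup.inclusion hc.NH g' * x⁻¹ := by
            apply Subtype.ext
            change (x : A)⁻¹ * (g : A) = (x : A)⁻¹ * (g : A) * x * (x : A)⁻¹
            group
          have e3 : x * Subgroup.inclusion hc.NH g' = Subgroup.inclusion hc.NH g * x := by
            apply Subtype.ext
            change (x : A) * ((x : A)⁻¹ * (g : A) * x) = (g : A) * x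
            group
          apply P.injective
          rw [LinearEquiv.apply_symm_apply, ← Module.End.mul_apply (τ₀ x⁻¹), ← map_mul, e2,
            map_mul, Module.End.mul_apply, hP', ← Module.End.mul_apply (γ.ρ x), ← map_mul, e3,
            map_mul, Module.End.mul_apply, hP', LinearEquiv.apply_symm_apply])
      refine ⟨a, fun v => ?_⟩
      have h1 := ha (τ₀ x v)
      change P.symm (γ.ρ x (P (τ₀ x⁻¹ (τ₀ x v)))) = a • τ₀ x v at h1
      rw [← Module.End.mul_apply (τ₀ x⁻¹), ← map_mul, inv_mul_cancel, map_one,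
        Module.End.one_apply] at h1
      rw [← map_smul, ← h1, LinearEquiv.apply_symm_apply]
    choose a ha using hex
    have hPne : ∀ (x : T) (v : Fin m → k), v ≠ 0 → P (τ₀ x v) ≠ 0 := by
      intro x v hv h0
      exact hinj x v hv (P.injective (h0.trans (map_zero P).symm))
    have huniq : ∀ (x : T) (b b' : k), b • P (τ₀ x v₀) = b' • P (τ₀ x v₀) → b = b' :=
      fun x b b' h => smul_left_injective k (hPne x v₀ hv₀) h
    let χ₀ : T →* k :=
      { toFun := a
        map_one' := by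
          apply huniq 1
          rw [← ha, map_one, map_one, Module.End.one_apply, Module.End.one_apply, one_smul]
        map_mul' := by
          intro x y
          apply huniq (x * y)
          rw [← ha, map_mul, map_mul, Module.End.mul_apply, Module.End.mul_apply, ha y, map_smul,
            ha x, smul_smul, mul_comm (a y)] }
    refine ⟨⟨χ₀.toHomUnits, fun x hx => ?_⟩, ?_⟩
    · apply Units.ext
      rw [MonoidHom.coe_toHomUnits, Units.val_one]
      apply huniq x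
      change a x • P (τ₀ x v₀) = (1 : k) • P (τ₀ x v₀)
      rw [← ha, one_smul]
      exact (hP' ⟨x, hx⟩ v₀).symm
    · apply Subtype.ext
      change (⟦mkIrr (twx χ₀.toHomUnits τ₀) _ _⟧ : IrX T f) = ⟦γ⟧
      apply mk_eq_mk.2
      refine ⟨P, fun x v => ?_⟩
      change P ((χ₀.toHomUnits x : k) • τ₀ x v) = γ.ρ x (P v)
      rw [map_smul, MonoidHom.coe_toHomUnits]
      exact (ha x v).symm

end Pool.Agent.Lib.P0c8ca5.Cy
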