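import Mathlib
import Pool.Agent.Lib.P0c8ca5C.Defs
import Pool.Agent.Lib.P0c8ca5.WeightsD

/-!
# Module Hyp: subgroups and sections of the situations `CycExt`, `HypExt`

PROOFS.
`CycExt.le_of_pGroup`: `P N / N` is a p-subgroup of a group of order prime to `p`: for `x ∈ P` the order
of the class of `x` in `H / N` is a power of `p` and divides `N.relIndex H`, so `x ∈ N`.
`CycExt.sub`: `T / (N ⊓ T)` embeds into the cyclic group `H / N`, so it is cyclic (subgroups of cyclic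
groups are cyclic), generated by the class of some `t ∈ T`; its order divides that of `H / N`.
(In elements: with `n` minimal positive such that `t₀ ^ n ∈ N * T` etc., or with the homomorphism
`T → H ⧸ N.subgroupOf H` and `isCyclic_of_injective`.)
`HypExt.sub`: the other fields are clear.
`HypExt.sec`: `HypExt.sub` for `T = H ⊓ N(Q)`, then pass to the image in `N(Q) / Q`
(`mem_sec`, `qm_mul`, ...): the images of normal subgroups are normal in the image, `H/N` cyclic is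
generated by the class of `t`, and the index of the images divides the index
(`(sec N Q).relIndex (sec H Q) ∣ (N ⊓ T).relIndex T`: the map `T / (N ⊓ T) → sec H Q / sec N Q` is
surjective).  Here `sec K Q` is the image of `K ⊓ N(Q)` in `N(Q)/Q` (`mem_sec`).
-/

namespace Pool.Agent.Lib.P0c8ca5.Cy

variable {p : ℕ} {A : Type*} [Group A] [Finite A] {C N H T : Subgroup A}

namespace HypAux

theorem normal_sub {N H : Subgroup A} (hn : H ≤ Subgroup.normalizer (N : Set A)) :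
    (N.subgroupOf H).Normal := by
  constructor
  intro n hn' g
  rw [Subgroup.mem_subgroupOf] at hn' ⊢
  exact (Subgroup.mem_normalizer_iff.1 (hn g.2) _).1 hn'

theorem le_norm_inf {N H T : Subgroup A} (hn : H ≤ Subgroup.normalizer (N : Set A))
    (hT : T ≤ H) : T ≤ Subgroup.normalizer ((N ⊓ T : Subgroup A) : Set A) := by
  intro t ht
  rw [Subgroup.mem_normalizer_iff]
  intro x
  have h1 := Subgroup.mem_normalizer_iff.1 (hn (hT ht)) x
  have h2 := Subgroup.mem_normalizer_iff.1 (Subgroup.le_normalizer ht) x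
  change x ∈ N ⊓ T ↔ t * x * t⁻¹ ∈ N ⊓ T
  rw [Subgroup.mem_inf, Subgroup.mem_inf]
  exact and_congr h1 h2

end HypAux

theorem CycExt.le_of_pGroup [Fact p.Prime] (h : CycExt p N H) {P : Subgroup A} (hPH : P ≤ H)
    (hP : IsPGroup p P) : P ≤ N := by
  intro x hx
  haveI := HypAux.normal_sub h.hN
  obtain ⟨n, hn⟩ := hP ⟨x, hx⟩
  have hn' : x ^ p ^ n = 1 := congrArg Subtype.val hn
  have h1 := Subgroup.pow_index_mem (N.subgroupOf H) (⟨x, hPH hx⟩ : H)
  let q : ↥H ⧸ N.subgroupOf H := QuotientGroup.mk ⟨x, hPH hx⟩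
  have hq1 : q ^ p ^ n = 1 := by
    change QuotientGroup.mk' (N.subgroupOf H) ⟨x, hPH hx⟩ ^ p ^ n = 1
    rw [← map_pow]
    have : (⟨x, hPH hx⟩ : H) ^ p ^ n = 1 := Subtype.ext hn'
    rw [this, map_one]
  have hq2 : q ^ (N.subgroupOf H).index = 1 := by
    change QuotientGroup.mk' (N.subgroupOf H) ⟨x, hPH hx⟩ ^ (N.subgroupOf H).index = 1
    rw [← map_pow]
    exact (QuotientGroup.eq_one_iff _).2 h1
  have hd1 := orderOf_dvd_of_pow_eq_one hq1
  have hd2 := orderOf_dvd_of_pow_eq_one hq2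
  have hcop : Nat.Coprime (p ^ n) (N.subgroupOf H).index :=
    Nat.Coprime.pow_left n (((Fact.out : p.Prime).coprime_iff_not_dvd).2 h.idx)
  have hone : orderOf q = 1 := Nat.eq_one_of_dvd_coprimes hcop hd1 hd2
  rw [orderOf_eq_one_iff] at hone
  have := (QuotientGroup.eq_one_iff _).1 hone
  rwa [Subgroup.mem_subgroupOf] at this

theorem CycExt.sub (h : CycExt p N H) (hT : T ≤ H) : CycExt p (N ⊓ T) T := by
  haveI := HypAux.normal_sub h.hN
  refine ⟨inf_le_right, HypAux.le_norm_inf h.hN hT, ?_, ?_⟩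
  · obtain ⟨t, ht, hgen⟩ := h.cyc
    have hS : H ≤ ((Subgroup.zpowers (QuotientGroup.mk' (N.subgroupOf H) ⟨t, ht⟩)).comap
        (QuotientGroup.mk' (N.subgroupOf H))).map H.subtype := by
      conv_lhs => rw [← hgen]
      apply sup_le
      · intro n hn
        refine ⟨⟨n, h.NH hn⟩, ?_, rfl⟩
        have h1 : QuotientGroup.mk' (N.subgroupOf H) ⟨n, h.NH hn⟩ = 1 :=
          (QuotientGroup.eq_one_iff _).2 hn
        change QuotientGroup.mk' (N.subgroupOf H) ⟨n, h.NH hn⟩ ∈ Subgroup.zpowers _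
        rw [h1]
        exact Subgroup.one_mem _
      · rw [Subgroup.zpowers_le]
        exact ⟨⟨t, ht⟩, Subgroup.mem_zpowers _, rfl⟩
    haveI : IsCyclic (↥H ⧸ N.subgroupOf H) := by
      refine ⟨⟨QuotientGroup.mk' (N.subgroupOf H) ⟨t, ht⟩, ?_⟩⟩
      intro y
      obtain ⟨⟨x, hx⟩, rfl⟩ := QuotientGroup.mk'_surjective (N.subgroupOf H) y
      obtain ⟨⟨x', hx'⟩, h1, h2⟩ := hS hx
      have h3 : x' = x := h2
      subst h3
      exact h1
    let φ : ↥T →* ↥H ⧸ N.subgroupOf H :=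
      (QuotientGroup.mk' (N.subgroupOf H)).comp (Subgroup.inclusion hT)
    obtain ⟨⟨g, hg⟩, hg2⟩ := (inferInstance : IsCyclic φ.range)
    obtain ⟨⟨u, hu⟩, rfl⟩ := hg
    refine ⟨u, hu, le_antisymm (sup_le inf_le_right (by
      rw [Subgroup.zpowers_le]
      exact hu)) ?_⟩
    intro x hx
    obtain ⟨n, hn⟩ := hg2 ⟨φ ⟨x, hx⟩, ⟨⟨x, hx⟩, rfl⟩⟩
    have hn2 : φ ⟨u, hu⟩ ^ n = φ ⟨x, hx⟩ := congrArg Subtype.val hn
    rw [← map_zpow] at hn2
    have hn3 : φ (⟨x, hx⟩ * ((⟨u, hu⟩ : T) ^ n)⁻¹) = 1 := by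
      rw [map_mul, map_inv, hn2, mul_inv_cancel]
    have hn4 := (QuotientGroup.eq_one_iff _).1 hn3
    rw [Subgroup.mem_subgroupOf] at hn4
    have hn5 : x * (u ^ n)⁻¹ ∈ N := hn4
    have hn6 : x * (u ^ n)⁻¹ ∈ N ⊓ T :=
      Subgroup.mem_inf.2 ⟨hn5, T.mul_mem hx (T.inv_mem (T.zpow_mem hu n))⟩
    have e : x = x * (u ^ n)⁻¹ * u ^ n := by group
    rw [e]
    exact Subgroup.mul_mem _ (Subgroup.mem_sup_left hn6)
      (Subgroup.mem_sup_right (Subgroup.zpow_mem _ (Subgroup.mem_zpowers u) n))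
  · intro hp
    apply h.idx
    refine hp.trans ?_
    rw [Subgroup.inf_relIndex_right, ← Subgroup.relIndex_subgroupOf hT]
    exact Subgroup.relIndex_dvd_index_of_normal _ _

theorem HypExt.sub (h : HypExt p C N H) (hT : T ≤ H) : HypExt p (C ⊓ T) (N ⊓ T) T := by
  refine ⟨inf_le_inf_right T h.CN, HypAux.le_norm_inf h.hC hT, h.ext.sub hT, ?_⟩
  intro x hx
  obtain ⟨n, hn⟩ := h.pgrp x (Subgroup.mem_inf.1 hx).1
  exact ⟨n, Subgroup.mem_inf.2 ⟨hn, T.pow_mem (Subgroup.mem_inf.1 hx).2 _⟩⟩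

theorem HypAux.sec_norm {N H : Subgroup A} (hn : H ≤ Subgroup.normalizer (N : Set A))
    (Q : Subgroup A) : sec H Q ≤ Subgroup.normalizer ((sec N Q : Subgroup (NQ Q)) : Set (NQ Q)) := by
  have key : ∀ x ∈ H, ∀ hx : x ∈ Subgroup.normalizer (Q : Set A), ∀ v ∈ sec N Q,
      qm Q x hx * v * (qm Q x hx)⁻¹ ∈ sec N Q := by
    intro x hxH hx v hv
    obtain ⟨n, hn', hn'', rfl⟩ := mem_sec.1 hv
    have h1 : x * n * x⁻¹ ∈ N := (Subgroup.mem_normalizer_iff.1 (hn hxH) _).1 hn'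
    have h2 : x * n * x⁻¹ ∈ Subgroup.normalizer (Q : Set A) :=
      Subgroup.mul_mem _ (Subgroup.mul_mem _ hx hn'') (Subgroup.inv_mem _ hx)
    exact qm_mem_sec h2 h1
  intro w hw
  obtain ⟨x, hxH, hx, rfl⟩ := mem_sec.1 hw
  rw [Subgroup.mem_normalizer_iff]
  intro v
  constructor
  · exact key x hxH hx v
  · intro hv
    have h1 := key x⁻¹ (H.inv_mem hxH) (Subgroup.inv_mem _ hx) _ hv
    have e : qm Q x⁻¹ (Subgroup.inv_mem _ hx) = (qm Q x hx)⁻¹ := rfl
    rw [e] at h1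
    have e2 : (qm Q x hx)⁻¹ * (qm Q x hx * v * (qm Q x hx)⁻¹) * ((qm Q x hx)⁻¹)⁻¹ = v := by group
    rw [e2] at h1
    exact h1

theorem HypExt.sec (h : HypExt p C N H) (Q : Subgroup A) :
    HypExt p (sec C Q) (sec N Q) (sec H Q) := by
  have hT : H ⊓ Subgroup.normalizer (Q : Set A) ≤ H := inf_le_left
  have hs := h.ext.sub hT
  refine ⟨sec_mono h.CN, HypAux.sec_norm h.hC Q,
    ⟨sec_mono h.ext.NH, HypAux.sec_norm h.ext.hN Q, ?_, ?_⟩, ?_⟩
  · obtain ⟨t, ht, hgen⟩ := hs.cyc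
    have htQ := (Subgroup.mem_inf.1 ht).2
    refine ⟨qm Q t htQ, qm_mem_sec htQ (Subgroup.mem_inf.1 ht).1, le_antisymm
      (sup_le (sec_mono h.ext.NH) (by
        rw [Subgroup.zpowers_le]
        exact qm_mem_sec htQ (Subgroup.mem_inf.1 ht).1)) ?_⟩
    have hle : H ⊓ Subgroup.normalizer (Q : Set A) ≤
        pre Q (Pool.Agent.Lib.P0c8ca5.sec N Q ⊔ Subgroup.zpowers (qm Q t htQ)) := by
      conv_lhs => rw [← hgen]
      apply sup_le
      · intro x hx
        have hx2 := (Subgroup.mem_inf.1 (Subgroup.mem_inf.1 hx).2).2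
        exact mem_pre.2 ⟨hx2, Subgroup.mem_sup_left (qm_mem_sec hx2 (Subgroup.mem_inf.1 hx).1)⟩
      · rw [Subgroup.zpowers_le]
        exact mem_pre.2 ⟨htQ, Subgroup.mem_sup_right (Subgroup.mem_zpowers _)⟩
    intro w hw
    obtain ⟨x, hxH, hx, rfl⟩ := mem_sec.1 hw
    obtain ⟨_, h1⟩ := mem_pre.1 (hle (Subgroup.mem_inf.2 ⟨hxH, hx⟩))
    exact h1
  · intro hp
    apply hs.idx
    refine hp.trans ?_
    let α : ↥(H ⊓ Subgroup.normalizer (Q : Set A)) →* ↥(Pool.Agent.Lib.P0c8ca5.sec H Q) :=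
      MonoidHom.mk' (fun x => ⟨qm Q x (Subgroup.mem_inf.1 x.2).2,
        qm_mem_sec _ (Subgroup.mem_inf.1 x.2).1⟩) (fun x y => rfl)
    have hα : Function.Surjective α := by
      rintro ⟨w, hw⟩
      obtain ⟨x, hxH, hx, rfl⟩ := mem_sec.1 hw
      exact ⟨⟨x, Subgroup.mem_inf.2 ⟨hxH, hx⟩⟩, rfl⟩
    have hmap : ((N ⊓ (H ⊓ Subgroup.normalizer (Q : Set A))).subgroupOf
        (H ⊓ Subgroup.normalizer (Q : Set A))).map α =
        (Pool.Agent.Lib.P0c8ca5.sec N Q).subgroupOf (Pool.Agent.Lib.P0c8ca5.sec H Q) := by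
      ext w
      constructor
      · rintro ⟨x, hx, rfl⟩
        have hx2 : (x : A) ∈ N ⊓ (H ⊓ Subgroup.normalizer (Q : Set A)) := hx
        rw [Subgroup.mem_subgroupOf]
        exact qm_mem_sec _ (Subgroup.mem_inf.1 hx2).1
      · intro hw
        rw [Subgroup.mem_subgroupOf] at hw
        obtain ⟨x, hxN, hx, hxw⟩ := mem_sec.1 hw
        have hx3 : x ∈ H ⊓ Subgroup.normalizer (Q : Set A) :=
          Subgroup.mem_inf.2 ⟨h.ext.NH hxN, hx⟩
        refine ⟨⟨x, hx3⟩, ?_, ?_⟩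
        · change x ∈ N ⊓ (H ⊓ Subgroup.normalizer (Q : Set A))
          exact Subgroup.mem_inf.2 ⟨hxN, hx3⟩
        · exact Subtype.ext hxw.symm
    have hdvd := Subgroup.index_map_dvd ((N ⊓ (H ⊓ Subgroup.normalizer (Q : Set A))).subgroupOf
        (H ⊓ Subgroup.normalizer (Q : Set A))) hα
    rw [hmap] at hdvd
    exact hdvd
  · intro w hw
    obtain ⟨x, hxN, hx, rfl⟩ := mem_sec.1 hw
    obtain ⟨n, hn⟩ := h.pgrp x hxN
    refine ⟨n, ?_⟩
    rw [← qm_pow hx _ ((Subgroup.normalizer (Q : Set A)).pow_mem hx _)]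
    exact qm_mem_sec _ hn

end Pool.Agent.Lib.P0c8ca5.Cy
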