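import Mathlib
import Pool.Agent.Lib.P0c8ca5C.CorrC
import Pool.Agent.Lib.P0c8ca5C.Ext
import Pool.Agent.Lib.P0c8ca5C.Hyp

/-!
# Module Ov: the number of irreducible representations of `H` over `σ`

PROOF.  `T = H ⊓ stX hfi ⟦σ⟧`.  For `h ∈ H`: `h ∈ T` if and only if `Iso (tw _ σ.ρ) σ.ρ`
(`MulAction.mem_stabilizer_iff`, `mk_eq_mk`, see `hsm` in the proof of `cnt_stX` in P0c8ca5.LHS).
By `clifford` for `C ≤ T ≤ H` it is enough to count the irreducible representations of `T` over `σ`.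
Let `U = N ⊓ T`; `CycExt p U T` by `CycExt.sub`, `U / C` is a p-group (`hh.pgrp`).  Let `γ₀` be an
irreducible representation of `U` over `σ` (`exists_over`); it is unique up to isomorphism
(`over_unique`), so for `t ∈ T` the representation `tw t γ₀`, which lies over `tw t σ ≅ σ`, is isomorphic
to `γ₀`.  `γ₀` lies in `f` (`over_blk`).  Claim: an irreducible representation `γ` of `T` lies over `σ` if
and only if it lies over `γ₀`.  If `π : γ → γ₀` and `π' : γ₀ → σ` are nonzero equivariant maps then `π`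
is surjective (`Irr'.surjective`) and `π' ∘ π ≠ 0`.  Conversely let `γ` lie over `σ`; `exists_under`
gives an irreducible `γ₁` of `U` under `γ` and an irreducible `σ₁` of `C` under `γ₁`; `γ` lies over `σ₁`
and over `σ`, so by `under_conj` `tw t σ₁ ≅ σ` for some `t ∈ T`, and `σ₁ ≅ σ` as `T` stabilizes `σ`
(twist with `t⁻¹`); so `γ₁` lies over `σ`, `γ₁ ≅ γ₀` by `over_unique`, and `γ` lies over `γ₀`.
So the two sets `OvSet` are equal and `card_ext` for `U ≤ T` and `γ₀` gives the number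
`(N ⊓ T).relIndex T = N.relIndex T` (`Subgroup.inf_relIndex_right`).
-/

namespace Pool.Agent.Lib.P0c8ca5.Cy

open MonoidAlgebra

variable {p : ℕ} {k : Type*} [Field k] {A : Type*} [Group A]

namespace OvAux

theorem over_trans {C U T : Subgroup A} (hCU : C ≤ U) (hUT : U ≤ T) {V W S : Type*}
    [AddCommGroup V] [Module k V] [AddCommGroup W] [Module k W] [AddCommGroup S] [Module k S]
    {γ : Representation k T V} {γ₀ : Representation k U W} {σ : Representation k C S}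
    (hγ₀ : Irr' γ₀) (h1 : Over hUT γ γ₀) (h2 : Over hCU γ₀ σ) : Over (hCU.trans hUT) γ σ := by
  obtain ⟨π, h0, hπ⟩ := h1
  obtain ⟨π', h0', hπ'⟩ := h2
  have hsurj : Function.Surjective π := hγ₀.surjective π h0 (fun g v => ⟨_, hπ g v⟩)
  refine ⟨π' ∘ₗ π, ?_, ?_⟩
  · intro h
    apply h0'
    ext w
    obtain ⟨v, rfl⟩ := hsurj w
    exact LinearMap.congr_fun h v
  · intro g v
    change π' (π (γ (Subgroup.inclusion (hCU.trans hUT) g) v)) = σ g (π' (π v))
    rw [← hπ', ← hπ]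
    rfl

theorem mem_st [Finite A] {C : Subgroup A} [hC : C.Normal] {f : MonoidAlgebra k A}
    (hfi : InvBy ⊤ f) (σ : IrrInv C ⊥ f) {a : A} (ha : a ∈ Subgroup.normalizer (C : Set A)) :
    a ∈ stX (G := C) hfi ⟦σ⟧ ↔ Iso (tw ha σ.ρ) σ.ρ := by
  let _ := actX (G := C) hfi
  constructor
  · intro h
    exact mk_eq_mk.1 (MulAction.mem_stabilizer_iff.1 h)
  · intro h
    exact MulAction.mem_stabilizer_iff.2 (mk_eq_mk.2 h)

end OvAux

theorem card_over [Fact p.Prime] [CharP k p] [IsAlgClosed k] [Finite A] {C N H : Subgroup A}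
    [hC : C.Normal] (hh : HypExt p C N H) {f : MonoidAlgebra k A} (hf : SuppIn C f)
    (hfi : InvBy ⊤ f) (hff : f * f = f) (σ : IrrInv C ⊥ f) :
    Nat.card ↥(OvSet (hh.CN.trans hh.ext.NH) f σ.ρ)
      = N.relIndex (H ⊓ stX (G := C) hfi ⟦σ⟧) := by
  set T : Subgroup A := H ⊓ stX (G := C) hfi ⟦σ⟧ with hTdef
  have hTH : T ≤ H := inf_le_left
  have hCH : C ≤ H := hh.CN.trans hh.ext.NH
  have hσ : Irr' σ.ρ := irr_iff.1 σ.irr
  have hσf : act σ.ρ f = 1 := act_iff.2 σ.blk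
  have hCT : C ≤ T := by
    intro c hc
    refine Subgroup.mem_inf.2 ⟨hCH hc, ?_⟩
    exact (OvAux.mem_st hfi σ (mem_norm_of_normal C c)).2 (iso_tw_of_mem _ hc _)
  have hT : ∀ (h : A) (hhH : h ∈ H), h ∈ T ↔ Iso (tw (hh.hC hhH) σ.ρ) σ.ρ := by
    intro h hhH
    rw [← OvAux.mem_st hfi σ (hh.hC hhH)]
    exact ⟨fun h1 => (Subgroup.mem_inf.1 h1).2, fun h1 => Subgroup.mem_inf.2 ⟨hhH, h1⟩⟩
  have h1 := clifford hCT hTH hh.hC hf (hfi.mono le_top) hff hσ hσf hT
  refine h1.trans ?_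
  -- the group `U`
  have hUT : N ⊓ T ≤ T := inf_le_right
  have hCU : C ≤ N ⊓ T := le_inf hh.CN hCT
  have hc : CycExt p (N ⊓ T) T := hh.ext.sub hTH
  have hUC : N ⊓ T ≤ Subgroup.normalizer (C : Set A) := fun x _ => mem_norm_of_normal C x
  have hTC : T ≤ Subgroup.normalizer (C : Set A) := fun x _ => mem_norm_of_normal C x
  have hp : ∀ x ∈ N ⊓ T, ∃ n : ℕ, x ^ p ^ n ∈ C := fun x hx => hh.pgrp x (Subgroup.mem_inf.1 hx).1
  obtain ⟨n₀, γ₀, hγ₀, hov⟩ := exists_over (N := N ⊓ T) hCU hσ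
  have hγ₀f : act γ₀ f = 1 := (over_blk hγ₀ hσ hov hf (hfi.mono le_top) hff).2 hσf
  have hst : ∀ (t : A) (ht : t ∈ T), Iso (tw (hc.hN ht) γ₀) γ₀ := by
    intro t ht
    have hi : Iso (tw (mem_norm_of_normal C t) σ.ρ) σ.ρ :=
      (OvAux.mem_st hfi σ _).1 (Subgroup.mem_inf.1 ht).2
    have h2 := hov.tw (hc.hN ht) (mem_norm_of_normal C t)
    exact over_unique hCU hUC hp (hγ₀.tw _) hγ₀ hσ (h2.congr_right hi) hov
  have key : OvSet hCT f σ.ρ = OvSet hc.NH f γ₀ := by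
    ext c
    constructor
    · rintro ⟨γ, hγc, hγ⟩
      refine ⟨γ, hγc, ?_⟩
      have hγi : Irr' γ.ρ := irr_iff.1 γ.irr
      obtain ⟨n₁, γ₁, hγ₁, hov₁⟩ := exists_under hUT hγi
      obtain ⟨n₂, σ₁, hσ₁, hov₂⟩ := exists_under hCU hγ₁
      obtain ⟨t, ht, hiso⟩ := under_conj hCT hTC hγi hσ₁ hσ
        (OvAux.over_trans hCU hUT hγ₁ hov₁ hov₂) hγ
      have ht' : t⁻¹ ∈ T := T.inv_mem ht
      have hiso1 : Iso σ₁ (tw (hTC ht') σ.ρ) := by
        have h3 := hiso.tw (hTC ht')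
        rw [tw_tw (hTC ht') (hTC ht) (by rw [inv_mul_cancel]; exact Subgroup.one_mem _)] at h3
        refine Iso.trans (Iso.symm ?_) h3
        have h4 : ∀ (a : A) (ha : a ∈ Subgroup.normalizer (C : Set A)), a = 1 →
            Iso (tw ha σ₁) σ₁ := by
          intro a ha h
          subst h
          rw [tw_one]
          exact Iso.refl _
        exact h4 _ _ (inv_mul_cancel t)
      have hiso2 : Iso (tw (hTC ht') σ.ρ) σ.ρ :=
        (OvAux.mem_st hfi σ _).1 (Subgroup.mem_inf.1 ht').2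
      have h5 : Over hCU γ₁ σ.ρ := hov₂.congr_right (hiso1.trans hiso2)
      have h6 : Iso γ₁ γ₀ := over_unique hCU hUC hp hγ₁ hγ₀ hσ h5 hov
      exact hov₁.congr_right h6
    · rintro ⟨γ, hγc, hγ⟩
      exact ⟨γ, hγc, OvAux.over_trans hCU hUT hγ₀ hγ hov⟩
  rw [key, card_ext hc (fun x hx => hCU (hf x hx)) (hfi.mono le_top) hff hγ₀ hγ₀f hst]
  exact Subgroup.inf_relIndex_right N T

end Pool.Agent.Lib.P0c8ca5.Cy
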