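import Mathlib
import Pool.Agent.Lib.P0c8ca5C.Ov

/-!
# Module HOne: the number of irreducible representations of `H` in `f`

PROOF.  Let `Rl x c` for `x : IrX C f`, `c : IrX H f` mean: `∃ σ γ, ⟦σ⟧ = x`, `⟦γ⟧ = c`,
`Over (hh.CN.trans hh.ext.NH) γ.ρ σ.ρ` (independent of the representatives: `Over.congr_left`,
`Over.congr_right`, `mk_eq_mk`).  For fixed `c` the `x` with `Rl x c` form one orbit of `H`
(nonempty: `exists_under`, `over_blk`; `under_conj`; if `Rl x c` then `Rl (h • x) c` by `Over.tw` and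
`iso_tw_of_mem`), so `∑ |H ⊓ stX x|` over these `x` is `|H|` (`sum_orbit`, with the action `actX hfi`).
For fixed `x = ⟦σ⟧` the number of the `c` with `Rl x c` is `N.relIndex (H ⊓ stX x)` (`card_over`).
Sum over all pairs.  (Compare the proofs of `cnt_eq` and `cnt_stX` in P0c8ca5.LHS.)
-/

namespace Pool.Agent.Lib.P0c8ca5.Cy

open MonoidAlgebra

variable {p : ℕ} {k : Type*} [Field k] {A : Type*} [Group A]

private theorem double_count {X : Type*} [MulAction A X] [Finite A] [Fintype X] (N H : Subgroup A)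
    {C : Type*} [Finite C] (Rl : X → C → Prop)
    (ha : ∀ c, ∃ x, Rl x c) (hb : ∀ x y c, Rl x c → (Rl y c ↔ ∃ h ∈ H, y = h • x))
    (hc : ∀ x, Nat.card {c // Rl x c} = N.relIndex (H ⊓ MulAction.stabilizer A x)) :
    Nat.card H * Nat.card C = ∑ x : X, Nat.card ↥(H ⊓ MulAction.stabilizer A x) *
      N.relIndex (H ⊓ MulAction.stabilizer A x) := by
  classical
  have : Fintype C := Fintype.ofFinite C
  have h1 : ∀ x : X, Nat.card ↥(H ⊓ MulAction.stabilizer A x) *
      N.relIndex (H ⊓ MulAction.stabilizer A x)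
      = ∑ c : C, if Rl x c then Nat.card ↥(H ⊓ MulAction.stabilizer A x) else 0 := by
    intro x
    rw [← hc x, ← Finset.sum_filter, Finset.sum_const, smul_eq_mul, mul_comm,
      Nat.card_eq_fintype_card, Fintype.card_subtype]
  rw [Finset.sum_congr rfl (fun x _ => h1 x), Finset.sum_comm]
  have h2 : ∀ c : C, (∑ x : X, if Rl x c then Nat.card ↥(H ⊓ MulAction.stabilizer A x) else 0)
      = Nat.card H := by
    intro c
    obtain ⟨x₀, hx₀⟩ := ha c
    rw [← Finset.sum_filter]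
    apply sum_orbit H x₀
    intro y
    rw [Finset.mem_filter]
    constructor
    · rintro ⟨_, hy⟩
      exact (hb x₀ y c hx₀).1 hy
    · intro h
      exact ⟨Finset.mem_univ _, (hb x₀ y c hx₀).2 h⟩
  rw [Finset.sum_congr rfl (fun c _ => h2 c), Finset.sum_const, Finset.card_univ,
    smul_eq_mul, mul_comm, Nat.card_eq_fintype_card (α := C)]

theorem card_irX_psi [Fact p.Prime] [CharP k p] [IsAlgClosed k] [Finite A] {C N H : Subgroup A}
    [hC : C.Normal] (hh : HypExt p C N H) {f : MonoidAlgebra k A} (hf : SuppIn C f)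
    (hfi : InvBy ⊤ f) (hff : f * f = f) [Fintype (IrX C f)] :
    Nat.card H * Nat.card (IrX H f) = Psi N H (stX (G := C) hfi) := by
  let _ := actX (G := C) hfi
  have hCH : C ≤ H := hh.CN.trans hh.ext.NH
  have hsm : ∀ (a : A) (σ : IrrInv C ⊥ f) (σ' : IrrInv C ⊥ f),
      (⟦σ'⟧ : IrX C f) = a • (⟦σ⟧ : IrX C f) ↔ Iso (tw (mem_norm_of_normal C a) σ.ρ) σ'.ρ := by
    intro a σ σ'
    constructor
    · intro h; exact mk_eq_mk.1 h.symm
    · intro h; exact (mk_eq_mk.2 h).symm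
  have hnG : H ≤ Subgroup.normalizer (C : Set A) := fun x _ => mem_norm_of_normal C x
  have heN : InvBy H f := hfi.mono le_top
  let Rl : IrX C f → IrX H f → Prop := fun x c =>
    ∃ (σ : IrrInv C ⊥ f) (ρ : IrrInv H ⊥ f), ⟦σ⟧ = x ∧ ⟦ρ⟧ = c ∧ Over hCH ρ.ρ σ.ρ
  have hRl : ∀ (σ : IrrInv C ⊥ f) (ρ : IrrInv H ⊥ f), Rl ⟦σ⟧ ⟦ρ⟧ ↔ Over hCH ρ.ρ σ.ρ := by
    intro σ ρ
    constructor
    · rintro ⟨σ', ρ', h1, h2, h3⟩
      exact (h3.congr_right (mk_eq_mk.1 h1)).congr_left (mk_eq_mk.1 h2)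
    · intro h; exact ⟨σ, ρ, rfl, rfl, h⟩
  have hRb : ∀ x y c, Rl x c → (Rl y c ↔ ∃ n ∈ H, y = n • x) := by
    intro x y c
    induction x using Quotient.inductionOn with
    | _ σ =>
    induction y using Quotient.inductionOn with
    | _ σ' =>
    induction c using Quotient.inductionOn with
    | _ ρ =>
    intro h
    rw [hRl] at h ⊢
    constructor
    · intro h'
      obtain ⟨n, hnN, hiso⟩ := under_conj hCH hnG (irr_iff.1 ρ.irr) (irr_iff.1 σ.irr)
        (irr_iff.1 σ'.irr) h h'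
      exact ⟨n, hnN, (hsm _ _ _).2 hiso⟩
    · rintro ⟨n, hnN, hy⟩
      rw [hsm] at hy
      have h1 := h.tw (Subgroup.le_normalizer hnN) (mem_norm_of_normal C n)
      exact (h1.congr_right hy).congr_left (iso_tw_of_mem _ hnN _)
  have hmain := double_count (A := A) N H Rl ?_ hRb ?_
  · exact hmain
  · intro c
    induction c using Quotient.inductionOn with
    | _ ρ =>
    obtain ⟨m, σ, h1, h2⟩ := exists_under hCH (irr_iff.1 ρ.irr)
    have h3 := (over_blk (irr_iff.1 ρ.irr) h1 h2 hf heN hff).1 (act_iff.2 ρ.blk)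
    exact ⟨⟦mkIrr σ h1 h3⟧, (hRl _ _).2 h2⟩
  · intro x
    induction x using Quotient.inductionOn with
    | _ σ =>
    have h1 := card_over hh hf hfi hff σ
    have h2 : {c : IrX H f | Rl ⟦σ⟧ c} = OvSet (hh.CN.trans hh.ext.NH) f σ.ρ := by
      ext c
      constructor
      · intro hc
        induction c using Quotient.inductionOn with
        | _ ρ =>
        exact ⟨ρ, rfl, (hRl σ ρ).1 hc⟩
      · rintro ⟨γ, rfl, hγ⟩
        exact (hRl σ γ).2 hγ
    rw [← h2] at h1
    exact h1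

end Pool.Agent.Lib.P0c8ca5.Cy
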