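import Mathlib
import Pool.Agent.Lib.P0c8ca5C.Hyp
import Pool.Agent.Lib.P0c8ca5.Reg
import Pool.Agent.Lib.P0c8ca5R.CardDZ
import Pool.Agent.Lib.P0c8ca5N.WSum

/-!
# Module DzA: blocks of a group and of a normal subgroup

PROOFS.
`mul_orbSum`: `orbSum H g` is a central idempotent of `kH` (`orbSum_mem`, `orbSum_idem`, `orbSum_invBy`,
P0c8ca5.Reg), `orbSum H g * g = g` (`orbSum_mul` with `h = 1`, `self_mem_orb`), so `γ * orbSum H g ≠ 0`
and `IsBlock.mul_eq` gives the claim.
`act_ne_of_mul_ne`: if `act S g = 0` then `act S (cj h g) = 0` for `h ∈ H` (`act_cj` in P0c8ca5P.FrD is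
the case `H = ⊤`: `cj h g = single h 1 * g * single h⁻¹ 1`, `act_mul`), so
`act S (orbSum H g) = 0` (`act_sum` in P0c8ca5N.WSum), and `1 = act S γ = act S (γ * orbSum H g)`
`= act S γ * act S (orbSum H g) = 0` (`act_mul`), a contradiction.
`exists_under_block`: `act S g` is idempotent and commutes with `N` (`act_mul`, `act_comm`).  Its range
`W ≠ 0` is `N`-stable; let `W → τ` be an irreducible quotient (`exists_irr_quot`, transported to
`Fin l → k` as in `exists_under`); the composition `V → W → τ` of `act S g` with it is a nonzero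
`N`-map; `act τ g = 1` because `act S g` is the identity on `W` (`act_over`).
`block_of_act`: `∑ b = 1` over the blocks `b` of `kH` (`sum_blocks` in P0c8ca5N.WSum for the idempotent
`1`), so some `act S b ≠ 0` (`act_sum`), and `act_zero_or_one`.
`dz_up`: let `P ≤ H` be a p-subgroup with `HasBr P γ`.  `P ≤ N` (`CycExt.le_of_pGroup`).  `γ` and
`orbSum H g` are fixed by `P` and `γ * orbSum H g = γ`, so `HasBr P (orbSum H g)` (`hasBr_of_mul`).  Some
`x` in the centralizer of `P` has `(orbSum H g).coeff x ≠ 0`, so `(cj h g).coeff x ≠ 0` for some `h ∈ H`;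
`cj h g` is a block of defect zero of `N` (`orb_isDZ`), so `P = ⊥`.
-/

namespace Pool.Agent.Lib.P0c8ca5.Cy

open MonoidAlgebra

variable {p : ℕ} {k : Type*} [Field k] {A : Type*} [Group A]

namespace DzAAux

theorem supp_single {L : Subgroup A} {h : A} (hh : h ∈ L) :
    SuppIn L (single h (1 : k)) := by
  intro x hx
  rw [coeff_single] at hx
  have : h = x := by
    by_contra hne
    exact hx (Finsupp.single_eq_of_ne (Ne.symm hne))
  rwa [← this]

theorem act_one' [Finite A] {N : Subgroup A} {V : Type*} [AddCommGroup V] [Module k V]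
    (ρ : Representation k N V) : act ρ (1 : MonoidAlgebra k A) = 1 := by
  classical
  have : Fintype N := Fintype.ofFinite _
  have h1 : (1 : MonoidAlgebra k A) = single (1 : A) (1 : k) := rfl
  ext v
  rw [act_apply, Finset.sum_eq_single (1 : N)]
  · rw [h1, coeff_single, map_one]
    change (Finsupp.single (1 : A) (1 : k)) 1 • v = v
    rw [Finsupp.single_eq_same, one_smul]
  · intro x _ hx
    rw [h1, coeff_single, Finsupp.single_eq_of_ne, zero_smul]
    intro h
    exact hx (Subtype.ext h)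
  · intro h
    exact absurd (Finset.mem_univ _) h

theorem orbSum_fix [Fintype A] {N H : Subgroup A} (hNH : N ≤ H)
    (hn : H ≤ Subgroup.normalizer (N : Set A)) {g : MonoidAlgebra k A}
    (hg : IsBlock N g) : orbSum H g ∈ fixAlg k H H :=
  mem_fixAlg.2 ⟨(mem_fixAlg.1 (orbSum_mem hn hg)).1.mono hNH, orbSum_invBy H g⟩

end DzAAux

open DzAAux in
theorem mul_orbSum [Fintype A] {N H : Subgroup A} (hNH : N ≤ H)
    (hn : H ≤ Subgroup.normalizer (N : Set A)) {γ g : MonoidAlgebra k A} (hγ : IsBlock H γ)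
    (hg : IsBlock N g) (hne : γ * g ≠ 0) : γ * orbSum H g = γ := by
  have hfix := orbSum_fix hNH hn hg
  have hcomm : γ * orbSum H g = orbSum H g * γ := commute_of hγ.suppIn (mem_fixAlg.1 hfix).2
  rcases hγ.mul_eq hfix (orbSum_idem hn hg) with h | h
  · exfalso
    apply hne
    calc γ * g = γ * (orbSum H g * g) := by rw [orbSum_mul hn hg g (self_mem_orb H g)]
      _ = (orbSum H g * γ) * g := by rw [← mul_assoc, hcomm]
      _ = 0 := by rw [h, zero_mul]
  · rw [hcomm, h]

open DzAAux in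
theorem act_ne_of_mul_ne [Fintype A] {N H : Subgroup A} (hNH : N ≤ H)
    (hn : H ≤ Subgroup.normalizer (N : Set A)) {γ g : MonoidAlgebra k A} (hγ : IsBlock H γ)
    (hg : IsBlock N g) (hne : γ * g ≠ 0) {m : ℕ} {S : Rp k H m} (hS : Irr' S)
    (hSγ : act S γ = 1) : act S g ≠ 0 := by
  intro h0
  have h1 : ∀ z ∈ orb H g, act S z = 0 := by
    intro z hz
    obtain ⟨h, hh, rfl⟩ := mem_orb.1 hz
    have s1 : SuppIn H (single h (1 : k)) := supp_single hh
    rw [cj, act_mul S (s1.mul (hg.suppIn.mono hNH)), act_mul S s1, h0, mul_zero, zero_mul]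
  have h2 : act S (orbSum H g) = 0 := by
    rw [orbSum, WSumAux.act_sum]
    exact Finset.sum_eq_zero h1
  have h3 : act S γ = 0 := by
    conv_lhs => rw [← mul_orbSum hNH hn hγ hg hne]
    rw [act_mul S hγ.suppIn, h2, mul_zero]
  have := hS.nontriv
  obtain ⟨v, hv⟩ := exists_ne (0 : Fin m → k)
  rw [hSγ] at h3
  exact hv (LinearMap.congr_fun h3 v)

theorem exists_under_block [Fintype A] {N H : Subgroup A} (hNH : N ≤ H)
    {g : MonoidAlgebra k A} (hg : IsBlock N g) {m : ℕ} {S : Rp k H m}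
    (hne : act S g ≠ 0) :
    ∃ (l : ℕ) (τ : Rp k N l), Irr' τ ∧ act τ g = 1 ∧ Over hNH S τ := by
  -- the restriction to `N`
  let S' : Representation k N (Fin m → k) := S.comp (Subgroup.inclusion hNH)
  have hS' : ∀ v, act S g v = act S' g v := fun v =>
    act_over hNH (LinearMap.id : (Fin m → k) →ₗ[k] (Fin m → k)) (σ := S') (fun _ _ => rfl)
      hg.suppIn v
  have hidem : ∀ v, act S' g (act S' g v) = act S' g v := by
    intro v
    rw [← Module.End.mul_apply, ← act_mul S' hg.suppIn, hg.idem]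
  set W : Submodule k (Fin m → k) := LinearMap.range (act S' g) with hWd
  have hW : ∀ n, ∀ w ∈ W, S' n w ∈ W := by
    rintro n _ ⟨v, rfl⟩
    exact ⟨S' n v, act_comm S' hg.invBy n v⟩
  have hWn : Nontrivial W := by
    rw [Submodule.nontrivial_iff_ne_bot]
    intro h
    apply hne
    refine LinearMap.ext fun v => ?_
    rw [hS']
    have h1 : act S' g v ∈ W := ⟨v, rfl⟩
    rw [h, Submodule.mem_bot] at h1
    exact h1
  obtain ⟨U, hU, hUirr⟩ := exists_irr_quot (subRep S' W hW)
  let E : (W ⧸ U) ≃ₗ[k] (Fin (Module.finrank k (W ⧸ U)) → k) :=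
    (Module.finBasis k (W ⧸ U)).equivFun
  let r : (Fin m → k) →ₗ[k] W := (act S' g).rangeRestrict
  have hr : ∀ v, ((r v : W) : Fin m → k) = act S' g v := fun _ => rfl
  have hrs : Function.Surjective r := LinearMap.surjective_rangeRestrict _
  let π : (Fin m → k) →ₗ[k] (Fin (Module.finrank k (W ⧸ U)) → k) :=
    E.toLinearMap ∘ₗ U.mkQ ∘ₗ r
  have hπ : ∀ v, π v = E (U.mkQ (r v)) := fun _ => rfl
  have hπs : Function.Surjective π :=
    E.surjective.comp ((Submodule.mkQ_surjective U).comp hrs)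
  have hπN : ∀ (n : N) (v : Fin m → k),
      π (S (Subgroup.inclusion hNH n) v) = trRep (quotRep _ U hU) E n (π v) := by
    intro n v
    rw [hπ, hπ, trRep_apply]
    congr 1
    have h1 : r (S (Subgroup.inclusion hNH n) v) = subRep S' W hW n (r v) :=
      Subtype.ext (act_comm S' hg.invBy n v)
    rw [h1]
    rfl
  refine ⟨_, trRep (quotRep _ U hU) E, hUirr.trRep E, ?_, π, ?_, hπN⟩
  · refine LinearMap.ext fun w => ?_
    obtain ⟨v, rfl⟩ := hπs w
    rw [← act_over hNH π hπN hg.suppIn v]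
    change π (act S g v) = π v
    rw [hπ, hπ]
    congr 2
    apply Subtype.ext
    rw [hr, hr, hS']
    exact hidem v
  · intro h0
    have := hUirr.nontriv
    obtain ⟨w, hw⟩ := exists_ne (0 : W ⧸ U)
    obtain ⟨v, hv⟩ := hπs (E w)
    apply hw
    apply E.injective
    rw [map_zero, ← hv, h0]
    rfl

open DzAAux in
theorem block_of_act [Fact p.Prime] [CharP k p] [IsAlgClosed k] [Fintype A] {H : Subgroup A}
    {m : ℕ} {S : Rp k H m} (hS : Irr' S) :
    ∃ γ : MonoidAlgebra k A, IsBlock H γ ∧ act S γ = 1 := by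
  classical
  have h1 : (1 : MonoidAlgebra k A) ∈ fixAlg k H H := (fixAlg k H H).one_mem
  have hB : ∀ b, b ∈ (finite_isBlock (k := k) H).toFinset ↔
      IsBlock H b ∧ b * (1 : MonoidAlgebra k A) ≠ 0 := by
    intro b
    rw [Set.Finite.mem_toFinset]
    constructor
    · intro hb
      exact ⟨hb, by rw [mul_one]; exact IsBlock.ne_zero hb⟩
    · intro hb
      exact hb.1
  have hsum := WSumAux.sum_blocks (p := p) h1 (one_mul 1) _ hB
  have h2 : ∑ b ∈ (finite_isBlock (k := k) H).toFinset, act S b = 1 := by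
    rw [← WSumAux.act_sum, hsum, act_one']
  have h3 : ∃ b ∈ (finite_isBlock (k := k) H).toFinset, act S b ≠ 0 := by
    by_contra hcon
    push Not at hcon
    rw [Finset.sum_eq_zero hcon] at h2
    have := hS.nontriv
    obtain ⟨v, hv⟩ := exists_ne (0 : Fin m → k)
    exact hv (LinearMap.congr_fun h2 v).symm
  obtain ⟨b, hb, hne⟩ := h3
  have hb' : IsBlock H b := ((hB b).1 hb).1
  refine ⟨b, hb', ?_⟩
  rcases act_zero_or_one hS hb'.suppIn hb'.invBy hb'.idem with h | h
  · exact absurd h hne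
  · exact h

theorem dz_up [Fact p.Prime] [CharP k p] [IsAlgClosed k] [Fintype A] {N H : Subgroup A}
    (hc : CycExt p N H) {γ g : MonoidAlgebra k A} (hγ : IsBlock H γ) (hg : IsDZ p N g)
    (hne : γ * g ≠ 0) : IsDZ p H γ := by
  classical
  refine ⟨hγ, fun P hPH hP hbr => ?_⟩
  have hPN : P ≤ N := hc.le_of_pGroup hPH hP
  have h1 : InvBy P γ := hγ.invBy.mono hPH
  have h2 : InvBy P (orbSum H g) := (orbSum_invBy H g).mono hPH
  have h3 : HasBr P (orbSum H g) :=
    hasBr_of_mul hP h1 h2 (mul_orbSum hc.NH hc.hN hγ hg.blk hne) hbr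
  obtain ⟨x, hx, hfx⟩ := h3
  have h4 : ∃ z ∈ orb H g, z.coeff x ≠ 0 := by
    by_contra hcon
    push Not at hcon
    apply hfx
    rw [orbSum, coeff_sum, Finsupp.finsetSum_apply]
    exact Finset.sum_eq_zero hcon
  obtain ⟨z, hz, hzx⟩ := h4
  exact (orb_isDZ hc.hN hg z hz).dz P hPN hP ⟨x, hx, hzx⟩

end Pool.Agent.Lib.P0c8ca5.Cy
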