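import Mathlib
import Pool.Agent.Lib.P0c8ca5C.Defs
import Pool.Agent.Lib.P0c8ca5R.CardDZ
import Pool.Agent.Lib.P0c8ca5R.PartA2

/-!
# Module DzTr: a block with an irreducible representation whose identity is a trace has defect zero

PROOF.  By density (`ChBAux.density` for one representation, with `Rk.CardDZAux.up` and
`Rk.CardDZAux.act_up`; see the proof of `Rk.CardDZAux.unique_rep` in P0c8ca5R.CardDZ) there is `v` in `kN`
with `act τ v = β`.  `z = trK N v` is in the centre of `kN` and acts on `τ` as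
`trS N (ofRep τ) (ofRep τ) β = 1` (`Rk.trS_ac`, `Rk.ac_ofRep`).  The centre times `g` is local:
`hg.primIdem.nilp_or_unit ⟨z, _⟩` (as in `unique_rep`): `z * g` is nilpotent, which is impossible since
it acts as `1`, or `z * w * g = g` for some `w` in the centre of `kN`.  So
`g = trK N v * (w * g) = trK N (v * (w * g))` (`trK_mul`, P0c8ca5.Trace), that is `g = trK N v'` with
`v'` in `kN`.  Let `P ≤ N` be a p-subgroup and `x` in its centralizer with `g.coeff x ≠ 0`.
`g.coeff x = ∑ h ∈ N, v'.coeff (h⁻¹ * x * h)` and the summand is the same for `h` and `u * h`, `u ∈ P`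
(`u⁻¹ * x * u = x`), so the sum is a multiple of `|P|` (partition of `N` in the cosets `P h`;
alternatively: `P` acts on `N` by left multiplication without fixed points if `P ≠ ⊥`, and
`sum_eq_sum_fixed` of P0c8ca5.Basic shows that the sum is zero).  As `k` has characteristic `p` and the
sum is not zero, `P = ⊥`.
-/

namespace Pool.Agent.Lib.P0c8ca5.Cy

open MonoidAlgebra

variable {p : ℕ} {k : Type*} [Field k] {A : Type*} [Group A]

theorem isDZ_of_trace [Fact p.Prime] [CharP k p] [IsAlgClosed k] [Fintype A] {N : Subgroup A}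
    {g : MonoidAlgebra k A} (hg : IsBlock N g) {m : ℕ} {τ : Rp k N m} (hτ : Irr' τ)
    (hτg : act τ g = 1) (β : (Fin m → k) →ₗ[k] (Fin m → k))
    (hβ : Rk.trS N (Rk.ofRep τ) (Rk.ofRep τ) β = 1) : IsDZ p N g := by
  classical
  obtain ⟨v₀, -, hv0⟩ := ChBAux.density (ι := Unit) (fun _ => m) (fun _ => τ)
    (fun _ => irr_iff.2 hτ) (fun i j hij => absurd (Subsingleton.elim i j) hij) () β
  have hvN : SuppIn N (Rk.CardDZAux.up N v₀) := Rk.CardDZAux.up_suppIn N v₀
  have hvτ : act τ (Rk.CardDZAux.up N v₀) = β := by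
    rw [Rk.CardDZAux.act_up]
    exact hv0
  generalize Rk.CardDZAux.up N v₀ = v at hvN hvτ
  have hzmem : trK N v ∈ fixAlg k N N :=
    mem_fixAlg.2 ⟨trK_suppIn Subgroup.le_normalizer hvN, trK_invBy N v⟩
  have hzτ : act τ (trK N v) = 1 := by
    rw [← Rk.ac_ofRep, ← Rk.trS_ac (Rk.isRep_ofRep τ) (le_refl N) hvN, Rk.ac_ofRep, hvτ, hβ]
  have hA : IsArtinianRing (fixAlg k N N) := IsArtinianRing.of_finite k _
  have hnt := hτ.nontriv
  rcases hg.primIdem.nilp_or_unit ⟨trK N v, hzmem⟩ with ⟨r, hr⟩ | ⟨w, hw⟩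
  · exfalso
    have h3 : (trK N v * g) ^ r = 0 := congrArg Subtype.val hr
    have h4 : ∀ r : ℕ, act τ ((trK N v * g) ^ (r + 1)) = 1 := by
      intro r
      induction r with
      | zero =>
        rw [zero_add, pow_one, act_mul τ (mem_fixAlg.1 hzmem).1, hzτ, hτg, one_mul]
      | succ r ih =>
        rw [pow_succ', act_mul τ ((mem_fixAlg.1 hzmem).1.mul hg.suppIn), ih,
          act_mul τ (mem_fixAlg.1 hzmem).1, hzτ, hτg, one_mul, one_mul]
    have h5 := h4 r
    rw [pow_succ, h3, zero_mul] at h5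
    have h6 : act τ (0 : MonoidAlgebra k A) = 0 := by
      have : Fintype N := Fintype.ofFinite N
      apply LinearMap.ext
      intro u
      rw [act_apply]
      apply Finset.sum_eq_zero
      intro x _
      exact zero_smul _ _
    rw [h6] at h5
    exact zero_ne_one h5
  · have h2 : trK N v * (w : MonoidAlgebra k A) * g = g := congrArg Subtype.val hw
    have hinv : InvBy N ((w : MonoidAlgebra k A) * g) :=
      (mem_fixAlg.1 (Subalgebra.mul_mem _ w.2 hg.mem)).2
    have h3 : g = trK N (v * ((w : MonoidAlgebra k A) * g)) := by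
      rw [trK_mul v hinv, ← mul_assoc, h2]
    refine ⟨hg, fun P hP hpP hbr => ?_⟩
    by_contra hne
    obtain ⟨y, hy, hy'⟩ := hbr
    apply hy'
    rw [h3]
    exact coeff_trK_eq_zero hpP hP hne _ hy

end Pool.Agent.Lib.P0c8ca5.Cy
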