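import Mathlib
import Pool.Agent.Lib.P0c8ca5C.DzA
import Pool.Agent.Lib.P0c8ca5C.DzTr

/-!
# Module DzDown: the blocks of a normal subgroup covered by a block of defect zero have defect zero

PROOF.  `Rk.CardDZAux.exists_rep hγ.blk` gives an irreducible `S : Rp k H m` with `act S γ = 1`; by
`act_ne_of_mul_ne` `act S g ≠ 0`, and `exists_under_block` gives an irreducible `σ` of `N` with
`act σ g = 1` and a nonzero `N`-map `π : S → σ`.  `lemC hγ ...` (as at the beginning of the proof of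
`Rk.CardDZAux.unique_rep`) gives `γ = trK H a` with `a` in `kH`, so with `α = act S a`
`trS H (ofRep S) (ofRep S) α = act S γ = 1` (`Rk.trS_ac`, `Rk.ac_ofRep`).  Let `X` be representatives of
the cosets `N x` in `H`; as `∑_{h ∈ H} = ∑_{x ∈ X} ∑_{n ∈ N}` (`h = n x`) and
`hc (n x) α = hc n (hc x α)` (`Rk.hc_mul`), `1 = ∑_{n ∈ N} hc n α'` with `α' = ∑_{x ∈ X} hc x α`
(`Rk.exists_trS_sub` in P0c8ca5R.Tr may give this directly).
Let `τ` be the restriction of `S` to an irreducible `N`-submodule `U` of the space of `S` (`exists_irr_sub`),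
`j : U → V` the inclusion.  We want `U` in `g`: take for `U` an irreducible submodule of the range of
`act S g` (`N`-stable, not zero; `act S g` is the identity on it), so `act τ g = 1`.  By
`exists_twist_iso` there is `n ∈ H` with `π ∘ S n ∘ j` bijective; `r = (π ∘ S n ∘ j)⁻¹ ∘ π ∘ S n` is an
`N`-map `V → U` (`π (S n (S x v)) = σ (n x n⁻¹) (π (S n v))`, and the same for `π ∘ S n ∘ j`) with
`r ∘ j = 1`.  So `1 = r ∘ (∑_{n ∈ N} hc n α') ∘ j = ∑_{n ∈ N} hc n (r ∘ α' ∘ j)`, a trace on `τ`.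
Transport `τ` to `Fin l → k` (`exists_irr_sub_fin`) and use `isDZ_of_trace`.
-/

namespace Pool.Agent.Lib.P0c8ca5.Cy

open MonoidAlgebra

variable {p : ℕ} {k : Type*} [Field k] {A : Type*} [Group A]

theorem dz_down [Fact p.Prime] [CharP k p] [IsAlgClosed k] [Fintype A] {N H : Subgroup A}
    (hNH : N ≤ H) (hn : H ≤ Subgroup.normalizer (N : Set A)) {γ g : MonoidAlgebra k A}
    (hγ : IsDZ p H γ) (hg : IsBlock N g) (hne : γ * g ≠ 0) : IsDZ p N g := by
  classical
  obtain ⟨m, S, hS, hSγ⟩ := Rk.CardDZAux.exists_rep hγ.blk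
  have hSg : act S g ≠ 0 := act_ne_of_mul_ne hNH hn hγ.blk hg hne hS hSγ
  obtain ⟨l, σ, hσ, hσg, π, hπ0, hπ⟩ := exists_under_block hNH hg hSg
  obtain ⟨P, a, -, -, -, -, -, haH, -, hfa, -⟩ := lemC hγ hγ.blk.invBy (le_refl H)
    Subgroup.le_normalizer (fun x hx => ⟨0, by simpa using hx⟩)
  have hα : Rk.trS H (Rk.ofRep S) (Rk.ofRep S) (act S a) = 1 := by
    rw [← Rk.ac_ofRep, Rk.trS_ac (Rk.isRep_ofRep S) (le_refl H) haH, ← hfa, Rk.ac_ofRep, hSγ]
  obtain ⟨α', hα'⟩ := Rk.exists_trS_sub hNH (Rk.isRep_ofRep S) (Rk.isRep_ofRep S) (act S a)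
  rw [hα'] at hα
  -- the restriction of `S` to `N`
  let R : Representation k N (Fin m → k) := S.comp (Subgroup.inclusion hNH)
  have hR : ∀ (x : N) (v : Fin m → k), R x v = S (Subgroup.inclusion hNH x) v := fun _ _ => rfl
  have hactR : ∀ v, act R g v = act S g v := by
    intro v
    exact (act_over hNH (ρ := S) (σ := R) LinearMap.id (fun _ _ => rfl) hg.suppIn v).symm
  let W : Submodule k (Fin m → k) := LinearMap.range (act S g)
  have hmem : ∀ w ∈ W, act S g w = w := by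
    rintro _ ⟨v, rfl⟩
    rw [← Module.End.mul_apply, ← act_mul S (fun x hx => hNH (hg.suppIn x hx)), hg.idem]
  have hcomm : ∀ (x : N) (v : Fin m → k), act S g (R x v) = R x (act S g v) := by
    intro x v
    rw [← hactR, ← hactR]
    exact act_comm R hg.invBy x v
  have hW : ∀ (x : N), ∀ w ∈ W, R x w ∈ W := by
    rintro x _ ⟨v, rfl⟩
    exact ⟨R x v, hcomm x v⟩
  have hnt : Nontrivial W := by
    rw [Submodule.nontrivial_iff_ne_bot]
    intro h
    apply hSg
    exact LinearMap.range_eq_bot.1 h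
  obtain ⟨W', hW', l', τ, E, -, hτ, hE⟩ := exists_irr_sub_fin (subRep R W hW)
  let j : (Fin l' → k) →ₗ[k] (Fin m → k) := W.subtype ∘ₗ W'.subtype ∘ₗ E.symm.toLinearMap
  have hj : Function.Injective j :=
    W.injective_subtype.comp (W'.injective_subtype.comp E.symm.injective)
  have hj' : ∀ (x : N) (u : Fin l' → k), j (τ x u) = R x (j u) := by
    intro x u
    obtain ⟨w, rfl⟩ := E.surjective u
    have h1 : E.symm (τ x (E w)) = subRep (subRep R W hW) W' hW' x w := by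
      rw [hE, LinearEquiv.symm_apply_apply]
    change ((E.symm (τ x (E w)) : W) : Fin m → k) = R x ((E.symm (E w) : W) : Fin m → k)
    rw [h1, LinearEquiv.symm_apply_apply]
    rfl
  have hjW : ∀ u, act S g (j u) = j u := fun u => hmem _ (E.symm u : W).2
  have hτg : act τ g = 1 := by
    apply LinearMap.ext
    intro u
    apply hj
    have h1 := act_over (le_refl N) (ρ := τ) (σ := R) j (fun x u => hj' x u) hg.suppIn u
    rw [h1, hactR, hjW]
    rfl
  obtain ⟨n, hbij⟩ := exists_twist_iso hNH hn hS hσ π hπ0 hπ hτ j hj hj'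
  let φ : (Fin l' → k) ≃ₗ[k] (Fin l → k) := LinearEquiv.ofBijective (π ∘ₗ S n ∘ₗ j) hbij
  have hφ : ∀ u, φ u = π (S n (j u)) := fun _ => rfl
  let r : (Fin m → k) →ₗ[k] (Fin l' → k) := φ.symm.toLinearMap ∘ₗ π ∘ₗ S n
  have hφr : ∀ v, φ (r v) = π (S n v) := fun v => LinearEquiv.apply_symm_apply φ _
  have hrj : ∀ u, r (j u) = u := by
    intro u
    apply φ.injective
    rw [hφr, hφ]
  have hkey : ∀ (x : N), ∃ y : N, ∀ v, π (S n (R x v)) = σ y (π (S n v)) := by
    intro x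
    have hy : (n : A) * x * (n : A)⁻¹ ∈ N := (Subgroup.mem_normalizer_iff.1 (hn n.2) x).1 x.2
    refine ⟨⟨_, hy⟩, fun v => ?_⟩
    rw [← hπ, hR, ← Module.End.mul_apply, ← map_mul, ← Module.End.mul_apply, ← map_mul]
    congr 3
    apply Subtype.ext
    change (n : A) * x = (n : A) * x * (n : A)⁻¹ * n
    group
  have hr : ∀ (x : N) (v : Fin m → k), r (R x v) = τ x (r v) := by
    intro x v
    apply φ.injective
    obtain ⟨y, hy⟩ := hkey x
    rw [hφr, hφ, hj', hy, hy, ← hφ, hφr]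
  refine isDZ_of_trace hg hτ hτg (r ∘ₗ α' ∘ₗ j) ?_
  have h1 : Rk.trS N (Rk.ofRep τ) (Rk.ofRep τ) (r ∘ₗ α' ∘ₗ j) =
      r ∘ₗ Rk.trS N (Rk.ofRep S) (Rk.ofRep S) α' ∘ₗ j := by
    apply LinearMap.ext
    intro u
    rw [Rk.trS, Rk.trS]
    simp only [LinearMap.comp_apply, LinearMap.sum_apply, map_sum]
    refine Finset.sum_congr rfl fun x hx => ?_
    have hxN : x ∈ N := (Finset.mem_filter.1 hx).2
    rw [Rk.hc_apply, Rk.hc_apply, Rk.ofRep_mem τ hxN, Rk.ofRep_mem τ (N.inv_mem hxN),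
      Rk.ofRep_mem S (hNH hxN), Rk.ofRep_mem S (hNH (N.inv_mem hxN))]
    have e1 := hj' ⟨x⁻¹, N.inv_mem hxN⟩ u
    have e2 := hr ⟨x, hxN⟩ (α' (j (τ ⟨x⁻¹, N.inv_mem hxN⟩ u)))
    refine Eq.trans (b := τ ⟨x, hxN⟩ (r (α' (j (τ ⟨x⁻¹, N.inv_mem hxN⟩ u))))) rfl ?_
    rw [← e2, e1]
    rfl
  rw [h1, hα]
  apply LinearMap.ext
  intro u
  exact hrj u

end Pool.Agent.Lib.P0c8ca5.Cy
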