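import Mathlib
import Pool.Agent.Lib.P0c8ca5C.CorrC
import Pool.Agent.Lib.P0c8ca5C.Ext
import Pool.Agent.Lib.P0c8ca5C.DzA

/-!
# Module DzOver: the number of the blocks of defect zero over a block of defect zero

PROOF.  Let `δ : Rp k N n` be irreducible with `act δ g = 1` (`Rk.CardDZAux.exists_rep`); every irreducible
representation of `N` in `g` is isomorphic to `δ` (`Rk.CardDZAux.unique_rep hg`).  `T = H ⊓ cst g`.
For `h ∈ H`: `act (tw _ δ) a = act δ (cj h⁻¹ a)` (change of variables, see `act_tw` in P0c8ca5.CliffC), so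
`act (tw _ δ) (cj h g) = 1`.  If `cj h g = g` then `tw _ δ ≅ δ` (`unique_rep`); if `tw _ δ ≅ δ` then
`act (tw _ δ) g = 1` (`act_iso`), so `act (tw _ δ) (cj h g * g) ≠ 0`, and the blocks `cj h g` and `g` of
`N` are equal (`IsBlock.eq_or_mul_eq_zero`, `orb_isBlock` or the conjugate of a block is a block).
So `clifford` (with `f = 1`) for `N ≤ T ≤ H` and `card_ext` for `N ≤ T` (`CycExt p N T` from
`CycExt.sub` and `N ⊓ T = N`: `N ≤ T` because `g` is `N`-invariant) give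
`Nat.card (OvSet _ 1 δ) = N.relIndex T` for the representations of `H`.
It remains to compare with `{γ | IsDZ p H γ ∧ γ * g ≠ 0}`: use `Fr.FrEAux.card_of_rel` and the relation
`R γ c := ∃ S : IrrInv H ⊥ 1, ⟦S⟧ = c ∧ act S.ρ γ = 1`.
`∀ γ ∃ c`: `exists_rep`, and `S` lies over `δ`: `act_ne_of_mul_ne`, `exists_under_block`, `unique_rep`,
`Over.congr_right`.  `∀ c ∃ γ`: `block_of_act` gives the block `γ` of `S`; `act S (γ * g) = act S g ≠ 0`
since `S` lies over `δ` (`act_over`), so `γ * g ≠ 0`, and `dz_up`.  Uniqueness of `γ`: orthogonality of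
blocks (`act S (γ * γ') = 1`); uniqueness of `c`: `unique_rep`.
-/

namespace Pool.Agent.Lib.P0c8ca5.Cy

open MonoidAlgebra

variable {p : ℕ} {k : Type*} [Field k] {A : Type*} [Group A]

namespace DzOverAux

variable {V : Type*} [AddCommGroup V] [Module k V]

theorem act_one [Finite A] {N : Subgroup A} (ρ : Representation k N V) :
    act ρ (1 : MonoidAlgebra k A) = 1 := by
  classical
  have : Fintype N := Fintype.ofFinite N
  ext v
  rw [act_apply, Finset.sum_eq_single (1 : N)]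
  · rw [MonoidAlgebra.one_def, coeff_single, Subgroup.coe_one, Finsupp.single_eq_same, one_smul,
      map_one]
  · intro x _ hx
    rw [MonoidAlgebra.one_def, coeff_single, Finsupp.single_eq_of_ne, zero_smul]
    intro h
    exact hx (Subtype.ext h)
  · intro h
    exact absurd (Finset.mem_univ _) h

theorem act_zer [Finite A] {N : Subgroup A} (ρ : Representation k N V) :
    act ρ (0 : MonoidAlgebra k A) = 0 := by
  have : Fintype N := Fintype.ofFinite N
  ext v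
  rw [act_apply]
  simp

theorem act_tw_cj [Finite A] {N : Subgroup A} {h : A}
    (hN : h ∈ Subgroup.normalizer (N : Set A)) (ρ : Representation k N V)
    (e : MonoidAlgebra k A) : act (tw hN ρ) (cj h e) = act ρ e := by
  have : Fintype N := Fintype.ofFinite N
  ext v
  rw [act_apply, act_apply]
  have hbij : Function.Bijective (cjN hN) := by
    rw [Nat.bijective_iff_surjective_and_card]
    exact ⟨fun x => cjN_surj hN x, rfl⟩
  refine Fintype.sum_bijective (cjN hN) hbij _ _ (fun x => ?_)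
  rw [tw_apply, coe_cjN, coeff_cj]

theorem one_ne [Nontrivial V] : (1 : V →ₗ[k] V) ≠ 0 := by
  intro h
  obtain ⟨v, hv⟩ := exists_ne (0 : V)
  exact hv (LinearMap.congr_fun h v)

theorem not_mul_zero [Finite A] {N : Subgroup A} {ρ : Representation k N V} (hρ : Irr' ρ)
    {a b : MonoidAlgebra k A} (ha : SuppIn N a) (h1 : act ρ a = 1) (h2 : act ρ b = 1) :
    a * b ≠ 0 := by
  intro h
  have h3 := act_mul ρ ha (b := b)
  rw [h, act_zer, h1, h2, mul_one] at h3
  have := hρ.nontriv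
  exact one_ne h3.symm

theorem stab [Fact p.Prime] [CharP k p] [IsAlgClosed k] [Fintype A] {N H : Subgroup A}
    (hn : H ≤ Subgroup.normalizer (N : Set A)) {g : MonoidAlgebra k A} (hg : IsDZ p N g)
    {n : ℕ} {δ : Rp k N n} (hδ : Irr' δ) (hδg : act δ g = 1) (h : A) (hh : h ∈ H) :
    h ∈ H ⊓ cst g ↔ Iso (tw (hn hh) δ) δ := by
  constructor
  · rintro ⟨_, h1⟩
    have h1 : cj h g = g := h1
    have h2 : act (tw (hn hh) δ) g = 1 := by
      conv_lhs => rw [← h1]
      rw [act_tw_cj, hδg]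
    exact Rk.CardDZAux.unique_rep hg (hδ.tw (hn hh)) hδ h2 hδg
  · intro h1
    refine ⟨hh, ?_⟩
    change cj h g = g
    have h2 : act (tw (hn hh) δ) g = 1 := act_iso h1.symm hδg
    have h3 : act (tw (hn hh) δ) (cj h g) = 1 := by
      rw [act_tw_cj, hδg]
    have h4 : IsBlock N (cj h g) := orb_isBlock hn hg.blk _ (mem_orb.2 ⟨h, hh, rfl⟩)
    rcases h4.eq_or_mul_eq_zero hg.blk with h5 | h5
    · exact h5
    · exact absurd h5 (not_mul_zero (hδ.tw (hn hh)) h4.suppIn h3 h2)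

end DzOverAux

theorem card_dz_over [Fact p.Prime] [CharP k p] [IsAlgClosed k] [Fintype A] {N H : Subgroup A}
    (hc : CycExt p N H) {g : MonoidAlgebra k A} (hg : IsDZ p N g) :
    Nat.card ↥{γ : MonoidAlgebra k A | IsDZ p H γ ∧ γ * g ≠ 0} = N.relIndex (H ⊓ cst g) := by
  classical
  obtain ⟨n, δ, hδ, hδg⟩ := Rk.CardDZAux.exists_rep hg.blk
  have hNT : N ≤ H ⊓ cst g := le_inf hc.NH (fun x hx => invBy_iff_cj.1 hg.blk.invBy x hx)
  have hTH : H ⊓ cst g ≤ H := inf_le_left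
  have h1N : (1 : MonoidAlgebra k A) ∈ fixAlg k N N := (fixAlg k N N).one_mem
  have h1H : (1 : MonoidAlgebra k A) ∈ fixAlg k N H := (fixAlg k N H).one_mem
  have h1T : (1 : MonoidAlgebra k A) ∈ fixAlg k N (H ⊓ cst g) := (fixAlg k N _).one_mem
  have hstab := DzOverAux.stab hc.hN hg hδ hδg
  have e1 := clifford hNT hTH hc.hN (mem_fixAlg.1 h1N).1 (mem_fixAlg.1 h1H).2 (one_mul 1) hδ
    (DzOverAux.act_one δ) hstab
  have hcT : CycExt p N (H ⊓ cst g) := by
    have := hc.sub hTH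
    rwa [inf_eq_left.2 hNT] at this
  have e2 := card_ext hcT (mem_fixAlg.1 h1N).1 (mem_fixAlg.1 h1T).2 (one_mul 1) hδ
    (DzOverAux.act_one δ) (fun t ht => (hstab t (hTH ht)).1 ht)
  rw [← e2, ← e1]
  refine Fr.FrEAux.card_of_rel (fun γ c => ∃ S : IrrInv H ⊥ (1 : MonoidAlgebra k A),
    (⟦S⟧ : IrX H (1 : MonoidAlgebra k A)) = c.1 ∧ act S.ρ γ.1 = 1) ?_ ?_ ?_ ?_
  · rintro ⟨γ, hγ, hne⟩
    obtain ⟨m, S, hS, hSγ⟩ := Rk.CardDZAux.exists_rep hγ.blk
    have h1 := act_ne_of_mul_ne hc.NH hc.hN hγ.blk hg.blk hne hS hSγ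
    obtain ⟨l, τ, hτ, hτg, hover⟩ := exists_under_block hc.NH hg.blk h1
    have h2 := hover.congr_right (Rk.CardDZAux.unique_rep hg hτ hδ hτg hδg)
    exact ⟨⟨_, mkIrr S hS (DzOverAux.act_one S), rfl, h2⟩,
      mkIrr S hS (DzOverAux.act_one S), rfl, hSγ⟩
  · rintro ⟨c, S, hSc, hover⟩
    have hS : Irr' S.ρ := irr_iff.1 S.irr
    obtain ⟨γ, hγ, hSγ⟩ := block_of_act (p := p) hS
    have hne : γ * g ≠ 0 := by
      intro h
      have h3 := act_mul S.ρ hγ.suppIn (b := g)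
      rw [h, DzOverAux.act_zer, hSγ, one_mul] at h3
      obtain ⟨π, h0, hπ⟩ := hover
      apply h0
      apply LinearMap.ext
      intro v
      have h4 := act_over _ π hπ hg.blk.suppIn v
      rw [← h3, hδg] at h4
      have h5 : π 0 = π v := h4
      rw [← h5, map_zero]
      rfl
    exact ⟨⟨γ, dz_up hc hγ hg hne, hne⟩, S, hSc, hSγ⟩
  · rintro ⟨γ, hγ, hne⟩ c c' ⟨S, hS, hSγ⟩ ⟨S', hS', hSγ'⟩
    apply Subtype.ext
    rw [← hS, ← hS']
    exact mk_eq_mk.2 (Rk.CardDZAux.unique_rep hγ (irr_iff.1 S.irr) (irr_iff.1 S'.irr) hSγ hSγ')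
  · rintro ⟨γ, hγ, hne⟩ ⟨γ', hγ', hne'⟩ c ⟨S, hS, hSγ⟩ ⟨S', hS', hSγ'⟩
    apply Subtype.ext
    have h1 : Iso S'.ρ S.ρ := mk_eq_mk.1 (hS'.trans hS.symm)
    have h2 : act S.ρ γ' = 1 := act_iso h1 hSγ'
    rcases hγ.blk.eq_or_mul_eq_zero hγ'.blk with h3 | h3
    · exact h3
    · exact absurd h3 (DzOverAux.not_mul_zero (irr_iff.1 S.irr) hγ.blk.suppIn hSγ h2)

end Pool.Agent.Lib.P0c8ca5.Cy
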