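import Mathlib
import Pool.Agent.Lib.P0c8ca5C.DzOver
import Pool.Agent.Lib.P0c8ca5C.DzDown

/-!
# Module DzMid: counting blocks of defect zero, cyclic quotient of order prime to `p`

PROOF.  Let `Γ` be the finite set (`finite_isBlock`) of the `γ` with `IsDZ p H γ` and `γ * c = γ`.  Count
the pairs `(γ, g) ∈ Γ × S` with `γ * g ≠ 0`, with the weight `|H ⊓ cst g|`.
For `γ ∈ Γ` the `g ∈ S` with `γ * g ≠ 0` form one orbit of `H` under `cj`: nonempty, because the sum of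
the blocks `g` of `N` is `1` (`sum_blocks` in P0c8ca5N.WSum), so some `γ * g ≠ 0`; this `g` has defect
zero (`dz_down`), `γ * (g * c) = γ * c * g = γ * g ≠ 0`, so `g * c = g` (`IsBlock.mul_eq`, `commute_of`).
If `γ * g ≠ 0` and `γ * g' ≠ 0` then `γ = γ * orbSum H g` (`mul_orbSum`), so `orbSum H g * g' ≠ 0` and
`g'` is some `cj h g`; if `γ * g ≠ 0` then `γ * cj h g = cj h (γ * g) ≠ 0` for `h ∈ H`.  So
`∑ |H ⊓ cst g| = |H|` over these `g` (`sum_orbit` of P0c8ca5.LHS for the action of `A` on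
`MonoidAlgebra k A` by `cj`, with stabilizers `cst g`).
For `g ∈ S` the `γ ∈ Γ` with `γ * g ≠ 0` are exactly the `γ` with `IsDZ p H γ` and `γ * g ≠ 0`
(`γ * c * g = γ * g ≠ 0`, so `γ * c = γ`), and there are `N.relIndex (H ⊓ cst g)` of these
(`card_dz_over`).
-/

namespace Pool.Agent.Lib.P0c8ca5.Cy

open MonoidAlgebra

variable {p : ℕ} {k : Type*} [Field k] {A : Type*} [Group A]

namespace DzMidAux

theorem cj_of_invBy {H : Subgroup A} {γ : MonoidAlgebra k A} (h : InvBy H γ) {x : A}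
    (hx : x ∈ H) : cj x γ = γ := by
  ext y
  rw [coeff_cj]
  have h1 := h x⁻¹ (H.inv_mem hx) y
  rwa [inv_inv] at h1

theorem cj_ne_zero {a : MonoidAlgebra k A} (ha : a ≠ 0) (x : A) : cj x a ≠ 0 := by
  intro h
  apply ha
  rw [← cj_inv_cj x a, h, cj_zero]

/-- the weights of an orbit -/
theorem sum_orbit_cj [Fintype A] (H : Subgroup A) (g₀ : MonoidAlgebra k A)
    (T : Finset (MonoidAlgebra k A)) (hT : ∀ g, g ∈ T ↔ ∃ h ∈ H, g = cj h g₀) :
    ∑ g ∈ T, Nat.card ↥(H ⊓ cst g) = Nat.card H := by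
  letI : MulAction A (MonoidAlgebra k A) :=
    { smul := fun x a => cj x a
      one_smul := fun a => cj_one_left a
      mul_smul := fun x y a => (cj_cj x y a).symm }
  have h1 := sum_orbit H g₀ T hT
  have h2 : ∀ g : MonoidAlgebra k A, MulAction.stabilizer A g = cst g := by
    intro g
    ext x
    exact Iff.rfl
  rw [← h1]
  exact Finset.sum_congr rfl fun g _ => by rw [h2]

theorem mul_c_of_ne {N H : Subgroup A} (hNH : N ≤ H) {c : MonoidAlgebra k A} (hcs : SuppIn N c)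
    (hci : InvBy H c) (hcc : c * c = c) {γ g : MonoidAlgebra k A} (hγ : IsBlock H γ)
    (hgc : g * c = g) (hg : IsBlock N g) (hne : γ * g ≠ 0) : γ * c = γ := by
  have h1 : c * γ = γ * c := commute_of (hcs.mono hNH) hγ.invBy
  rcases hγ.mul_eq (mem_fixAlg.2 ⟨hcs.mono hNH, hci⟩) hcc with h | h
  · exfalso
    apply hne
    have h2 : g * c = c * g := commute_of hg.suppIn (hci.mono hNH)
    rw [← hgc, h2, ← mul_assoc, ← h1, h, zero_mul]
  · rw [← h1, h]

end DzMidAux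

open DzMidAux in
theorem sum_dz_mid [Fact p.Prime] [CharP k p] [IsAlgClosed k] [Fintype A] {N H : Subgroup A}
    (hc : CycExt p N H) {c : MonoidAlgebra k A} (hcs : SuppIn N c) (hci : InvBy H c)
    (hcc : c * c = c) (S : Finset (MonoidAlgebra k A))
    (hS : ∀ g, g ∈ S ↔ IsDZ p N g ∧ g * c = g) :
    Nat.card H * Nat.card ↥{γ : MonoidAlgebra k A | IsDZ p H γ ∧ γ * c = γ}
      = ∑ g ∈ S, Nat.card ↥(H ⊓ cst g) * N.relIndex (H ⊓ cst g) := by
  classical
  have hNH := hc.NH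
  have hn := hc.hN
  have cinN : c ∈ fixAlg k N N := mem_fixAlg.2 ⟨hcs, hci.mono hNH⟩
  have hfin : {γ : MonoidAlgebra k A | IsDZ p H γ ∧ γ * c = γ}.Finite :=
    (finite_isBlock H).subset fun γ hγ => hγ.1.blk
  obtain ⟨Γ, hΓ⟩ : ∃ Γ : Finset (MonoidAlgebra k A), ∀ γ, γ ∈ Γ ↔ IsDZ p H γ ∧ γ * c = γ :=
    ⟨hfin.toFinset, fun γ => hfin.mem_toFinset⟩
  have hcard : Nat.card ↥{γ : MonoidAlgebra k A | IsDZ p H γ ∧ γ * c = γ} = Γ.card := by
    rw [Nat.card_coe_set_eq,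
      show {γ : MonoidAlgebra k A | IsDZ p H γ ∧ γ * c = γ} = (Γ : Set (MonoidAlgebra k A)) from
        Set.ext fun γ => (hΓ γ).symm, Set.ncard_coe_finset]
  -- the blocks `g` for a fixed `γ`
  have hA : ∀ γ ∈ Γ, ∑ g ∈ S, (if γ * g ≠ 0 then Nat.card ↥(H ⊓ cst g) else 0) =
      Nat.card H := by
    intro γ hγ
    obtain ⟨hγd, hγc⟩ := (hΓ γ).1 hγ
    have hγi : InvBy H γ := hγd.blk.invBy
    -- a block of `N` with `γ * g ≠ 0`
    obtain ⟨g₀, hg₀, hne₀⟩ : ∃ g, IsBlock N g ∧ γ * g ≠ 0 := by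
      by_contra hcon
      push Not at hcon
      have hfinN : {b : MonoidAlgebra k A | IsBlock N b ∧ b * 1 ≠ 0}.Finite :=
        (finite_isBlock N).subset fun b hb => hb.1
      have h1 := WSumAux.sum_blocks (p := p) (H := N) (c := (1 : MonoidAlgebra k A))
        (fixAlg k N N).one_mem (one_mul 1) hfinN.toFinset (fun b => hfinN.mem_toFinset)
      apply hγd.blk.ne_zero
      rw [← mul_one γ, ← h1, Finset.mul_sum]
      exact Finset.sum_eq_zero fun b hb => hcon b (hfinN.mem_toFinset.1 hb).1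
    have hg₀d : IsDZ p N g₀ := dz_down hNH hn hγd hg₀ hne₀
    have hcom : g₀ * c = c * g₀ := commute_of hg₀.suppIn (hci.mono hNH)
    have hg₀c : g₀ * c = g₀ := by
      rcases hg₀.mul_eq cinN hcc with h | h
      · exfalso
        apply hne₀
        rw [← hγc, mul_assoc, h, mul_zero]
      · rw [hcom, h]
    rw [← Finset.sum_filter]
    refine sum_orbit_cj H g₀ _ fun g => ?_
    rw [Finset.mem_filter, hS]
    constructor
    · rintro ⟨⟨hgd, -⟩, hne⟩
      have h1 : γ * orbSum H g₀ = γ := mul_orbSum hNH hn hγd.blk hg₀ hne₀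
      have h2 : orbSum H g₀ * g ≠ 0 := by
        intro h
        apply hne
        rw [← h1, mul_assoc, h, mul_zero]
      rw [orbSum, Finset.sum_mul] at h2
      obtain ⟨z, hz, hz0⟩ := Finset.exists_ne_zero_of_sum_ne_zero h2
      rcases (orb_isBlock hn hg₀ z hz).eq_or_mul_eq_zero hgd.blk with h | h
      · obtain ⟨x, hx, hxz⟩ := mem_orb.1 hz
        exact ⟨x, hx, by rw [← h, hxz]⟩
      · exact absurd h hz0
    · rintro ⟨x, hx, rfl⟩
      refine ⟨⟨orb_isDZ hn hg₀d _ (mem_orb.2 ⟨x, hx, rfl⟩), ?_⟩, ?_⟩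
      · have h1 : cj x g₀ * cj x c = cj x g₀ := by rw [← cj_mul, hg₀c]
        rwa [cj_of_invBy hci hx] at h1
      · have h1 : γ * cj x g₀ = cj x (γ * g₀) := by rw [cj_mul, cj_of_invBy hγi hx]
        rw [h1]
        exact cj_ne_zero hne₀ x
  -- the blocks `γ` for a fixed `g`
  have hB : ∀ g ∈ S, ∑ γ ∈ Γ, (if γ * g ≠ 0 then Nat.card ↥(H ⊓ cst g) else 0) =
      Nat.card ↥(H ⊓ cst g) * N.relIndex (H ⊓ cst g) := by
    intro g hg
    obtain ⟨hgd, hgc⟩ := (hS g).1 hg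
    rw [← Finset.sum_filter, Finset.sum_const, smul_eq_mul, mul_comm, ← card_dz_over hc hgd,
      Nat.card_coe_set_eq,
      show {γ : MonoidAlgebra k A | IsDZ p H γ ∧ γ * g ≠ 0} =
        ((Γ.filter fun γ => γ * g ≠ 0 : Finset (MonoidAlgebra k A)) : Set (MonoidAlgebra k A)) from
        Set.ext fun γ => ?_, Set.ncard_coe_finset]
    rw [Finset.mem_coe, Finset.mem_filter, hΓ]
    constructor
    · rintro ⟨h1, h2⟩
      exact ⟨⟨h1, mul_c_of_ne hNH hcs hci hcc h1.blk hgc hgd.blk h2⟩, h2⟩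
    · rintro ⟨⟨h1, -⟩, h2⟩
      exact ⟨h1, h2⟩
  calc Nat.card H * Nat.card ↥{γ : MonoidAlgebra k A | IsDZ p H γ ∧ γ * c = γ}
      = ∑ γ ∈ Γ, Nat.card H := by
        rw [hcard, Finset.sum_const, smul_eq_mul, mul_comm]
    _ = ∑ γ ∈ Γ, ∑ g ∈ S, (if γ * g ≠ 0 then Nat.card ↥(H ⊓ cst g) else 0) :=
        Finset.sum_congr rfl fun γ hγ => (hA γ hγ).symm
    _ = ∑ g ∈ S, ∑ γ ∈ Γ, (if γ * g ≠ 0 then Nat.card ↥(H ⊓ cst g) else 0) := Finset.sum_comm
    _ = ∑ g ∈ S, Nat.card ↥(H ⊓ cst g) * N.relIndex (H ⊓ cst g) := Finset.sum_congr rfl hB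

end Pool.Agent.Lib.P0c8ca5.Cy
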