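import Mathlib
import Pool.Agent.Lib.P0c8ca5C.DzMid

/-!
# Module DzCore: counting blocks of defect zero, in two steps

PROOF.  Let `S'` be the finite set of the `δ` with `IsDZ p N δ` and `δ * c = δ`; `sum_dz_mid hh.ext` gives
the left side as `∑ δ ∈ S', |H ⊓ cst δ| * N.relIndex (H ⊓ cst δ)`.
The map `g ↦ orbSum N g` goes from `S` to `S'` (`isDZ_orbSum`; every `z` in the orbit has `z * c = z` as `c`
is invariant, see the end of the proof of `exists_isDZ_orbSum`), and it is surjective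
(`exists_isDZ_orbSum`: `δ = orbSum N g` with `g * δ = g`, so `g * c = g * δ * c = g`).  The fibre of
`orbSum N g` is `orb N g` (if `orbSum N g = orbSum N g'` then `g' = orbSum N g * g' ≠ 0`, so `g'` is equal
to some member of `orb N g`), it has `C.relIndex N` elements (`card_orb`).
Let `g ∈ S`, `δ = orbSum N g`, `M = H ⊓ cst g`.  (i) `H ⊓ cst δ = N ⊔ M`: for `h ∈ H` with `cj h δ = δ`
the block `cj h g` of `C` lies under `δ`, so `cj h g = cj n g` with `n ∈ N`, `n⁻¹ * h ∈ M`; conversely `N`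
fixes `δ` and `M` permutes `orb N g` (`N` is normal in `H`).  (ii) `N ⊓ M = C`.  So
`|H ⊓ cst δ| = (C.relIndex N) * |M|` (`card_sup_mul` in P0c8ca5.Comb) and
`N.relIndex (H ⊓ cst δ) = C.relIndex M` (both are `|M| / |C|`; `Subgroup.relIndex_sup_left` or
cardinalities).  (iii) for `g' = cj n g` in the orbit `H ⊓ cst g' = cg n (H ⊓ cst g)`, so
`|H ⊓ cst g'| * C.relIndex (H ⊓ cst g')` is the same as for `g`.  So the sum over the fibre of `δ` is
`C.relIndex N * |M| * C.relIndex M = |H ⊓ cst δ| * N.relIndex (H ⊓ cst δ)`.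
-/

namespace Pool.Agent.Lib.P0c8ca5.Cy

open MonoidAlgebra

variable {p : ℕ} {k : Type*} [Field k] {A : Type*} [Group A]

namespace DzCoreAux

theorem orb_cj_eq [Fintype A] {K : Subgroup A} {f : MonoidAlgebra k A} {x : A} (hx : x ∈ K) :
    orb K (cj x f) = orb K f := by
  ext z
  rw [mem_orb, mem_orb]
  constructor
  · rintro ⟨g, hg, h⟩
    exact ⟨g * x, K.mul_mem hg hx, by rw [← cj_cj]; exact h⟩
  · rintro ⟨g, hg, h⟩
    refine ⟨g * x⁻¹, K.mul_mem hg (K.inv_mem hx), ?_⟩
    rw [cj_cj]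
    have e1 : g * x⁻¹ * x = g := by group
    rw [e1]
    exact h

theorem mem_inf_cst_cj {H : Subgroup A} {g : MonoidAlgebra k A} {n : A} (hn : n ∈ H) {x : A} :
    x ∈ H ⊓ cst (cj n g) ↔ n⁻¹ * x * n ∈ H ⊓ cst g := by
  rw [Subgroup.mem_inf, Subgroup.mem_inf, mem_cst, mem_cst]
  constructor
  · rintro ⟨h1, h2⟩
    refine ⟨H.mul_mem (H.mul_mem (H.inv_mem hn) h1) hn, ?_⟩
    rw [← cj_cj, ← cj_cj, h2, cj_inv_cj]
  · rintro ⟨h1, h2⟩
    have e1 : n * (n⁻¹ * x * n) * n⁻¹ = x := by group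
    refine ⟨?_, ?_⟩
    · have := H.mul_mem (H.mul_mem hn h1) (H.inv_mem hn)
      rwa [e1] at this
    · have e2 : x * n = n * (n⁻¹ * x * n) := by group
      rw [cj_cj, e2, ← cj_cj, h2]

theorem card_inf_cst_cj {H : Subgroup A} {g : MonoidAlgebra k A} {n : A} (hn : n ∈ H) :
    Nat.card ↥(H ⊓ cst (cj n g)) = Nat.card ↥(H ⊓ cst g) :=
  Nat.card_congr
    { toFun := fun x => ⟨n⁻¹ * x * n, (mem_inf_cst_cj hn).1 x.2⟩
      invFun := fun x => ⟨n * x * n⁻¹, (mem_inf_cst_cj hn).2 (by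
        have e1 : n⁻¹ * (n * (x : A) * n⁻¹) * n = x := by group
        rw [e1]
        exact x.2)⟩
      left_inv := fun x => Subtype.ext (by
        change n * (n⁻¹ * (x : A) * n) * n⁻¹ = x
        group)
      right_inv := fun x => Subtype.ext (by
        change n⁻¹ * (n * (x : A) * n⁻¹) * n = x
        group) }

theorem relIndex_sup {L D : Subgroup A} (hD : D ≤ Subgroup.normalizer (L : Set A)) :
    L.relIndex D = L.relIndex (L ⊔ D) := by
  let _ := Subgroup.normal_subgroupOf_of_le_normalizer hD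
  let _ := Subgroup.normal_subgroupOf_sup_of_le_normalizer hD
  have := Nat.card_congr (QuotientGroup.quotientInfEquivProdNormalizerQuotient D L hD).toEquiv
  rw [sup_comm L D]
  exact this

end DzCoreAux

theorem sum_dz_core [Fact p.Prime] [CharP k p] [IsAlgClosed k] [Fintype A]
    {C N H : Subgroup A} (hh : HypExt p C N H) {c : MonoidAlgebra k A} (hcs : SuppIn C c)
    (hci : InvBy H c) (hcc : c * c = c) (S : Finset (MonoidAlgebra k A))
    (hS : ∀ g, g ∈ S ↔ IsDZ p C g ∧ g * c = g ∧ ∀ x ∈ N, cj x g = g → x ∈ C) :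
    Nat.card H * Nat.card ↥{γ : MonoidAlgebra k A | IsDZ p H γ ∧ γ * c = γ}
      = ∑ g ∈ S, Nat.card ↥(H ⊓ cst g) * C.relIndex (H ⊓ cst g) := by
  classical
  have hnC : N ≤ Subgroup.normalizer (C : Set A) := hh.ext.NH.trans hh.hC
  have hciN : InvBy N c := hci.mono hh.ext.NH
  have hfin : {δ : MonoidAlgebra k A | IsDZ p N δ ∧ δ * c = δ}.Finite :=
    (finite_isBlock N).subset (fun f hf => hf.1.blk)
  rw [sum_dz_mid hh.ext (hcs.mono hh.CN) hci hcc hfin.toFinset (fun g => by
    rw [Set.Finite.mem_toFinset]; exact Iff.rfl)]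
  have hmaps : ∀ g ∈ S, orbSum N g ∈ hfin.toFinset := by
    intro g hg
    rw [Set.Finite.mem_toFinset]
    obtain ⟨h1, h2, h3⟩ := (hS g).1 hg
    refine ⟨isDZ_orbSum hh.CN hnC hh.pgrp h1 h3, ?_⟩
    rw [orbSum, Finset.sum_mul]
    refine Finset.sum_congr rfl (fun z hz => ?_)
    obtain ⟨x, hx, rfl⟩ := mem_orb.1 hz
    calc cj x g * c = cj x g * cj x c := by rw [invBy_iff_cj.1 hciN x hx]
      _ = cj x g := by rw [← cj_mul, h2]
  rw [← Finset.sum_fiberwise_of_maps_to hmaps]
  refine Finset.sum_congr rfl fun δ hδ => ?_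
  rw [Set.Finite.mem_toFinset] at hδ
  obtain ⟨hδ1, hδ2⟩ := hδ
  obtain ⟨g, hg, hst, hE⟩ := exists_isDZ_orbSum hh.CN hnC hh.pgrp hδ1
  have hgδ : g * δ = g := by
    have h1 := orbSum_mul hnC hg.blk g (self_mem_orb N g)
    have hmem : δ ∈ fixAlg k C C := by rw [← hE]; exact orbSum_mem hnC hg.blk
    rw [hE] at h1
    rw [commute_of (mem_fixAlg.1 hg.blk.mem).1 (mem_fixAlg.1 hmem).2, h1]
  have hgc : g * c = g := by
    calc g * c = g * δ * c := by rw [hgδ]
      _ = g := by rw [mul_assoc, hδ2, hgδ]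
  have hfib : S.filter (fun g' => orbSum N g' = δ) = orb N g := by
    ext g'
    rw [Finset.mem_filter, hS]
    constructor
    · rintro ⟨⟨hg1, hg2, hg3⟩, hgE⟩
      by_contra hcon
      have h1 : orbSum N g * g' = 0 := by
        rw [orbSum, Finset.sum_mul]
        apply Finset.sum_eq_zero
        intro z hz
        rcases (orb_isBlock hnC hg.blk z hz).eq_or_mul_eq_zero hg1.blk with h | h
        · rw [h] at hz
          exact absurd hz hcon
        · exact h
      rw [hE, ← hgE, orbSum_mul hnC hg1.blk g' (self_mem_orb N g')] at h1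
      exact hg1.blk.ne_zero h1
    · intro hg'
      obtain ⟨x, hx, rfl⟩ := mem_orb.1 hg'
      refine ⟨⟨orb_isDZ hnC hg _ hg', ?_, ?_⟩, ?_⟩
      · calc cj x g * c = cj x g * cj x c := by rw [invBy_iff_cj.1 hciN x hx]
          _ = cj x g := by rw [← cj_mul, hgc]
      · intro y hy hyf
        have h4 : cj (x⁻¹ * y * x) g = g := by
          rw [← cj_cj, ← cj_cj, hyf, cj_inv_cj]
        have h5 := hst _ (N.mul_mem (N.mul_mem (N.inv_mem hx) hy) hx) h4
        have h6 := (Subgroup.mem_normalizer_iff.1 (hnC hx) _).1 h5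
        have e1 : x * (x⁻¹ * y * x) * x⁻¹ = y := by group
        rwa [e1] at h6
      · rw [← hE, orbSum, orbSum, DzCoreAux.orb_cj_eq hx]
  rw [hfib]
  -- the summands over the orbit are equal
  have hCst : ∀ g' : MonoidAlgebra k A, IsBlock C g' → C ≤ H ⊓ cst g' := by
    intro g' hg' x hx
    exact Subgroup.mem_inf.2 ⟨hh.ext.NH (hh.CN hx), mem_cst.2 (invBy_iff_cj.1 hg'.invBy x hx)⟩
  have hterm : ∀ g' ∈ orb N g, Nat.card ↥(H ⊓ cst g') * C.relIndex (H ⊓ cst g') =
      Nat.card ↥(H ⊓ cst g) * C.relIndex (H ⊓ cst g) := by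
    intro g' hg'
    have hb := orb_isBlock hnC hg.blk g' hg'
    have h1 := card_mul_rel (hCst g' hb)
    have h2 := card_mul_rel (hCst g hg.blk)
    obtain ⟨x, hx, rfl⟩ := mem_orb.1 hg'
    have h3 := DzCoreAux.card_inf_cst_cj (g := g) (hh.ext.NH hx)
    rw [h3] at h1
    have h4 : C.relIndex (H ⊓ cst (cj x g)) = C.relIndex (H ⊓ cst g) :=
      Nat.eq_of_mul_eq_mul_left Nat.card_pos (h1.trans h2.symm)
    rw [h3, h4]
  rw [Finset.sum_congr rfl hterm, Finset.sum_const, smul_eq_mul,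
    card_orb (C := C) (fun x hx => ⟨hst x hx, fun h => invBy_iff_cj.1 hg.blk.invBy x h⟩)]
  -- the stabilizer of `δ`
  have hM : H ⊓ cst g ≤ Subgroup.normalizer (N : Set A) := inf_le_left.trans hh.ext.hN
  have hi : H ⊓ cst δ = N ⊔ (H ⊓ cst g) := by
    apply le_antisymm
    · intro h hx
      obtain ⟨hH, hhδ⟩ := Subgroup.mem_inf.1 hx
      rw [mem_cst] at hhδ
      have h1 : cj h g ∈ orb N g := by
        by_contra hcon
        have hb : IsBlock C (cj h g) := by
          have := isBlock_cg hg.blk h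
          rwa [cg_of_mem_normalizer (hh.hC hH)] at this
        have h2 : orbSum N g * cj h g = 0 := by
          rw [orbSum, Finset.sum_mul]
          apply Finset.sum_eq_zero
          intro z hz
          rcases (orb_isBlock hnC hg.blk z hz).eq_or_mul_eq_zero hb with h' | h'
          · rw [h'] at hz
            exact absurd hz hcon
          · exact h'
        have h3 : δ * g = g := by
          rw [← hE]
          exact orbSum_mul hnC hg.blk g (self_mem_orb N g)
        rw [hE, ← hhδ, ← cj_mul, h3] at h2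
        exact hb.ne_zero h2
      obtain ⟨n, hn, hng⟩ := mem_orb.1 h1
      have h4 : n⁻¹ * h ∈ H ⊓ cst g := by
        refine Subgroup.mem_inf.2 ⟨H.mul_mem (H.inv_mem (hh.ext.NH hn)) hH, ?_⟩
        rw [mem_cst, ← cj_cj, ← hng, cj_inv_cj]
      have := Subgroup.mul_mem_sup hn h4
      rwa [mul_inv_cancel_left] at this
    · refine sup_le ?_ ?_
      · intro x hx
        exact Subgroup.mem_inf.2 ⟨hh.ext.NH hx, mem_cst.2 (invBy_iff_cj.1 hδ1.blk.invBy x hx)⟩
      · intro x hx
        obtain ⟨hxH, hxg⟩ := Subgroup.mem_inf.1 hx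
        refine Subgroup.mem_inf.2 ⟨hxH, ?_⟩
        rw [mem_cst] at hxg ⊢
        have hO : ∀ y : A, y ∈ H ⊓ cst g → ∀ z ∈ orb N g, cj y z ∈ orb N g := by
          intro y hy z hz
          obtain ⟨hyH, hyg⟩ := Subgroup.mem_inf.1 hy
          rw [mem_cst] at hyg
          obtain ⟨n, hn, rfl⟩ := mem_orb.1 hz
          refine mem_orb.2 ⟨y * n * y⁻¹, (Subgroup.mem_normalizer_iff.1 (hh.ext.hN hyH) n).1 hn, ?_⟩
          calc cj (y * n * y⁻¹) g = cj (y * n * y⁻¹) (cj y g) := by rw [hyg]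
            _ = cj (y * n) g := by rw [cj_cj, inv_mul_cancel_right]
            _ = cj y (cj n g) := (cj_cj y n g).symm
        rw [← hE, orbSum, cj_sum]
        refine Finset.sum_bij' (fun z _ => cj x z) (fun z _ => cj x⁻¹ z) ?_ ?_ ?_ ?_ ?_
        · intro z hz
          exact hO x hx z hz
        · intro z hz
          exact hO x⁻¹ (Subgroup.inv_mem _ hx) z hz
        · intro z _
          exact cj_inv_cj x z
        · intro z _
          exact cj_cj_inv x z
        · intro z _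
          rfl
  have hii : N ⊓ (H ⊓ cst g) = C := by
    apply le_antisymm
    · intro x hx
      obtain ⟨h1, h2⟩ := Subgroup.mem_inf.1 hx
      exact hst x h1 (mem_cst.1 (Subgroup.mem_inf.1 h2).2)
    · exact le_inf hh.CN (hCst g hg.blk)
  have h1 := card_sup_mul hM
  have h2 := card_mul_rel hh.CN
  have h3 : N.relIndex (N ⊔ (H ⊓ cst g)) = C.relIndex (H ⊓ cst g) := by
    rw [← DzCoreAux.relIndex_sup hM, ← Subgroup.inf_relIndex_right, hii]
  have h4 : Nat.card ↥(N ⊔ (H ⊓ cst g)) = C.relIndex N * Nat.card ↥(H ⊓ cst g) := by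
    rw [hii, ← h2] at h1
    refine Nat.eq_of_mul_eq_mul_left (Nat.card_pos (α := C)) ?_
    calc Nat.card C * Nat.card ↥(N ⊔ (H ⊓ cst g))
        = Nat.card ↥(N ⊔ (H ⊓ cst g)) * Nat.card C := mul_comm _ _
      _ = _ := by rw [h1]; ring
  rw [hi, h3, h4]
  ring

end Pool.Agent.Lib.P0c8ca5.Cy
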