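import Mathlib
import Pool.Agent.Lib.P0c8ca5C.Hyp
import Pool.Agent.Lib.P0c8ca5.Comb

/-!
# Module RelM: the supplements attached to a block of defect zero of a section of `C`

Here `C` is normal in `A` and plays the part of `G` in P0c8ca5.WeightsC, WeightsD.
PROOFS.
`exists_P'`: the proof of `exists_P` (P0c8ca5.WeightsC) uses its hypothesis `hp` only for elements of
`H ⊓ st R φ`: copy it (in the application of `lemC` the element `w` lies in `sec M R`, so it is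
`qm R x _` with `x ∈ M ≤ H`).
`rel_cg`: transport of structure, as `hfwd` in the proof of `rel_iff`: conjugation by
`m ∈ st R φ` that normalizes `N` fixes `R`, `φ`, `C`, `N`.
`sum_relM`: `M = H ⊓ st R φ`.  `exists_P'` and `rel_iff` for `N` in place of `H`: there is `P` such that
`Rel p C N R φ Q ↔ ∃ m ∈ N ⊓ st R φ, Q = cg m P`; by `rel_cg` (every `m ∈ M` normalizes `N`) also
`Rel p C N R φ Q ↔ ∃ m ∈ M, Q = cg m P`.  Use `sum_class M P S`.
`relIndex_relM`: Frattini argument.  For `m ∈ M` `cg m Q` is `Rel` by `rel_cg`, so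
`cg m Q = cg n Q` with `n ∈ N ⊓ st R φ` (`exists_P'`, `rel_iff`), that is `M = (N ⊓ M) (M ⊓ N_A(Q))`.  So
`N.relIndex M = (N ⊓ M).relIndex M` is the index of `N ⊓ M ⊓ N_A(Q)` in `M ⊓ N_A(Q)`
(`card_sup_mul` in P0c8ca5.Comb), and `N ⊓ M ⊓ N_A(Q) = (N ⊓ st R φ) ⊓ N_A(Q) = (C ⊓ N_A(Q)) ⊔ Q` by
`Rel.norm`.
-/

namespace Pool.Agent.Lib.P0c8ca5.Cy

open MonoidAlgebra

variable {p : ℕ} {k : Type*} [Field k] {A : Type*} [Group A]

section
variable [Fintype A] [Fact p.Prime] [CharP k p] [IsAlgClosed k] {C N H R : Subgroup A}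
  [hC : C.Normal]

theorem exists_P' (hCN : C ≤ N) (hp : ∀ x ∈ N, ∃ n : ℕ, x ^ p ^ n ∈ C) (hR : IsPGroup p R)
    (hRC : R ≤ C) {φ : MonoidAlgebra k (NQ R)} (hφ : IsDZ p (sec C R) φ) :
    ∃ P : Subgroup A, P ≤ N ⊓ st R φ ∧ IsPGroup p P ∧ P ⊓ C = R ∧
      (C ⊓ Subgroup.normalizer (R : Set A)) ⊔ P = N ⊓ st R φ ∧ HasBr (sec P R) φ ∧
      ∀ Q ≤ N ⊓ st R φ, IsPGroup p Q → HasBr (sec Q R) φ → ∃ m ∈ N ⊓ st R φ, Q ≤ cg m P := by
  classical
  have : Fintype (NQ R) := Fintype.ofFinite _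
  set M := N ⊓ st R φ with hM
  have hMst : M ≤ st R φ := inf_le_right
  have hRM : R ≤ M := le_inf (hRC.trans hCN) R_le_st
  have hLM' : C ⊓ Subgroup.normalizer (R : Set A) ≤ M :=
    le_inf (inf_le_left.trans hCN) (GN_le_st hφ.blk.invBy)
  have hMR : M ≤ Subgroup.normalizer (R : Set A) := hMst.trans st_le
  have hLM : sec C R ≤ sec M R := by
    intro w hw
    obtain ⟨x, hx, hx', rfl⟩ := mem_sec.1 hw
    exact qm_mem_sec _ (hLM' ⟨hx, hx'⟩)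
  obtain ⟨P, _, hP1, hP2, hP3, hP4, hP5, _, _, _, hP6⟩ := lemC hφ (invBy_st hMst) hLM
    (sec_le_normalizer C R M) (by
      intro w hw
      obtain ⟨x, hxM, hx, rfl⟩ := mem_sec.1 hw
      obtain ⟨n, hn⟩ := hp x (Subgroup.mem_inf.1 hxM).1
      refine ⟨n, ?_⟩
      rw [← qm_pow hx _ ((Subgroup.normalizer (R : Set A)).pow_mem hx _)]
      exact qm_mem_sec _ hn)
  have hPM : pre R P ≤ M := by
    intro x hx
    obtain ⟨hx1, hx2⟩ := mem_pre.1 hx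
    exact (qm_mem_sec_iff hRM).1 (hP1 hx2)
  refine ⟨pre R P, hPM, isPGroup_pre hR hP2, ?_, ?_, ?_, ?_⟩
  · apply le_antisymm
    · rintro x ⟨hx, hxC⟩
      obtain ⟨hx1, hx2⟩ := mem_pre.1 hx
      have h1 : qm R x hx1 ∈ sec C R ⊓ P := ⟨qm_mem_sec _ hxC, hx2⟩
      rw [hP4, Subgroup.mem_bot, qm_eq_one_iff] at h1
      exact h1
    · exact le_inf (le_pre P) hRC
  · apply le_antisymm
    · exact sup_le hLM' hPM
    · intro x hx
      have h1 : qm R x (hMR hx) ∈ sec M R := qm_mem_sec _ hx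
      rw [← hP3, mem_sup_norm (fun w _ => sec_normal C R w)] at h1
      obtain ⟨l, hl, d, hd, hld⟩ := h1
      obtain ⟨y, hy, hy', rfl⟩ := mem_sec.1 hl
      obtain ⟨z, hz, rfl⟩ := qm_surj d
      have h2 : qm R (y * z) ((Subgroup.normalizer (R : Set A)).mul_mem hy' hz)
        = qm R x (hMR hx) := hld
      rw [qm_eq_iff] at h2
      have h3 : z * ((y * z)⁻¹ * x) ∈ pre R P :=
        (pre R P).mul_mem (mem_pre.2 ⟨hz, hd⟩) (le_pre P h2)
      have h4 : y ∈ C ⊓ Subgroup.normalizer (R : Set A) := ⟨hy, hy'⟩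
      have h5 := Subgroup.mul_mem_sup h4 h3
      have e1 : y * (z * ((y * z)⁻¹ * x)) = x := by group
      rwa [e1] at h5
  · rw [sec_pre]; exact hP5
  · intro Q hQM hQp hQb
    obtain ⟨m, hm, hQm⟩ := hP6 (sec Q R) (sec_mono hQM) (isPGroup_sec hQp) hQb
    obtain ⟨x, hx, hx', rfl⟩ := mem_sec.1 hm
    refine ⟨x, hx, ?_⟩
    intro q hq
    have hq' := hMR (hQM hq)
    have h1 := hQm (qm_mem_sec hq' hq)
    rw [mem_cg] at h1
    rw [mem_cg, mem_pre]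
    exact ⟨(Subgroup.normalizer (R : Set A)).mul_mem ((Subgroup.normalizer (R : Set A)).mul_mem
      ((Subgroup.normalizer (R : Set A)).inv_mem hx') hq') hx', h1⟩

theorem rel_cg {φ : MonoidAlgebra k (NQ R)} {Q : Subgroup A} (hQ : Rel p C N R φ Q) {m : A}
    (hm : m ∈ st R φ) (hmN : m ∈ Subgroup.normalizer (N : Set A)) :
    Rel p C N R φ (cg m Q) := by
  have hfwd := hm
  have hmR : m ∈ Subgroup.normalizer (R : Set A) := st_le hm
  refine ⟨isPGroup_cg hQ.pgrp, ?_, ?_, ?_, ?_⟩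
  · calc cg m Q ⊓ C = cg m Q ⊓ cg m C := by rw [cg_normal m C]
      _ = R := by rw [← cg_inf, hQ.inf, cg_eq_self_iff.2 hmR]
  · have := cg_le_cg (g := m) hQ.le
    rwa [cg_inf, cg_of_mem hm, cg_eq_self_iff.2 hmN] at this
  · have := congrArg (cg m) hQ.sup
    rw [cg_sup, cg_inf, cg_inf, cg_normal, cg_normalizer, cg_eq_self_iff.2 hmR, cg_of_mem hm,
      cg_eq_self_iff.2 hmN] at this
    exact this
  · rw [sec_cg hmR]
    have h1 := hasBr_cg hQ.br (qm R m hmR)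
    rwa [hfwd.2] at h1

theorem sum_relM (hh : HypExt p C N H) (hR : IsPGroup p R) (hRC : R ≤ C)
    {φ : MonoidAlgebra k (NQ R)} (hφ : IsDZ p (sec C R) φ) (S : Finset (Subgroup A))
    (hS : ∀ Q, Q ∈ S ↔ Rel p C N R φ Q) :
    ∑ Q ∈ S, Nat.card ↥((H ⊓ st R φ) ⊓ Subgroup.normalizer (Q : Set A))
      = Nat.card ↥(H ⊓ st R φ) := by
  obtain ⟨P, h1, h2, h3, h4, h5, h6⟩ := exists_P' hh.CN hh.pgrp hR hRC hφ
  have hP : Rel p C N R φ P := ⟨h2, h3, h1, h4, h5⟩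
  apply sum_class (H ⊓ st R φ) P S
  intro Q
  rw [hS, rel_iff hP h6]
  constructor
  · rintro ⟨m, hm, rfl⟩
    exact ⟨m, ⟨hh.ext.NH hm.1, hm.2⟩, rfl⟩
  · rintro ⟨m, hm, rfl⟩
    exact (rel_iff hP h6 _).1 (rel_cg hP hm.2 (hh.ext.hN hm.1))

theorem relIndex_relM (hh : HypExt p C N H) (hR : IsPGroup p R) (hRC : R ≤ C)
    {φ : MonoidAlgebra k (NQ R)} (hφ : IsDZ p (sec C R) φ) {Q : Subgroup A}
    (hQ : Rel p C N R φ Q) :
    N.relIndex (H ⊓ st R φ) * Nat.card ↥((C ⊓ Subgroup.normalizer (Q : Set A)) ⊔ Q)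
      = Nat.card ↥((H ⊓ st R φ) ⊓ Subgroup.normalizer (Q : Set A)) := by
  obtain ⟨P, h1, h2, h3, h4, h5, h6⟩ := exists_P' hh.CN hh.pgrp hR hRC hφ
  have hP : Rel p C N R φ P := ⟨h2, h3, h1, h4, h5⟩
  set M := H ⊓ st R φ with hM
  have hMN : M ≤ Subgroup.normalizer (N : Set A) := inf_le_left.trans hh.ext.hN
  have hNM : N ⊓ M = N ⊓ st R φ := by
    rw [hM, ← inf_assoc, inf_eq_left.2 hh.ext.NH]
  obtain ⟨m₀, hm₀, hQP⟩ := (rel_iff hP h6 Q).1 hQ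
  -- Frattini argument
  have hfr : M ≤ (N ⊓ M) ⊔ (M ⊓ Subgroup.normalizer (Q : Set A)) := by
    intro m hm
    have h7 : Rel p C N R φ (cg m Q) := rel_cg hQ hm.2 (hMN hm)
    obtain ⟨n, hn, hn'⟩ := (rel_iff hP h6 _).1 h7
    -- cg m Q = cg n P, Q = cg m₀ P
    have h8 : cg (n * m₀⁻¹) Q = cg m Q := by
      rw [hn', hQP, cg_cg]
      congr 1
      group
    have h9 : n * m₀⁻¹ ∈ N ⊓ M := by
      rw [hNM]
      exact (N ⊓ st R φ).mul_mem hn ((N ⊓ st R φ).inv_mem hm₀)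
    have h10 : (n * m₀⁻¹)⁻¹ * m ∈ M ⊓ Subgroup.normalizer (Q : Set A) := by
      refine Subgroup.mem_inf.2 ⟨M.mul_mem (M.inv_mem h9.2) hm, ?_⟩
      rw [← cg_eq_self_iff, ← cg_cg, ← h8, cg_cg, inv_mul_cancel, cg_one]
    have h11 := Subgroup.mul_mem_sup h9 h10
    rwa [mul_inv_cancel_left] at h11
  have hsup : (N ⊓ M) ⊔ (M ⊓ Subgroup.normalizer (Q : Set A)) = M :=
    le_antisymm (sup_le inf_le_right inf_le_left) hfr
  have hnorm : M ⊓ Subgroup.normalizer (Q : Set A)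
      ≤ Subgroup.normalizer ((N ⊓ M : Subgroup A) : Set A) := by
    intro x hx
    rw [← cg_eq_self_iff, cg_inf, cg_eq_self_iff.2 (hMN hx.1), cg_of_mem hx.1]
  have h7 := card_sup_mul hnorm
  have h8 : (N ⊓ M) ⊓ (M ⊓ Subgroup.normalizer (Q : Set A))
      = (C ⊓ Subgroup.normalizer (Q : Set A)) ⊔ Q := by
    rw [← hQ.norm, ← inf_assoc, inf_assoc N M M, inf_idem, hNM]
  rw [hsup, h8] at h7
  have h9 := card_mul_rel (inf_le_right : N ⊓ M ≤ M)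
  rw [Subgroup.inf_relIndex_right] at h9
  have hpos : 0 < Nat.card ↥(N ⊓ M) := Nat.card_pos
  apply Nat.eq_of_mul_eq_mul_left hpos
  rw [← h7, ← h9]
  ring

end

end Pool.Agent.Lib.P0c8ca5.Cy
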