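import Mathlib
import Pool.Agent.Lib.P0c8ca5C.RelM
import Pool.Agent.Lib.P0c8ca5C.DzCore

/-!
# Module RelCard: the blocks of defect zero at `Q` and the related blocks of sections of `C`

PROOF.  This is `card_rel` of P0c8ca5.WeightsD with a further p'-step.  `exists_F hQR hQ hf he hee` gives
`F` with the properties `hF1` - `hF4`.  As in the proof of `card_rel` (with `N` in place of `H`,
`rel_of_norm`, `exists_P'`) `F` is a bijection from
`{φ | (IsDZ p (sec C R) φ ∧ φ * proj R f = φ) ∧ Rel p C N R φ Q}` onto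
`{g | IsDZ p (sec C Q) g ∧ g * proj Q f = g ∧ ∀ x ∈ sec N Q, cj x g = g → x ∈ sec C Q}`.
`sum_dz_core` for the groups `sec C Q ≤ sec N Q ≤ sec H Q` of `NQ Q` (`HypExt.sec`) and `proj Q f`
(`proj_suppIn`, `proj_invBy`, `proj_idem`) gives
`|sec H Q| * |{γ}| = ∑_g |sec H Q ⊓ cst g| * (sec C Q).relIndex (sec H Q ⊓ cst g)` over the second set.
Multiply by `|Q|`: `|sec H Q| * |Q| = |H ⊓ N(Q)|` (`card_sec`).  It remains to see for `g = F φ`,
`M = H ⊓ st R φ`: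
(i) `sec H Q ⊓ cst g = sec M Q`: let `h ∈ H` normalize `Q`, so it normalizes `R`
(`normalizer_le_of_inf`); `cj (qm Q h _) (F φ) = F (cj (qm R h _) φ)` by `hF4`, and this is `F φ` if and
only if `cj (qm R h _) φ = φ` by `hF2` (`cj (qm R h _) φ` has the same properties as `φ`, as in the proof
of `card_rel`);
(ii) `|sec M Q| * |Q| = |M ⊓ N(Q)|` (`card_sec`, `Q ≤ M`);
(iii) `(sec C Q).relIndex (sec M Q) * |(C ⊓ N(Q)) ⊔ Q| = |M ⊓ N(Q)|`: `relIndex_sec` for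
`G = C ⊓ N(R)`, which is contained in `M` (`GN_le_st`, `C ≤ H`) and has `sec G Q = sec C Q` and
`G ⊓ N(Q) = C ⊓ N(Q)` since `C ⊓ N(Q) ≤ N(R)`; compare with `relIndex_relM`:
`(sec C Q).relIndex (sec M Q) = N.relIndex M`.
-/

namespace Pool.Agent.Lib.P0c8ca5.Cy

open MonoidAlgebra

variable {p : ℕ} {k : Type*} [Field k] {A : Type*} [Group A]

theorem card_rel' [Fintype A] [Fact p.Prime] [CharP k p] [IsAlgClosed k]
    {C N H R : Subgroup A} [hC : C.Normal] (hh : HypExt p C N H) {Q : Subgroup A}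
    (hQ : IsPGroup p Q) (hQN : Q ≤ N) (hQR : Q ⊓ C = R) {f : MonoidAlgebra k A}
    (hf : SuppIn C f) (he : InvBy ⊤ f) (hee : f * f = f)
    (S : Finset (MonoidAlgebra k (NQ R)))
    (hS : ∀ φ, φ ∈ S ↔ (IsDZ p (sec C R) φ ∧ φ * proj R f = φ) ∧ Rel p C N R φ Q) :
    ∑ φ ∈ S, Nat.card ↥((H ⊓ st R φ) ⊓ Subgroup.normalizer (Q : Set A))
        * N.relIndex (H ⊓ st R φ)
      = Nat.card ↥(H ⊓ Subgroup.normalizer (Q : Set A))
        * Nat.card ↥{γ : MonoidAlgebra k (NQ Q) | IsDZ p (sec H Q) γ ∧ γ * proj Q f = γ} := by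
  classical
  have : Fintype (NQ R) := Fintype.ofFinite _
  have : Fintype (NQ Q) := Fintype.ofFinite _
  obtain ⟨F, hF1, hF2, hF3, hF4⟩ := exists_F (k := k) hQR hQ hf he hee
  have hR : IsPGroup p R := hQ.to_le (R_le_Q hQR)
  have hRC : R ≤ C := R_le_G hQR
  have hQnR := le_normalizer_of_inf hQR
  have hQH : Q ≤ H := hQN.trans hh.ext.NH
  have hinj : Set.InjOn F (S : Set (MonoidAlgebra k (NQ R))) := by
    intro φ hφ φ' hφ' h
    obtain ⟨⟨h1, _⟩, h3⟩ := (hS φ).1 hφ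
    obtain ⟨⟨h1', _⟩, h3'⟩ := (hS φ').1 hφ'
    exact hF2 φ φ' h1 (invBy_st (h3.le.trans inf_le_right)) h3.br h1'
        (invBy_st (h3'.le.trans inf_le_right)) h
  have key : ∀ φ, IsDZ p (sec C R) φ → Rel p C N R φ Q → ∀ h (_ : h ∈ Subgroup.normalizer (R : Set A))
      (hhQ : h ∈ Subgroup.normalizer (Q : Set A)), cj (qm Q h hhQ) (F φ) = F φ → h ∈ st R φ := by
    intro φ h1 h3 h hhR hhQ hwf
    have hinv : InvBy (sec Q R) φ := invBy_st (h3.le.trans inf_le_right)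
    rw [← hF4 h hhR hhQ] at hwf
    have h6 : IsDZ p (sec C R) (cj (qm R h hhR) φ) := by
      have := isDZ_cg h1 (qm R h hhR)
      rwa [cg_of_mem_normalizer (sec_normal C R _)] at this
    have h7 : InvBy (sec Q R) (cj (qm R h hhR) φ) :=
      hinv.cj (mem_normalizer_sec_of hhQ hhR)
    have h8 := hF2 φ _ h1 hinv h3.br h6 h7 hwf.symm
    exact ⟨hhR, h8.symm⟩
  have hcore := sum_dz_core (hh.sec Q) (proj_suppIn hf Q) ((proj_invBy he Q).mono le_top)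
    (proj_idem he hee hQ) (S.image F) (by
    intro g
    rw [Finset.mem_image]
    constructor
    · rintro ⟨φ, hφ, rfl⟩
      obtain ⟨⟨h1, h2⟩, h3⟩ := (hS φ).1 hφ
      have hinv : InvBy (sec Q R) φ := invBy_st (h3.le.trans inf_le_right)
      obtain ⟨h4, h5⟩ := hF1 φ h1 hinv h3.br
      refine ⟨h4, h5.1 h2, ?_⟩
      intro w hw hwf
      obtain ⟨h, hh', hhQ, rfl⟩ := mem_sec.1 hw
      have hhR := normalizer_le_of_inf hQR hhQ
      have h9 : h ∈ (N ⊓ st R φ) ⊓ Subgroup.normalizer (Q : Set A) :=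
        ⟨⟨hh', key φ h1 h3 h hhR hhQ hwf⟩, hhQ⟩
      rw [h3.norm, mem_GNQ_sup] at h9
      obtain ⟨l, hl, q, hq, rfl⟩ := h9
      have h10 : qm Q (l * q) hhQ = qm Q l hl.2 := by
        rw [qm_eq_iff]
        have e1 : (l * q)⁻¹ * l = q⁻¹ := by group
        rw [e1]; exact Q.inv_mem hq
      rw [h10]
      exact qm_mem_sec _ hl.1
    · rintro ⟨h1, h2, h3⟩
      obtain ⟨φ, h4, h5, h6, rfl⟩ := hF3 g h1
      obtain ⟨P, g1, g2, g3, g4, g5, g6⟩ := exists_P' hh.CN hh.pgrp hR hRC h4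
      have hP : Rel p C N R φ P := ⟨g2, g3, g1, g4, g5⟩
      have hQst : Q ≤ N ⊓ st R φ := le_inf hQN ((le_st_iff hQnR).2 h5)
      refine ⟨φ, (hS φ).2 ⟨⟨h4, ((hF1 φ h4 h5 h6).2).2 h2⟩, ?_⟩, rfl⟩
      apply rel_of_norm hP g6 hQ hQR hQst h6
      rintro x hx
      obtain ⟨hx1, hxQ⟩ := Subgroup.mem_inf.1 hx
      obtain ⟨hxH, hxR, hxφ⟩ := hx1
      have h7 := h3 (qm Q x hxQ) (qm_mem_sec _ hxH) (by rw [← hF4 x hxR hxQ, hxφ])
      obtain ⟨y, hy, hy', h8⟩ := mem_sec.1 h7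
      rw [qm_eq_iff] at h8
      rw [mem_GNQ_sup]
      refine ⟨y, ⟨hy, hy'⟩, (x⁻¹ * y)⁻¹, Q.inv_mem h8, ?_⟩
      group)
  rw [Finset.sum_image hinj] at hcore
  rw [← card_sec hQH, mul_assoc, mul_comm (Nat.card Q), ← mul_assoc, hcore, Finset.sum_mul]
  refine Finset.sum_congr rfl fun φ hφ => ?_
  obtain ⟨⟨h1, _⟩, h3⟩ := (hS φ).1 hφ
  have hQM : Q ≤ H ⊓ st R φ := le_inf hQH (h3.le.trans inf_le_right)
  have hi : sec H Q ⊓ cst (F φ) = sec (H ⊓ st R φ) Q := by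
    apply le_antisymm
    · intro w hw
      obtain ⟨hw1, hw2⟩ := Subgroup.mem_inf.1 hw
      obtain ⟨h, hh', hhQ, rfl⟩ := mem_sec.1 hw1
      have hhR := normalizer_le_of_inf hQR hhQ
      exact qm_mem_sec hhQ ⟨hh', key φ h1 h3 h hhR hhQ (mem_cst.1 hw2)⟩
    · intro w hw
      obtain ⟨h, hh', hhQ, rfl⟩ := mem_sec.1 hw
      obtain ⟨hhH, hhR, hhφ⟩ := hh'
      refine Subgroup.mem_inf.2 ⟨qm_mem_sec hhQ hhH, ?_⟩
      rw [mem_cst, ← hF4 h hhR hhQ, hhφ]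
  have hsecC : sec (C ⊓ Subgroup.normalizer (R : Set A)) Q = sec C Q := by
    apply le_antisymm (sec_mono inf_le_left)
    intro w hw
    obtain ⟨x, hx, hx', rfl⟩ := mem_sec.1 hw
    exact qm_mem_sec hx' ⟨hx, normalizer_le_of_inf hQR hx'⟩
  have hCM : C ⊓ Subgroup.normalizer (R : Set A) ≤ H ⊓ st R φ :=
    le_inf (inf_le_left.trans (hh.CN.trans hh.ext.NH)) (GN_le_st h1.blk.invBy)
  have hinf : (C ⊓ Subgroup.normalizer (R : Set A)) ⊓ Subgroup.normalizer (Q : Set A) =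
      C ⊓ Subgroup.normalizer (Q : Set A) := by
    rw [inf_assoc, inf_eq_right.2 (normalizer_le_of_inf hQR)]
  have e1 := relIndex_sec hCM hQM
  rw [hsecC, hinf] at e1
  have e2 := relIndex_relM hh hR hRC h1 h3
  have e3 : (sec C Q).relIndex (sec (H ⊓ st R φ) Q) = N.relIndex (H ⊓ st R φ) :=
    Nat.eq_of_mul_eq_mul_right Nat.card_pos (e1.trans e2.symm)
  rw [hi, e3, ← card_sec hQM]
  ring

end Pool.Agent.Lib.P0c8ca5.Cy
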