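import Mathlib
import Pool.Agent.Lib.P0c8ca5C.RelCard

/-!
# Module HTwo: the weighted number of weights of `H` in `f`

PROOF.  As `cnt_stP` and `sum_fixedR` in P0c8ca5.WeightsD.  `Psi N H (stP p C f)` is the sum over the
pairs `(R, φ)` (`R ≤ C` a p-group, `φ` with `IsDZ p (sec C R) φ`, `φ * proj R f = φ`) of
`|M| * N.relIndex M`, `M = H ⊓ st R φ`.  By `sum_relM` `|M| = ∑ |M ⊓ N(Q)|` over the `Q` with
`Rel p C N R φ Q` (these are p-subgroups `Q` of `N` with `Q ⊓ C = R`).  Exchange the summations: the sum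
over the p-subgroups `Q` of `N`, `R = Q ⊓ C`, of the left side of `card_rel'`.  So
`Psi = ∑ |H ⊓ N(Q)| * |{γ}|` over the p-subgroups `Q` of `N`; and every p-subgroup of `H` lies in `N`
(`CycExt.le_of_pGroup`), so this is `Fr.Ws p H f`.
-/

namespace Pool.Agent.Lib.P0c8ca5.Cy

open MonoidAlgebra

variable {p : ℕ} {k : Type*} [Field k] {A : Type*} [Group A]

open Classical in
private theorem sum_fixedR' [Fintype A] [Fact p.Prime] [CharP k p] [IsAlgClosed k]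
    {C N H R : Subgroup A} [hC : C.Normal] (hh : HypExt p C N H)
    (hR : IsPGroup p R) (hRC : R ≤ C) {f : MonoidAlgebra k A}
    (hf : SuppIn C f) (he : InvBy ⊤ f) (hee : f * f = f)
    (T : Finset (MonoidAlgebra k (NQ R)))
    (hT : ∀ φ, φ ∈ T ↔ IsDZ p (sec C R) φ ∧ φ * proj R f = φ)
    (S : Finset (Subgroup A))
    (hS : ∀ Q, Q ∈ S ↔ Q ≤ N ∧ IsPGroup p Q ∧ Q ⊓ C = R) :
    ∑ φ ∈ T, Nat.card ↥(H ⊓ st R φ) * N.relIndex (H ⊓ st R φ)
      = ∑ Q ∈ S, Nat.card ↥(H ⊓ Subgroup.normalizer (Q : Set A))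
        * Nat.card ↥{γ : MonoidAlgebra k (NQ Q) | IsDZ p (sec H Q) γ ∧ γ * proj Q f = γ} := by
  have h1 : ∀ φ ∈ T, Nat.card ↥(H ⊓ st R φ) * N.relIndex (H ⊓ st R φ)
      = ∑ Q ∈ S, if Rel p C N R φ Q then
          Nat.card ↥((H ⊓ st R φ) ⊓ Subgroup.normalizer (Q : Set A))
            * N.relIndex (H ⊓ st R φ) else 0 := by
    intro φ hφ
    rw [← Finset.sum_filter, ← Finset.sum_mul]
    congr 1
    rw [sum_relM hh hR hRC ((hT φ).1 hφ).1]
    intro Q
    rw [Finset.mem_filter, hS]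
    constructor
    · exact fun h => h.2
    · intro h
      exact ⟨⟨h.le.trans inf_le_left, h.pgrp, h.inf⟩, h⟩
  rw [Finset.sum_congr rfl h1, Finset.sum_comm]
  refine Finset.sum_congr rfl (fun Q hQ => ?_)
  obtain ⟨h2, h3, h4⟩ := (hS Q).1 hQ
  rw [← Finset.sum_filter, card_rel' hh h3 h2 h4 hf he hee]
  intro φ
  rw [Finset.mem_filter, hT]

theorem ws_psi [Fintype A] [Fact p.Prime] [CharP k p] [IsAlgClosed k]
    {C N H : Subgroup A} [hC : C.Normal] (hh : HypExt p C N H) {f : MonoidAlgebra k A}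
    (hf : SuppIn C f) (he : InvBy ⊤ f) (hee : f * f = f) [Fintype (PT p C f)] :
    Fr.Ws p H f = Psi N H (stP p C f) := by
  classical
  have : Fintype (Subgroup A) := Fintype.ofFinite _
  let inst1 : Fintype {R : Subgroup A // R ≤ C ∧ IsPGroup p R} := Fintype.ofFinite _
  have hfin : ∀ R : {R : Subgroup A // R ≤ C ∧ IsPGroup p R},
      Finite {φ : MonoidAlgebra k (NQ R.1) // IsDZ p (sec C R.1) φ ∧ φ * proj R.1 f = φ} := by
    intro R
    have h1 := finite_isBlock (k := k) (sec C R.1)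
    exact (h1.subset (fun φ (hφ : IsDZ p (sec C R.1) φ ∧ φ * proj R.1 f = φ) =>
      hφ.1.blk)).to_subtype
  let inst2 : ∀ R : {R : Subgroup A // R ≤ C ∧ IsPGroup p R},
      Fintype {φ : MonoidAlgebra k (NQ R.1) // IsDZ p (sec C R.1) φ ∧ φ * proj R.1 f = φ} :=
    fun R => Fintype.ofFinite _
  have h1 : Psi N H (stP p C f)
      = ∑ R : {R : Subgroup A // R ≤ C ∧ IsPGroup p R},
          ∑ φ : {φ : MonoidAlgebra k (NQ R.1) // IsDZ p (sec C R.1) φ ∧ φ * proj R.1 f = φ},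
            Nat.card ↥(H ⊓ st R.1 φ.1) * N.relIndex (H ⊓ st R.1 φ.1) := by
    let E : PT p C f ≃ (Σ R : {R : Subgroup A // R ≤ C ∧ IsPGroup p R},
      {φ : MonoidAlgebra k (NQ R.1) // IsDZ p (sec C R.1) φ ∧ φ * proj R.1 f = φ}) := Equiv.refl _
    refine (Fintype.sum_equiv E _ (fun x =>
      Nat.card ↥(H ⊓ st x.1.1 x.2.1) * N.relIndex (H ⊓ st x.1.1 x.2.1)) (fun x => rfl)).trans ?_
    rw [Fintype.sum_sigma]
  rw [h1]
  have h2 : ∀ R : {R : Subgroup A // R ≤ C ∧ IsPGroup p R},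
      (∑ φ : {φ : MonoidAlgebra k (NQ R.1) // IsDZ p (sec C R.1) φ ∧ φ * proj R.1 f = φ},
            Nat.card ↥(H ⊓ st R.1 φ.1) * N.relIndex (H ⊓ st R.1 φ.1))
      = ∑ Q ∈ Finset.univ.filter (fun Q : Subgroup A => Q ≤ H ∧ IsPGroup p Q),
        if Q ⊓ C = R.1 then Nat.card ↥(H ⊓ Subgroup.normalizer (Q : Set A))
        * Nat.card {γ : MonoidAlgebra k (NQ Q) | IsDZ p (sec H Q) γ ∧ γ * proj Q f = γ}
        else 0 := by
    intro R
    have hfs : {φ : MonoidAlgebra k (NQ R.1) |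
        IsDZ p (sec C R.1) φ ∧ φ * proj R.1 f = φ}.Finite :=
      (finite_isBlock (k := k) (sec C R.1)).subset (fun φ hφ => hφ.1.blk)
    have h4 := sum_fixedR' hh R.2.2 R.2.1 hf he hee hfs.toFinset
      (fun φ => by rw [Set.Finite.mem_toFinset]; rfl)
      ((Finset.univ.filter (fun Q : Subgroup A => Q ≤ H ∧ IsPGroup p Q)).filter
        (fun Q => Q ⊓ C = R.1))
      (fun Q => by
        rw [Finset.mem_filter, Finset.mem_filter]
        constructor
        · rintro ⟨⟨_, h5, h6⟩, h7⟩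
          exact ⟨hh.ext.le_of_pGroup h5 h6, h6, h7⟩
        · rintro ⟨h5, h6, h7⟩
          exact ⟨⟨Finset.mem_univ _, h5.trans hh.ext.NH, h6⟩, h7⟩)
    rw [Finset.sum_filter] at h4
    rw [← h4]
    symm
    apply Finset.sum_subtype (f := fun φ => Nat.card ↥(H ⊓ st R.1 φ) * N.relIndex (H ⊓ st R.1 φ))
    intro φ
    rw [Set.Finite.mem_toFinset]; rfl
  rw [Fintype.sum_congr _ _ h2, Finset.sum_comm]
  unfold Fr.Ws
  refine Finset.sum_congr (by ext Q; simp only [Finset.mem_filter, Finset.mem_univ]) (fun Q hQ => ?_)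
  have h3 : Q ⊓ C ≤ C ∧ IsPGroup p ↥(Q ⊓ C) :=
    ⟨inf_le_right, (Finset.mem_filter.1 hQ).2.2.to_le inf_le_left⟩
  symm
  rw [Finset.sum_eq_single (⟨Q ⊓ C, h3⟩ : {R : Subgroup A // R ≤ C ∧ IsPGroup p R})]
  · exact if_pos rfl
  · intro R _ hR
    apply if_neg
    intro h
    exact hR (Subtype.ext h.symm)
  · intro h
    exact absurd (Finset.mem_univ _) h

end Pool.Agent.Lib.P0c8ca5.Cy
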