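import Mathlib
import Pool.Agent.Lib.P0c8ca5C.Defs

/-!
# Module Avg: averaging over the cosets of a normal subgroup

PROOF of `avg`.  Both sides are sums over `x`.  For fixed `x` put `s = s x`; claim
`|C| * ∑_{g ∈ H ⊓ s} c g = ∑_{h ∈ H} c h * [C ⊔ zpowers h ≤ C ⊔ s] * |C ⊓ s|`.
Since `c (g z) = c g` for `z ∈ C`, and `g ↦ g z` is a bijection of `H`,
`|C| * ∑_{g ∈ H} c g * [g ∈ s] = ∑_{z ∈ C} ∑_{g ∈ H} c (g z) * [g z ∈ s]`
`= ∑_{g ∈ H} c g * |{z ∈ C | g z ∈ s}|`.  If `g z₀ ∈ s` with `z₀ ∈ C` then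
`{z ∈ C | g z ∈ s} = z₀ (C ⊓ s)` has `|C ⊓ s|` elements; otherwise it is empty.  There is such a `z₀` if and
only if `g ∈ C ⊔ s` (`C` is normal, `C ⊔ s = {y z}`), if and only if `C ⊔ zpowers g ≤ C ⊔ s`.
PROOF of `cnt_aS`.  For `x` with `C ⊔ (U ⊓ s x) = U`: equivalent to `U ≤ C ⊔ s x` (modular law, `C ≤ U`);
then `|U ⊓ s x| * |C| = |U| * |C ⊓ s x|` (`U = C (U ⊓ s x)` and `C ⊓ (U ⊓ s x) = C ⊓ s x`;
`card_sup_mul` in P0c8ca5.Comb).
-/

namespace Pool.Agent.Lib.P0c8ca5.Cy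

variable {A : Type*} [Group A] {X : Type*} [Fintype X]

namespace AvgAux

open Classical in
theorem card_filter [Fintype A] (K : Subgroup A) :
    Nat.card K = (Finset.univ.filter (fun g => g ∈ K)).card := by
  rw [Nat.card_eq_fintype_card]
  exact Fintype.card_subtype _

theorem mem_sup_iff (C : Subgroup A) [hC : C.Normal] (s : Subgroup A) (g : A) :
    C ⊔ Subgroup.zpowers g ≤ C ⊔ s ↔ ∃ z ∈ C, g * z ∈ s := by
  constructor
  · intro h
    have h1 : g ∈ s ⊔ C := by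
      rw [sup_comm]
      exact h (Subgroup.mem_sup_right (Subgroup.mem_zpowers g))
    rw [Subgroup.mem_sup_of_normal_right] at h1
    obtain ⟨y, hy, z, hz, rfl⟩ := h1
    exact ⟨z⁻¹, C.inv_mem hz, by simpa using hy⟩
  · rintro ⟨z, hz, hgz⟩
    refine sup_le le_sup_left ?_
    rw [Subgroup.zpowers_le]
    have h1 : g = g * z * z⁻¹ := by group
    rw [h1]
    exact (C ⊔ s).mul_mem (Subgroup.mem_sup_right hgz) (Subgroup.mem_sup_left (C.inv_mem hz))

open Classical in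
theorem fiber [Fintype A] (C : Subgroup A) [hC : C.Normal] (s : Subgroup A) (g : A) :
    (Finset.univ.filter (fun z => z ∈ C ∧ g * z ∈ s)).card =
      if C ⊔ Subgroup.zpowers g ≤ C ⊔ s then Nat.card ↥(C ⊓ s) else 0 := by
  by_cases h : C ⊔ Subgroup.zpowers g ≤ C ⊔ s
  · rw [if_pos h, card_filter]
    obtain ⟨z0, hz0, hg⟩ := (mem_sup_iff C s g).1 h
    refine Finset.card_nbij' (fun z => z0⁻¹ * z) (fun w => z0 * w) ?_ ?_ ?_ ?_
    · intro z hz
      simp only [Finset.coe_filter, Finset.mem_univ, true_and, Set.mem_setOf_eq] at hz ⊢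
      refine ⟨C.mul_mem (C.inv_mem hz0) hz.1, ?_⟩
      have e : z0⁻¹ * z = (g * z0)⁻¹ * (g * z) := by group
      rw [e]
      exact s.mul_mem (s.inv_mem hg) hz.2
    · intro w hw
      simp only [Finset.coe_filter, Finset.mem_univ, true_and, Set.mem_setOf_eq] at hw ⊢
      refine ⟨C.mul_mem hz0 hw.1, ?_⟩
      rw [← mul_assoc]
      exact s.mul_mem hg hw.2
    · intro z _
      simp
    · intro w _
      simp
  · rw [if_neg h, Finset.card_eq_zero, Finset.filter_eq_empty_iff]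
    intro z _ hz
    exact h ((mem_sup_iff C s g).2 ⟨z, hz⟩)

open Classical in
theorem avg_one [Fintype A] (C : Subgroup A) [hC : C.Normal] {H : Subgroup A} (hCH : C ≤ H)
    (s : Subgroup A) (c : A → ℚ) (hc : ∀ g, ∀ z ∈ C, c (g * z) = c g) :
    (Nat.card C : ℚ) * ∑ g ∈ Finset.univ.filter (fun g => g ∈ H ⊓ s), c g
      = ∑ h ∈ Finset.univ.filter (fun h => h ∈ H), c h *
        ((if C ⊔ Subgroup.zpowers h ≤ C ⊔ s then Nat.card ↥(C ⊓ s) else 0 : ℕ) : ℚ) := by
  have h1 : (Nat.card C : ℚ) * ∑ g ∈ Finset.univ.filter (fun g => g ∈ H ⊓ s), c g =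
      ∑ z ∈ Finset.univ.filter (fun z => z ∈ C), ∑ g : A, if g * z ∈ H ⊓ s then c (g * z) else 0 := by
    rw [card_filter, ← nsmul_eq_mul, ← Finset.sum_const]
    refine Finset.sum_congr rfl fun z _ => ?_
    rw [Finset.sum_filter]
    exact (Equiv.sum_comp (Equiv.mulRight z) (fun g => if g ∈ H ⊓ s then c g else 0)).symm
  have h2 : ∀ z ∈ Finset.univ.filter (fun z => z ∈ C),
      (∑ g : A, if g * z ∈ H ⊓ s then c (g * z) else 0) =
        ∑ g ∈ Finset.univ.filter (fun h => h ∈ H), if g * z ∈ s then c g else 0 := by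
    intro z hz
    have hzC : z ∈ C := (Finset.mem_filter.1 hz).2
    rw [Finset.sum_filter]
    refine Finset.sum_congr rfl fun g _ => ?_
    rw [hc g z hzC]
    have e : g * z ∈ H ↔ g ∈ H := by
      constructor
      · intro h
        have := H.mul_mem h (H.inv_mem (hCH hzC))
        simpa using this
      · intro h
        exact H.mul_mem h (hCH hzC)
    by_cases hg : g ∈ H
    · rw [if_pos hg]
      refine if_congr ?_ rfl rfl
      rw [Subgroup.mem_inf, e]
      exact ⟨fun h => h.2, fun h => ⟨hg, h⟩⟩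
    · rw [if_neg hg, if_neg]
      rw [Subgroup.mem_inf, e]
      exact fun h => hg h.1
  rw [h1, Finset.sum_congr rfl h2, Finset.sum_comm]
  refine Finset.sum_congr rfl fun g _ => ?_
  rw [← fiber C s g, ← Finset.sum_filter, Finset.sum_const, nsmul_eq_mul, mul_comm,
    Finset.filter_filter]

end AvgAux

open Classical in
theorem avg [Fintype A] (C : Subgroup A) [hC : C.Normal] {H : Subgroup A} (hCH : C ≤ H)
    (s : X → Subgroup A) (c : A → ℚ) (hc : ∀ g, ∀ z ∈ C, c (g * z) = c g) :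
    (Nat.card C : ℚ) * ∑ x, ∑ g ∈ Finset.univ.filter (fun g => g ∈ H ⊓ s x), c g
      = ∑ h ∈ Finset.univ.filter (fun h => h ∈ H), c h * (aS C s (C ⊔ Subgroup.zpowers h) : ℚ) := by
  rw [Finset.mul_sum, Finset.sum_congr rfl fun x _ => AvgAux.avg_one C hCH (s x) c hc,
    Finset.sum_comm]
  refine Finset.sum_congr rfl fun g _ => ?_
  unfold aS
  rw [Nat.cast_sum, Finset.mul_sum]

theorem cnt_aS [Finite A] (C : Subgroup A) [hC : C.Normal] {U : Subgroup A} (hCU : C ≤ U)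
    (s : X → Subgroup A) :
    cnt s C U * Nat.card C = Nat.card U * aS C s U := by
  classical
  have hn : (⊤ : Subgroup A) ≤ Subgroup.normalizer (C : Set A) := by
    rw [Subgroup.normalizer_eq_top_iff.2 hC]
  unfold aS
  rw [cnt_eq_sum_fc, Finset.sum_mul, Finset.mul_sum]
  refine Finset.sum_congr rfl fun x _ => ?_
  have h1 := fc_low (s := s x) hCU le_top hn
  rw [top_inf_eq] at h1
  rw [mul_comm, h1]
  by_cases h : U ≤ C ⊔ s x
  · rw [if_pos h, if_pos h]
  · rw [if_neg h, if_neg h, mul_zero]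

end Pool.Agent.Lib.P0c8ca5.Cy
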