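import Mathlib

/-!
# Module PsiFn: a function on a cyclic group whose sum over every subgroup is the square of the order

PROOF.  `gen u = #{v | zpowers v = zpowers u} > 0` and
`c u = #{(x, y) | closure {x, y} = zpowers u} / gen u`; it is positive since `(u, u)` is such a pair.
For a subgroup `Z'`: every subgroup `closure {x, y}` with `x, y ∈ Z'` is contained in `Z'` and cyclic
(`Subgroup.isCyclic`), so it is `zpowers u` for exactly `gen u` elements `u ∈ Z'`; hence
`∑_{u ∈ Z'} c u = ∑_{u ∈ Z'} ∑_{(x, y)} [closure {x, y} = zpowers u] / gen u`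
`= ∑_{x, y ∈ Z'} 1 = |Z'|^2` (exchange the sums; if `closure {x, y} = zpowers u` with `u ∈ Z'` then
`x, y ∈ Z'`; `gen` is constant on the generators).
-/

namespace Pool.Agent.Lib.P0c8ca5.Cy

namespace PsiFnAux

open Classical in
/-- the elements that generate the same subgroup as `u` -/
noncomputable def gen {Z : Type*} [Group Z] [Fintype Z] (W : Subgroup Z) : Finset Z :=
  Finset.univ.filter (fun v => Subgroup.zpowers v = W)

open Classical in
/-- the pairs that generate `W` -/
noncomputable def prs {Z : Type*} [Group Z] [Fintype Z] (W : Subgroup Z) : Finset (Z × Z) :=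
  Finset.univ.filter (fun q => Subgroup.closure {q.1, q.2} = W)

end PsiFnAux

open PsiFnAux in
open Classical in
theorem exists_psiFn (Z : Type*) [Group Z] [Fintype Z] [IsCyclic Z] :
    ∃ c : Z → ℚ, (∀ u, 0 < c u) ∧
      ∀ Z' : Subgroup Z, ∑ u ∈ Finset.univ.filter (fun u => u ∈ Z'), c u = (Nat.card Z' : ℚ) ^ 2 := by
  have hgen : ∀ u : Z, 0 < (gen (Subgroup.zpowers u)).card := fun u =>
    Finset.card_pos.2 ⟨u, by simp [gen]⟩
  have hprs : ∀ u : Z, 0 < (prs (Subgroup.zpowers u)).card := fun u =>
    Finset.card_pos.2 ⟨(u, u), by simp [prs, Subgroup.zpowers_eq_closure]⟩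
  refine ⟨fun u => ((prs (Subgroup.zpowers u)).card : ℚ) / ((gen (Subgroup.zpowers u)).card : ℚ),
    fun u => div_pos (by exact_mod_cast hprs u) (by exact_mod_cast hgen u), ?_⟩
  intro Z'
  have h1 : ∀ u : Z, ((prs (Subgroup.zpowers u)).card : ℚ) / ((gen (Subgroup.zpowers u)).card : ℚ)
      = ∑ q : Z × Z, if Subgroup.closure {q.1, q.2} = Subgroup.zpowers u then
          (1 : ℚ) / ((gen (Subgroup.closure {q.1, q.2})).card : ℚ) else 0 := by
    intro u
    rw [← Finset.sum_filter]
    have h2 : ∑ q ∈ Finset.univ.filter (fun q : Z × Z => Subgroup.closure {q.1, q.2}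
        = Subgroup.zpowers u), (1 : ℚ) / ((gen (Subgroup.closure {q.1, q.2})).card : ℚ)
        = ∑ q ∈ prs (Subgroup.zpowers u), (1 : ℚ) / ((gen (Subgroup.zpowers u)).card : ℚ) := by
      refine Finset.sum_congr rfl (fun q hq => ?_)
      rw [(Finset.mem_filter.1 hq).2]
    rw [h2, Finset.sum_const, nsmul_eq_mul]
    ring
  rw [Finset.sum_congr rfl (fun u _ => h1 u), Finset.sum_comm]
  have h3 : ∀ q : Z × Z, ∑ u ∈ Finset.univ.filter (fun u => u ∈ Z'),
      (if Subgroup.closure {q.1, q.2} = Subgroup.zpowers u then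
          (1 : ℚ) / ((gen (Subgroup.closure {q.1, q.2})).card : ℚ) else 0)
      = if q.1 ∈ Z' ∧ q.2 ∈ Z' then 1 else 0 := by
    intro q
    rw [← Finset.sum_filter]
    by_cases h : q.1 ∈ Z' ∧ q.2 ∈ Z'
    · rw [if_pos h]
      have h4 : Subgroup.closure {q.1, q.2} ≤ Z' := by
        rw [Subgroup.closure_le]
        rintro x (rfl | hx)
        · exact h.1
        · rw [Set.mem_singleton_iff] at hx
          subst hx
          exact h.2
      obtain ⟨g, hg⟩ : ∃ g : Z, Subgroup.zpowers g = Subgroup.closure {q.1, q.2} := by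
        obtain ⟨⟨g, hg⟩, hg'⟩ := IsCyclic.exists_generator
          (α := ↥(Subgroup.closure ({q.1, q.2} : Set Z)))
        refine ⟨g, le_antisymm (by rwa [Subgroup.zpowers_le]) ?_⟩
        intro x hx
        obtain ⟨n, hn⟩ := Subgroup.mem_zpowers_iff.1 (hg' ⟨x, hx⟩)
        exact Subgroup.mem_zpowers_iff.2 ⟨n, congrArg Subtype.val hn⟩
      have h5 : (Finset.univ.filter (fun u => u ∈ Z')).filter
          (fun u => Subgroup.closure {q.1, q.2} = Subgroup.zpowers u)
          = gen (Subgroup.closure {q.1, q.2}) := by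
        ext u
        simp only [gen, Finset.mem_filter, Finset.mem_univ, true_and]
        constructor
        · rintro ⟨_, h⟩; exact h.symm
        · intro h
          exact ⟨h4 (h ▸ Subgroup.mem_zpowers u), h.symm⟩
      rw [h5, Finset.sum_const, nsmul_eq_mul, mul_one_div, div_self]
      have := hgen g
      rw [hg] at this
      exact_mod_cast this.ne'
    · rw [if_neg h]
      apply Finset.sum_eq_zero
      intro u hu
      exfalso
      rw [Finset.mem_filter, Finset.mem_filter] at hu
      obtain ⟨⟨_, huZ⟩, hu⟩ := hu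
      apply h
      have h6 : Subgroup.closure {q.1, q.2} ≤ Z' := by
        rw [hu, Subgroup.zpowers_le]; exact huZ
      exact ⟨h6 (Subgroup.subset_closure (by simp)), h6 (Subgroup.subset_closure (by simp))⟩
  rw [Finset.sum_congr rfl (fun q _ => h3 q), ← Finset.sum_filter, Finset.sum_const, nsmul_eq_mul,
    mul_one]
  have h7 : (Finset.univ.filter (fun q : Z × Z => q.1 ∈ Z' ∧ q.2 ∈ Z'))
      = (Finset.univ.filter (fun u => u ∈ Z')) ×ˢ (Finset.univ.filter (fun u => u ∈ Z')) := by
    ext q
    simp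
  have h8 : (Finset.univ.filter (fun u => u ∈ Z')).card = Nat.card Z' := by
    rw [Nat.card_eq_fintype_card, Fintype.card_subtype]
  rw [h7, Finset.card_product, h8]
  push_cast
  ring

end Pool.Agent.Lib.P0c8ca5.Cy
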