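import Mathlib
import Pool.Agent.Lib.P0c8ca5C.Avg
import Pool.Agent.Lib.P0c8ca5C.PsiFn

/-!
# Module PsiInv: `Psi` is determined by its values on the groups with cyclic quotient by `C`

PROOF.  Let `Z = A ⧸ N` (cyclic), `c₀ : Z → ℚ` from `exists_psiFn`, `c g = c₀ (g N)`; it is constant on the
cosets of `C ≤ N` and positive.
`psi_eq`: for every subgroup `L` of `A` `∑_{g ∈ L} c g = |L| * N.relIndex L`: the class map `L → Z` has
all fibres over its image `Z'` of size `|L ⊓ N|`, and `∑_{u ∈ Z'} c₀ u = |Z'|^2`, `|Z'| = N.relIndex L`,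
`|L| = |L ⊓ N| * |Z'|`.  So (with `L = H ⊓ s x`) `Psi N H s = ∑_x ∑_{g ∈ H ⊓ s x} c g`, and by `avg`
`|C| * Psi N H s = ∑_{h ∈ H} c h * aS C s (C ⊔ zpowers h)` for `C ≤ H`.  (Also
`Psi (N ⊓ H) H s = Psi N H s`: `Subgroup.inf_relIndex_right`-type lemma for `H ⊓ s x ≤ H`.)
Now put `D g = aS C s₁ (C ⊔ zpowers g) - aS C s₂ (C ⊔ zpowers g)` (in `ℚ`).  Claim: `D g = 0` for all `g`,
by strong induction on the order of `Y = C ⊔ zpowers g`.  By hypothesis and the formula for `H = Y`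
`∑_{h ∈ Y} c h * D h = 0`.  For `h ∈ Y` either `C ⊔ zpowers h = Y`, so `D h = D g`, or `C ⊔ zpowers h` is
smaller and `D h = 0`.  So `(∑_{h ∈ Y, C ⊔ zpowers h = Y} c h) * D g = 0`, and the first factor is
positive (`h = g` is in the sum).  Finally the formula for `H = ⊤` gives the claim.
-/

namespace Pool.Agent.Lib.P0c8ca5.Cy

variable {A : Type*} [Group A]

namespace PsiInvAux

open Classical in
theorem sum_hom {L Z : Type*} [Group L] [Fintype L] [Group Z] [Fintype Z] (φ : L →* Z)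
    (f : Z → ℚ) : ∑ l, f (φ l) = (Nat.card φ.ker : ℚ) *
      ∑ u ∈ Finset.univ.filter (fun u => u ∈ φ.range), f u := by
  have h1 : ∀ u ∈ φ.range, ((Finset.univ.filter fun l => φ l = u).card : ℚ) =
      (Nat.card φ.ker : ℚ) := by
    intro u hu
    have h2 : (Finset.univ.filter fun l => φ l = u).card =
        (Finset.univ.filter fun l => φ l = 1).card :=
      MonoidHom.card_fiber_eq_of_mem_range φ (by simpa using hu) ⟨1, map_one φ⟩
    rw [h2]
    congr 1
    rw [Nat.card_eq_fintype_card, Fintype.card_subtype]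
    congr 1
    ext x
    simp [MonoidHom.mem_ker]
  rw [← Finset.sum_fiberwise_of_maps_to (s := Finset.univ)
    (t := Finset.univ.filter (fun u => u ∈ φ.range)) (g := φ)
    (fun l _ => by simp), Finset.mul_sum]
  refine Finset.sum_congr rfl fun u hu => ?_
  rw [← h1 u (Finset.mem_filter.1 hu).2]
  rw [Finset.sum_congr rfl (g := fun _ => f u) (fun l hl => by rw [(Finset.mem_filter.1 hl).2]),
    Finset.sum_const, nsmul_eq_mul]

open Classical in
theorem sum_sub [Fintype A] {N : Subgroup A} [N.Normal] [Fintype (A ⧸ N)] {c₀ : A ⧸ N → ℚ}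
    (hc : ∀ Z' : Subgroup (A ⧸ N), ∑ u ∈ Finset.univ.filter (fun u => u ∈ Z'), c₀ u =
      (Nat.card Z' : ℚ) ^ 2) (L : Subgroup A) :
    ∑ g ∈ Finset.univ.filter (fun g => g ∈ L), c₀ (g : A ⧸ N) =
      (Nat.card L * N.relIndex L : ℕ) := by
  set φ : L →* A ⧸ N := (QuotientGroup.mk' N).comp L.subtype with hφ
  have h1 : ∑ g ∈ Finset.univ.filter (fun g => g ∈ L), c₀ (g : A ⧸ N) = ∑ l : L, c₀ (φ l) := by
    exact Finset.sum_subtype (Finset.univ.filter (fun g => g ∈ L)) (p := fun g => g ∈ L)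
      (fun x => by simp) (fun g => c₀ (g : A ⧸ N))
  have h2 : φ.ker = N.subgroupOf L := by
    ext x
    rw [MonoidHom.mem_ker, Subgroup.mem_subgroupOf]
    show ((x : A) : A ⧸ N) = 1 ↔ _
    rw [QuotientGroup.eq_one_iff]
  have h3 : N.relIndex L = Nat.card φ.range := by
    rw [← Subgroup.index_ker, h2]
    rfl
  have h4 : Nat.card φ.ker * Nat.card φ.range = Nat.card L := by
    rw [← Subgroup.index_ker, Subgroup.card_mul_index]
  have h5 := sum_hom φ c₀
  have h6 := hc φ.range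
  rw [h1, h5]
  have h7 : (Nat.card φ.ker : ℚ) * (Nat.card φ.range : ℚ) ^ 2 =
      ((Nat.card L * N.relIndex L : ℕ) : ℚ) := by
    rw [h3, ← h4]
    push_cast
    ring
  rw [← h7]
  congr 1
  convert h6

open Classical in
theorem psi_eq [Fintype A] {X : Type*} [Fintype X] {C N : Subgroup A} [C.Normal] [N.Normal]
    (hCN : C ≤ N) [Fintype (A ⧸ N)] {c₀ : A ⧸ N → ℚ}
    (hc : ∀ Z' : Subgroup (A ⧸ N), ∑ u ∈ Finset.univ.filter (fun u => u ∈ Z'), c₀ u =
      (Nat.card Z' : ℚ) ^ 2) (s : X → Subgroup A) {H : Subgroup A} (hCH : C ≤ H) :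
    (Nat.card C : ℚ) * (Psi N H s : ℚ) = ∑ h ∈ Finset.univ.filter (fun h => h ∈ H),
      c₀ (h : A ⧸ N) * (aS C s (C ⊔ Subgroup.zpowers h) : ℚ) := by
  rw [← avg C hCH s (fun g => c₀ (g : A ⧸ N)) (fun g z hz => by
    congr 1
    exact QuotientGroup.mk_mul_of_mem g (hCN hz))]
  congr 1
  unfold Psi
  push_cast
  refine Finset.sum_congr rfl fun x _ => ?_
  have := sum_sub hc (H ⊓ s x)
  push_cast at this
  exact this.symm

theorem psi_inf {X : Type*} [Fintype X] (N H : Subgroup A) (s : X → Subgroup A) :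
    Psi (N ⊓ H) H s = Psi N H s := by
  unfold Psi
  refine Finset.sum_congr rfl fun x _ => ?_
  congr 1
  rw [← Subgroup.inf_relIndex_right (N ⊓ H) (H ⊓ s x), ← Subgroup.inf_relIndex_right N (H ⊓ s x)]
  congr 1
  rw [inf_assoc, inf_of_le_right (inf_le_left : H ⊓ s x ≤ H)]

end PsiInvAux

open PsiInvAux

theorem psi_inv [Fintype A] {X₁ X₂ : Type*} [Fintype X₁] [Fintype X₂] {C N : Subgroup A}
    [hC : C.Normal] [hN : N.Normal] (hCN : C ≤ N)
    (hcyc : ∃ t : A, N ⊔ Subgroup.zpowers t = ⊤) (s₁ : X₁ → Subgroup A) (s₂ : X₂ → Subgroup A)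
    (h : ∀ g : A, Psi (N ⊓ (C ⊔ Subgroup.zpowers g)) (C ⊔ Subgroup.zpowers g) s₁
      = Psi (N ⊓ (C ⊔ Subgroup.zpowers g)) (C ⊔ Subgroup.zpowers g) s₂) :
    Psi N ⊤ s₁ = Psi N ⊤ s₂ := by
  classical
  haveI : Fintype (A ⧸ N) := Fintype.ofFinite _
  haveI : IsCyclic (A ⧸ N) := by
    obtain ⟨t, ht⟩ := hcyc
    refine ⟨(t : A ⧸ N), fun x => ?_⟩
    obtain ⟨a, rfl⟩ := QuotientGroup.mk_surjective x
    have ha : a ∈ N ⊔ Subgroup.zpowers t := by rw [ht]; exact Subgroup.mem_top a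
    obtain ⟨n, hn, y, hy, rfl⟩ := Subgroup.mem_sup_of_normal_left.1 ha
    obtain ⟨m, rfl⟩ := Subgroup.mem_zpowers_iff.1 hy
    refine Subgroup.mem_zpowers_iff.2 ⟨m, ?_⟩
    rw [QuotientGroup.mk_mul, (QuotientGroup.eq_one_iff n).2 hn, one_mul, QuotientGroup.mk_zpow]
  obtain ⟨c₀, hpos, hc⟩ := exists_psiFn (A ⧸ N)
  have hCpos : (0 : ℚ) < Nat.card C := by exact_mod_cast Nat.card_pos
  have key : ∀ n : ℕ, ∀ g : A, Nat.card ↥(C ⊔ Subgroup.zpowers g) = n →
      (aS C s₁ (C ⊔ Subgroup.zpowers g) : ℚ) - (aS C s₂ (C ⊔ Subgroup.zpowers g) : ℚ) = 0 := by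
    intro n
    induction n using Nat.strong_induction_on with
    | _ n ih =>
      intro g hg
      set Y := C ⊔ Subgroup.zpowers g with hY
      have hCY : C ≤ Y := le_sup_left
      have hgY : g ∈ Y := (le_sup_right : Subgroup.zpowers g ≤ Y) (Subgroup.mem_zpowers g)
      have e1 := psi_eq hCN hc s₁ hCY
      have e2 := psi_eq hCN hc s₂ hCY
      have e3 : Psi N Y s₁ = Psi N Y s₂ := by
        rw [← psi_inf N Y s₁, ← psi_inf N Y s₂]
        exact h g
      rw [e3] at e1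
      have e4 : ∑ x ∈ Finset.univ.filter (fun x => x ∈ Y), c₀ (x : A ⧸ N) *
          ((aS C s₁ (C ⊔ Subgroup.zpowers x) : ℚ) - (aS C s₂ (C ⊔ Subgroup.zpowers x) : ℚ)) =
          0 := by
        simp only [mul_sub, Finset.sum_sub_distrib]
        rw [← e1, ← e2, sub_self]
      have e5 : ∑ x ∈ Finset.univ.filter (fun x => x ∈ Y), c₀ (x : A ⧸ N) *
          ((aS C s₁ (C ⊔ Subgroup.zpowers x) : ℚ) - (aS C s₂ (C ⊔ Subgroup.zpowers x) : ℚ)) =
          (∑ x ∈ Finset.univ.filter (fun x => x ∈ Y),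
            if C ⊔ Subgroup.zpowers x = Y then c₀ (x : A ⧸ N) else 0) *
          ((aS C s₁ Y : ℚ) - (aS C s₂ Y : ℚ)) := by
        rw [Finset.sum_mul]
        refine Finset.sum_congr rfl fun x hx => ?_
        have hxY : x ∈ Y := (Finset.mem_filter.1 hx).2
        by_cases hxe : C ⊔ Subgroup.zpowers x = Y
        · rw [if_pos hxe, hxe]
        · rw [if_neg hxe, zero_mul]
          have hle : C ⊔ Subgroup.zpowers x ≤ Y :=
            sup_le hCY (by rwa [Subgroup.zpowers_le])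
          have hlt : Nat.card ↥(C ⊔ Subgroup.zpowers x) < n := by
            rw [← hg]
            refine lt_of_le_of_ne (Subgroup.card_le_of_le hle) fun he => hxe ?_
            exact Subgroup.eq_of_le_of_card_ge hle he.ge
          rw [ih _ hlt x rfl, mul_zero]
      rw [e5] at e4
      have e6 : 0 < ∑ x ∈ Finset.univ.filter (fun x => x ∈ Y),
            if C ⊔ Subgroup.zpowers x = Y then c₀ (x : A ⧸ N) else 0 := by
        refine Finset.sum_pos' (fun x _ => ?_) ⟨g, ?_, ?_⟩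
        · split_ifs
          · exact (hpos _).le
          · exact le_rfl
        · simpa using hgY
        · rw [if_pos rfl]
          exact hpos _
      exact (mul_eq_zero.1 e4).resolve_left e6.ne'
  have f1 := psi_eq hCN hc s₁ (le_top : C ≤ ⊤)
  have f2 := psi_eq hCN hc s₂ (le_top : C ≤ ⊤)
  have f3 : (Nat.card C : ℚ) * (Psi N ⊤ s₁ : ℚ) = (Nat.card C : ℚ) * (Psi N ⊤ s₂ : ℚ) := by
    rw [f1, f2]
    refine Finset.sum_congr rfl fun x _ => ?_
    congr 1
    exact sub_eq_zero.1 (key _ x rfl)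
  have f4 := mul_left_cancel₀ hCpos.ne' f3
  exact_mod_cast f4

end Pool.Agent.Lib.P0c8ca5.Cy
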