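import Mathlib
import Pool.Agent.Lib.P0c8ca5C.HOne
import Pool.Agent.Lib.P0c8ca5C.HTwo
import Pool.Agent.Lib.P0c8ca5C.PsiInv

/-!
# Module HAss: reduction of the weight equality to groups with cyclic quotient
-/

namespace Pool.Agent.Lib.P0c8ca5.Cy

open MonoidAlgebra

variable {p : ℕ} {k : Type*} [Field k] {A : Type*} [Group A]

theorem weq_hyp [Fintype A] [Fact p.Prime] [CharP k p] [IsAlgClosed k] {C N : Subgroup A}
    [hC : C.Normal] [hN : N.Normal] (hh : HypExt p C N ⊤) {f : MonoidAlgebra k A}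
    (hf : SuppIn C f) (hfi : InvBy ⊤ f) (hff : f * f = f)
    (h : ∀ g : A, WEq p (C ⊔ Subgroup.zpowers g) f) : WEq p (⊤ : Subgroup A) f := by
  classical
  have : Fintype (IrX C f) := Fintype.ofFinite _
  have : Fintype (PT p C f) := Fintype.ofFinite _
  have key : ∀ g : A, Psi (N ⊓ (C ⊔ Subgroup.zpowers g)) (C ⊔ Subgroup.zpowers g)
      (stX (G := C) hfi) = Psi (N ⊓ (C ⊔ Subgroup.zpowers g)) (C ⊔ Subgroup.zpowers g)
      (stP p C f) := by
    intro g
    have h1 : HypExt p C (N ⊓ (C ⊔ Subgroup.zpowers g)) (C ⊔ Subgroup.zpowers g) := by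
      have h2 := hh.sub (T := C ⊔ Subgroup.zpowers g) le_top
      rwa [inf_eq_left.2 (le_sup_left : C ≤ C ⊔ Subgroup.zpowers g)] at h2
    rw [← card_irX_psi h1 hf hfi hff, ← ws_psi h1 hf hfi hff]
    exact h g
  obtain ⟨t, -, ht⟩ := hh.ext.cyc
  have h3 := psi_inv hh.CN ⟨t, ht⟩ _ _ key
  unfold WEq
  rw [card_irX_psi hh hf hfi hff, ws_psi hh hf hfi hff]
  exact h3

end Pool.Agent.Lib.P0c8ca5.Cy
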