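import Mathlib
import Pool.Agent.Lib.P0c8ca5C.Defs
import Pool.Agent.Lib.P0c8ca5N.Gap

/-!
# Module Chains: the weighted form of Navarro's equality for an idempotent from the chain stabilizers

PROOF.  Copy the proofs of `chain_formula` and `formula` in P0c8ca5N.Gap; they use that `e` is a block
only through `SuppIn`, `InvBy`, `e * e = e`.
(1) For a nonempty chain `σ` with members in `Supp p G X`, `H = stab X σ`, `K = G ⊓ H`,
`c = cS (σ.sup id) e` the proof of `chain_formula` shows that the left sum `a σ` (with `mD`) is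
`|H| * card (IrX K c)`, and that the right sum `b σ` (with `wD`) is
`∑ R ∈ DH, |H ⊓ N(R)| * card {f | IsDZ p (sec H R) f ∧ f * proj R c = f}` (`hR4` there), and
`sum_weights_eq` (`hR2` there) says `|K| * b σ = |H| * Fr.Ws p K c`.  So by
`WEq p K c` (`|K| * card (IrX K c) = Ws p K c`) `|K| * a σ = |K| * b σ`, hence `a σ = b σ`.
(2) As in `formula`: `involution` gives `∑ σ ∈ Ch D, (-1)^|σ| * a σ = 0` and the same for `b`; the terms
with `σ ≠ ∅` are equal, so `a ∅ = b ∅`.  The last part of the proof of `formula` identifies `a ∅` with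
`|X| * card (Quotient (irrInvSetoid G X e))` (`defect_sum`, `pdef_top_iff`, `card_inv_eq`) and `b ∅` with
the right side.
-/

namespace Pool.Agent.Lib.P0c8ca5.Cy

open MonoidAlgebra

variable {p : ℕ} {k : Type*} [Field k] {A : Type*} [Group A]

namespace ChainsAux

theorem chain_eq [Fact p.Prime] [CharP k p] [IsAlgClosed k] [Fintype A]
    {G X : Subgroup A} (hGX : G ≤ X)
    (hn : X ≤ Subgroup.normalizer (G : Set A))
    (hp : ∀ x ∈ X, ∃ n : ℕ, x ^ p ^ n ∈ G) {e : MonoidAlgebra k A} (he : SuppIn G e)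
    (hinv : InvBy X e) (hee : e * e = e) {σ : Finset (Subgroup A)} (hne : σ.Nonempty)
    (hσ : IsChain (· ≤ ·) (σ : Set (Subgroup A))) (hσS : ∀ Q ∈ σ, Q ∈ Supp p G X)
    (D : Finset (Subgroup A)) (hD : ∀ Q, Q ∈ D ↔ Q ≤ stab X σ ∧ IsPGroup p Q ∧ Q ∈ Supp p G X)
    (hW : WEq p (G ⊓ stab X σ) (cS (σ.sup id) e)) :
    ∑ T ∈ D, Nat.card ↥(stab X σ ⊓ Subgroup.normalizer (T : Set A))
          * mD p (stab X σ ⊓ Subgroup.normalizer (T : Set A)) T (σ.sup id ⊔ T) e
      = ∑ T ∈ D, Nat.card ↥(stab X σ ⊓ Subgroup.normalizer (T : Set A))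
          * wD p (stab X σ ⊓ Subgroup.normalizer (T : Set A)) T (σ.sup id ⊔ T) e := by
  classical
  have : Fintype (Subgroup A) := Fintype.ofFinite _
  set H := stab X σ with hH
  set S := σ.sup id with hSdef
  set K := G ⊓ H with hK
  have hSσ : S ∈ σ := sup_mem_chain hne hσ
  obtain ⟨Q, hQσ, hQmin⟩ := exists_least hne hσ
  have hQS := hσS Q hQσ
  have hHX : H ≤ X := inf_le_left
  have hHn : ∀ R ∈ σ, H ≤ Subgroup.normalizer (R : Set A) := fun R hR x hx =>
    (mem_stab.1 hx).2 R hR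
  have hQH : Q ≤ H := by
    intro x hx
    rw [hH, mem_stab]
    exact ⟨hQS.1 hx, fun R hR => Subgroup.le_normalizer (hQmin R hR hx)⟩
  have hctx : Ctx p X H S e :=
    { hHX := hHX
      hS := (hσS S hSσ).2.1
      hHS := hHn S hSσ
      hCS := by
        intro x hx
        rw [hH, mem_stab]
        refine ⟨hx.1, fun R hR => ?_⟩
        have hRS : R ≤ S := Finset.le_sup (f := id) hR
        exact Subgroup.centralizer_le_normalizer _ (Subgroup.centralizer_le hRS hx.2)
      supp := he.mono hGX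
      inv := hinv }
  have hKH : K ≤ H := inf_le_right
  have hHK : H ≤ Subgroup.normalizer (K : Set A) := by
    intro x hx
    rw [← cg_eq_self_iff, hK, cg_inf, cg_eq_self_iff.2 (hn (hHX hx)), cg_of_mem hx]
  have hKQ : K ⊔ Q = H := by
    apply le_antisymm (sup_le hKH hQH)
    intro x hx
    have h1 : x ∈ G ⊔ Q := by rw [hQS.2.2]; exact hHX hx
    obtain ⟨g, hg, q, hq, rfl⟩ := (mem_sup_norm (hQS.1.trans hn)).1 h1
    have h2 : g ∈ H := by
      have := H.mul_mem hx (H.inv_mem (hQH hq))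
      rwa [mul_inv_cancel_right] at this
    exact Subgroup.mul_mem_sup (Subgroup.mem_inf.2 ⟨hg, h2⟩) hq
  set c := cS S e with hc
  have hcH : SuppIn H c := hctx.cS_supp
  have hcK : SuppIn K c := by
    intro x hx
    refine Subgroup.mem_inf.2 ⟨?_, hcH x hx⟩
    apply he
    intro h0
    apply hx
    rw [hc, coeff_resS]
    split_ifs
    · exact h0
    · rfl
  have hcinv : InvBy H c := hctx.cS_inv
  have hcc : c * c = c := hctx.cS_idem (hσS S hSσ).1 hee
  have hcinvK : InvBy K c := hcinv.mono hKH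
  have hFinv : ∀ T ∈ Supp p G X, ∀ h ∈ H, cg h T ∈ Supp p G X := fun T hT h hh =>
    supp_conj hGX hn hT (hHX hh)
  -- the left side
  have hL1 := defect_sum hctx hFinv D (fun T => hD T)
  have hP : Pdef p H (Supp p G X) = fun x => x ∈ H ∧ Preg p x := by
    funext x
    exact propext (pdef_iff hGX hn hp hQS hQH hHX (hHn Q hQσ) x)
  have hL2 : mult1 (EM p H (Pdef p H (Supp p G X)) c)
      = Nat.card (Quotient (irrInvSetoid K ⊥ c)) := by
    rw [hP, card_irX_eq hcK hcinvK hcc]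
    have hPK : (fun x => x ∈ K ∧ Preg p x) = fun x => x ∈ H ∧ Preg p x := by
      funext x
      apply propext
      constructor
      · rintro ⟨h1, h2⟩; exact ⟨hKH h1, h2⟩
      · rintro ⟨h1, h2⟩
        obtain ⟨n, hn'⟩ := hp x (hHX h1)
        exact ⟨Subgroup.mem_inf.2 ⟨mem_of_preg h2 hn', h1⟩, h2⟩
    rw [hPK]
    apply mult1_EM_eq
    rintro x y ⟨hx, hx'⟩ ⟨hy, hy'⟩
    constructor
    · rintro ⟨g, hg, rfl⟩
      obtain ⟨d, hd, hd'⟩ := conj_in hGX hn hp hQS hQH hHX (hHn Q hQσ) hx hx' hg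
      exact ⟨d, hd, hd'⟩
    · rintro ⟨g, hg, rfl⟩
      exact ⟨g, hKH hg, rfl⟩
  -- the right side
  let DH : Finset (Subgroup A) := Finset.univ.filter (fun R => R ≤ H ∧ IsPGroup p R)
  let DK : Finset (Subgroup A) := Finset.univ.filter (fun R => R ≤ K ∧ IsPGroup p R)
  have hDH : ∀ R, R ∈ DH ↔ R ≤ H ∧ IsPGroup p R := by intro R; simp [DH]
  have hDK : ∀ R, R ∈ DK ↔ R ≤ K ∧ IsPGroup p R := by intro R; simp [DK]
  have hR2 := sum_weights_eq hKH hHK hQH (hHn Q hQσ) hQS.2.1 hKQ hcK hcinv hcc DH hDH DK hDK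
  have hR4 : ∑ R ∈ DH, Nat.card ↥(H ⊓ Subgroup.normalizer (R : Set A))
          * Nat.card {f : MonoidAlgebra k (NQ R) | IsDZ p (sec H R) f ∧ f * proj R c = f}
      = ∑ R ∈ D, Nat.card ↥(H ⊓ Subgroup.normalizer (R : Set A))
          * wD p (H ⊓ Subgroup.normalizer (R : Set A)) R (S ⊔ R) e := by
    have h1 : ∑ R ∈ D, Nat.card ↥(H ⊓ Subgroup.normalizer (R : Set A))
          * wD p (H ⊓ Subgroup.normalizer (R : Set A)) R (S ⊔ R) e
        = ∑ R ∈ D, Nat.card ↥(H ⊓ Subgroup.normalizer (R : Set A))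
          * Nat.card {f : MonoidAlgebra k (NQ R) | IsDZ p (sec H R) f ∧ f * proj R c = f} := by
      refine Finset.sum_congr rfl (fun R hR => ?_)
      obtain ⟨h1, h2, _⟩ := (hD R).1 hR
      rw [wD_local hctx h1 h2]
    rw [h1]
    symm
    apply Finset.sum_subset
    · intro R hR
      obtain ⟨h1, h2, _⟩ := (hD R).1 hR
      exact (hDH R).2 ⟨h1, h2⟩
    · intro R hR hRD
      obtain ⟨h1, h2⟩ := (hDH R).1 hR
      have hemp : IsEmpty {f : MonoidAlgebra k (NQ R) | IsDZ p (sec H R) f ∧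
          f * proj R c = f} := by
        constructor
        rintro ⟨f, hf, _⟩
        have hQR := radical hQH (hHn Q hQσ) hQS.2.1 h1 h2 hf
        apply hRD
        rw [hD]
        refine ⟨h1, h2, h1.trans hHX, h2, ?_⟩
        apply le_antisymm (sup_le hGX (h1.trans hHX))
        rw [← hQS.2.2]
        exact sup_le_sup_left hQR G
      rw [Nat.card_of_isEmpty (α := {f : MonoidAlgebra k (NQ R) | IsDZ p (sec H R) f ∧
          f * proj R c = f}), mul_zero]
  have hpos : 0 < Nat.card K := Nat.card_pos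
  apply Nat.eq_of_mul_eq_mul_left hpos
  rw [← hL1, hL2, ← hR4, hR2]
  have hW' : Nat.card K * Nat.card (Quotient (irrInvSetoid K ⊥ c))
      = ∑ R ∈ DK, Nat.card ↥(K ⊓ Subgroup.normalizer (R : Set A))
          * Nat.card {f : MonoidAlgebra k (NQ R) | IsDZ p (sec K R) f ∧ f * proj R c = f} := by
    have h1 : Nat.card K * Nat.card (IrX K c) = Fr.Ws p K c := hW
    rw [h1, Fr.Ws]
    refine Finset.sum_congr ?_ (fun _ _ => rfl)
    ext R
    simp [DK]
  rw [← hW']
  ring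

end ChainsAux

theorem inv_of_chains [Fact p.Prime] [CharP k p] [IsAlgClosed k] [Fintype A]
    {G X : Subgroup A} (hGX : G ≤ X) (hn : X ≤ Subgroup.normalizer (G : Set A))
    (hp : ∀ x ∈ X, ∃ n : ℕ, x ^ p ^ n ∈ G) {e : MonoidAlgebra k A} (he : SuppIn G e)
    (hinv : InvBy X e) (hee : e * e = e)
    (hW : ∀ σ : Finset (Subgroup A), σ.Nonempty → IsChain (· ≤ ·) (σ : Set (Subgroup A)) →
      (∀ Q ∈ σ, Q ∈ Supp p G X) → WEq p (G ⊓ stab X σ) (cS (σ.sup id) e))
    (D : Finset (Subgroup A)) (hD : ∀ Q, Q ∈ D ↔ Q ∈ Supp p G X) :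
    Nat.card X * Nat.card (Quotient (irrInvSetoid G X e))
      = ∑ Q ∈ D, Nat.card ↥(X ⊓ Subgroup.normalizer (Q : Set A))
          * Nat.card {f : MonoidAlgebra k (NQ Q) | IsDZ p (sec X Q) f ∧ f * proj Q e = f} := by
  classical
  have : Fintype (Subgroup A) := Fintype.ofFinite _
  have hup : ∀ Q ∈ D, ∀ R : Subgroup A, R ≤ X → IsPGroup p R → Q ≤ R → R ∈ D := by
    intro Q hQ R h1 h2 h3
    rw [hD] at hQ ⊢
    refine ⟨h1, h2, le_antisymm (sup_le hGX h1) ?_⟩
    rw [← hQ.2.2]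
    exact sup_le_sup_left h3 G
  have inv := fun W => involution X D (fun Q hQ => ⟨((hD Q).1 hQ).1, ((hD Q).1 hQ).2.1⟩) hup W
  let a : Finset (Subgroup A) → ℕ := fun σ => ∑ T ∈ D.filter (fun T => T ≤ stab X σ),
    (Nat.card ↥(stab X σ ⊓ Subgroup.normalizer (T : Set A))
      * mD p (stab X σ ⊓ Subgroup.normalizer (T : Set A)) T (σ.sup id ⊔ T) e)
  let b : Finset (Subgroup A) → ℕ := fun σ => ∑ T ∈ D.filter (fun T => T ≤ stab X σ),
    (Nat.card ↥(stab X σ ⊓ Subgroup.normalizer (T : Set A))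
      * wD p (stab X σ ⊓ Subgroup.normalizer (T : Set A)) T (σ.sup id ⊔ T) e)
  have ha0 : ∑ σ ∈ Ch D, (-1 : ℤ) ^ σ.card * (a σ : ℤ) = 0 := by
    have := inv (fun M T S => ((Nat.card M * mD p M T S e : ℕ) : ℤ))
    simpa only [a, Nat.cast_sum] using this
  have hb0 : ∑ σ ∈ Ch D, (-1 : ℤ) ^ σ.card * (b σ : ℤ) = 0 := by
    have := inv (fun M T S => ((Nat.card M * wD p M T S e : ℕ) : ℤ))
    simpa only [b, Nat.cast_sum] using this
  have ha : ∑ σ ∈ Ch D, (-1 : ℚ) ^ σ.card * (a σ : ℚ) = 0 := by exact_mod_cast ha0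
  have hb : ∑ σ ∈ Ch D, (-1 : ℚ) ^ σ.card * (b σ : ℚ) = 0 := by exact_mod_cast hb0
  have hab : ∀ σ ∈ Ch D, σ.Nonempty → a σ = b σ := by
    intro σ hσ hne
    rw [Ch, Finset.mem_filter, Finset.mem_powerset] at hσ
    have hσS : ∀ Q ∈ σ, Q ∈ Supp p G X := fun Q hQ => (hD Q).1 (hσ.1 hQ)
    exact ChainsAux.chain_eq hGX hn hp he hinv hee hne hσ.2 hσS
      (D.filter (fun T => T ≤ stab X σ)) (by
        intro Q
        rw [Finset.mem_filter, hD]
        constructor
        · rintro ⟨h1, h2⟩; exact ⟨h2, h1.2.1, h1⟩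
        · rintro ⟨h1, _, h2⟩; exact ⟨h2, h1⟩) (hW σ hne hσ.2 hσS)
  have hmem : (∅ : Finset (Subgroup A)) ∈ Ch D := by
    rw [Ch, Finset.mem_filter]
    exact ⟨Finset.empty_mem_powerset _, by simp⟩
  have herase : (Ch D).filter (fun σ => σ.Nonempty) = (Ch D).erase ∅ := by
    ext σ
    rw [Finset.mem_filter, Finset.mem_erase, Finset.nonempty_iff_ne_empty]
    tauto
  have h0 : a ∅ = b ∅ := by
    rw [← Finset.add_sum_erase _ _ hmem] at ha0 hb0
    simp only [Finset.card_empty, pow_zero, one_mul] at ha0 hb0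
    have h1 : ∑ σ ∈ (Ch D).erase ∅, (-1 : ℤ) ^ σ.card * (a σ : ℤ)
        = ∑ σ ∈ (Ch D).erase ∅, (-1 : ℤ) ^ σ.card * (b σ : ℤ) := by
      refine Finset.sum_congr rfl (fun σ hσ => ?_)
      rw [← herase, Finset.mem_filter] at hσ
      rw [hab σ hσ.1 hσ.2]
    rw [h1] at ha0
    have h2 : (a ∅ : ℤ) = (b ∅ : ℤ) := by linarith
    exact_mod_cast h2
  have hctx : Ctx p X X ⊥ e :=
    { hHX := le_refl X
      hS := IsPGroup.of_bot
      hHS := by
        intro x _
        rw [Subgroup.mem_normalizer_iff]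
        intro y
        simp
      hCS := inf_le_left
      supp := he.mono hGX
      inv := hinv }
  have hfil : D.filter (fun T => T ≤ stab X ∅) = D := by
    apply Finset.filter_true_of_mem
    intro Q hQ
    rw [stab_empty]
    exact ((hD Q).1 hQ).1
  have h1 : a ∅ = Nat.card X * Nat.card (Quotient (irrInvSetoid G X e)) := by
    simp only [a]
    rw [hfil]
    simp only [stab_empty, Finset.sup_empty]
    have h2 := defect_sum hctx (F := Supp p G X)
      (fun T hT h hh => supp_conj hGX hn hT hh) D (by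
        intro Q
        rw [hD]
        exact ⟨fun h => ⟨h.1, h.2.1, h⟩, fun h => h.2.2⟩)
    rw [← h2, cS_bot]
    have hP : Pdef p X (Supp p G X) = PY p G X := by
      funext x
      exact propext (pdef_top_iff hGX hn hp x)
    rw [hP, card_inv_eq hGX hn hp he hinv hee]
  have h2 : b ∅ = ∑ Q ∈ D, Nat.card ↥(X ⊓ Subgroup.normalizer (Q : Set A))
          * Nat.card {f : MonoidAlgebra k (NQ Q) | IsDZ p (sec X Q) f ∧ f * proj Q e = f} := by
    simp only [b]
    rw [hfil]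
    simp only [stab_empty, Finset.sup_empty]
    refine Finset.sum_congr rfl (fun Q hQ => ?_)
    obtain ⟨h5, h6, _⟩ := (hD Q).1 hQ
    have h7 := wD_local hctx h5 h6
    rw [cS_bot] at h7
    rw [h7]
  rw [← h1, ← h2, h0]

end Pool.Agent.Lib.P0c8ca5.Cy
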