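import Mathlib
import Pool.Agent.Lib.P0c8ca5C.Avg

/-!
# Module CombX: comparison of two families of subgroups

PROOF.  `cnt_aS` and the hypothesis give `aS M s₁ U = aS M s₂ U` for all `M ≤ U`.  By `avg` with `c = 1`
and `H = ⊤`: `|M| * ∑_x |s₁ x| = ∑_h aS M s₁ (M ⊔ zpowers h)`, the same for `s₂`; so
`∑_x |s₁ x| = ∑_x |s₂ x|`, and `cnt s ⊤ ⊤ = ∑_x |s x|` (`cnt_def`, the condition
`⊤ ⊔ (⊤ ⊓ s x) = ⊤` always holds).
-/

namespace Pool.Agent.Lib.P0c8ca5.Cy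

variable {A : Type*} [Group A]

namespace CombXAux

theorem cnt_top_cast [Fintype A] {X : Type*} [Fintype X] (s : X → Subgroup A) :
    ((cnt s ⊤ ⊤ : ℕ) : ℚ) =
      ∑ x, ∑ _g ∈ (by classical exact Finset.univ.filter (fun g => g ∈ ⊤ ⊓ s x)), (1 : ℚ) := by
  classical
  rw [cnt_def, Nat.cast_sum]
  refine Finset.sum_congr rfl fun x _ => ?_
  rw [if_pos (by simp), Finset.sum_const, nsmul_eq_mul, mul_one]
  congr 1
  rw [Nat.card_eq_fintype_card]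
  exact Fintype.card_subtype _

theorem cnt_top_avg [Fintype A] {X : Type*} [Fintype X] (M : Subgroup A) [hM : M.Normal]
    (s : X → Subgroup A) :
    (Nat.card M : ℚ) * ((cnt s ⊤ ⊤ : ℕ) : ℚ) =
      ∑ h : A, (aS M s (M ⊔ Subgroup.zpowers h) : ℚ) := by
  classical
  have h1 := avg M (H := ⊤) le_top s (fun _ => (1 : ℚ)) (fun _ _ _ => rfl)
  rw [cnt_top_cast]
  simp only [one_mul, Subgroup.mem_top, Finset.filter_true] at h1
  convert h1 using 2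

end CombXAux

theorem cnt_top_eq [Fintype A] {X₁ X₂ : Type*} [Fintype X₁] [Fintype X₂] {M : Subgroup A}
    [hM : M.Normal] (s₁ : X₁ → Subgroup A) (s₂ : X₂ → Subgroup A)
    (h : ∀ U : Subgroup A, M ≤ U → cnt s₁ M U = cnt s₂ M U) :
    cnt s₁ ⊤ ⊤ = cnt s₂ ⊤ ⊤ := by
  have ha : ∀ U : Subgroup A, M ≤ U → aS M s₁ U = aS M s₂ U := by
    intro U hU
    have e1 := cnt_aS M hU s₁
    have e2 := cnt_aS M hU s₂
    rw [h U hU, e2] at e1
    exact (Nat.eq_of_mul_eq_mul_left Nat.card_pos e1).symm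
  have h1 := CombXAux.cnt_top_avg M s₁
  have h2 := CombXAux.cnt_top_avg M s₂
  have h3 : (Nat.card M : ℚ) * ((cnt s₁ ⊤ ⊤ : ℕ) : ℚ) = (Nat.card M : ℚ) * ((cnt s₂ ⊤ ⊤ : ℕ) : ℚ) := by
    rw [h1, h2]
    refine Finset.sum_congr rfl fun g _ => ?_
    rw [ha _ le_sup_left]
  have hpos : (Nat.card M : ℚ) ≠ 0 := by
    exact_mod_cast (Nat.card_pos (α := M)).ne'
  exact_mod_cast mul_left_cancel₀ hpos h3

end Pool.Agent.Lib.P0c8ca5.Cy
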