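import Mathlib
import Pool.Agent.Lib.P0c8ca5C.Defs

/-!
# Module ExM: the p'-part of a cyclic quotient

PROOF.  `A ⧸ C` is cyclic.  `M = C ⊔ zpowers (pr p g)` (`pr p g` is a p-regular power of `g`,
P0c8ca5N.RegP).  `M` is normal because it contains `C` and `A ⧸ C` is abelian.  Every `x` is `c * g ^ i`
with `c ∈ C`, so modulo `C` `x ^ (uexp p A) = (g ^ uexp p A) ^ i = (pr p g) ^ i`, so
`x ^ (uexp p A) ∈ M` and `uexp p A` is a power of `p` (`uexp_eq`).  `M ⧸ C` is generated by the class of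
`pr p g`, whose order is not divisible by `p` (`preg_pr`; the order of the class divides the order of
`pr p g`); so for `x ∈ M` the order of `x` modulo `C` is prime to `p`, and if `x` has order a power of `p`
then `x ∈ C`.
-/

namespace Pool.Agent.Lib.P0c8ca5.Cy

variable {p : ℕ} {A : Type*} [Group A]

namespace ExMAux

/-- the form of the elements -/
theorem exists_form {C : Subgroup A} [hC : C.Normal] {y x : A}
    (hx : x ∈ C ⊔ Subgroup.zpowers y) : ∃ i : ℤ, (x : A ⧸ C) = (y : A ⧸ C) ^ i := by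
  obtain ⟨c, hc, d, hd, rfl⟩ :=
    (mem_sup_norm (D := Subgroup.zpowers y) (L := C) (fun z _ => mem_norm_of_normal C z)).1 hx
  obtain ⟨i, rfl⟩ := Subgroup.mem_zpowers_iff.1 hd
  refine ⟨i, ?_⟩
  rw [QuotientGroup.mk_mul, (QuotientGroup.eq_one_iff c).2 hc, one_mul, QuotientGroup.mk_zpow]

theorem mem_of_form {C : Subgroup A} [hC : C.Normal] {y x : A} {i : ℤ}
    (hx : (x : A ⧸ C) = (y : A ⧸ C) ^ i) : x ∈ C ⊔ Subgroup.zpowers y := by
  rw [← QuotientGroup.mk_zpow, eq_comm, QuotientGroup.eq] at hx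
  have h2 : (y ^ i)⁻¹ * x ∈ C := hx
  have h3 : x = (y ^ i * ((y ^ i)⁻¹ * x) * (y ^ i)⁻¹) * y ^ i := by group
  rw [h3]
  exact Subgroup.mul_mem_sup (hC.conj_mem _ h2 _) (Subgroup.zpow_mem_zpowers y i)

end ExMAux

open ExMAux in
theorem exists_M [Fact p.Prime] [Finite A] {C : Subgroup A} [hC : C.Normal] {g : A}
    (hg : C ⊔ Subgroup.zpowers g = ⊤) :
    ∃ M : Subgroup A, M.Normal ∧ C ≤ M ∧ (∀ x : A, ∃ n : ℕ, x ^ p ^ n ∈ M) ∧
      ∀ P ≤ M, IsPGroup p P → P ≤ C := by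
  have hform : ∀ x : A, ∃ i : ℤ, (x : A ⧸ C) = (g : A ⧸ C) ^ i := fun x =>
    exists_form (by rw [hg]; exact Subgroup.mem_top x)
  have hcomm : ∀ a b : A ⧸ C, a * b = b * a := by
    intro a b
    obtain ⟨x, rfl⟩ := QuotientGroup.mk_surjective a
    obtain ⟨y, rfl⟩ := QuotientGroup.mk_surjective b
    obtain ⟨i, hi⟩ := hform x
    obtain ⟨j, hj⟩ := hform y
    rw [hi, hj, ← zpow_add, ← zpow_add, add_comm]
  refine ⟨C ⊔ Subgroup.zpowers (pr p g), ⟨?_⟩, le_sup_left, ?_, ?_⟩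
  · intro x hx y
    obtain ⟨i, hi⟩ := exists_form hx
    apply mem_of_form (i := i)
    rw [QuotientGroup.mk_mul, QuotientGroup.mk_mul, hcomm (y : A ⧸ C), mul_assoc,
      ← QuotientGroup.mk_mul, mul_inv_cancel, QuotientGroup.mk_one, mul_one, hi]
  · intro x
    obtain ⟨r, hr⟩ := uexp_eq p A
    refine ⟨r, ?_⟩
    obtain ⟨i, hi⟩ := hform x
    apply mem_of_form (i := i)
    rw [QuotientGroup.mk_pow, hi, pr, QuotientGroup.mk_pow, ← hr, ← zpow_natCast, ← zpow_natCast,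
      ← zpow_mul, ← zpow_mul, mul_comm]
  · intro P hPM hP x hx
    obtain ⟨i, hi⟩ := exists_form (hPM hx)
    obtain ⟨n, hn⟩ := hP ⟨x, hx⟩
    have hn' : x ^ p ^ n = 1 := congrArg Subtype.val hn
    rw [← QuotientGroup.eq_one_iff]
    have h1 : (x : A ⧸ C) ^ p ^ n = 1 := by
      rw [← QuotientGroup.mk_pow, hn', QuotientGroup.mk_one]
    have h2 : (x : A ⧸ C) ^ orderOf (pr p g) = 1 := by
      rw [hi, ← zpow_natCast, ← zpow_mul, mul_comm, zpow_mul, zpow_natCast,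
        ← QuotientGroup.mk_pow, pow_orderOf_eq_one, QuotientGroup.mk_one, one_zpow]
    have hpr : Preg p (pr p g) := preg_pr g
    have hcop : Nat.Coprime (p ^ n) (orderOf (pr p g)) :=
      Nat.Coprime.pow_left n (((Fact.out : p.Prime).coprime_iff_not_dvd).2 hpr)
    have h3 : orderOf (x : A ⧸ C) ∣ Nat.gcd (p ^ n) (orderOf (pr p g)) :=
      Nat.dvd_gcd (orderOf_dvd_of_pow_eq_one h1) (orderOf_dvd_of_pow_eq_one h2)
    rw [hcop] at h3
    exact orderOf_eq_one_iff.1 (Nat.dvd_one.1 h3)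

end Pool.Agent.Lib.P0c8ca5.Cy
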