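import Mathlib
import Pool.Agent.Lib.P0c8ca5C.Defs
import Pool.Agent.Lib.P0c8ca5N.TrC

/-!
# Module TrW: passing to the group `↥H`

PROOFS.  `weq_dn`: `dn_card_irr` (P0c8ca5N.TrA), `Subgroup.card_top`, and `Fr.Ws p ⊤ (dn H c) =
Fr.Ws p H c`: the p-subgroups `Q'` of `↥H` correspond to the p-subgroups `Q'.map H.subtype` of `A`
contained in `H` (inverse `Q ↦ Q.subgroupOf H`), `dn_normalizer`, `dn_card_dz` (P0c8ca5N.TrB); see the
proof of `navarro_transport` in P0c8ca5N.TrC.
The others are direct: `coeff_dn`; for the product of `dn H a` and `dn H b` with `a`, `b` supported in `H`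
use `dn_eq_tr`, `tr_mul` (P0c8ca5N.TrA, P0c8ca5.Transport) or `coeff_mul_fin`; `star_dn`: as
`Rk.hasBr_up` (P0c8ca5R.Final) for `P.map H.subtype ≤ C`, and `P.map H.subtype` is isomorphic to `P`
(`Subgroup.equivMapOfInjective`, `isCyclic_of_surjective`, `Nat.card_congr`).
`HypExt.dn`: elementwise (`Subgroup.mem_subgroupOf`, `Subgroup.relIndex_subgroupOf`-type lemma:
`(N.subgroupOf H).relIndex ⊤ = N.relIndex H` by definition of `relIndex` and `Subgroup.relIndex_top_right`).
-/

namespace Pool.Agent.Lib.P0c8ca5.Cy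

open MonoidAlgebra

variable {p : ℕ} {k : Type*} [Field k] {A : Type*} [Group A]

theorem weq_dn [Fintype A] {H : Subgroup A} [Fintype ↥H] {c : MonoidAlgebra k A}
    (hc : SuppIn H c) : WEq p (⊤ : Subgroup ↥H) (dn H c) ↔ WEq p H c := by
  classical
  have h1 : Nat.card (IrX (⊤ : Subgroup ↥H) (dn H c)) = Nat.card (IrX H c) := dn_card_irr H c
  have h2 : Fr.Ws p (⊤ : Subgroup ↥H) (dn H c) = Fr.Ws p H c := by
    unfold Fr.Ws
    refine Finset.sum_bij (fun Q _ => Q.map H.subtype) ?_ ?_ ?_ ?_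
    · intro Q hQ
      rw [Finset.mem_filter] at hQ ⊢
      refine ⟨Finset.mem_univ _, ?_, hQ.2.2.map _⟩
      intro x hx
      obtain ⟨y, _, rfl⟩ := hx
      exact y.2
    · intro Q _ Q' _ h
      exact Subgroup.map_injective H.subtype_injective h
    · intro Q hQ
      rw [Finset.mem_filter] at hQ
      refine ⟨Q.subgroupOf H, ?_, ?_⟩
      · rw [Finset.mem_filter]
        exact ⟨Finset.mem_univ _, le_top,
          hQ.2.2.comap_of_injective _ H.subtype_injective⟩
      · rw [Subgroup.subgroupOf_map_subtype]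
        exact inf_eq_left.2 hQ.2.1
    · intro Q _
      rw [dn_normalizer, dn_card_dz (p := p) H hc Q]
  unfold WEq
  rw [h1, h2, Subgroup.card_top]

theorem dn_suppIn {C H : Subgroup A} {c : MonoidAlgebra k A} (hc : SuppIn C c) :
    SuppIn (C.subgroupOf H) (dn H c) := by
  intro x hx
  rw [coeff_dn] at hx
  exact Subgroup.mem_subgroupOf.2 (hc _ hx)

theorem dn_invBy {H : Subgroup A} {c : MonoidAlgebra k A} (hc : InvBy H c) :
    InvBy (⊤ : Subgroup ↥H) (dn H c) := by
  intro g _ x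
  rw [coeff_dn, coeff_dn]
  exact hc g g.2 x

theorem dn_idem [Finite A] {H : Subgroup A} {c : MonoidAlgebra k A} (hc : SuppIn H c)
    (hcc : c * c = c) : dn H c * dn H c = dn H c := by
  rw [TrAAux.dn_eq_tr, ← tr_mul (TrAAux.tq H) hc hc, hcc]

theorem star_dn {Pr : ℕ → Prop} {C H : Subgroup A} {c : MonoidAlgebra k A}
    (h : Star p Pr C c) : Star p Pr (C.subgroupOf H) (dn H c) := by
  intro P hP hp hbr
  have h1 : P.map H.subtype ≤ C := by
    rintro _ ⟨y, hy, rfl⟩
    exact Subgroup.mem_subgroupOf.1 (hP hy)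
  obtain ⟨h2, h3⟩ := h (P.map H.subtype) h1 (hp.map _) (Rk.hasBr_up hbr)
  let e := Subgroup.equivMapOfInjective P H.subtype H.subtype_injective
  have hcard : Nat.card ↥(P.map H.subtype) = Nat.card P := Nat.card_congr e.toEquiv.symm
  rw [hcard] at h3
  exact ⟨isCyclic_of_surjective e.symm.toMonoidHom e.symm.surjective, h3⟩

theorem HypExt.dn {C N H : Subgroup A} (h : HypExt p C N H) :
    HypExt p (C.subgroupOf H) (N.subgroupOf H) (⊤ : Subgroup ↥H) ∧ (C.subgroupOf H).Normal ∧
      (N.subgroupOf H).Normal := by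
  have hNn : (N.subgroupOf H).Normal := by
    refine ⟨fun n hn g => ?_⟩
    rw [Subgroup.mem_subgroupOf] at hn ⊢
    exact (Subgroup.mem_normalizer_iff.1 (h.ext.hN g.2) _).1 hn
  have hCn : (C.subgroupOf H).Normal := by
    refine ⟨fun n hn g => ?_⟩
    rw [Subgroup.mem_subgroupOf] at hn ⊢
    exact (Subgroup.mem_normalizer_iff.1 (h.hC g.2) _).1 hn
  refine ⟨⟨?_, ?_, ⟨le_top, ?_, ?_, ?_⟩, ?_⟩, hCn, hNn⟩
  · intro x hx
    rw [Subgroup.mem_subgroupOf] at hx ⊢
    exact h.CN hx
  · rw [Subgroup.normalizer_eq_top_iff.2 hCn]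
  · rw [Subgroup.normalizer_eq_top_iff.2 hNn]
  · obtain ⟨t, ht, hNt⟩ := h.ext.cyc
    refine ⟨⟨t, ht⟩, Subgroup.mem_top _, ?_⟩
    apply Subgroup.map_injective H.subtype_injective
    rw [Subgroup.map_sup, Subgroup.subgroupOf_map_subtype, inf_eq_left.2 h.ext.NH,
      MonoidHom.map_zpowers]
    have e1 : H.subtype ⟨t, ht⟩ = t := rfl
    rw [e1, hNt, ← MonoidHom.range_eq_map, Subgroup.range_subtype]
  · rw [Subgroup.relIndex_top_right]
    exact h.ext.idx
  · intro x hx
    rw [Subgroup.mem_subgroupOf] at hx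
    obtain ⟨n, hn⟩ := h.pgrp x hx
    exact ⟨n, Subgroup.mem_subgroupOf.2 hn⟩

theorem weq_zero [Fact p.Prime] [CharP k p] [Fintype A] (H : Subgroup A) :
    WEq p H (0 : MonoidAlgebra k A) := by
  classical
  unfold WEq
  have h1 : IsEmpty (IrX H (0 : MonoidAlgebra k A)) := by
    constructor
    intro x
    induction x using Quotient.inductionOn with
    | _ σ =>
      have h2 := act_iff.2 σ.blk
      have : Fintype ↥H := Fintype.ofFinite _
      have h3 := (irr_iff.1 σ.irr).nontriv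
      obtain ⟨v, hv⟩ := exists_ne (0 : Fin σ.n → k)
      have h4 := LinearMap.congr_fun h2 v
      rw [act_apply] at h4
      apply hv
      rw [Module.End.one_apply] at h4
      rw [← h4]
      apply Finset.sum_eq_zero
      intro x _
      exact zero_smul k _
  have h5 : Nat.card (IrX H (0 : MonoidAlgebra k A)) = 0 := Nat.card_of_isEmpty
  rw [h5, mul_zero]
  symm
  unfold Fr.Ws
  apply Finset.sum_eq_zero
  intro Q _
  have h2 : IsEmpty {f : MonoidAlgebra k (NQ Q) | IsDZ p (sec H Q) f ∧ f * proj Q 0 = f} := by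
    constructor
    rintro ⟨f, hf1, hf2⟩
    have h3 : proj Q (0 : MonoidAlgebra k A) = 0 := by
      rw [← zero_smul k (0 : MonoidAlgebra k A), proj_smul, zero_smul]
    rw [h3, mul_zero] at hf2
    exact hf1.blk.ne_zero hf2.symm
  have h6 : Nat.card {f : MonoidAlgebra k (NQ Q) | IsDZ p (sec H Q) f ∧ f * proj Q 0 = f} = 0 :=
    Nat.card_of_isEmpty
  rw [h6, mul_zero]

end Pool.Agent.Lib.P0c8ca5.Cy
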