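import Mathlib
import Pool.Agent.Lib.P0c8ca5C.TrW
import Pool.Agent.Lib.P0c8ca5R.Base1

/-!
# Module StarBase: the weight equality from the base
-/

namespace Pool.Agent.Lib.P0c8ca5.Cy

open MonoidAlgebra

universe u v

variable {p : ℕ} {k : Type v} [Field k]

theorem base_one [Fact p.Prime] [CharP k p] [IsAlgClosed k] :
    BaseHyp.{u, v} p k (fun n => n ≤ p) := by
  intro B _ _ e he hst
  exact Rk.base he (fun P hP hbr => (hst P le_top hP hbr).2)

theorem Star.of_mul {A : Type u} [Group A] [Fintype A] [Fact p.Prime] [CharP k p] [IsAlgClosed k]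
    {Pr : ℕ → Prop} {K : Subgroup A} {b c : MonoidAlgebra k A} (hb : IsBlock K b)
    (hc : SuppIn K c) (hci : InvBy K c) (hcc : c * c = c) (hbc : b * c ≠ 0)
    (hst : Star p Pr K c) : Star p Pr K b := by
  intro P hPK hP hbr
  have hmem : c ∈ fixAlg k K K := mem_fixAlg.2 ⟨hc, hci⟩
  have hcomm : c * b = b * c := commute_of hc hb.invBy
  have hmul : b * c = b := by
    rcases hb.mul_eq hmem hcc with h | h
    · rw [hcomm] at h; exact absurd h hbc
    · rw [← hcomm]; exact h
  exact hst P hPK hP (hasBr_of_mul hP (hb.invBy.mono hPK) (hci.mono hPK) hmul hbr)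

theorem weq_base [Fact p.Prime] [CharP k p] [IsAlgClosed k] {Pr : ℕ → Prop}
    (hB : BaseHyp.{u, v} p k Pr) {A : Type u} [Group A] [Fintype A] {K : Subgroup A}
    {c : MonoidAlgebra k A} (hc : SuppIn K c) (hci : InvBy K c) (hcc : c * c = c)
    (hst : Star p Pr K c) : WEq p K c := by
  classical
  refine card_irr_eq_sum hc hci hcc ?_ _ (fun R => by
    rw [Finset.mem_filter]
    exact ⟨fun h => h.2, fun h => ⟨Finset.mem_univ _, h⟩⟩)
  intro b hb hbc
  have : Fintype ↥K := Fintype.ofFinite _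
  have h1 := star_dn (H := K) (Star.of_mul hb hc hci hcc hbc hst)
  rw [Subgroup.subgroupOf_self] at h1
  exact navarro_transport hb (hB ↥K (dn K b) (dn_isBlock hb) h1)

end Pool.Agent.Lib.P0c8ca5.Cy
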