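import Mathlib
import Pool.Agent.Lib.P0c8ca5C.StarBase
import Pool.Agent.Lib.P0c8ca5C.ExM
import Pool.Agent.Lib.P0c8ca5C.CombX
import Pool.Agent.Lib.P0c8ca5C.Chains

/-!
# Module WCyc: the weight equality for a cyclic quotient
-/

namespace Pool.Agent.Lib.P0c8ca5.Cy

open MonoidAlgebra

universe u v

variable {p : ℕ} {k : Type v} [Field k]

theorem weq_cyc [Fact p.Prime] [CharP k p] [IsAlgClosed k] {Pr : ℕ → Prop}
    (hB : BaseHyp.{u, v} p k Pr) {A : Type u} [Group A] [Fintype A] {C : Subgroup A}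
    [hC : C.Normal] {g : A} (hg : C ⊔ Subgroup.zpowers g = ⊤) {f : MonoidAlgebra k A}
    (hf : SuppIn C f) (hfi : InvBy ⊤ f) (hff : f * f = f) (hst : Star p Pr C f) :
    WEq p (⊤ : Subgroup A) f := by
  classical
  obtain ⟨M, hM, hCM, hp, hMC⟩ := exists_M (p := p) hg
  have : Fintype (Subgroup A) := Fintype.ofFinite _
  have : Fintype (IrX M f) := Fintype.ofFinite _
  have : Fintype (PT p M f) := Fintype.ofFinite _
  have hfM : SuppIn M f := hf.mono hCM
  have hnM : ∀ U : Subgroup A, U ≤ Subgroup.normalizer (M : Set A) := fun U x _ =>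
    mem_norm_of_normal M x
  have key : ∀ U : Subgroup A, M ≤ U →
      cnt (stX (G := M) hfi) M U = cnt (stP p M f) M U := by
    intro U hMU
    let S : Finset (Subgroup A) := Finset.univ.filter (fun Q => Q ∈ Supp p M U)
    have hS : ∀ Q, Q ∈ S ↔ Q ∈ Supp p M U := by intro Q; simp [S]
    rw [cnt_stX (p := p) le_rfl hMU (hnM U) hp hfM hfi hff,
      cnt_stP le_rfl hMU hp hfM hfi hff S (fun Q => by rw [hS]; exact Iff.rfl)]
    apply inv_of_chains hMU (hnM U) (fun x _ => hp x) hfM (hfi.mono le_top) hff ?_ S hS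
    intro σ hne hσ hσS
    set T := σ.sup id with hT
    have hTσ : T ∈ σ := sup_mem_chain hne hσ
    have hHn : ∀ Q ∈ σ, stab U σ ≤ Subgroup.normalizer (Q : Set A) := fun Q hQ x hx =>
      (mem_stab.1 hx).2 Q hQ
    have hCS : U ⊓ Subgroup.centralizer (T : Set A) ≤ stab U σ := by
      intro x hx
      rw [mem_stab]
      refine ⟨hx.1, fun Q hQ => ?_⟩
      have hQT : Q ≤ T := Finset.le_sup (f := id) hQ
      exact Subgroup.centralizer_le_normalizer _ (Subgroup.centralizer_le hQT hx.2)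
    have hctx : Ctx p U (stab U σ) T f :=
      { hHX := inf_le_left
        hS := (hσS T hTσ).2.1
        hHS := hHn T hTσ
        hCS := hCS
        supp := hfM.mono hMU
        inv := hfi.mono le_top }
    have hsub : ∀ x, (cS T f).coeff x ≠ 0 → f.coeff x ≠ 0 := by
      intro x hx h0
      apply hx
      rw [coeff_resS]
      split_ifs
      · exact h0
      · rfl
    refine weq_base hB (fun x hx => Subgroup.mem_inf.2 ⟨hfM x (hsub x hx), hctx.cS_supp x hx⟩)
      (hctx.cS_inv.mono inf_le_right) (hctx.cS_idem (hσS T hTσ).1 hff) ?_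
    rintro P hP hPp ⟨x, hx, hx0⟩
    exact hst P (hMC P (hP.trans inf_le_left) hPp) hPp ⟨x, hx, hsub x hx0⟩
  have h1 := cnt_top_eq (M := M) (stX (G := M) hfi) (stP p M f) key
  let S : Finset (Subgroup A) := Finset.univ.filter (fun Q => Q ≤ ⊤ ∧ IsPGroup p Q)
  have hS : ∀ Q, Q ∈ S ↔ Q ≤ ⊤ ∧ IsPGroup p Q ∧ ⊤ ⊔ Q = ⊤ := by
    intro Q; simp [S]
  rw [cnt_stX (p := p) le_top le_rfl (by rw [Subgroup.normalizer_eq_top]) hp hfM hfi hff,
    cnt_stP le_top le_top hp hfM hfi hff S hS] at h1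
  unfold WEq Fr.Ws
  rw [← card_irr_eq, h1]
  refine Finset.sum_congr ?_ (fun _ _ => rfl)
  ext Q
  simp [S]

end Pool.Agent.Lib.P0c8ca5.Cy
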