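import Mathlib
import Pool.Agent.Lib.P0c8ca5C.HAss
import Pool.Agent.Lib.P0c8ca5C.WCyc

/-!
# Module StarH: the weight equality for `K / C` with a normal p-subgroup and cyclic p'-quotient
-/

namespace Pool.Agent.Lib.P0c8ca5.Cy

open MonoidAlgebra

universe u v

variable {p : ℕ} {k : Type v} [Field k]

theorem weq_star [Fact p.Prime] [CharP k p] [IsAlgClosed k] {Pr : ℕ → Prop}
    (hB : BaseHyp.{u, v} p k Pr) {A : Type u} [Group A] [Fintype A] {C N : Subgroup A}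
    [hC : C.Normal] [hN : N.Normal] (hh : HypExt p C N ⊤) {f : MonoidAlgebra k A}
    (hf : SuppIn C f) (hfi : InvBy ⊤ f) (hff : f * f = f) (hst : Star p Pr C f) :
    WEq p (⊤ : Subgroup A) f := by
  classical
  apply weq_hyp hh hf hfi hff
  intro g
  set Y := C ⊔ Subgroup.zpowers g with hY
  have : Fintype ↥Y := Fintype.ofFinite _
  have hCY : C ≤ Y := le_sup_left
  have hgY : g ∈ Y := (le_sup_right : _ ≤ Y) (Subgroup.mem_zpowers g)
  rw [← weq_dn (hf.mono hCY)]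
  have hCn : (C.subgroupOf Y).Normal := inferInstance
  have hg : C.subgroupOf Y ⊔ Subgroup.zpowers (⟨g, hgY⟩ : ↥Y) = ⊤ := by
    rw [eq_top_iff]
    rintro ⟨x, hx⟩ -
    have hx' := hx
    rw [hY, mem_sup_norm (D := Subgroup.zpowers g) (fun y _ => mem_norm_of_normal C y)] at hx
    obtain ⟨c, hc, z, hz, rfl⟩ := hx
    obtain ⟨n, rfl⟩ := Subgroup.mem_zpowers_iff.1 hz
    have h1 : (⟨c, hCY hc⟩ : ↥Y) ∈ C.subgroupOf Y := Subgroup.mem_subgroupOf.2 hc
    have h2 : (⟨g, hgY⟩ : ↥Y) ^ n ∈ Subgroup.zpowers (⟨g, hgY⟩ : ↥Y) :=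
      Subgroup.zpow_mem_zpowers _ n
    have h3 := Subgroup.mul_mem_sup h1 h2
    have e1 : (⟨c, hCY hc⟩ : ↥Y) * (⟨g, hgY⟩ : ↥Y) ^ n = ⟨c * g ^ n, hx'⟩ :=
      Subtype.ext (by simp)
    rw [← e1]
    exact h3
  exact weq_cyc hB hg (dn_suppIn hf) (dn_invBy (hfi.mono le_top)) (dn_idem (hf.mono hCY) hff)
    (star_dn hst)

theorem weq_star' [Fact p.Prime] [CharP k p] [IsAlgClosed k] {Pr : ℕ → Prop}
    (hB : BaseHyp.{u, v} p k Pr) {A : Type u} [Group A] [Fintype A] {C N K : Subgroup A}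
    (hh : HypExt p C N K) {c : MonoidAlgebra k A}
    (hc : SuppIn C c) (hci : InvBy K c) (hcc : c * c = c) (hst : Star p Pr C c) :
    WEq p K c := by
  classical
  have : Fintype ↥K := Fintype.ofFinite _
  have hCK : C ≤ K := hh.CN.trans hh.ext.NH
  rw [← weq_dn (hc.mono hCK)]
  obtain ⟨h1, h2, h3⟩ := hh.dn
  exact weq_star hB h1 (dn_suppIn hc) (dn_invBy hci) (dn_idem (hc.mono hCK) hcc)
    (star_dn hst)

end Pool.Agent.Lib.P0c8ca5.Cy
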