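import Mathlib
import Pool.Agent.Lib.P0c8ca5C.StarH
import Pool.Agent.Lib.P0c8ca5C.AutMain
import Pool.Agent.Lib.P0c8ca5R.Final

/-!
# Navarro's equality when the fixed points in the defect group are cyclic: the assembly
-/

namespace Pool.Agent.Lib.P0c8ca5.Cy

open MonoidAlgebra

universe u v

variable {p : ℕ} {k : Type v} [Field k]

/-- a block `e` of `G` invariant in `A`: all p-subgroups with `Br_Q(e) ≠ 0` are in conjugates of `D` -/
theorem exists_cg_le [Fact p.Prime] [CharP k p] [IsAlgClosed k] {A : Type u} [Group A]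
    [Fintype A] {e : MonoidAlgebra k A} (he : IsBlock (⊤ : Subgroup A) e) {D : Subgroup A}
    (hD : IsDefectGroup p ⊤ e D) {Q : Subgroup A} (hQ : IsPGroup p Q) (hbr : HasBr Q e) :
    ∃ x : A, Q ≤ cg x D := by
  obtain ⟨D', hD', hle⟩ := exists_defect (p := p) (N := ⊤) le_top hQ hbr
  obtain ⟨x, rfl⟩ := Rk.defect_conj he hD hD'
  exact ⟨x, hle⟩

theorem navarro_cyc [Fact p.Prime] [CharP k p] [IsAlgClosed k] {Pr : ℕ → Prop}
    (hB : BaseHyp.{u, v} p k Pr) (hPr : ∀ m n, m ≤ n → Pr n → Pr m)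
    {A : Type u} [Group A] [Fintype A] {G : Subgroup A} (hn : G.Normal)
    (hp : ∀ x : A, ∃ n : ℕ, x ^ p ^ n ∈ G) {e : MonoidAlgebra k A}
    (he : IsBlock G e) (hinv : InvBy ⊤ e) {D : Subgroup A} (hD : IsDefectGroup p ⊤ e D)
    (hfix : ∀ Q ≤ D, G ⊔ Q = ⊤ →
      IsCyclic ↥((D ⊓ G) ⊓ Subgroup.centralizer (Q : Set A)) ∧
        Pr (Nat.card ↥((D ⊓ G) ⊓ Subgroup.centralizer (Q : Set A)))) :
    NavarroEq p G ⊤ e := by
  classical
  have : Fintype (Subgroup A) := Fintype.ofFinite _
  have hnG : (⊤ : Subgroup A) ≤ Subgroup.normalizer (G : Set A) := fun x _ =>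
    mem_norm_of_normal G x
  have heT : IsBlock (⊤ : Subgroup A) e := isBlock_up' le_top hnG (fun x _ => hp x) he hinv
  -- the hypothesis for the conjugates of D
  have hfix' : ∀ (x : A) (Q : Subgroup A), Q ≤ cg x D → G ⊔ Q = ⊤ →
      IsCyclic ↥((cg x D ⊓ G) ⊓ Subgroup.centralizer (Q : Set A)) ∧
        Pr (Nat.card ↥((cg x D ⊓ G) ⊓ Subgroup.centralizer (Q : Set A))) := by
    intro x Q hQ hGQ
    have h1 : cg x⁻¹ Q ≤ D := by
      have := cg_le_cg (g := x⁻¹) hQ
      rwa [cg_cg, inv_mul_cancel, cg_one] at this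
    have h2 : G ⊔ cg x⁻¹ Q = ⊤ := by
      have h3 := congrArg (cg x⁻¹) hGQ
      rw [cg_sup, cg_normal, cg_of_mem (Subgroup.mem_top _)] at h3
      exact h3
    obtain ⟨h4, h5⟩ := hfix _ h1 h2
    have h6 : (cg x D ⊓ G) ⊓ Subgroup.centralizer (Q : Set A)
        = cg x ((D ⊓ G) ⊓ Subgroup.centralizer ((cg x⁻¹ Q : Subgroup A) : Set A)) := by
      rw [cg_inf, cg_inf, cg_normal x G]
      congr 1
      ext y
      rw [mem_cg, Subgroup.mem_centralizer_iff, Subgroup.mem_centralizer_iff]
      constructor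
      · intro h q hq
        have h7 : x * q * x⁻¹ ∈ Q := by
          rw [SetLike.mem_coe, mem_cg, inv_inv] at hq
          exact hq
        have h8 := h _ h7
        calc q * (x⁻¹ * y * x) = x⁻¹ * ((x * q * x⁻¹) * y) * x := by group
          _ = x⁻¹ * (y * (x * q * x⁻¹)) * x := by rw [h8]
          _ = x⁻¹ * y * x * q := by group
      · intro h q hq
        have h7 : x⁻¹ * q * x ∈ ((cg x⁻¹ Q : Subgroup A) : Set A) := by
          rw [SetLike.mem_coe, mem_cg, inv_inv]
          have e1 : x * (x⁻¹ * q * x) * x⁻¹ = q := by group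
          rw [e1]; exact hq
        have h8 := h _ h7
        calc q * y = x * ((x⁻¹ * q * x) * (x⁻¹ * y * x)) * x⁻¹ := by group
          _ = x * (x⁻¹ * y * x * (x⁻¹ * q * x)) * x⁻¹ := by rw [h8]
          _ = y * q := by group
    rw [h6, card_cg]
    refine ⟨?_, h5⟩
    have h9 := (Subgroup.equivMapOfInjective ((D ⊓ G) ⊓
      Subgroup.centralizer ((cg x⁻¹ Q : Subgroup A) : Set A)) (MulAut.conj x).toMonoidHom
      (MulAut.conj x).injective)
    exact isCyclic_of_surjective h9 h9.surjective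
  -- the weight equality for the chain stabilizers
  have hW : ∀ σ : Finset (Subgroup A), σ.Nonempty → IsChain (· ≤ ·) (σ : Set (Subgroup A)) →
      (∀ Q ∈ σ, Q ∈ Supp p G ⊤) → WEq p (G ⊓ stab ⊤ σ) (cS (σ.sup id) e) := by
    intro σ hne hσ hσS
    set Q := σ.sup id with hQdef
    have hQσ : Q ∈ σ := sup_mem_chain hne hσ
    have hQS := hσS Q hQσ
    obtain ⟨-, hQp, hGQ⟩ := hQS
    have hHn : ∀ R ∈ σ, stab ⊤ σ ≤ Subgroup.normalizer (R : Set A) := fun R hR x hx =>
      (mem_stab.1 hx).2 R hR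
    have hCS : ⊤ ⊓ Subgroup.centralizer (Q : Set A) ≤ stab ⊤ σ := by
      intro x hx
      rw [mem_stab]
      refine ⟨hx.1, fun R hR => ?_⟩
      have hRQ : R ≤ Q := Finset.le_sup (f := id) hR
      exact Subgroup.centralizer_le_normalizer _ (Subgroup.centralizer_le hRQ hx.2)
    have hctx : Ctx p ⊤ (stab ⊤ σ) Q e :=
      { hHX := le_top
        hS := hQp
        hHS := hHn Q hQσ
        hCS := hCS
        supp := fun _ _ => Subgroup.mem_top _
        inv := hinv }
    have hsub : ∀ x, (cS Q e).coeff x ≠ 0 → e.coeff x ≠ 0 := by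
      intro x hx h0
      apply hx
      rw [coeff_resS]
      split_ifs
      · exact h0
      · rfl
    have hcen : ∀ x, (cS Q e).coeff x ≠ 0 → x ∈ Subgroup.centralizer (Q : Set A) := by
      intro x hx
      by_contra h0
      exact hx (coeff_resS_of_notMem _ h0)
    have hcC : SuppIn (G ⊓ Subgroup.centralizer (Q : Set A)) (cS Q e) := fun x hx =>
      Subgroup.mem_inf.2 ⟨he.suppIn x (hsub x hx), hcen x hx⟩
    have hcinv : InvBy (G ⊓ stab ⊤ σ) (cS Q e) := hctx.cS_inv.mono inf_le_right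
    have hcc : cS Q e * cS Q e = cS Q e := hctx.cS_idem le_top he.idem
    by_cases hbr : HasBr Q e
    · -- all S with S ≤ Q and G S = A
      have hcyc : ∀ S ≤ Q, G ⊔ S = ⊤ →
          IsCyclic ↥((Q ⊓ G) ⊓ Subgroup.centralizer (S : Set A)) := by
        intro S hSQ hGS
        obtain ⟨x, hx⟩ := exists_cg_le heT hD hQp hbr
        have h1 := (hfix' x S (hSQ.trans hx) hGS).1
        have h2 : (Q ⊓ G) ⊓ Subgroup.centralizer (S : Set A)
            ≤ (cg x D ⊓ G) ⊓ Subgroup.centralizer (S : Set A) :=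
          inf_le_inf_right _ (inf_le_inf_right _ hx)
        exact isCyclic_of_injective (Subgroup.inclusion h2) (Subgroup.inclusion_injective h2)
      obtain ⟨K₀, hK₀⟩ := aut_main (p := p) (G := G) (X := ⊤) (Q := Q) (K := G ⊓ stab ⊤ σ)
        le_top hnG (hσS Q hQσ) inf_le_left (inf_le_right.trans (hHn Q hQσ))
        (le_inf inf_le_left ((inf_le_inf_right _ le_top).trans hCS)) hcyc
      refine weq_star' hB hK₀ hcC hcinv hcc ?_
      rintro P hP hPp ⟨y, hy, hy0⟩
      -- P Q has a nonzero Brauer map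
      have hPQ : P ≤ Subgroup.centralizer (Q : Set A) := hP.trans inf_le_right
      have hsup : IsPGroup p ↥(P ⊔ Q) :=
        hPp.to_sup_of_normal_right' hQp (hPQ.trans (Subgroup.centralizer_le_normalizer _))
      have hbr' : HasBr (P ⊔ Q) e := by
        refine ⟨y, ?_, hsub y hy0⟩
        have h5 : P ⊔ Q ≤ Subgroup.centralizer ({y} : Set A) := by
          apply sup_le
          · intro z hz
            rw [Subgroup.mem_centralizer_iff]
            intro w hw
            rw [Set.mem_singleton_iff] at hw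
            subst hw
            exact ((Subgroup.mem_centralizer_iff.1 hy) z hz).symm
          · intro z hz
            rw [Subgroup.mem_centralizer_iff]
            intro w hw
            rw [Set.mem_singleton_iff] at hw
            subst hw
            exact ((Subgroup.mem_centralizer_iff.1 (hcen _ hy0)) z hz).symm
        rw [Subgroup.mem_centralizer_iff]
        intro z hz
        exact ((Subgroup.mem_centralizer_iff.1 (h5 hz)) y rfl).symm
      obtain ⟨x, hx⟩ := exists_cg_le heT hD hsup hbr'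
      obtain ⟨h1, h2⟩ := hfix' x Q (le_sup_right.trans hx) hGQ
      have h3 : P ≤ (cg x D ⊓ G) ⊓ Subgroup.centralizer (Q : Set A) :=
        le_inf (le_inf (le_sup_left.trans hx) (hP.trans inf_le_left)) hPQ
      exact ⟨isCyclic_of_injective (Subgroup.inclusion h3) (Subgroup.inclusion_injective h3),
        hPr _ _ (Subgroup.card_le_of_le h3) h2⟩
    · have h0 : cS Q e = 0 := by
        ext y
        by_contra hy
        exact hbr ⟨y, hcen y hy, hsub y hy⟩
      rw [h0]
      exact weq_zero (p := p) _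
  -- the conclusion
  intro T hT1 hT2
  let S : Finset (Subgroup A) := Finset.univ.filter (fun Q => Q ∈ Supp p G ⊤)
  have hS : ∀ Q, Q ∈ S ↔ Q ∈ Supp p G ⊤ := by intro Q; simp [S]
  have h1 := inv_of_chains le_top hnG (fun x _ => hp x) he.suppIn hinv he.idem hW S hS
  have h2 := sum_DZ_supp le_top hnG (fun x _ => hp x) he hinv T hT1 hT2 S hS
  have hpos : 0 < Nat.card (⊤ : Subgroup A) := Nat.card_pos
  exact Nat.eq_of_mul_eq_mul_left hpos (h1.trans h2.symm)

end Pool.Agent.Lib.P0c8ca5.Cy
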