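import Mathlib
import Pool.Agent.Lib.P0c8ca5C.WCyc
import Pool.Agent.Lib.P0c8ca5P.Red

/-!
# The weight equality modulo a normal p-subgroup, from the base
-/

namespace Pool.Agent.Lib.P0c8ca5.Cy

open MonoidAlgebra

universe u v

variable {p : ℕ}

/-- if `P ⊓ S = R` and `N_E(S) / S` is cyclic, `P ⊔ S ≤ E`, then `P / R` is cyclic -/
theorem isCyclic_sec_of_sup {A : Type u} [Group A] {P S R E : Subgroup A} (hRP : R ≤ P)
    (hPR : P ⊓ S ≤ R) (hPS : P ≤ Subgroup.normalizer (S : Set A))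
    (hPRn : P ≤ Subgroup.normalizer (R : Set A)) (hPE : P ≤ E)
    (hc : IsCyclic ↥(sec E S)) : IsCyclic ↥(sec P R) := by
  let f : ↥P →* ↥(sec E S) :=
    { toFun := fun x => ⟨qm S x (hPS x.2), qm_mem_sec _ (hPE x.2)⟩
      map_one' := Subtype.ext (qm_eq_one_iff.2 S.one_mem)
      map_mul' := fun x y => Subtype.ext rfl }
  have h1 : IsCyclic f.range := isCyclic_of_injective f.range.subtype
    (Subgroup.subtype_injective _)
  obtain ⟨⟨_, u, rfl⟩, hu⟩ := h1
  have hgen : ∀ y ∈ P, ∃ n : ℤ, (u : A) ^ (-n) * y ∈ R := by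
    intro y hy
    obtain ⟨n, hn⟩ := Subgroup.mem_zpowers_iff.1 (hu ⟨f ⟨y, hy⟩, ⟨⟨y, hy⟩, rfl⟩⟩)
    refine ⟨n, hPR ⟨P.mul_mem (P.zpow_mem u.2 _) hy, ?_⟩⟩
    have h2 : f u ^ n = f ⟨y, hy⟩ := congrArg Subtype.val hn
    rw [← map_zpow] at h2
    have h3 : qm S ((u ^ n : ↥P) : A) (hPS (u ^ n : ↥P).2) = qm S y (hPS hy) :=
      congrArg Subtype.val h2
    rw [qm_eq_iff] at h3
    have e1 : ((u ^ n : ↥P) : A)⁻¹ * y = (u : A) ^ (-n) * y := by
      rw [Subgroup.coe_zpow, zpow_neg]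
    rwa [e1] at h3
  refine ⟨⟨⟨qm R u (hPRn u.2), qm_mem_sec _ u.2⟩, ?_⟩⟩
  rintro ⟨w, hw⟩
  obtain ⟨y, hy, hy', rfl⟩ := mem_sec.1 hw
  obtain ⟨n, hn⟩ := hgen y hy
  refine Subgroup.mem_zpowers_iff.2 ⟨n, Subtype.ext ?_⟩
  rw [Subgroup.coe_zpow]
  let g : ↥P →* NQ R :=
    { toFun := fun x => qm R x (hPRn x.2)
      map_one' := qm_eq_one_iff.2 R.one_mem
      map_mul' := fun x y => rfl }
  have h2 : (g u) ^ n = g ⟨y, hy⟩ := by
    rw [← map_zpow]
    change qm R ((u ^ n : ↥P) : A) _ = qm R y _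
    rw [qm_eq_iff]
    have e1 : ((u ^ n : ↥P) : A)⁻¹ * y = (u : A) ^ (-n) * y := by
      rw [Subgroup.coe_zpow, zpow_neg]
    rwa [e1]
  exact h2

variable {k : Type v} [Field k]

/-- the weight equality for a block with a normal p-subgroup `R` all of whose Brauer subgroups are
cyclic modulo `R` -/
theorem navarro_sec [Fact p.Prime] [CharP k p] [IsAlgClosed k]
    (hB : BaseHyp.{u, v} p k (fun _ => True)) {A : Type u} [Group A] [Fintype A]
    {K R : Subgroup A} (hRK : R ≤ K) (hn : K ≤ Subgroup.normalizer (R : Set A))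
    (hR : IsPGroup p R) {b : MonoidAlgebra k A} (hb : IsBlock K b)
    (hcyc : ∀ P : Subgroup A, R ≤ P → P ≤ K → IsPGroup p P → HasBr P b → IsCyclic ↥(sec P R)) :
    NavarroEq p K K b := by
  classical
  apply Rk.navarro_infl hRK hn hR hb
  intro b' hb' hne'
  have : Fintype (NQ R) := Fintype.ofFinite _
  have : Fintype ↥(sec K R) := Fintype.ofFinite _
  apply navarro_transport hb'
  apply hB _ _ (dn_isBlock hb')
  intro P _ hP hbr
  refine ⟨?_, trivial⟩
  have hbr' := Rk.hasBr_up hbr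
  have hP' : P.map (sec K R).subtype ≤ sec K R := by
    rintro _ ⟨y, _, rfl⟩
    exact y.2
  obtain ⟨P₁, hRP, hPK, hpP, hbrP, hsec⟩ := RedAux.hasBr_infl_sec (p := p) hRK hn hR
    hb.suppIn hb.invBy hb.idem hb' hne' hP' (hP.map _) hbr'
  have h1 := hcyc P₁ hRP hPK hpP hbrP
  rw [hsec] at h1
  exact isCyclic_of_surjective (Subgroup.equivMapOfInjective P _
    (Subgroup.subtype_injective (sec K R))).symm
    (Subgroup.equivMapOfInjective P _ (Subgroup.subtype_injective (sec K R))).symm.surjective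

theorem weq_of_blocks [Fact p.Prime] [CharP k p] [IsAlgClosed k] {A : Type u} [Group A]
    [Fintype A] {K : Subgroup A}
    {c : MonoidAlgebra k A} (hc : SuppIn K c) (hci : InvBy K c) (hcc : c * c = c)
    (h : ∀ b : MonoidAlgebra k A, IsBlock K b → b * c ≠ 0 → NavarroEq p K K b) : WEq p K c := by
  classical
  exact card_irr_eq_sum hc hci hcc h _ (fun R => by
    rw [Finset.mem_filter]
    exact ⟨fun h => h.2, fun h => ⟨Finset.mem_univ _, h⟩⟩)

end Pool.Agent.Lib.P0c8ca5.Cy
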