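import Mathlib
import Pool.Agent.Lib.P0c8ca5C.FinalC
import Pool.Agent.Lib.P0c8ca5C.SecCyc

/-!
# Navarro's equality: the combined theorem
-/

namespace Pool.Agent.Lib.P0c8ca5.Cy

open MonoidAlgebra

universe u v

variable {p : ℕ} {k : Type v} [Field k]

theorem exists_defect_ge [Fact p.Prime] [CharP k p] [IsAlgClosed k] {A : Type u} [Group A]
    [Fintype A] {e : MonoidAlgebra k A} {Q : Subgroup A} (hQ : IsPGroup p Q) (hbr : HasBr Q e) :
    ∃ D, IsDefectGroup p ⊤ e D ∧ Q ≤ D :=
  exists_defect (p := p) (N := ⊤) le_top hQ hbr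

/-- **Combined theorem.** -/
theorem navarro_comb [Fact p.Prime] [CharP k p] [IsAlgClosed k]
    (hB : BaseHyp.{u, v} p k (fun _ => True))
    {A : Type u} [Group A] [Fintype A] {G : Subgroup A} (hn : G.Normal)
    (hp : ∀ x : A, ∃ n : ℕ, x ^ p ^ n ∈ G) {e : MonoidAlgebra k A}
    (he : IsBlock G e) (hinv : InvBy ⊤ e)
    (hfix : ∀ Q : Subgroup A, G ⊔ Q = ⊤ →
      (∀ D, IsDefectGroup p ⊤ e D → Q ≤ D → IsCyclic ↥(sec D Q)) ∨
      ((∀ S ≤ Q, G ⊔ S = ⊤ → IsCyclic ↥((Q ⊓ G) ⊓ Subgroup.centralizer (S : Set A))) ∧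
        ∀ D, IsDefectGroup p ⊤ e D → Q ≤ D →
          IsCyclic ↥((D ⊓ G) ⊓ Subgroup.centralizer (Q : Set A)))) :
    NavarroEq p G ⊤ e := by
  classical
  have : Fintype (Subgroup A) := Fintype.ofFinite _
  have hnG : (⊤ : Subgroup A) ≤ Subgroup.normalizer (G : Set A) := fun x _ =>
    mem_norm_of_normal G x
  have heT : IsBlock (⊤ : Subgroup A) e := isBlock_up' le_top hnG (fun x _ => hp x) he hinv
  -- the weight equality for the chain stabilizers
  have hW : ∀ σ : Finset (Subgroup A), σ.Nonempty → IsChain (· ≤ ·) (σ : Set (Subgroup A)) →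
      (∀ Q ∈ σ, Q ∈ Supp p G ⊤) → WEq p (G ⊓ stab ⊤ σ) (cS (σ.sup id) e) := by
    intro σ hne hσ hσS
    set Q := σ.sup id with hQdef
    have hQσ : Q ∈ σ := sup_mem_chain hne hσ
    have hQS := hσS Q hQσ
    obtain ⟨-, hQp, hGQ⟩ := hQS
    have hHn : ∀ R ∈ σ, stab ⊤ σ ≤ Subgroup.normalizer (R : Set A) := fun R hR x hx =>
      (mem_stab.1 hx).2 R hR
    have hCS : ⊤ ⊓ Subgroup.centralizer (Q : Set A) ≤ stab ⊤ σ := by
      intro x hx
      rw [mem_stab]
      refine ⟨hx.1, fun R hR => ?_⟩
      have hRQ : R ≤ Q := Finset.le_sup (f := id) hR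
      exact Subgroup.centralizer_le_normalizer _ (Subgroup.centralizer_le hRQ hx.2)
    have hctx : Ctx p ⊤ (stab ⊤ σ) Q e :=
      { hHX := le_top
        hS := hQp
        hHS := hHn Q hQσ
        hCS := hCS
        supp := fun _ _ => Subgroup.mem_top _
        inv := hinv }
    have hsub : ∀ x, (cS Q e).coeff x ≠ 0 → e.coeff x ≠ 0 := by
      intro x hx h0
      apply hx
      rw [coeff_resS]
      split_ifs
      · exact h0
      · rfl
    have hcen : ∀ x, (cS Q e).coeff x ≠ 0 → x ∈ Subgroup.centralizer (Q : Set A) := by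
      intro x hx
      by_contra h0
      exact hx (coeff_resS_of_notMem _ h0)
    have hcC : SuppIn (G ⊓ Subgroup.centralizer (Q : Set A)) (cS Q e) := fun x hx =>
      Subgroup.mem_inf.2 ⟨he.suppIn x (hsub x hx), hcen x hx⟩
    have hCK : G ⊓ Subgroup.centralizer (Q : Set A) ≤ G ⊓ stab ⊤ σ :=
      le_inf inf_le_left ((inf_le_inf_right _ le_top).trans hCS)
    have hcinv : InvBy (G ⊓ stab ⊤ σ) (cS Q e) := hctx.cS_inv.mono inf_le_right
    have hcc : cS Q e * cS Q e = cS Q e := hctx.cS_idem le_top he.idem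
    by_cases hbr : HasBr Q e
    · rcases hfix Q hGQ with hfixQ | ⟨hcyc, hfixQ⟩
      · -- first case: everything is cyclic modulo Q
        set K := G ⊓ stab ⊤ σ with hK
        have hKQ : K ≤ Subgroup.normalizer (Q : Set A) := inf_le_right.trans (hHn Q hQσ)
        have hRp : IsPGroup p ↥(Q ⊓ K) := hQp.to_le inf_le_left
        have hRn : K ≤ Subgroup.normalizer ((Q ⊓ K : Subgroup A) : Set A) := by
          intro x hx
          have h1 := hKQ hx
          rw [← cg_eq_self_iff] at h1 ⊢
          rw [cg_inf, h1, cg_of_mem hx]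
        refine weq_of_blocks (hcC.mono hCK) hcinv hcc ?_
        intro b hb hbc
        refine navarro_sec hB inf_le_right hRn hRp hb (fun P hRP hPK hP hbrP => ?_)
        have hPQ : P ≤ Subgroup.normalizer (Q : Set A) := hPK.trans hKQ
        have hsup : IsPGroup p ↥(P ⊔ Q) := hP.to_sup_of_normal_right' hQp hPQ
        have hbrS : HasBr (P ⊔ Q) e :=
          Rk.hasBr_sup_of_chain_block le_top he hinv hne hσ hσS hb hbc hP hPK hbrP
        obtain ⟨D, hDD, hle⟩ := exists_defect_ge (p := p) hsup hbrS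
        exact isCyclic_sec_of_sup hRP
          (le_inf inf_le_right (inf_le_left.trans hPK)) hPQ (hPK.trans hRn)
          (le_sup_left.trans hle) (hfixQ D hDD (le_sup_right.trans hle))
      · obtain ⟨K₀, hK₀⟩ := aut_main (p := p) (G := G) (X := ⊤) (Q := Q) (K := G ⊓ stab ⊤ σ)
          le_top hnG (hσS Q hQσ) inf_le_left (inf_le_right.trans (hHn Q hQσ)) hCK hcyc
        refine weq_star' hB hK₀ hcC hcinv hcc ?_
        rintro P hP hPp ⟨y, hy, hy0⟩
        -- P Q has a nonzero Brauer map
        have hPQ : P ≤ Subgroup.centralizer (Q : Set A) := hP.trans inf_le_right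
        have hsup : IsPGroup p ↥(P ⊔ Q) :=
          hPp.to_sup_of_normal_right' hQp (hPQ.trans (Subgroup.centralizer_le_normalizer _))
        have hbr' : HasBr (P ⊔ Q) e := by
          refine ⟨y, ?_, hsub y hy0⟩
          have h5 : P ⊔ Q ≤ Subgroup.centralizer ({y} : Set A) := by
            apply sup_le
            · intro z hz
              rw [Subgroup.mem_centralizer_iff]
              intro w hw
              rw [Set.mem_singleton_iff] at hw
              subst hw
              exact ((Subgroup.mem_centralizer_iff.1 hy) z hz).symm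
            · intro z hz
              rw [Subgroup.mem_centralizer_iff]
              intro w hw
              rw [Set.mem_singleton_iff] at hw
              subst hw
              exact ((Subgroup.mem_centralizer_iff.1 (hcen _ hy0)) z hz).symm
          rw [Subgroup.mem_centralizer_iff]
          intro z hz
          exact ((Subgroup.mem_centralizer_iff.1 (h5 hz)) y rfl).symm
        obtain ⟨D, hDD, hle⟩ := exists_defect_ge (p := p) hsup hbr'
        have h1 := hfixQ D hDD (le_sup_right.trans hle)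
        have h3 : P ≤ (D ⊓ G) ⊓ Subgroup.centralizer (Q : Set A) :=
          le_inf (le_inf (le_sup_left.trans hle) (hP.trans inf_le_left)) hPQ
        exact ⟨isCyclic_of_injective (Subgroup.inclusion h3) (Subgroup.inclusion_injective h3),
          trivial⟩
    · have h0 : cS Q e = 0 := by
        ext y
        by_contra hy
        exact hbr ⟨y, hcen y hy, hsub y hy⟩
      rw [h0]
      exact weq_zero (p := p) _
  -- the conclusion
  intro T hT1 hT2
  let S : Finset (Subgroup A) := Finset.univ.filter (fun Q => Q ∈ Supp p G ⊤)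
  have hS : ∀ Q, Q ∈ S ↔ Q ∈ Supp p G ⊤ := by intro Q; simp [S]
  have h1 := inv_of_chains le_top hnG (fun x _ => hp x) he.suppIn hinv he.idem hW S hS
  have h2 := sum_DZ_supp le_top hnG (fun x _ => hp x) he hinv T hT1 hT2 S hS
  have hpos : 0 < Nat.card (⊤ : Subgroup A) := Nat.card_pos
  exact Nat.eq_of_mul_eq_mul_left hpos (h1.trans h2.symm)

end Pool.Agent.Lib.P0c8ca5.Cy
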