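import Mathlib
import Pool.Agent.Lib.P0c8ca5C.FinalC

/-!
# The case of at most `p` fixed points
-/

namespace Pool.Agent.Lib.P0c8ca5.Cy

open MonoidAlgebra

universe u v

variable {p : ℕ}

theorem isCyclic_of_card_le {A : Type u} [Group A] [Finite A] [Fact p.Prime] {P : Subgroup A}
    (hP : IsPGroup p P) (h : Nat.card P ≤ p) : IsCyclic P := by
  obtain ⟨n, hn⟩ := IsPGroup.iff_card.1 hP
  have hp := (Fact.out : p.Prime)
  rcases Nat.lt_or_ge n 2 with h2 | h2
  · interval_cases n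
    · rw [pow_zero] at hn
      have : Subsingleton P := (Nat.card_eq_one_iff_unique.1 hn).1
      exact isCyclic_of_subsingleton
    · rw [pow_one] at hn
      exact isCyclic_of_prime_card hn
  · exfalso
    rw [hn] at h
    have h3 : p ^ 2 ≤ p ^ n := Nat.pow_le_pow_right hp.pos h2
    have h4 : p * p ≤ p := by
      calc p * p = p ^ 2 := by ring
        _ ≤ p := h3.trans h
    have := hp.two_le
    nlinarith

/-- for an abelian `D ⊓ G` all supplements have the same fixed points as `D` -/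
theorem fix_abelian {A : Type u} [Group A] {G D Q : Subgroup A} (hG : G.Normal)
    (hab : ∀ x ∈ D ⊓ G, ∀ y ∈ D ⊓ G, x * y = y * x) (hQ : Q ≤ D) (hGQ : G ⊔ Q = ⊤) :
    (D ⊓ G) ⊓ Subgroup.centralizer (Q : Set A)
      = (D ⊓ G) ⊓ Subgroup.centralizer (D : Set A) := by
  apply le_antisymm
  · intro x hx
    refine Subgroup.mem_inf.2 ⟨hx.1, ?_⟩
    rw [Subgroup.mem_centralizer_iff]
    intro d hd
    have h1 : d ∈ G ⊔ Q := by rw [hGQ]; exact Subgroup.mem_top _
    obtain ⟨g, hg, q, hq, rfl⟩ :=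
      (mem_sup_norm (D := Q) (L := G) (fun y _ => mem_norm_of_normal G y)).1 h1
    have h2 : g ∈ D ⊓ G := by
      refine ⟨?_, hg⟩
      have := D.mul_mem hd (D.inv_mem (hQ hq))
      have e1 : g * q * q⁻¹ = g := by group
      rwa [e1] at this
    have h3 := hab g h2 x hx.1
    have h4 := Subgroup.mem_centralizer_iff.1 hx.2 q hq
    calc g * q * x = g * (q * x) := by group
      _ = g * (x * q) := by rw [h4]
      _ = (g * x) * q := by group
      _ = (x * g) * q := by rw [h3]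
      _ = x * (g * q) := by group
  · exact inf_le_inf_left _ (Subgroup.centralizer_le hQ)

theorem navarro_fix {k : Type v} [Field k] [Fact p.Prime] [CharP k p] [IsAlgClosed k]
    {A : Type u} [Group A] [Fintype A] {G : Subgroup A} (hn : G.Normal)
    (hp : ∀ x : A, ∃ n : ℕ, x ^ p ^ n ∈ G) {e : MonoidAlgebra k A}
    (he : IsBlock G e) (hinv : InvBy ⊤ e) {D : Subgroup A} (hD : IsDefectGroup p ⊤ e D)
    (hfix : ∀ Q ≤ D, G ⊔ Q = ⊤ →
      Nat.card ↥((D ⊓ G) ⊓ Subgroup.centralizer (Q : Set A)) ≤ p) :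
    NavarroEq p G ⊤ e :=
  navarro_cyc (base_one.{u, v}) (fun _ _ h h' => h.trans h') hn hp he hinv hD
    (fun Q hQ hGQ => ⟨isCyclic_of_card_le (p := p)
      (hD.isPGroup.to_le (inf_le_left.trans inf_le_left)) (hfix Q hQ hGQ), hfix Q hQ hGQ⟩)

end Pool.Agent.Lib.P0c8ca5.Cy
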