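import Mathlib
import Pool.Agent.Lib.P0c8ca5.Sect

/-!
# Numbers of generators of p-groups

If all subgroups of the p-group `E` can be generated by `d + 1` elements, `d` the minimal number of
generators of `X / G`, then `N_E(Q) / Q` is cyclic for all `Q ≤ E` with `G Q = X`.
-/

namespace Pool.Agent.Lib.P0c8ca5.Cy

namespace GensAux

variable {p : ℕ} [Fact p.Prime]

theorem card_mul_zmod : Nat.card (Multiplicative (ZMod p)) = p := by
  rw [Nat.card_congr (Multiplicative.toAdd (α := ZMod p)), Nat.card_zmod]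

instance finite_hom {P : Type*} [Group P] [Finite P] :
    Finite (P →* Multiplicative (ZMod p)) := by
  have : Finite (Multiplicative (ZMod p)) :=
    Finite.of_equiv (ZMod p) (Multiplicative.ofAdd (α := ZMod p))
  exact Finite.of_injective (fun f => (f : P → Multiplicative (ZMod p))) DFunLike.coe_injective

/-- a proper subgroup of a p-group is in the kernel of a nontrivial homomorphism to `ℤ/p` -/
theorem exists_char {P : Type*} [Group P] [Finite P] (hP : IsPGroup p P) {L : Subgroup P}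
    (hL : L ≠ ⊤) : ∃ χ : P →* Multiplicative (ZMod p), (∀ x ∈ L, χ x = 1) ∧ χ ≠ 1 := by
  have hp : p.Prime := Fact.out
  obtain ⟨a, ha⟩ := IsPGroup.iff_card.1 hP
  obtain ⟨n, hn⟩ := IsPGroup.iff_card.1 (hP.to_subgroup L)
  have hlt : n < a := by
    have h1 : Nat.card L < Nat.card P := by
      rcases lt_or_eq_of_le (Subgroup.card_le_card_group L) with h | h
      · exact h
      · exact absurd (Subgroup.eq_top_of_card_eq L h) hL
    rw [ha, hn] at h1
    exact (Nat.pow_lt_pow_iff_right hp.one_lt).1 h1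
  obtain ⟨m, rfl⟩ : ∃ m, a = m + 1 := ⟨a - 1, by omega⟩
  obtain ⟨K, hK, hLK⟩ := Sylow.exists_subgroup_card_pow_prime_le (G := P) p (n := n) (m := m)
    (by rw [ha]; exact pow_dvd_pow p (by omega)) L hn (by omega)
  have hidx : K.index = p := by
    have h1 := K.card_mul_index
    rw [hK, ha, pow_succ] at h1
    exact Nat.eq_of_mul_eq_mul_left (pow_pos hp.pos m) h1
  have hKn : K.Normal := by
    apply Subgroup.normal_of_index_eq_minFac_card
    rw [hidx, ha, hp.pow_minFac (by omega)]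
  have h1 : Nat.card (P ⧸ K) = p := by
    rw [← Subgroup.index_eq_card, hidx]
  let e : P ⧸ K ≃* Multiplicative (ZMod p) := mulEquivOfPrimeCardEq (p := p) h1 card_mul_zmod
  refine ⟨e.toMonoidHom.comp (QuotientGroup.mk' K), ?_, ?_⟩
  · intro x hx
    change e (QuotientGroup.mk x) = 1
    rw [(QuotientGroup.eq_one_iff x).2 (hLK hx), map_one]
  · intro h
    have hsurj : Function.Surjective (e.toMonoidHom.comp (QuotientGroup.mk' K)) :=
      e.surjective.comp (QuotientGroup.mk'_surjective K)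
    have h2 : Subsingleton (Multiplicative (ZMod p)) := by
      refine ⟨fun x y => ?_⟩
      obtain ⟨x', rfl⟩ := hsurj x
      obtain ⟨y', rfl⟩ := hsurj y
      rw [h]
      rfl
    have h3 : Nat.card (Multiplicative (ZMod p)) = 1 := Nat.card_of_subsingleton 1
    rw [card_mul_zmod] at h3
    exact hp.one_lt.ne' h3

theorem card_hom_ge {P : Type*} [Group P] [Finite P] (hP : IsPGroup p P) :
    p ^ Group.rank P ≤ Nat.card (P →* Multiplicative (ZMod p)) := by
  classical
  have hp : p.Prime := Fact.out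
  obtain ⟨S, hS, hST⟩ := Group.rank_spec P
  have h1 : ∀ s : S, ∃ χ : P →* Multiplicative (ZMod p), (∀ x ∈ S, x ≠ s → χ x = 1) ∧ χ s ≠ 1 := by
    rintro ⟨s, hs⟩
    have hne : Subgroup.closure ((S.erase s : Finset P) : Set P) ≠ ⊤ := by
      intro h
      have h2 := Group.rank_le h
      rw [← hS, Finset.card_erase_of_mem hs] at h2
      have h3 : 0 < S.card := Finset.card_pos.2 ⟨s, hs⟩
      omega
    obtain ⟨χ, h2, h3⟩ := exists_char hP hne
    have h4 : ∀ x ∈ S, x ≠ s → χ x = 1 := fun x hx hxs =>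
      h2 x (Subgroup.subset_closure (Finset.mem_coe.2 (Finset.mem_erase.2 ⟨hxs, hx⟩)))
    refine ⟨χ, h4, fun h5 => h3 ?_⟩
    have h6 : Set.EqOn χ (1 : P →* Multiplicative (ZMod p)) (S : Set P) := by
      intro x hx
      by_cases hxs : x = s
      · rw [hxs]; exact h5
      · exact h4 x hx hxs
    exact MonoidHom.eq_of_eqOn_topM (by
      have h7 := MonoidHom.eqOn_closure h6
      intro x _
      apply h7
      rw [hST]
      exact Subgroup.mem_top x)
  choose χ hχ1 hχ2 using h1
  let F : (S → ZMod p) → (P →* Multiplicative (ZMod p)) := fun f => ∏ s : S, χ s ^ (f s).val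
  have hF : ∀ f (t : S), F f t = χ t t ^ (f t).val := by
    intro f t
    change (∏ s : S, χ s ^ (f s).val) (t : P) = _
    rw [MonoidHom.finset_prod_apply, Finset.prod_eq_single t]
    · rfl
    · intro s _ hst
      rw [MonoidHom.pow_apply, hχ1 s t t.2 (fun h => hst (Subtype.ext h.symm)), one_pow]
    · intro h
      exact absurd (Finset.mem_univ t) h
  have hinj : Function.Injective F := by
    intro f g hfg
    funext t
    have h2 : χ t t ^ (f t).val = χ t t ^ (g t).val := by rw [← hF, ← hF, hfg]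
    have h3 : orderOf (χ t t) = p := by
      have h4 : orderOf (χ t t) ∣ p := by
        have h5 := orderOf_dvd_natCard (χ t t)
        rwa [card_mul_zmod] at h5
      rcases (Nat.dvd_prime hp).1 h4 with h5 | h5
      · exact absurd (orderOf_eq_one_iff.1 h5) (hχ2 t)
      · exact h5
    have : NeZero p := ⟨hp.ne_zero⟩
    have h4 := pow_injOn_Iio_orderOf (x := χ t t) (by rw [h3]; exact ZMod.val_lt _)
      (by rw [h3]; exact ZMod.val_lt _) h2
    exact ZMod.val_injective p h4
  have h2 := Nat.card_le_card_of_injective F hinj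
  rw [Nat.card_fun, Nat.card_zmod, Nat.card_eq_fintype_card, Fintype.card_coe, hS] at h2
  exact h2

theorem card_hom_le {P : Type*} [Group P] [Finite P] :
    Nat.card (P →* Multiplicative (ZMod p)) ≤ p ^ Group.rank P := by
  classical
  have hp : p.Prime := Fact.out
  have : NeZero p := ⟨hp.ne_zero⟩
  obtain ⟨S, hS, hST⟩ := Group.rank_spec P
  let F : (P →* Multiplicative (ZMod p)) → (S → Multiplicative (ZMod p)) := fun f s => f s
  have hfin : Finite (Multiplicative (ZMod p)) :=
    Finite.of_equiv (ZMod p) (Multiplicative.ofAdd (α := ZMod p))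
  have hinj : Function.Injective F := by
    intro f g hfg
    have h6 : Set.EqOn f g (S : Set P) := fun x hx => congrFun hfg ⟨x, hx⟩
    have h7 := MonoidHom.eqOn_closure h6
    apply MonoidHom.ext
    intro x
    apply h7
    rw [hST]
    exact Subgroup.mem_top x
  have h2 := Nat.card_le_card_of_injective F hinj
  rw [Nat.card_fun, card_mul_zmod, Nat.card_eq_fintype_card (α := S), Fintype.card_coe, hS] at h2
  exact h2

theorem isCyclic_of_rank {P : Type*} [Group P] [Finite P] (h : Group.rank P ≤ 1) :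
    IsCyclic P := by
  obtain ⟨S, hS, hST⟩ := Group.rank_spec P
  rw [← hS] at h
  rcases Finset.card_le_one_iff_subset_singleton.1 h with ⟨g, hg⟩
  refine ⟨⟨g, fun x => ?_⟩⟩
  have h1 : x ∈ Subgroup.closure (S : Set P) := by rw [hST]; exact Subgroup.mem_top x
  have h2 : x ∈ Subgroup.zpowers g := by
    rw [Subgroup.zpowers_eq_closure]
    exact Subgroup.closure_mono (by exact_mod_cast hg) h1
  exact h2

end GensAux

open GensAux

/-- `N_E(Q) / Q` is cyclic if the subgroups of `E` are generated by `d(X / G) + 1` elements -/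
theorem isCyclic_sec_of_rank {p : ℕ} [Fact p.Prime] {A : Type*} [Group A] [Finite A]
    {G : Subgroup A} [hG : G.Normal] (hGp : IsPGroup p (A ⧸ G)) {E : Subgroup A}
    (hE : IsPGroup p E) (hr : ∀ N : Subgroup A, N ≤ E → Group.rank N ≤ Group.rank (A ⧸ G) + 1)
    {Q : Subgroup A} (hQE : Q ≤ E) (hGQ : G ⊔ Q = ⊤) : IsCyclic ↥(sec E Q) := by
  classical
  have hp : p.Prime := Fact.out
  set N : Subgroup A := E ⊓ Subgroup.normalizer (Q : Set A) with hN
  have hQN : Q ≤ N := le_inf hQE Subgroup.le_normalizer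
  let ρ : N →* A ⧸ G := (QuotientGroup.mk' G).comp N.subtype
  let π : N →* ↥(sec E Q) :=
    { toFun := fun x => ⟨qm Q x (Subgroup.mem_inf.1 x.2).2, qm_mem_sec _ (Subgroup.mem_inf.1 x.2).1⟩
      map_one' := Subtype.ext (qm_eq_one_iff.2 Q.one_mem)
      map_mul' := fun x y => Subtype.ext rfl }
  have hπ : Function.Surjective π := by
    rintro ⟨w, hw⟩
    obtain ⟨x, hx, hx', rfl⟩ := mem_sec.1 hw
    exact ⟨⟨x, Subgroup.mem_inf.2 ⟨hx, hx'⟩⟩, rfl⟩
  have hρ : ∀ y : A ⧸ G, ∃ q : A, ∃ hq : q ∈ Q, ρ ⟨q, hQN hq⟩ = y := by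
    intro y
    obtain ⟨x, rfl⟩ := QuotientGroup.mk_surjective y
    have h1 : x ∈ G ⊔ Q := by rw [hGQ]; exact Subgroup.mem_top x
    rw [Subgroup.mem_sup_of_normal_left] at h1
    obtain ⟨g, hg, q, hq, rfl⟩ := h1
    refine ⟨q, hq, ?_⟩
    change QuotientGroup.mk q = QuotientGroup.mk (g * q)
    rw [QuotientGroup.eq]
    have h2 := hG.conj_mem g hg q⁻¹
    rw [inv_inv] at h2
    have e1 : q⁻¹ * (g * q) = q⁻¹ * g * q := by group
    rw [e1]
    exact h2
  let F : (A ⧸ G →* Multiplicative (ZMod p)) × (↥(sec E Q) →* Multiplicative (ZMod p)) →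
      (N →* Multiplicative (ZMod p)) := fun ab => (ab.1.comp ρ) * (ab.2.comp π)
  have hinj : Function.Injective F := by
    rintro ⟨a, b⟩ ⟨a', b'⟩ h
    have h1 : ∀ x : N, a (ρ x) * b (π x) = a' (ρ x) * b' (π x) := fun x =>
      DFunLike.congr_fun h x
    have h2 : a = a' := by
      apply MonoidHom.ext
      intro y
      obtain ⟨q, hq, rfl⟩ := hρ y
      have h3 := h1 ⟨q, hQN hq⟩
      have h4 : π ⟨q, hQN hq⟩ = 1 := Subtype.ext (qm_eq_one_iff.2 hq)
      rw [h4, map_one, map_one, mul_one, mul_one] at h3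
      exact h3
    have h3 : b = b' := by
      apply MonoidHom.ext
      intro y
      obtain ⟨x, rfl⟩ := hπ y
      have h4 := h1 x
      rw [h2] at h4
      exact mul_left_cancel h4
    rw [h2, h3]
  have hfin : Finite (NQ Q) := inferInstanceAs (Finite (_ ⧸ _))
  have hsp : IsPGroup p ↥(sec E Q) := by
    have h1 : IsPGroup p N := hE.to_le inf_le_left
    exact h1.of_surjective π hπ
  have h1 := Nat.card_le_card_of_injective F hinj
  rw [Nat.card_prod] at h1
  have h2 := card_hom_ge (p := p) hGp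
  have h3 := card_hom_ge (p := p) hsp
  have h4 := card_hom_le (p := p) (P := N)
  have h5 : p ^ Group.rank N ≤ p ^ (Group.rank (A ⧸ G) + 1) :=
    Nat.pow_le_pow_right hp.pos (hr N inf_le_left)
  have h6 : p ^ (Group.rank (A ⧸ G) + Group.rank ↥(sec E Q)) ≤ p ^ (Group.rank (A ⧸ G) + 1) := by
    rw [pow_add]
    exact (Nat.mul_le_mul h2 h3).trans (h1.trans (h4.trans h5))
  have h7 := (Nat.pow_le_pow_iff_right hp.one_lt).1 h6
  exact isCyclic_of_rank (by omega)

/-- the subgroups of a metacyclic group are generated by two elements -/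
theorem rank_le_two {A : Type*} [Group A] [Finite A] {u v : A}
    (huv : v ∈ Subgroup.normalizer (Subgroup.zpowers u : Set A)) {N : Subgroup A}
    (hN : N ≤ Subgroup.zpowers u ⊔ Subgroup.zpowers v) : Group.rank N ≤ 2 := by
  classical
  -- `N ∩ ⟨u⟩` is cyclic
  obtain ⟨⟨a, ha⟩, ha'⟩ : IsCyclic ↥(N ⊓ Subgroup.zpowers u) :=
    isCyclic_of_injective (Subgroup.inclusion (inf_le_right : N ⊓ Subgroup.zpowers u ≤ _))
      (Subgroup.inclusion_injective _)
  have hVn : Subgroup.zpowers v ≤ Subgroup.normalizer (Subgroup.zpowers u : Set A) := by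
    rw [Subgroup.zpowers_le]; exact huv
  -- the exponents of the images in `⟨u⟩⟨v⟩ / ⟨u⟩`
  have hNn : N ≤ Subgroup.normalizer (Subgroup.zpowers u : Set A) :=
    hN.trans (sup_le Subgroup.le_normalizer hVn)
  let π : N →* NQ (Subgroup.zpowers u) :=
    { toFun := fun x => qm (Subgroup.zpowers u) x (hNn x.2)
      map_one' := qm_eq_one_iff.2 (Subgroup.one_mem _)
      map_mul' := fun x y => rfl }
  have hZ : IsCyclic ↥(Subgroup.zpowers (qm (Subgroup.zpowers u) v huv)) := inferInstance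
  have hπ : ∀ x : N, π x ∈ Subgroup.zpowers (qm (Subgroup.zpowers u) v huv) := by
    rintro ⟨x, hx⟩
    obtain ⟨y, hy, z, hz, rfl⟩ := (mem_sup_norm (D := Subgroup.zpowers v) hVn).1 (hN hx)
    obtain ⟨n, rfl⟩ := Subgroup.mem_zpowers_iff.1 hz
    refine Subgroup.mem_zpowers_iff.2 ⟨n, ?_⟩
    let g : ↥(Subgroup.normalizer (Subgroup.zpowers u : Set A)) →* NQ (Subgroup.zpowers u) :=
      QuotientGroup.mk' _
    have h1 : (qm (Subgroup.zpowers u) v huv) ^ n = g (⟨v, huv⟩ ^ n) := by
      rw [map_zpow]; rfl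
    rw [h1]
    change g (⟨v, huv⟩ ^ n) = g ⟨y * v ^ n, _⟩
    have h2 : (⟨v, huv⟩ : ↥(Subgroup.normalizer (Subgroup.zpowers u : Set A))) ^ n
        = ⟨v ^ n, (Subgroup.normalizer (Subgroup.zpowers u : Set A)).zpow_mem huv n⟩ :=
      Subtype.ext (by rw [Subgroup.coe_zpow])
    rw [h2]
    change qm (Subgroup.zpowers u) (v ^ n) _ = qm (Subgroup.zpowers u) (y * v ^ n) _
    rw [qm_eq_iff]
    have h3 := (Subgroup.mem_normalizer_iff.1
      ((Subgroup.normalizer (Subgroup.zpowers u : Set A)).zpow_mem huv (-n)) y).1 hy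
    have e1 : v ^ (-n) * y * (v ^ (-n))⁻¹ = (v ^ n)⁻¹ * (y * v ^ n) := by group
    rwa [e1] at h3
  have hcyc : IsCyclic π.range := by
    have hle : π.range ≤ Subgroup.zpowers (qm (Subgroup.zpowers u) v huv) := by
      rintro _ ⟨x, rfl⟩
      exact hπ x
    exact isCyclic_of_injective (Subgroup.inclusion hle) (Subgroup.inclusion_injective _)
  obtain ⟨⟨_, b, rfl⟩, hb⟩ := hcyc
  have haN : a ∈ N := (Subgroup.mem_inf.1 ha).1
  have hST : Subgroup.closure (({⟨a, haN⟩, b} : Finset N) : Set N) = ⊤ := by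
    rw [eq_top_iff]
    rintro ⟨x, hx⟩ -
    obtain ⟨n, hn⟩ := Subgroup.mem_zpowers_iff.1 (hb ⟨π ⟨x, hx⟩, ⟨⟨x, hx⟩, rfl⟩⟩)
    have h1 : π b ^ n = π ⟨x, hx⟩ := congrArg Subtype.val hn
    rw [← map_zpow] at h1
    have h2 : ((b ^ n : N) : A)⁻¹ * x ∈ Subgroup.zpowers u := qm_eq_iff.1 h1
    have h3 : ((b ^ n : N) : A)⁻¹ * x ∈ N ⊓ Subgroup.zpowers u :=
      ⟨N.mul_mem (N.inv_mem (b ^ n : N).2) hx, h2⟩
    obtain ⟨m, hm⟩ := Subgroup.mem_zpowers_iff.1 (ha' ⟨_, h3⟩)
    have h4 : a ^ m = ((b ^ n : N) : A)⁻¹ * x := by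
      have := congrArg Subtype.val hm
      rwa [Subgroup.coe_zpow] at this
    have h5 : (⟨x, hx⟩ : N) = b ^ n * ⟨a, haN⟩ ^ m := by
      apply Subtype.ext
      rw [Subgroup.coe_mul, Subgroup.coe_zpow N ⟨a, haN⟩, h4]
      change x = _
      group
    rw [h5]
    apply Subgroup.mul_mem
    · exact Subgroup.zpow_mem _ (Subgroup.subset_closure (by simp)) _
    · exact Subgroup.zpow_mem _ (Subgroup.subset_closure (by simp)) _
  exact (Group.rank_le hST).trans Finset.card_le_two

end Pool.Agent.Lib.P0c8ca5.Cy
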