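import Mathlib
import Pool.Agent.Lib.P0c8ca5C.FinalD
import Pool.Agent.Lib.P0c8ca5C.FinalOne
import Pool.Agent.Lib.P0c8ca5C.Gens

/-!
# Special cases of the combined theorem
-/

namespace Pool.Agent.Lib.P0c8ca5.Cy

open MonoidAlgebra

universe u v

variable {p : ℕ} {k : Type v} [Field k]

/-- the subgroups of `E` can be generated by `d(A / G) + 1` elements -/
theorem navarro_rank [Fact p.Prime] [CharP k p] [IsAlgClosed k]
    (hB : BaseHyp.{u, v} p k (fun _ => True))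
    {A : Type u} [Group A] [Fintype A] {G : Subgroup A} [hn : G.Normal]
    (hG : IsPGroup p (A ⧸ G)) (hp : ∀ x : A, ∃ n : ℕ, x ^ p ^ n ∈ G) {e : MonoidAlgebra k A}
    (he : IsBlock G e) (hinv : InvBy ⊤ e) {E : Subgroup A} (hE : IsDefectGroup p ⊤ e E)
    (hr : ∀ N : Subgroup A, N ≤ E → Group.rank N ≤ Group.rank (A ⧸ G) + 1) :
    NavarroEq p G ⊤ e := by
  apply navarro_comb hB hn hp he hinv
  intro Q hGQ
  left
  intro E' hE' hQE'
  have hnG : (⊤ : Subgroup A) ≤ Subgroup.normalizer (G : Set A) := fun x _ =>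
    mem_norm_of_normal G x
  have heT : IsBlock (⊤ : Subgroup A) e := isBlock_up' le_top hnG (fun x _ => hp x) he hinv
  obtain ⟨x, rfl⟩ := Rk.defect_conj heT hE hE'
  apply isCyclic_sec_of_rank hG hE'.isPGroup ?_ hQE' hGQ
  intro N hN
  have h1 : cg x⁻¹ N ≤ E := by
    have := cg_le_cg (g := x⁻¹) hN
    rwa [cg_cg, inv_mul_cancel, cg_one] at this
  have h2 : Group.rank N = Group.rank ↥(cg x⁻¹ N) :=
    Group.rank_congr (Subgroup.equivMapOfInjective N (MulAut.conj x⁻¹).toMonoidHom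
      (MulAut.conj x⁻¹).injective)
  rw [h2]
  exact hr _ h1

/-- `E` is metacyclic and `G ≠ A` -/
theorem rank_of_metacyclic {A : Type u} [Group A] [Finite A] {G : Subgroup A}
    [hn : G.Normal] (hG : G ≠ ⊤) {E : Subgroup A}
    (hE : ∃ u v : A, v ∈ Subgroup.normalizer (Subgroup.zpowers u : Set A) ∧
      E = Subgroup.zpowers u ⊔ Subgroup.zpowers v) :
    ∀ N : Subgroup A, N ≤ E → Group.rank N ≤ Group.rank (A ⧸ G) + 1 := by
  intro N hN
  obtain ⟨u, v, huv, rfl⟩ := hE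
  have h1 : Nontrivial (A ⧸ G) := by
    by_contra h
    rw [not_nontrivial_iff_subsingleton] at h
    apply hG
    rw [eq_top_iff]
    intro x _
    rw [← QuotientGroup.eq_one_iff]
    exact Subsingleton.elim _ _
  have h2 := Group.rank_pos (A ⧸ G)
  have h3 := rank_le_two huv hN
  omega

theorem navarro_fixcyc [Fact p.Prime] [CharP k p] [IsAlgClosed k]
    (hB : BaseHyp.{u, v} p k (fun _ => True))
    {A : Type u} [Group A] [Fintype A] {G : Subgroup A} (hn : G.Normal)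
    (hp : ∀ x : A, ∃ n : ℕ, x ^ p ^ n ∈ G) {e : MonoidAlgebra k A}
    (he : IsBlock G e) (hinv : InvBy ⊤ e) {D : Subgroup A} (hD : IsDefectGroup p ⊤ e D)
    (hfix : ∀ Q ≤ D, G ⊔ Q = ⊤ →
      IsCyclic ↥((D ⊓ G) ⊓ Subgroup.centralizer (Q : Set A))) :
    NavarroEq p G ⊤ e :=
  navarro_cyc hB (fun _ _ _ h => h) hn hp he hinv hD
    (fun Q hQ hGQ => ⟨hfix Q hQ hGQ, trivial⟩)

end Pool.Agent.Lib.P0c8ca5.Cy
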