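import Mathlib
import Pool.Agent.Lib.P0c8ca5C.AutMain

/-!
# The action of `K` on `Q`, second form

`Opc p G Q` is the subgroup generated by the p-regular elements of `C_G(Q)`, that is `O^p(C_G(Q))`.
-/

namespace Pool.Agent.Lib.P0c8ca5.Cy

variable {p : ℕ} {A : Type*} [Group A]

/-- the subgroup generated by the p-regular elements of `C_G(Q)`, that is `O^p(C_G(Q))` -/
def Opc (p : ℕ) (G Q : Subgroup A) : Subgroup A :=
  Subgroup.closure {x : A | x ∈ G ∧ x ∈ Subgroup.centralizer (Q : Set A) ∧ ¬ p ∣ orderOf x}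

theorem opc_le (G Q : Subgroup A) : Opc p G Q ≤ G ⊓ Subgroup.centralizer (Q : Set A) := by
  rw [Opc, Subgroup.closure_le]
  rintro x ⟨h1, h2, _⟩
  exact Subgroup.mem_inf.2 ⟨h1, h2⟩

theorem mem_opc {G Q : Subgroup A} {x : A} (h1 : x ∈ G)
    (h2 : x ∈ Subgroup.centralizer (Q : Set A)) (h3 : Preg p x) : x ∈ Opc p G Q :=
  Subgroup.subset_closure ⟨h1, h2, h3⟩

theorem opc_norm [Finite A] {G Q K : Subgroup A} (h1 : K ≤ Subgroup.normalizer (G : Set A))
    (h2 : K ≤ Subgroup.normalizer (Q : Set A)) :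
    K ≤ Subgroup.normalizer ((Opc p G Q : Subgroup A) : Set A) := by
  have key : ∀ g ∈ K, ∀ x ∈ Opc p G Q, g * x * g⁻¹ ∈ Opc p G Q := by
    intro g hg x hx
    have h3 : Opc p G Q ≤ (Opc p G Q).comap (MulAut.conj g).toMonoidHom := by
      conv_lhs => rw [Opc]
      rw [Subgroup.closure_le]
      rintro y ⟨h4, h5, h6⟩
      change g * y * g⁻¹ ∈ Opc p G Q
      apply mem_opc
      · exact (Subgroup.mem_normalizer_iff.1 (h1 hg) y).1 h4
      · exact (Subgroup.mem_normalizer_iff.1 (AutMainAux.le_norm_cent h2 hg) y).1 h5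
      · have h7 : orderOf (g * y * g⁻¹) = orderOf y := by
          have h8 := orderOf_injective (MulAut.conj g).toMonoidHom (MulAut.conj g).injective y
          exact h8
        rw [Preg, h7]
        exact h6
    exact h3 hx
  intro g hg
  rw [Subgroup.mem_normalizer_iff]
  intro x
  constructor
  · exact key g hg x
  · intro hx
    have h3 := key g⁻¹ (K.inv_mem hg) _ hx
    have e : g⁻¹ * (g * x * g⁻¹) * g⁻¹⁻¹ = x := by group
    rwa [e] at h3

theorem opc_pow [Fact p.Prime] [Finite A] {G Q : Subgroup A} {x : A}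
    (hx : x ∈ G ⊓ Subgroup.centralizer (Q : Set A)) : ∃ n : ℕ, x ^ p ^ n ∈ Opc p G Q := by
  obtain ⟨r, hr⟩ := uexp_eq p A
  refine ⟨r, ?_⟩
  rw [← hr]
  change pr p x ∈ _
  have h1 : pr p x ∈ G ⊓ Subgroup.centralizer (Q : Set A) := pr_mem hx
  exact mem_opc (Subgroup.mem_inf.1 h1).1 (Subgroup.mem_inf.1 h1).2 (preg_pr x)

namespace AutMain2Aux

open CopB46 AutMainAux

/-- a p-regular element that centralizes `C_{Q ∩ G}(S)`, `S = C_Q(y)`, centralizes `Q` -/
theorem cent_of_W [Fact p.Prime] [Finite A] {G X Q : Subgroup A} (hGX : G ≤ X)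
    (hn : X ≤ Subgroup.normalizer (G : Set A)) (hQ : Q ∈ Supp p G X) {y : A} (hyG : y ∈ G)
    (hyQ : y ∈ Subgroup.normalizer (Q : Set A)) (hyp : Preg p y)
    (hW : Q ⊓ G ⊓ Subgroup.centralizer ((Q ⊓ Subgroup.centralizer ({y} : Set A) : Subgroup A) :
      Set A) ≤ Subgroup.centralizer ({y} : Set A)) :
    y ∈ Subgroup.centralizer (Q : Set A) := by
  obtain ⟨hQX, hQp, hsup⟩ := hQ
  have hRp : IsPGroup p ↥(Q ⊓ G) := hQp.to_le inf_le_left
  have hQR : Q ≤ Subgroup.normalizer ((Q ⊓ G : Subgroup A) : Set A) :=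
    normalizer_inf Subgroup.le_normalizer (hQX.trans hn)
  have hyR : y ∈ Subgroup.normalizer ((Q ⊓ G : Subgroup A) : Set A) := by
    have h1 : Subgroup.zpowers y ≤ Subgroup.normalizer (Q : Set A) := by
      rw [Subgroup.zpowers_le]; exact hyQ
    have h2 : Subgroup.zpowers y ≤ Subgroup.normalizer (G : Set A) := by
      rw [Subgroup.zpowers_le]; exact Subgroup.le_normalizer hyG
    exact normalizer_inf h1 h2 (Subgroup.mem_zpowers y)
  have hS := supp_centralizer hGX hn ⟨hQX, hQp, hsup⟩ hyG hyp hyQ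
  set S : Subgroup A := Q ⊓ Subgroup.centralizer ({y} : Set A) with hSdef
  obtain ⟨hSX, hSp, hSsup⟩ := hS
  have hSQ : S ≤ Q := inf_le_left
  have hRy := axb hRp hSp (hSQ.trans hQR) hyp hyR inf_le_right hW
  rw [Subgroup.mem_centralizer_iff]
  intro q hq
  have hq : q ∈ Q := hq
  have h1 : q ∈ G ⊔ S := by
    rw [hSsup]
    exact hQX hq
  obtain ⟨g, hg, s', hs', e⟩ := (mem_sup_norm (hSX.trans hn)).1 h1
  have hs1 : s' ∈ S := hs'
  have hgR : g ∈ Q ⊓ G := by
    refine Subgroup.mem_inf.2 ⟨?_, hg⟩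
    have h2 : g = q * s'⁻¹ := by
      rw [← e]
      group
    rw [h2]
    exact Q.mul_mem hq (Q.inv_mem (hSQ hs1))
  have h3 := mem_cent.1 (hRy hgR)
  have h4 := mem_cent.1 (Subgroup.mem_inf.1 hs1).2
  have h5 : y * q = q * y := by
    rw [← e]
    calc y * (g * s') = (y * g) * s' := by group
      _ = g * (y * s') := by rw [h3]; group
      _ = g * s' * y := by rw [h4]; group
  exact h5.symm

/-- `y` centralizes `S` and normalizes `W = C_{Q ∩ G}(S)` -/
theorem norm_W [Finite A] {G Q : Subgroup A} {y : A} (hyG : y ∈ G)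
    (hyQ : y ∈ Subgroup.normalizer (Q : Set A)) {S : Subgroup A}
    (hSy : S ≤ Subgroup.centralizer ({y} : Set A)) :
    y ∈ Subgroup.centralizer (S : Set A) ∧ y ∈ Subgroup.normalizer
      ((Q ⊓ G ⊓ Subgroup.centralizer (S : Set A) : Subgroup A) : Set A) := by
  have hyS : y ∈ Subgroup.centralizer (S : Set A) := by
    rw [Subgroup.mem_centralizer_iff]
    intro q hq
    have h1 := mem_cent.1 (hSy (show q ∈ S from hq))
    exact h1.symm
  refine ⟨hyS, ?_⟩
  have hyNS : y ∈ Subgroup.normalizer (S : Set A) := by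
    rw [Subgroup.mem_normalizer_iff]
    intro q
    have h1 : ∀ q ∈ S, y * q * y⁻¹ = q := by
      intro q hq
      have h2 := (Subgroup.mem_centralizer_iff.1 hyS) q hq
      rw [← h2]
      group
    constructor
    · intro hq
      rw [h1 q hq]
      exact hq
    · intro hq
      have h2 := h1 _ hq
      have h3 : y * q * y⁻¹ = q := by
        have h4 := congrArg (fun u => y⁻¹ * u * y) h2
        have e1 : y⁻¹ * (y * (y * q * y⁻¹) * y⁻¹) * y = y * q * y⁻¹ := by group
        have e2 : y⁻¹ * (y * q * y⁻¹) * y = q := by group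
        rwa [e1, e2] at h4
      rwa [h3] at hq
  have h1 : Subgroup.zpowers y ≤ Subgroup.normalizer ((Q ⊓ G : Subgroup A) : Set A) := by
    have h3 : Subgroup.zpowers y ≤ Subgroup.normalizer (Q : Set A) := by
      rw [Subgroup.zpowers_le]; exact hyQ
    have h4 : Subgroup.zpowers y ≤ Subgroup.normalizer (G : Set A) := by
      rw [Subgroup.zpowers_le]; exact Subgroup.le_normalizer hyG
    exact normalizer_inf h3 h4
  have h2 : Subgroup.zpowers y ≤ Subgroup.normalizer (S : Set A) := by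
    rw [Subgroup.zpowers_le]
    exact hyNS
  exact normalizer_inf h1 (le_norm_cent h2) (Subgroup.mem_zpowers y)

/-- the second alternative -/
theorem W_of_bot [Finite A] {G Q : Subgroup A} {y : A} (hyG : y ∈ G)
    (hyQ : y ∈ Subgroup.normalizer (Q : Set A)) (hyp : Preg p y) {S : Subgroup A}
    (hSy : S ≤ Subgroup.centralizer ({y} : Set A)) (hbot : Q ⊓ Opc p G S = ⊥) :
    Q ⊓ G ⊓ Subgroup.centralizer (S : Set A) ≤ Subgroup.centralizer ({y} : Set A) := by
  obtain ⟨hyS, hyW⟩ := norm_W hyG hyQ hSy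
  intro w hw
  have hy1 : y ∈ Opc p G S := mem_opc hyG hyS hyp
  have hw1 := Subgroup.mem_inf.1 hw
  have hw2 := Subgroup.mem_inf.1 hw1.1
  -- `w` normalizes `Opc p G S`
  have hwG : Subgroup.zpowers w ≤ Subgroup.normalizer (G : Set A) := by
    rw [Subgroup.zpowers_le]; exact Subgroup.le_normalizer hw2.2
  have hwS : Subgroup.zpowers w ≤ Subgroup.normalizer (S : Set A) := by
    rw [Subgroup.zpowers_le]; exact Subgroup.centralizer_le_normalizer _ hw1.2
  have h1 := (Subgroup.mem_normalizer_iff.1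
    (opc_norm (p := p) hwG hwS (Subgroup.mem_zpowers w)) y⁻¹).1 ((Opc p G S).inv_mem hy1)
  have h2 : y * (w * y⁻¹ * w⁻¹) ∈ Opc p G S := (Opc p G S).mul_mem hy1 h1
  have h3 : y * w * y⁻¹ * w⁻¹ ∈ Q := by
    have h4 := (Subgroup.mem_normalizer_iff.1 hyW w).1 hw
    exact Q.mul_mem (Subgroup.mem_inf.1 (Subgroup.mem_inf.1 h4).1).1 (Q.inv_mem hw2.1)
  have h5 : y * w * y⁻¹ * w⁻¹ ∈ Q ⊓ Opc p G S := by
    refine Subgroup.mem_inf.2 ⟨h3, ?_⟩
    have e : y * w * y⁻¹ * w⁻¹ = y * (w * y⁻¹ * w⁻¹) := by group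
    rw [e]
    exact h2
  rw [hbot, Subgroup.mem_bot] at h5
  apply mem_cent.2
  calc y * w = (y * w * y⁻¹ * w⁻¹) * (w * y) := by group
    _ = w * y := by rw [h5, one_mul]

end AutMain2Aux

open CopB46 AutMainAux AutMain2Aux in
theorem aut_main2 [Fact p.Prime] [Finite A] {G X Q K : Subgroup A} (hGX : G ≤ X)
    (hn : X ≤ Subgroup.normalizer (G : Set A)) (hQ : Q ∈ Supp p G X) (hKG : K ≤ G)
    (hKQ : K ≤ Subgroup.normalizer (Q : Set A))
    (hCK : G ⊓ Subgroup.centralizer (Q : Set A) ≤ K)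
    (hcyc : ∀ S ≤ Q, G ⊔ S = X →
      IsCyclic ↥((Q ⊓ G) ⊓ Subgroup.centralizer (S : Set A)) ∨ Q ⊓ Opc p G S = ⊥) :
    ∃ K₀ : Subgroup A, HypExt p (Opc p G Q) K₀ K := by
  have hQ' := hQ
  obtain ⟨hQX, hQp, hsup⟩ := hQ
  have hKN : K ≤ Subgroup.normalizer (G : Set A) := hKG.trans Subgroup.le_normalizer
  have hKC := opc_norm (p := p) hKN hKQ
  have hRp : IsPGroup p ↥(Q ⊓ G) := hQp.to_le inf_le_left
  have hQR : Q ≤ Subgroup.normalizer ((Q ⊓ G : Subgroup A) : Set A) :=
    normalizer_inf Subgroup.le_normalizer (hQX.trans hn)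
  have hKR : K ≤ Subgroup.normalizer ((Q ⊓ G : Subgroup A) : Set A) := normalizer_inf hKQ hKN
  set Z : Subgroup A := (Q ⊓ G) ⊓ Subgroup.centralizer (Q : Set A) with hZdef
  by_cases hZ : Z ≠ ⊥ ∧ IsCyclic Z
  · obtain ⟨hZne, hZc⟩ := hZ
    have hZp : IsPGroup p Z := hRp.to_le inf_le_left
    have hcomm : ∀ a ∈ Z, ∀ b ∈ Z, a * b = b * a := by
      intro a ha b hb
      have h1 := (Subgroup.mem_centralizer_iff.1 (Subgroup.mem_inf.1 ha).2) b
        (Subgroup.mem_inf.1 (Subgroup.mem_inf.1 hb).1).1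
      exact h1.symm
    have hpZ : p ∣ Nat.card Z := by
      have : Nontrivial Z := (Subgroup.nontrivial_iff_ne_bot Z).2 hZne
      obtain ⟨n, hn0, hn'⟩ := hZp.nontrivial_iff_card.mp this
      exact hn'.symm ▸ dvd_pow_self _ (ne_of_gt hn0)
    have hΩc := card_om (p := p) hcomm hZc hpZ
    have hKZ : K ≤ Subgroup.normalizer (Z : Set A) := normalizer_inf hKR (le_norm_cent hKQ)
    have hKΩ := norm_om (p := p) hcomm hKZ
    set Ω : Subgroup A := om p Z hcomm with hΩdef
    have hΩZ : Ω ≤ Z := fun z hz => hz.1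
    have hΩne : Ω ≠ ⊥ := by
      intro h
      rw [h, Subgroup.card_bot] at hΩc
      exact (Fact.out : p.Prime).one_lt.ne hΩc
    have hΩQ : Ω ≤ Q := hΩZ.trans (inf_le_left.trans inf_le_left)
    have hext := cycExt_of_card hΩc hKΩ
    refine ⟨K ⊓ Subgroup.centralizer (Ω : Set A), ?_, hKC, hext, ?_⟩
    · refine (opc_le G Q).trans (le_inf hCK ?_)
      refine inf_le_right.trans ?_
      exact Subgroup.centralizer_le hΩQ
    · intro x hx
      obtain ⟨r, hr⟩ := uexp_eq p A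
      refine ⟨r, ?_⟩
      rw [← hr]
      change pr p x ∈ _
      set y : A := pr p x with hy
      have hyp : Preg p y := preg_pr x
      have hyK0 : y ∈ K ⊓ Subgroup.centralizer (Ω : Set A) := pr_mem hx
      have hyK : y ∈ K := (Subgroup.mem_inf.1 hyK0).1
      have hyΩ := Subgroup.mem_centralizer_iff.1 (Subgroup.mem_inf.1 hyK0).2
      have hyG : y ∈ G := hKG hyK
      refine mem_opc hyG (cent_of_W hGX hn hQ' hyG (hKQ hyK) hyp ?_) hyp
      have hS := supp_centralizer hGX hn hQ' hyG hyp (hKQ hyK)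
      set S : Subgroup A := Q ⊓ Subgroup.centralizer ({y} : Set A) with hSdef
      obtain ⟨hSX, hSp, hSsup⟩ := hS
      have hSQ : S ≤ Q := inf_le_left
      rcases hcyc S hSQ hSsup with hWc | hbot
      · obtain ⟨hyS, hyW⟩ := norm_W hyG (hKQ hyK) (inf_le_right : S ≤ _)
        have hΩW : Ω ≤ Q ⊓ G ⊓ Subgroup.centralizer (S : Set A) := by
          refine hΩZ.trans (inf_le_inf le_rfl ?_)
          exact Subgroup.centralizer_le hSQ
        have hfix : Ω ≤ Subgroup.centralizer ({y} : Set A) := by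
          intro z hz
          exact mem_cent.2 (hyΩ z hz).symm
        exact cyc_fix (hRp.to_le inf_le_left) hWc hyp hyW hΩW hΩne hfix
      · exact W_of_bot hyG (hKQ hyK) hyp inf_le_right hbot
  · -- all p-regular elements of `K` centralize `Q`
    have hall : ∀ y ∈ K, Preg p y → y ∈ Opc p G Q := by
      intro y hyK hyp
      have hyG : y ∈ G := hKG hyK
      refine mem_opc hyG (cent_of_W hGX hn hQ' hyG (hKQ hyK) hyp ?_) hyp
      have hS := supp_centralizer hGX hn hQ' hyG hyp (hKQ hyK)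
      set S : Subgroup A := Q ⊓ Subgroup.centralizer ({y} : Set A) with hSdef
      obtain ⟨hSX, hSp, hSsup⟩ := hS
      have hSQ : S ≤ Q := inf_le_left
      rcases hcyc S hSQ hSsup with hWc | hbot
      · have hZW : Z ≤ Q ⊓ G ⊓ Subgroup.centralizer (S : Set A) :=
          inf_le_inf le_rfl (Subgroup.centralizer_le hSQ)
        have hZc : IsCyclic Z := isCyclic_of_injective (Subgroup.inclusion hZW)
          (Subgroup.inclusion_injective hZW)
        have hZbot : Z = ⊥ := by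
          by_contra h
          exact hZ ⟨h, hZc⟩
        have hR : Q ⊓ G = ⊥ := by
          by_contra h
          exact fix_ne hQp hRp hQR h hZbot
        rw [hR, bot_inf_eq]
        exact bot_le
      · exact W_of_bot hyG (hKQ hyK) hyp inf_le_right hbot
    refine ⟨K, (opc_le G Q).trans hCK, hKC, ⟨le_rfl, Subgroup.le_normalizer,
      ⟨1, K.one_mem, ?_⟩, ?_⟩, ?_⟩
    · rw [Subgroup.zpowers_one_eq_bot, sup_bot_eq]
    · rw [Subgroup.relIndex_self]
      intro h
      exact (Fact.out : p.Prime).one_lt.ne' (Nat.dvd_one.1 h)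
    · intro x hx
      obtain ⟨r, hr⟩ := uexp_eq p A
      refine ⟨r, ?_⟩
      rw [← hr]
      exact hall _ (pr_mem hx) (preg_pr x)

end Pool.Agent.Lib.P0c8ca5.Cy
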