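import Mathlib
import Pool.Agent.Lib.P0c8ca5C.FinalC
import Pool.Agent.Lib.P0c8ca5C.SecCyc
import Pool.Agent.Lib.P0c8ca5C.AutMain2
import Pool.Agent.Lib.P0c8ca5C.FinalD

/-!
# Navarro's equality: the combined theorem, second form
-/

namespace Pool.Agent.Lib.P0c8ca5.Cy

open MonoidAlgebra

universe u v

variable {p : ℕ} {k : Type v} [Field k]

/-- **Combined theorem**, second form. -/
theorem navarro_gen [Fact p.Prime] [CharP k p] [IsAlgClosed k]
    (hB : BaseHyp.{u, v} p k (fun _ => True))
    {A : Type u} [Group A] [Fintype A] {G : Subgroup A} (hn : G.Normal)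
    (hp : ∀ x : A, ∃ n : ℕ, x ^ p ^ n ∈ G) {e : MonoidAlgebra k A}
    (he : IsBlock G e) (hinv : InvBy ⊤ e)
    (hfix : ∀ Q : Subgroup A, G ⊔ Q = ⊤ →
      (∀ D, IsDefectGroup p ⊤ e D → Q ≤ D → IsCyclic ↥(sec D Q)) ∨
      ((∀ S ≤ Q, G ⊔ S = ⊤ → IsCyclic ↥((Q ⊓ G) ⊓ Subgroup.centralizer (S : Set A)) ∨
          Q ⊓ Opc p G S = ⊥) ∧
        ∀ D, IsDefectGroup p ⊤ e D → Q ≤ D → IsCyclic ↥(D ⊓ Opc p G Q))) :
    NavarroEq p G ⊤ e := by
  classical
  have : Fintype (Subgroup A) := Fintype.ofFinite _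
  have hnG : (⊤ : Subgroup A) ≤ Subgroup.normalizer (G : Set A) := fun x _ =>
    mem_norm_of_normal G x
  have heT : IsBlock (⊤ : Subgroup A) e := isBlock_up' le_top hnG (fun x _ => hp x) he hinv
  -- the weight equality for the chain stabilizers
  have hW : ∀ σ : Finset (Subgroup A), σ.Nonempty → IsChain (· ≤ ·) (σ : Set (Subgroup A)) →
      (∀ Q ∈ σ, Q ∈ Supp p G ⊤) → WEq p (G ⊓ stab ⊤ σ) (cS (σ.sup id) e) := by
    intro σ hne hσ hσS
    set Q := σ.sup id with hQdef
    have hQσ : Q ∈ σ := sup_mem_chain hne hσ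
    have hQS := hσS Q hQσ
    obtain ⟨-, hQp, hGQ⟩ := hQS
    have hHn : ∀ R ∈ σ, stab ⊤ σ ≤ Subgroup.normalizer (R : Set A) := fun R hR x hx =>
      (mem_stab.1 hx).2 R hR
    have hCS : ⊤ ⊓ Subgroup.centralizer (Q : Set A) ≤ stab ⊤ σ := by
      intro x hx
      rw [mem_stab]
      refine ⟨hx.1, fun R hR => ?_⟩
      have hRQ : R ≤ Q := Finset.le_sup (f := id) hR
      exact Subgroup.centralizer_le_normalizer _ (Subgroup.centralizer_le hRQ hx.2)
    have hctx : Ctx p ⊤ (stab ⊤ σ) Q e :=
      { hHX := le_top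
        hS := hQp
        hHS := hHn Q hQσ
        hCS := hCS
        supp := fun _ _ => Subgroup.mem_top _
        inv := hinv }
    have hsub : ∀ x, (cS Q e).coeff x ≠ 0 → e.coeff x ≠ 0 := by
      intro x hx h0
      apply hx
      rw [coeff_resS]
      split_ifs
      · exact h0
      · rfl
    have hcen : ∀ x, (cS Q e).coeff x ≠ 0 → x ∈ Subgroup.centralizer (Q : Set A) := by
      intro x hx
      by_contra h0
      exact hx (coeff_resS_of_notMem _ h0)
    have hcC : SuppIn (G ⊓ Subgroup.centralizer (Q : Set A)) (cS Q e) := fun x hx =>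
      Subgroup.mem_inf.2 ⟨he.suppIn x (hsub x hx), hcen x hx⟩
    have hCK : G ⊓ Subgroup.centralizer (Q : Set A) ≤ G ⊓ stab ⊤ σ :=
      le_inf inf_le_left ((inf_le_inf_right _ le_top).trans hCS)
    have hcinv : InvBy (G ⊓ stab ⊤ σ) (cS Q e) := hctx.cS_inv.mono inf_le_right
    have hcc : cS Q e * cS Q e = cS Q e := hctx.cS_idem le_top he.idem
    by_cases hbr : HasBr Q e
    · rcases hfix Q hGQ with hfixQ | ⟨hcyc, hfixQ⟩
      · -- first case: everything is cyclic modulo Q
        set K := G ⊓ stab ⊤ σ with hK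
        have hKQ : K ≤ Subgroup.normalizer (Q : Set A) := inf_le_right.trans (hHn Q hQσ)
        have hRp : IsPGroup p ↥(Q ⊓ K) := hQp.to_le inf_le_left
        have hRn : K ≤ Subgroup.normalizer ((Q ⊓ K : Subgroup A) : Set A) := by
          intro x hx
          have h1 := hKQ hx
          rw [← cg_eq_self_iff] at h1 ⊢
          rw [cg_inf, h1, cg_of_mem hx]
        refine weq_of_blocks (hcC.mono hCK) hcinv hcc ?_
        intro b hb hbc
        refine navarro_sec hB inf_le_right hRn hRp hb (fun P hRP hPK hP hbrP => ?_)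
        have hPQ : P ≤ Subgroup.normalizer (Q : Set A) := hPK.trans hKQ
        have hsup : IsPGroup p ↥(P ⊔ Q) := hP.to_sup_of_normal_right' hQp hPQ
        have hbrS : HasBr (P ⊔ Q) e :=
          Rk.hasBr_sup_of_chain_block le_top he hinv hne hσ hσS hb hbc hP hPK hbrP
        obtain ⟨D, hDD, hle⟩ := exists_defect_ge (p := p) hsup hbrS
        exact isCyclic_sec_of_sup hRP
          (le_inf inf_le_right (inf_le_left.trans hPK)) hPQ (hPK.trans hRn)
          (le_sup_left.trans hle) (hfixQ D hDD (le_sup_right.trans hle))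
      · obtain ⟨K₀, hK₀⟩ := aut_main2 (p := p) (G := G) (X := ⊤) (Q := Q) (K := G ⊓ stab ⊤ σ)
          le_top hnG (hσS Q hQσ) inf_le_left (inf_le_right.trans (hHn Q hQσ)) hCK hcyc
        -- the support
        have hCn : G ⊓ Subgroup.centralizer (Q : Set A) ≤
            Subgroup.normalizer ((Opc p G Q : Subgroup A) : Set A) :=
          opc_norm (inf_le_left.trans Subgroup.le_normalizer)
            (inf_le_right.trans (Subgroup.centralizer_le_normalizer _))
        have hcO : SuppIn (Opc p G Q) (cS Q e) :=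
          supp_in_of_pQuotient (p := p) (opc_le G Q) hCn (fun x hx => opc_pow hx)
            (mem_fixAlg.2 ⟨hcC, hcinv.mono hCK⟩) hcc
        refine weq_star' hB hK₀ hcO hcinv hcc ?_
        rintro P hP hPp ⟨y, hy, hy0⟩
        -- P Q has a nonzero Brauer map
        have hPC : P ≤ G ⊓ Subgroup.centralizer (Q : Set A) := hP.trans (opc_le G Q)
        have hPQ : P ≤ Subgroup.centralizer (Q : Set A) := hPC.trans inf_le_right
        have hsup : IsPGroup p ↥(P ⊔ Q) :=
          hPp.to_sup_of_normal_right' hQp (hPQ.trans (Subgroup.centralizer_le_normalizer _))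
        have hbr' : HasBr (P ⊔ Q) e := by
          refine ⟨y, ?_, hsub y hy0⟩
          have h5 : P ⊔ Q ≤ Subgroup.centralizer ({y} : Set A) := by
            apply sup_le
            · intro z hz
              rw [Subgroup.mem_centralizer_iff]
              intro w hw
              rw [Set.mem_singleton_iff] at hw
              subst hw
              exact ((Subgroup.mem_centralizer_iff.1 hy) z hz).symm
            · intro z hz
              rw [Subgroup.mem_centralizer_iff]
              intro w hw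
              rw [Set.mem_singleton_iff] at hw
              subst hw
              exact ((Subgroup.mem_centralizer_iff.1 (hcen _ hy0)) z hz).symm
          rw [Subgroup.mem_centralizer_iff]
          intro z hz
          exact ((Subgroup.mem_centralizer_iff.1 (h5 hz)) y rfl).symm
        obtain ⟨D, hDD, hle⟩ := exists_defect_ge (p := p) hsup hbr'
        have h1 := hfixQ D hDD (le_sup_right.trans hle)
        have h3 : P ≤ D ⊓ Opc p G Q := le_inf (le_sup_left.trans hle) hP
        exact ⟨isCyclic_of_injective (Subgroup.inclusion h3) (Subgroup.inclusion_injective h3),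
          trivial⟩
    · have h0 : cS Q e = 0 := by
        ext y
        by_contra hy
        exact hbr ⟨y, hcen y hy, hsub y hy⟩
      rw [h0]
      exact weq_zero (p := p) _
  -- the conclusion
  intro T hT1 hT2
  let S : Finset (Subgroup A) := Finset.univ.filter (fun Q => Q ∈ Supp p G ⊤)
  have hS : ∀ Q, Q ∈ S ↔ Q ∈ Supp p G ⊤ := by intro Q; simp [S]
  have h1 := inv_of_chains le_top hnG (fun x _ => hp x) he.suppIn hinv he.idem hW S hS
  have h2 := sum_DZ_supp le_top hnG (fun x _ => hp x) he hinv T hT1 hT2 S hS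
  have hpos : 0 < Nat.card (⊤ : Subgroup A) := Nat.card_pos
  exact Nat.eq_of_mul_eq_mul_left hpos (h1.trans h2.symm)

/-- cyclic fixed points or p-nilpotent centralizers -/
theorem navarro_nilp [Fact p.Prime] [CharP k p] [IsAlgClosed k]
    (hB : BaseHyp.{u, v} p k (fun _ => True))
    {A : Type u} [Group A] [Fintype A] {G : Subgroup A} (hn : G.Normal)
    (hp : ∀ x : A, ∃ n : ℕ, x ^ p ^ n ∈ G) {e : MonoidAlgebra k A}
    (he : IsBlock G e) (hinv : InvBy ⊤ e) {D : Subgroup A} (hD : IsDefectGroup p ⊤ e D)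
    (hfix : ∀ Q ≤ D, G ⊔ Q = ⊤ →
      IsCyclic ↥((D ⊓ G) ⊓ Subgroup.centralizer (Q : Set A)) ∨
        ¬ p ∣ Nat.card ↥(Opc p G Q)) :
    NavarroEq p G ⊤ e := by
  classical
  have hnG : (⊤ : Subgroup A) ≤ Subgroup.normalizer (G : Set A) := fun x _ =>
    mem_norm_of_normal G x
  have heT : IsBlock (⊤ : Subgroup A) e := isBlock_up' le_top hnG (fun x _ => hp x) he hinv
  have hfix' : ∀ (E : Subgroup A), IsDefectGroup p ⊤ e E → ∀ Q ≤ E, G ⊔ Q = ⊤ →
      IsCyclic ↥((E ⊓ G) ⊓ Subgroup.centralizer (Q : Set A)) ∨ ¬ p ∣ Nat.card ↥(Opc p G Q) := by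
    intro E hE Q hQ hGQ
    obtain ⟨x, rfl⟩ := Rk.defect_conj heT hD hE
    have h1 : cg x⁻¹ Q ≤ D := by
      have := cg_le_cg (g := x⁻¹) hQ
      rwa [cg_cg, inv_mul_cancel, cg_one] at this
    have h2 : G ⊔ cg x⁻¹ Q = ⊤ := by
      have h3 := congrArg (cg x⁻¹) hGQ
      rw [cg_sup, cg_normal, cg_of_mem (Subgroup.mem_top _)] at h3
      exact h3
    have hcent : Subgroup.centralizer (Q : Set A)
        = cg x (Subgroup.centralizer ((cg x⁻¹ Q : Subgroup A) : Set A)) := by
      ext y
      rw [mem_cg, Subgroup.mem_centralizer_iff, Subgroup.mem_centralizer_iff]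
      constructor
      · intro h q hq
        have h7 : x * q * x⁻¹ ∈ Q := by
          rw [SetLike.mem_coe, mem_cg, inv_inv] at hq
          exact hq
        have h8 := h _ h7
        calc q * (x⁻¹ * y * x) = x⁻¹ * ((x * q * x⁻¹) * y) * x := by group
          _ = x⁻¹ * (y * (x * q * x⁻¹)) * x := by rw [h8]
          _ = x⁻¹ * y * x * q := by group
      · intro h q hq
        have h7 : x⁻¹ * q * x ∈ ((cg x⁻¹ Q : Subgroup A) : Set A) := by
          rw [SetLike.mem_coe, mem_cg, inv_inv]
          have e1 : x * (x⁻¹ * q * x) * x⁻¹ = q := by group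
          rw [e1]; exact hq
        have h8 := h _ h7
        calc q * y = x * ((x⁻¹ * q * x) * (x⁻¹ * y * x)) * x⁻¹ := by group
          _ = x * (x⁻¹ * y * x * (x⁻¹ * q * x)) * x⁻¹ := by rw [h8]
          _ = y * q := by group
    rcases hfix _ h1 h2 with h4 | h4
    · left
      have h6 : (cg x D ⊓ G) ⊓ Subgroup.centralizer (Q : Set A)
          = cg x ((D ⊓ G) ⊓ Subgroup.centralizer ((cg x⁻¹ Q : Subgroup A) : Set A)) := by
        rw [cg_inf, cg_inf, cg_normal x G, ← hcent]
      rw [h6]
      have h9 := (Subgroup.equivMapOfInjective ((D ⊓ G) ⊓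
        Subgroup.centralizer ((cg x⁻¹ Q : Subgroup A) : Set A)) (MulAut.conj x).toMonoidHom
        (MulAut.conj x).injective)
      exact isCyclic_of_surjective h9 h9.surjective
    · right
      have h5 : Opc p G Q ≤ cg x (Opc p G (cg x⁻¹ Q)) := by
        conv_lhs => rw [Opc]
        rw [Subgroup.closure_le]
        rintro y ⟨h6, h7, h8⟩
        rw [SetLike.mem_coe, mem_cg]
        apply mem_opc
        · have := hn.conj_mem y h6 x⁻¹
          rwa [inv_inv] at this
        · rw [hcent, mem_cg] at h7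
          exact h7
        · have h9 : orderOf (x⁻¹ * y * x) = orderOf y := by
            have h10 := orderOf_injective (MulAut.conj x⁻¹).toMonoidHom
              (MulAut.conj x⁻¹).injective y
            have e1 : (MulAut.conj x⁻¹).toMonoidHom y = x⁻¹ * y * x := by
              change x⁻¹ * y * x⁻¹⁻¹ = _
              rw [inv_inv]
            rwa [e1] at h10
          rw [Preg, h9]
          exact h8
      intro h6
      apply h4
      have h7 := (h6.trans (Subgroup.card_dvd_of_le h5))
      rwa [card_cg] at h7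
  -- a p-group meets a p'-group trivially
  have hmeet : ∀ P L : Subgroup A, IsPGroup p P → ¬ p ∣ Nat.card L → P ⊓ L = ⊥ := by
    intro P L hP hL
    have h1 : IsPGroup p ↥(P ⊓ L) := hP.to_le inf_le_left
    by_contra h
    have : Nontrivial ↥(P ⊓ L) := (Subgroup.nontrivial_iff_ne_bot _).2 h
    obtain ⟨n, hn0, hn'⟩ := h1.nontrivial_iff_card.mp this
    apply hL
    have h2 : p ∣ Nat.card ↥(P ⊓ L) := hn'.symm ▸ dvd_pow_self _ (ne_of_gt hn0)
    exact h2.trans (Subgroup.card_dvd_of_le inf_le_right)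
  apply navarro_gen hB hn hp he hinv
  intro Q hGQ
  by_cases hQ : ∃ E, IsDefectGroup p ⊤ e E ∧ Q ≤ E
  · obtain ⟨E₀, hE₀, hQE₀⟩ := hQ
    right
    refine ⟨fun S hSQ hGS => ?_, fun E hE hQE => ?_⟩
    · rcases hfix' E₀ hE₀ S (hSQ.trans hQE₀) hGS with h | h
      · left
        have h3 : (Q ⊓ G) ⊓ Subgroup.centralizer (S : Set A)
            ≤ (E₀ ⊓ G) ⊓ Subgroup.centralizer (S : Set A) :=
          inf_le_inf_right _ (inf_le_inf_right _ hQE₀)
        exact isCyclic_of_injective (Subgroup.inclusion h3) (Subgroup.inclusion_injective h3)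
      · right
        exact hmeet _ _ (hE₀.isPGroup.to_le hQE₀) h
    · rcases hfix' E hE Q hQE hGQ with h | h
      · have h3 : E ⊓ Opc p G Q ≤ (E ⊓ G) ⊓ Subgroup.centralizer (Q : Set A) :=
          le_inf (le_inf inf_le_left (inf_le_right.trans ((opc_le G Q).trans inf_le_left)))
            (inf_le_right.trans ((opc_le G Q).trans inf_le_right))
        exact isCyclic_of_injective (Subgroup.inclusion h3) (Subgroup.inclusion_injective h3)
      · rw [hmeet _ _ hE.isPGroup h]
        exact isCyclic_of_subsingleton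
  · left
    intro E hE hQE
    exact absurd ⟨E, hE, hQE⟩ hQ

end Pool.Agent.Lib.P0c8ca5.Cy
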