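import Mathlib
import Pool.Agent.Lib.P0c8ca5C.SecCyc
import Pool.Agent.Lib.P0c8ca5C.StarH

/-!
# The weight equality modulo a normal p-subgroup, for idempotents
-/

namespace Pool.Agent.Lib.P0c8ca5.Cy

open MonoidAlgebra Rk Rk.Inf3Aux

universe u v

variable {p : ℕ} {k : Type v} [Field k]

theorem weq_infl [Fact p.Prime] [CharP k p] [IsAlgClosed k] {A : Type u} [Group A] [Fintype A]
    {K R : Subgroup A} [Fintype (NQ R)]
    (hRK : R ≤ K) (hn : K ≤ Subgroup.normalizer (R : Set A)) (hR : IsPGroup p R)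
    {c : MonoidAlgebra k A} (hc : SuppIn K c)
    (h : WEq p (sec K R) (proj R c)) : WEq p K c := by
  classical
  let D : Finset (Subgroup A) := Finset.univ.filter (fun Q => Q ≤ K ∧ IsPGroup p Q)
  have hD : ∀ Q, Q ∈ D ↔ Q ≤ K ∧ IsPGroup p Q := by
    intro Q
    rw [Finset.mem_filter]
    exact ⟨fun h => h.2, fun h => ⟨Finset.mem_univ _, h⟩⟩
  let D' : Finset (Subgroup (NQ R)) := Finset.univ.filter (fun Q => Q ≤ sec K R ∧ IsPGroup p Q)
  have hD' : ∀ Q, Q ∈ D' ↔ Q ≤ sec K R ∧ IsPGroup p Q := by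
    intro Q
    rw [Finset.mem_filter]
    exact ⟨fun h => h.2, fun h => ⟨Finset.mem_univ _, h⟩⟩
  have key : ∑ Q ∈ D, Nat.card ↥(K ⊓ Subgroup.normalizer (Q : Set A))
      * Nat.card {f : MonoidAlgebra k (NQ Q) | IsDZ p (sec K Q) f ∧ f * proj Q c = f}
      = Nat.card R * ∑ Q ∈ D', Nat.card ↥(sec K R ⊓ Subgroup.normalizer (Q : Set (NQ R)))
        * Nat.card {f : MonoidAlgebra k (NQ Q) | IsDZ p (sec (sec K R) Q) f ∧
          f * proj Q (proj R c) = f} := by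
    rw [← Finset.sum_filter_add_sum_filter_not D (fun Q => R ≤ Q)]
    have h3 : ∑ Q ∈ D.filter (fun Q => ¬ R ≤ Q), Nat.card ↥(K ⊓ Subgroup.normalizer (Q : Set A))
        * Nat.card {f : MonoidAlgebra k (NQ Q) | IsDZ p (sec K Q) f ∧ f * proj Q c = f} = 0 := by
      apply Finset.sum_eq_zero
      intro Q hQ
      rw [Finset.mem_filter, hD] at hQ
      rw [card_set_eq_zero, mul_zero]
      rintro f ⟨h4, _⟩
      exact hQ.2 (radical hRK hn hR hQ.1.1 hQ.1.2 h4)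
    rw [h3, add_zero, Finset.mul_sum]
    refine Finset.sum_bij (fun Q _ => sec Q R) ?_ ?_ ?_ ?_
    · intro Q hQ
      rw [Finset.mem_filter, hD] at hQ
      rw [hD']
      exact ⟨sec_mono hQ.1.1, isPGroup_sec hQ.1.2⟩
    · intro Q₁ hQ₁ Q₂ hQ₂ h12
      rw [Finset.mem_filter, hD] at hQ₁ hQ₂
      have h4 : ∀ x, x ∈ K → (x ∈ Q₁ ↔ x ∈ Q₂) := by
        intro x hx
        rw [← qm_mem_sec_iff hQ₁.2 (hx := hn hx), ← qm_mem_sec_iff hQ₂.2 (hx := hn hx)]
        have h5 : sec Q₁ R = sec Q₂ R := h12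
        rw [h5]
      ext x
      constructor
      · intro hx
        exact (h4 x (hQ₁.1.1 hx)).1 hx
      · intro hx
        exact (h4 x (hQ₂.1.1 hx)).2 hx
    · intro Q' hQ'
      rw [hD'] at hQ'
      obtain ⟨P, h4, h5, h6, h7⟩ := exists_preimage hRK hR hQ'.1 hQ'.2
      refine ⟨P, ?_, h7⟩
      rw [Finset.mem_filter, hD]
      exact ⟨⟨h5, h6⟩, h4⟩
    · intro Q hQ
      rw [Finset.mem_filter, hD] at hQ
      rw [card_normalizer_sec hQ.2 hQ.1.1 hn, card_dz_sec hQ.2 hQ.1.1 hn hc, mul_assoc]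
  have h1 : Nat.card K * Nat.card (IrX K c) = ∑ Q ∈ D,
      Nat.card ↥(K ⊓ Subgroup.normalizer (Q : Set A))
      * Nat.card {f : MonoidAlgebra k (NQ Q) | IsDZ p (sec K Q) f ∧ f * proj Q c = f} := by
    have h2 : Nat.card (sec K R) * Nat.card (IrX (sec K R) (proj R c)) =
      ∑ Q ∈ D', Nat.card ↥(sec K R ⊓ Subgroup.normalizer (Q : Set (NQ R)))
        * Nat.card {f : MonoidAlgebra k (NQ Q) | IsDZ p (sec (sec K R) Q) f ∧
          f * proj Q (proj R c) = f} := h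
    have h3 : Nat.card (IrX K c) = Nat.card (IrX (sec K R) (proj R c)) :=
      card_irr_infl hRK hn hR hc
    rw [key, ← h2, h3, card_secK hRK hn, mul_assoc]
  exact h1

/-- Brauer subgroups modulo a normal p-subgroup, for central idempotents -/
theorem hasBr_infl_idem [Fact p.Prime] [CharP k p] {A : Type u} [Group A] [Fintype A]
    {K R : Subgroup A}
    (hRK : R ≤ K) (hn : K ≤ Subgroup.normalizer (R : Set A)) (hR : IsPGroup p R)
    {c : MonoidAlgebra k A} (hc : SuppIn K c) (hci : InvBy K c)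
    {P' : Subgroup (NQ R)} (hP' : P' ≤ sec K R) (hpP' : IsPGroup p P')
    (hbr : HasBr P' (proj R c)) :
    ∃ P : Subgroup A, R ≤ P ∧ P ≤ K ∧ IsPGroup p P ∧ HasBr P c ∧ sec P R = P' := by
  classical
  obtain ⟨P, hRP, hPK, hpP, hsec⟩ := Rk.Inf3Aux.exists_preimage hRK hR hP' hpP'
  refine ⟨P, hRP, hPK, hpP, ?_, hsec⟩
  obtain ⟨w, hw, hw0⟩ := hbr
  obtain ⟨n, hnK, hnR, rfl⟩ := mem_sec.1 (proj_suppIn hc R w hw0)
  rw [coeff_proj] at hw0
  rw [Subgroup.mem_centralizer_iff] at hw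
  rw [sum_conj_eq (p := p) hpP (fun x => if n⁻¹ * x ∈ R then c.coeff x else 0) ?_
    (Finset.univ.filter (fun x => x ∈ Subgroup.centralizer (P : Set A))) (fun x => by simp)] at hw0
  · obtain ⟨x, hx, hx0⟩ := Finset.exists_ne_zero_of_sum_ne_zero hw0
    rw [Finset.mem_filter] at hx
    refine ⟨x, hx.2, fun h0 => hx0 ?_⟩
    rw [h0]
    split_ifs <;> rfl
  · intro d hd x
    have hdR : d ∈ Subgroup.normalizer (R : Set A) := hn (hPK hd)
    have hd2 : qm R d hdR ∈ P' := by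
      rw [← hsec]
      exact qm_mem_sec _ hd
    have h1 := hw _ hd2
    have h2 : n⁻¹ * d * n * d⁻¹ ∈ R := by
      have h3 : qm R (n⁻¹ * d * n * d⁻¹) ((Subgroup.normalizer (R : Set A)).mul_mem
          ((Subgroup.normalizer (R : Set A)).mul_mem ((Subgroup.normalizer (R : Set A)).mul_mem
            ((Subgroup.normalizer (R : Set A)).inv_mem hnR) hdR) hnR)
          ((Subgroup.normalizer (R : Set A)).inv_mem hdR)) = 1 := by
        change (qm R n hnR)⁻¹ * qm R d hdR * qm R n hnR * (qm R d hdR)⁻¹ = 1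
        rw [mul_assoc (qm R n hnR)⁻¹, h1]
        group
      exact qm_eq_one_iff.1 h3
    have hcond : n⁻¹ * (d * x * d⁻¹) ∈ R ↔ n⁻¹ * x ∈ R := by
      have e1 : n⁻¹ * (d * x * d⁻¹) = (n⁻¹ * d * n * d⁻¹) * (d * (n⁻¹ * x) * d⁻¹) := by group
      rw [e1, R.mul_mem_cancel_left h2]
      exact ((Subgroup.mem_normalizer_iff.1 hdR) _).symm
    simp only [hcond]
    rw [hci d (hPK hd) x]

end Pool.Agent.Lib.P0c8ca5.Cy
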