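import Mathlib
import Pool.Agent.Lib.P0c8ca5C.StarH

/-!
# The weight equality: normal series with a p-group, a cyclic p'-group and a p-group as factors
-/

namespace Pool.Agent.Lib.P0c8ca5.Cy

open MonoidAlgebra

universe u v

variable {p : ℕ} {k : Type v} [Field k]

/-- `C ≤ N ≤ H ≤ K`, `N / C` is a p-group, `H / N` is cyclic of order prime to `p`, `H` is normal in
`K` and `K / H` is a p-group -/
structure Hyp3 (p : ℕ) {A : Type u} [Group A] (C N H K : Subgroup A) : Prop where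
  hyp : HypExt p C N H
  HK : H ≤ K
  hH : K ≤ Subgroup.normalizer (H : Set A)
  pgrp : ∀ x ∈ K, ∃ n : ℕ, x ^ p ^ n ∈ H

theorem Hyp3.sub [Fact p.Prime] {A : Type u} [Group A] [Finite A] {C N H K T : Subgroup A}
    (h : Hyp3 p C N H K) (hT : T ≤ K) : Hyp3 p (C ⊓ T) (N ⊓ T) (H ⊓ T) T := by
  have h1 := h.hyp.sub (T := H ⊓ T) inf_le_left
  have e1 : C ⊓ (H ⊓ T) = C ⊓ T := by
    rw [← inf_assoc, inf_eq_left.2 (h.hyp.CN.trans h.hyp.ext.NH)]
  have e2 : N ⊓ (H ⊓ T) = N ⊓ T := by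
    rw [← inf_assoc, inf_eq_left.2 h.hyp.ext.NH]
  rw [e1, e2] at h1
  refine ⟨h1, inf_le_right, HypAux.le_norm_inf h.hH hT, fun x hx => ?_⟩
  obtain ⟨n, hn⟩ := h.pgrp x (hT hx)
  exact ⟨n, Subgroup.mem_inf.2 ⟨hn, T.pow_mem hx _⟩⟩

theorem Hyp3.sec [Fact p.Prime] {A : Type u} [Group A] [Finite A] {C N H K : Subgroup A}
    (h : Hyp3 p C N H K) (Q : Subgroup A) :
    Hyp3 p (sec C Q) (sec N Q) (sec H Q) (sec K Q) := by
  refine ⟨h.hyp.sec Q, sec_mono h.HK, HypAux.sec_norm h.hH Q, ?_⟩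
  intro w hw
  obtain ⟨x, hx, hx', rfl⟩ := mem_sec.1 hw
  obtain ⟨n, hn⟩ := h.pgrp x hx
  refine ⟨n, ?_⟩
  have h1 : (qm Q x hx') ^ p ^ n = qm Q (x ^ p ^ n)
      ((Subgroup.normalizer (Q : Set A)).pow_mem hx' _) := rfl
  rw [h1]
  exact qm_mem_sec _ hn

theorem HypExt.subgroupOf {A : Type u} [Group A] {C N H K : Subgroup A} (h : HypExt p C N H)
    (hHK : H ≤ K) : HypExt p (C.subgroupOf K) (N.subgroupOf K) (H.subgroupOf K) := by
  have hnorm : ∀ L : Subgroup A, H ≤ Subgroup.normalizer (L : Set A) →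
      H.subgroupOf K ≤ Subgroup.normalizer ((L.subgroupOf K : Subgroup ↥K) : Set ↥K) := by
    intro L hL g hg
    rw [Subgroup.mem_subgroupOf] at hg
    rw [Subgroup.mem_normalizer_iff]
    intro x
    rw [Subgroup.mem_subgroupOf, Subgroup.mem_subgroupOf]
    exact Subgroup.mem_normalizer_iff.1 (hL hg) x
  refine ⟨?_, hnorm C h.hC, ⟨?_, hnorm N h.ext.hN, ?_, ?_⟩, ?_⟩
  · intro x hx
    rw [Subgroup.mem_subgroupOf] at hx ⊢
    exact h.CN hx
  · intro x hx
    rw [Subgroup.mem_subgroupOf] at hx ⊢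
    exact h.ext.NH hx
  · obtain ⟨t, ht, hNt⟩ := h.ext.cyc
    refine ⟨⟨t, hHK ht⟩, ht, ?_⟩
    apply Subgroup.map_injective K.subtype_injective
    rw [Subgroup.map_sup, Subgroup.subgroupOf_map_subtype, Subgroup.subgroupOf_map_subtype,
      inf_eq_left.2 (h.ext.NH.trans hHK), inf_eq_left.2 hHK, MonoidHom.map_zpowers]
    exact hNt
  · have h1 : (N.subgroupOf K).relIndex (H.subgroupOf K) = N.relIndex H := by
      exact Subgroup.relIndex_subgroupOf hHK
    rw [h1]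
    exact h.ext.idx
  · intro x hx
    rw [Subgroup.mem_subgroupOf] at hx
    obtain ⟨n, hn⟩ := h.pgrp x hx
    exact ⟨n, Subgroup.mem_subgroupOf.2 hn⟩

/-- the p-step -/
theorem weq_pstep [Fact p.Prime] [CharP k p] [IsAlgClosed k] {A : Type u} [Group A] [Fintype A]
    {M : Subgroup A} [hM : M.Normal] (hp : ∀ x : A, ∃ n : ℕ, x ^ p ^ n ∈ M)
    {f : MonoidAlgebra k A}
    (hfM : SuppIn M f) (hfi : InvBy ⊤ f) (hff : f * f = f)
    (hW : ∀ T : Subgroup A, T ≤ M → ∀ c : MonoidAlgebra k A, (∀ x, c.coeff x ≠ 0 → f.coeff x ≠ 0) →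
      SuppIn T c → InvBy T c → c * c = c → WEq p T c) :
    WEq p (⊤ : Subgroup A) f := by
  classical
  have : Fintype (Subgroup A) := Fintype.ofFinite _
  have : Fintype (IrX M f) := Fintype.ofFinite _
  have : Fintype (PT p M f) := Fintype.ofFinite _
  have hnM : ∀ U : Subgroup A, U ≤ Subgroup.normalizer (M : Set A) := fun U x _ =>
    mem_norm_of_normal M x
  have key : ∀ U : Subgroup A, M ≤ U →
      cnt (stX (G := M) hfi) M U = cnt (stP p M f) M U := by
    intro U hMU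
    let S : Finset (Subgroup A) := Finset.univ.filter (fun Q => Q ∈ Supp p M U)
    have hS : ∀ Q, Q ∈ S ↔ Q ∈ Supp p M U := by intro Q; simp [S]
    rw [cnt_stX (p := p) le_rfl hMU (hnM U) hp hfM hfi hff,
      cnt_stP le_rfl hMU hp hfM hfi hff S (fun Q => by rw [hS]; exact Iff.rfl)]
    apply inv_of_chains hMU (hnM U) (fun x _ => hp x) hfM (hfi.mono le_top) hff ?_ S hS
    intro σ hne hσ hσS
    set T := σ.sup id with hT
    have hTσ : T ∈ σ := sup_mem_chain hne hσ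
    have hHn : ∀ Q ∈ σ, stab U σ ≤ Subgroup.normalizer (Q : Set A) := fun Q hQ x hx =>
      (mem_stab.1 hx).2 Q hQ
    have hCS : U ⊓ Subgroup.centralizer (T : Set A) ≤ stab U σ := by
      intro x hx
      rw [mem_stab]
      refine ⟨hx.1, fun Q hQ => ?_⟩
      have hQT : Q ≤ T := Finset.le_sup (f := id) hQ
      exact Subgroup.centralizer_le_normalizer _ (Subgroup.centralizer_le hQT hx.2)
    have hctx : Ctx p U (stab U σ) T f :=
      { hHX := inf_le_left
        hS := (hσS T hTσ).2.1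
        hHS := hHn T hTσ
        hCS := hCS
        supp := hfM.mono hMU
        inv := hfi.mono le_top }
    have hsub : ∀ x, (cS T f).coeff x ≠ 0 → f.coeff x ≠ 0 := by
      intro x hx h0
      apply hx
      rw [coeff_resS]
      split_ifs
      · exact h0
      · rfl
    exact hW (M ⊓ stab U σ) inf_le_left (cS T f) hsub
      (fun x hx => Subgroup.mem_inf.2 ⟨hfM x (hsub x hx), hctx.cS_supp x hx⟩)
      (hctx.cS_inv.mono inf_le_right) (hctx.cS_idem (hσS T hTσ).1 hff)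
  have h1 := cnt_top_eq (M := M) (stX (G := M) hfi) (stP p M f) key
  let S : Finset (Subgroup A) := Finset.univ.filter (fun Q => Q ≤ ⊤ ∧ IsPGroup p Q)
  have hS : ∀ Q, Q ∈ S ↔ Q ≤ ⊤ ∧ IsPGroup p Q ∧ ⊤ ⊔ Q = ⊤ := by
    intro Q; simp [S]
  rw [cnt_stX (p := p) le_top le_rfl (by rw [Subgroup.normalizer_eq_top]) hp hfM hfi hff,
    cnt_stP le_top le_top hp hfM hfi hff S hS] at h1
  unfold WEq Fr.Ws
  rw [← card_irr_eq, h1]
  refine Finset.sum_congr ?_ (fun _ _ => rfl)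
  ext Q
  simp [S]

/-- the weight equality for series with three factors -/
theorem weq_star3 [Fact p.Prime] [CharP k p] [IsAlgClosed k] {Pr : ℕ → Prop}
    (hB : BaseHyp.{u, v} p k Pr) {A : Type u} [Group A] [Fintype A] {C N H K : Subgroup A}
    (hh : Hyp3 p C N H K) {c : MonoidAlgebra k A}
    (hc : SuppIn C c) (hci : InvBy K c) (hcc : c * c = c) (hst : Star p Pr C c) :
    WEq p K c := by
  classical
  have : Fintype ↥K := Fintype.ofFinite _
  have hCH : C ≤ H := hh.hyp.CN.trans hh.hyp.ext.NH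
  have hCK : C ≤ K := hCH.trans hh.HK
  rw [← weq_dn (hc.mono hCK)]
  have hHn : (H.subgroupOf K).Normal := by
    refine ⟨fun n hn g => ?_⟩
    rw [Subgroup.mem_subgroupOf] at hn ⊢
    exact (Subgroup.mem_normalizer_iff.1 (hh.hH g.2) _).1 hn
  have hcH : SuppIn (H.subgroupOf K) (dn K c) := (dn_suppIn hc).mono (by
    intro x hx
    rw [Subgroup.mem_subgroupOf] at hx ⊢
    exact hCH hx)
  apply weq_pstep (M := H.subgroupOf K) ?_ hcH (dn_invBy hci) (dn_idem (hc.mono hCK) hcc)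
  · intro T hT c' hsub hcT hcTi hcc'
    have hT' := (hh.hyp.subgroupOf hh.HK).sub hT
    have hcC : SuppIn (C.subgroupOf K ⊓ T) c' := fun x hx =>
      Subgroup.mem_inf.2 ⟨dn_suppIn hc x (hsub x hx), hcT x hx⟩
    refine weq_star' hB hT' hcC hcTi hcc' ?_
    rintro P hP hPp ⟨y, hy, hy0⟩
    exact star_dn hst P (hP.trans inf_le_left) hPp ⟨y, hy, hsub y hy0⟩
  · rintro ⟨x, hx⟩
    obtain ⟨n, hn⟩ := hh.pgrp x hx
    exact ⟨n, Subgroup.mem_subgroupOf.2 hn⟩

end Pool.Agent.Lib.P0c8ca5.Cy
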