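import Mathlib
import Pool.Agent.Lib.P0c8ca5C.FinalF
import Pool.Agent.Lib.P0c8ca5C.FinalE
import Pool.Agent.Lib.P0c8ca5C.InflW
import Pool.Agent.Lib.P0c8ca5C.PStep

/-!
# Navarro's equality: normal subgroups of the local subgroups with cyclic defect

`navarro_U`: for every p-subgroup `Q` with `G Q = X` there is a normal subgroup `M` of `N_G(Q)` that
contains the p-regular elements of `C_G(Q)` such that `N_G(Q) / M` has a normal series with a p-group,
a cyclic p'-group and a p-group as factors and `(E ∩ M) Q / Q` is cyclic for all defect groups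
`E ≥ Q`.
-/

namespace Pool.Agent.Lib.P0c8ca5.Cy

open MonoidAlgebra

universe u v

variable {p : ℕ} {k : Type v} [Field k]

/-- `P ∩ S ≤ R` and `N_E(S) / S` cyclic imply that the image of `P ≤ E` modulo `R` is cyclic -/
theorem isCyclic_sec_gen {A : Type u} [Group A] {P S R E : Subgroup A}
    (hPR : P ⊓ S ≤ R) (hPS : P ≤ Subgroup.normalizer (S : Set A))
    (hPRn : P ≤ Subgroup.normalizer (R : Set A)) (hPE : P ≤ E)
    (hc : IsCyclic ↥(sec E S)) : IsCyclic ↥(sec P R) := by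
  let f : ↥P →* ↥(sec E S) :=
    { toFun := fun x => ⟨qm S x (hPS x.2), qm_mem_sec _ (hPE x.2)⟩
      map_one' := Subtype.ext (qm_eq_one_iff.2 S.one_mem)
      map_mul' := fun x y => Subtype.ext rfl }
  have h1 : IsCyclic f.range := isCyclic_of_injective f.range.subtype
    (Subgroup.subtype_injective _)
  obtain ⟨⟨_, u, rfl⟩, hu⟩ := h1
  have hgen : ∀ y ∈ P, ∃ n : ℤ, (u : A) ^ (-n) * y ∈ R := by
    intro y hy
    obtain ⟨n, hn⟩ := Subgroup.mem_zpowers_iff.1 (hu ⟨f ⟨y, hy⟩, ⟨⟨y, hy⟩, rfl⟩⟩)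
    refine ⟨n, hPR ⟨P.mul_mem (P.zpow_mem u.2 _) hy, ?_⟩⟩
    have h2 : f u ^ n = f ⟨y, hy⟩ := congrArg Subtype.val hn
    rw [← map_zpow] at h2
    have h3 : qm S ((u ^ n : ↥P) : A) (hPS (u ^ n : ↥P).2) = qm S y (hPS hy) :=
      congrArg Subtype.val h2
    rw [qm_eq_iff] at h3
    have e1 : ((u ^ n : ↥P) : A)⁻¹ * y = (u : A) ^ (-n) * y := by
      rw [Subgroup.coe_zpow, zpow_neg]
    rwa [e1] at h3
  refine ⟨⟨⟨qm R u (hPRn u.2), qm_mem_sec _ u.2⟩, ?_⟩⟩
  rintro ⟨w, hw⟩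
  obtain ⟨y, hy, hy', rfl⟩ := mem_sec.1 hw
  obtain ⟨n, hn⟩ := hgen y hy
  refine Subgroup.mem_zpowers_iff.2 ⟨n, Subtype.ext ?_⟩
  rw [Subgroup.coe_zpow]
  let g : ↥P →* NQ R :=
    { toFun := fun x => qm R x (hPRn x.2)
      map_one' := qm_eq_one_iff.2 R.one_mem
      map_mul' := fun x y => rfl }
  have h2 : (g u) ^ n = g ⟨y, hy⟩ := by
    rw [← map_zpow]
    change qm R ((u ^ n : ↥P) : A) _ = qm R y _
    rw [qm_eq_iff]
    have e1 : ((u ^ n : ↥P) : A)⁻¹ * y = (u : A) ^ (-n) * y := by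
      rw [Subgroup.coe_zpow, zpow_neg]
    rwa [e1]
  exact h2

theorem isCyclic_sec_mono {A : Type u} [Group A] {P E R : Subgroup A} (h : P ≤ E)
    (hc : IsCyclic ↥(sec E R)) : IsCyclic ↥(sec P R) :=
  isCyclic_of_injective (Subgroup.inclusion (sec_mono (R := R) h)) (Subgroup.inclusion_injective _)

theorem isCyclic_sec_of_isCyclic {A : Type u} [Group A] {P R : Subgroup A} (h : IsCyclic P) :
    IsCyclic ↥(sec P R) := by
  have h1 : IsCyclic ↥(P.subgroupOf (Subgroup.normalizer (R : Set A))) := by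
    let f : ↥(P.subgroupOf (Subgroup.normalizer (R : Set A))) →* P :=
      ((Subgroup.normalizer (R : Set A)).subtype.comp
        (P.subgroupOf (Subgroup.normalizer (R : Set A))).subtype).codRestrict P (fun x => x.2)
    apply isCyclic_of_injective f
    intro x y hxy
    apply Subtype.ext
    apply Subtype.ext
    exact congrArg (fun z : P => (z : A)) hxy
  let g := (QuotientGroup.mk' (R.subgroupOf (Subgroup.normalizer (R : Set A)))).subgroupMap
    (P.subgroupOf (Subgroup.normalizer (R : Set A)))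
  exact isCyclic_of_surjective g (MonoidHom.subgroupMap_surjective _ _)

theorem HypExt.hyp3 {A : Type u} [Group A] {C N H : Subgroup A} (h : HypExt p C N H) :
    Hyp3 p C N H H :=
  ⟨h, le_rfl, Subgroup.le_normalizer, fun x hx => ⟨0, by rw [pow_zero, pow_one]; exact hx⟩⟩

/-- The hypothesis on `Q`. -/
def LocU (p : ℕ) {A : Type u} [Group A] (G : Subgroup A) (e : MonoidAlgebra k A)
    (Q : Subgroup A) : Prop :=
  ∃ M N H : Subgroup A, Hyp3 p M N H (G ⊓ Subgroup.normalizer (Q : Set A)) ∧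
    (∀ x ∈ G, x ∈ Subgroup.centralizer (Q : Set A) → ¬ p ∣ orderOf x → x ∈ M) ∧
    ∀ E, IsDefectGroup p ⊤ e E → Q ≤ E → IsCyclic ↥(sec (E ⊓ M) Q)

/-- the weight equality for the chain stabilizers -/
theorem weq_locU [Fact p.Prime] [CharP k p] [IsAlgClosed k]
    (hB : BaseHyp.{u, v} p k (fun _ => True))
    {A : Type u} [Group A] [Fintype A] {G : Subgroup A} {e c : MonoidAlgebra k A}
    {Q K : Subgroup A} (hQp : IsPGroup p Q) (hCK : G ⊓ Subgroup.centralizer (Q : Set A) ≤ K)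
    (hKQ : K ≤ G ⊓ Subgroup.normalizer (Q : Set A)) (hsub : ∀ x, c.coeff x ≠ 0 → e.coeff x ≠ 0)
    (hcen : ∀ x, c.coeff x ≠ 0 → x ∈ Subgroup.centralizer (Q : Set A))
    (hcC : SuppIn (G ⊓ Subgroup.centralizer (Q : Set A)) c) (hcinv : InvBy K c)
    (hcc : c * c = c) (hU : LocU p G e Q) : WEq p K c := by
  classical
  obtain ⟨M, N, H, hMN, hreg, hcyc⟩ := hU
  -- the support
  have hCn : G ⊓ Subgroup.centralizer (Q : Set A) ≤
      Subgroup.normalizer ((Opc p G Q : Subgroup A) : Set A) :=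
    opc_norm (inf_le_left.trans Subgroup.le_normalizer)
      (inf_le_right.trans (Subgroup.centralizer_le_normalizer _))
  have hcO : SuppIn (Opc p G Q) c :=
    supp_in_of_pQuotient (p := p) (opc_le G Q) hCn (fun x hx => opc_pow hx)
      (mem_fixAlg.2 ⟨hcC, hcinv.mono hCK⟩) hcc
  have hOM : Opc p G Q ≤ M ⊓ K := by
    refine le_inf ?_ ((opc_le G Q).trans hCK)
    rw [Opc, Subgroup.closure_le]
    rintro x ⟨h1, h2, h3⟩
    exact hreg x h1 h2 h3
  have hcM : SuppIn (M ⊓ K) c := hcO.mono hOM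
  have hcK : SuppIn K c := hcM.mono inf_le_right
  have hKQ' : K ≤ Subgroup.normalizer (Q : Set A) := hKQ.trans inf_le_right
  have hh := hMN.sub hKQ
  -- modulo `R`
  set R : Subgroup A := Q ⊓ K with hR
  have hRp : IsPGroup p R := hQp.to_le inf_le_left
  have hRK : R ≤ K := inf_le_right
  have hRn : K ≤ Subgroup.normalizer (R : Set A) := by
    intro x hx
    have h1 := hKQ' hx
    rw [← cg_eq_self_iff] at h1 ⊢
    rw [hR, cg_inf, h1, cg_of_mem hx]
  have : Fintype (NQ R) := Fintype.ofFinite _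
  apply weq_infl hRK hRn hRp hcK
  have hh' := hh.sec R
  refine weq_star3 hB hh' (proj_suppIn hcM R) (proj_invBy' hcinv) ?_ ?_
  · rw [← proj_mul hRp (hcinv.mono hRK) (hcinv.mono hRK), hcc]
  · intro P' hP' hPp' hbr
    obtain ⟨P, hRP, hPK, hPp, hbrP, hsec⟩ := hasBr_infl_idem (p := p) hRK hRn hRp hcK hcinv
      (hP'.trans (sec_mono inf_le_right)) hPp' hbr
    refine ⟨?_, trivial⟩
    -- the part in `M`
    set P₁ : Subgroup A := P ⊓ M with hP₁
    have hP₁p : IsPGroup p P₁ := hPp.to_le inf_le_left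
    have hsec₁ : sec P₁ R = P' := by
      apply le_antisymm
      · rw [← hsec]
        exact sec_mono inf_le_left
      · intro w hw
        obtain ⟨m, hm, hm', rfl⟩ := mem_sec.1 (hP' hw)
        rw [← hsec] at hw
        obtain ⟨x, hx, hx', h3⟩ := mem_sec.1 hw
        rw [qm_eq_iff] at h3
        have h4 : m ∈ P := by
          have h5 := P.mul_mem hx (P.inv_mem (hRP h3))
          have e1 : x * (m⁻¹ * x)⁻¹ = m := by group
          rwa [e1] at h5
        exact qm_mem_sec _ (Subgroup.mem_inf.2 ⟨h4, (Subgroup.mem_inf.1 hm).1⟩)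
    have hP₁Q : P₁ ≤ Subgroup.normalizer (Q : Set A) := inf_le_left.trans (hPK.trans hKQ')
    have hsup : IsPGroup p ↥(P₁ ⊔ Q) := hP₁p.to_sup_of_normal_right' hQp hP₁Q
    have hbr' : HasBr (P₁ ⊔ Q) e := by
      obtain ⟨y, hy, hy0⟩ := hbrP
      refine ⟨y, ?_, hsub y hy0⟩
      have h5 : P₁ ⊔ Q ≤ Subgroup.centralizer ({y} : Set A) := by
        apply sup_le
        · intro z hz
          rw [Subgroup.mem_centralizer_iff]
          intro w hw
          rw [Set.mem_singleton_iff] at hw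
          subst hw
          exact ((Subgroup.mem_centralizer_iff.1 hy) z (Subgroup.mem_inf.1 hz).1).symm
        · intro z hz
          rw [Subgroup.mem_centralizer_iff]
          intro w hw
          rw [Set.mem_singleton_iff] at hw
          subst hw
          exact ((Subgroup.mem_centralizer_iff.1 (hcen _ hy0)) z hz).symm
      rw [Subgroup.mem_centralizer_iff]
      intro z hz
      exact ((Subgroup.mem_centralizer_iff.1 (h5 hz)) y rfl).symm
    obtain ⟨E, hE, hle⟩ := exists_defect_ge (p := p) hsup hbr'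
    have h1 := hcyc E hE (le_sup_right.trans hle)
    rw [← hsec₁]
    refine isCyclic_sec_gen (S := Q) ?_ hP₁Q (inf_le_left.trans (hPK.trans hRn))
      (le_inf (le_sup_left.trans hle) inf_le_right) h1
    exact le_inf inf_le_right (inf_le_left.trans (inf_le_left.trans hPK))

/-- **The theorem**, general form. -/
theorem navarro_U [Fact p.Prime] [CharP k p] [IsAlgClosed k]
    (hB : BaseHyp.{u, v} p k (fun _ => True))
    {A : Type u} [Group A] [Fintype A] {G : Subgroup A} (hn : G.Normal)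
    (hp : ∀ x : A, ∃ n : ℕ, x ^ p ^ n ∈ G) {e : MonoidAlgebra k A}
    (he : IsBlock G e) (hinv : InvBy ⊤ e)
    (hfix : ∀ Q : Subgroup A, G ⊔ Q = ⊤ → (∃ E, IsDefectGroup p ⊤ e E ∧ Q ≤ E) → LocU p G e Q) :
    NavarroEq p G ⊤ e := by
  classical
  have : Fintype (Subgroup A) := Fintype.ofFinite _
  have hnG : (⊤ : Subgroup A) ≤ Subgroup.normalizer (G : Set A) := fun x _ =>
    mem_norm_of_normal G x
  have heT : IsBlock (⊤ : Subgroup A) e := isBlock_up' le_top hnG (fun x _ => hp x) he hinv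
  -- the weight equality for the chain stabilizers
  have hW : ∀ σ : Finset (Subgroup A), σ.Nonempty → IsChain (· ≤ ·) (σ : Set (Subgroup A)) →
      (∀ Q ∈ σ, Q ∈ Supp p G ⊤) → WEq p (G ⊓ stab ⊤ σ) (cS (σ.sup id) e) := by
    intro σ hne hσ hσS
    set Q := σ.sup id with hQdef
    have hQσ : Q ∈ σ := sup_mem_chain hne hσ
    have hQS := hσS Q hQσ
    obtain ⟨-, hQp, hGQ⟩ := hQS
    have hHn : ∀ R ∈ σ, stab ⊤ σ ≤ Subgroup.normalizer (R : Set A) := fun R hR x hx =>
      (mem_stab.1 hx).2 R hR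
    have hCS : ⊤ ⊓ Subgroup.centralizer (Q : Set A) ≤ stab ⊤ σ := by
      intro x hx
      rw [mem_stab]
      refine ⟨hx.1, fun R hR => ?_⟩
      have hRQ : R ≤ Q := Finset.le_sup (f := id) hR
      exact Subgroup.centralizer_le_normalizer _ (Subgroup.centralizer_le hRQ hx.2)
    have hctx : Ctx p ⊤ (stab ⊤ σ) Q e :=
      { hHX := le_top
        hS := hQp
        hHS := hHn Q hQσ
        hCS := hCS
        supp := fun _ _ => Subgroup.mem_top _
        inv := hinv }
    have hsub : ∀ x, (cS Q e).coeff x ≠ 0 → e.coeff x ≠ 0 := by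
      intro x hx h0
      apply hx
      rw [coeff_resS]
      split_ifs
      · exact h0
      · rfl
    have hcen : ∀ x, (cS Q e).coeff x ≠ 0 → x ∈ Subgroup.centralizer (Q : Set A) := by
      intro x hx
      by_contra h0
      exact hx (coeff_resS_of_notMem _ h0)
    have hcC : SuppIn (G ⊓ Subgroup.centralizer (Q : Set A)) (cS Q e) := fun x hx =>
      Subgroup.mem_inf.2 ⟨he.suppIn x (hsub x hx), hcen x hx⟩
    have hCK : G ⊓ Subgroup.centralizer (Q : Set A) ≤ G ⊓ stab ⊤ σ :=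
      le_inf inf_le_left ((inf_le_inf_right _ le_top).trans hCS)
    have hcinv : InvBy (G ⊓ stab ⊤ σ) (cS Q e) := hctx.cS_inv.mono inf_le_right
    have hcc : cS Q e * cS Q e = cS Q e := hctx.cS_idem le_top he.idem
    by_cases hbr : HasBr Q e
    · exact weq_locU hB hQp hCK (inf_le_inf_left _ (hHn Q hQσ)) hsub hcen hcC hcinv hcc
        (hfix Q hGQ (exists_defect_ge (p := p) hQp hbr))
    · have h0 : cS Q e = 0 := by
        ext y
        by_contra hy
        exact hbr ⟨y, hcen y hy, hsub y hy⟩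
      rw [h0]
      exact weq_zero (p := p) _
  -- the conclusion
  intro T hT1 hT2
  let S : Finset (Subgroup A) := Finset.univ.filter (fun Q => Q ∈ Supp p G ⊤)
  have hS : ∀ Q, Q ∈ S ↔ Q ∈ Supp p G ⊤ := by intro Q; simp [S]
  have h1 := inv_of_chains le_top hnG (fun x _ => hp x) he.suppIn hinv he.idem hW S hS
  have h2 := sum_DZ_supp le_top hnG (fun x _ => hp x) he hinv T hT1 hT2 S hS
  have hpos : 0 < Nat.card (⊤ : Subgroup A) := Nat.card_pos
  exact Nat.eq_of_mul_eq_mul_left hpos (h1.trans h2.symm)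

/-- `M = N_G(Q)` -/
theorem locU_of_quot {A : Type u} [Group A] [Fact p.Prime] {G : Subgroup A}
    {e : MonoidAlgebra k A} {Q : Subgroup A}
    (h : ∀ E, IsDefectGroup p ⊤ e E → Q ≤ E → IsCyclic ↥(sec E Q)) : LocU p G e Q := by
  refine ⟨G ⊓ Subgroup.normalizer (Q : Set A), G ⊓ Subgroup.normalizer (Q : Set A),
    G ⊓ Subgroup.normalizer (Q : Set A), HypExt.hyp3
    ⟨le_rfl, Subgroup.le_normalizer, ⟨le_rfl, Subgroup.le_normalizer, ⟨1, Subgroup.one_mem _, ?_⟩,
      ?_⟩, fun x hx => ⟨0, ?_⟩⟩, ?_, ?_⟩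
  · rw [Subgroup.zpowers_one_eq_bot, sup_bot_eq]
  · rw [Subgroup.relIndex_self]
    intro h
    exact (Fact.out : p.Prime).one_lt.ne' (Nat.dvd_one.1 h)
  · rw [pow_zero, pow_one]
    exact hx
  · intro x hx hxQ _
    exact Subgroup.mem_inf.2 ⟨hx, Subgroup.centralizer_le_normalizer _ hxQ⟩
  · intro E hE hQE
    exact isCyclic_sec_mono inf_le_left (h E hE hQE)

/-- `M = O^p(C_G(Q))` -/
theorem locU_of_cent [Fact p.Prime] {A : Type u} [Group A] [Finite A] {G : Subgroup A}
    (hn : G.Normal) {e : MonoidAlgebra k A} {Q : Subgroup A} (hQp : IsPGroup p Q)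
    (hGQ : G ⊔ Q = ⊤)
    (h1 : ∀ S ≤ Q, G ⊔ S = ⊤ → IsCyclic ↥((Q ⊓ G) ⊓ Subgroup.centralizer (S : Set A)) ∨
          Q ⊓ Opc p G S = ⊥)
    (h2 : ∀ E, IsDefectGroup p ⊤ e E → Q ≤ E → IsCyclic ↥(E ⊓ Opc p G Q)) : LocU p G e Q := by
  have hnG : (⊤ : Subgroup A) ≤ Subgroup.normalizer (G : Set A) := fun x _ =>
    mem_norm_of_normal G x
  obtain ⟨K₀, hK₀⟩ := aut_main2 (p := p) (G := G) (X := ⊤) (Q := Q)
    (K := G ⊓ Subgroup.normalizer (Q : Set A)) le_top hnG ⟨le_top, hQp, hGQ⟩ inf_le_left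
    inf_le_right (inf_le_inf_left _ (Subgroup.centralizer_le_normalizer _)) h1
  exact ⟨_, K₀, _, hK₀.hyp3, fun x hx hxQ hxp => mem_opc hx hxQ hxp,
    fun E hE hQE => isCyclic_sec_of_isCyclic (h2 E hE hQE)⟩

end Pool.Agent.Lib.P0c8ca5.Cy
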