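import Mathlib
import Pool.Agent.Lib.P0c8ca5C.FinalG

/-!
# Navarro's equality for the intermediate groups

The theorems `navarro_U` and `locU_of_cent` for a subgroup `H ≥ G` of the ambient group.
-/

namespace Pool.Agent.Lib.P0c8ca5.Cy

open MonoidAlgebra

universe u v

variable {p : ℕ} {k : Type v} [Field k]

/-- `navarro_U` for `(G, H, e)`; the defect groups are those of the ambient group. -/
theorem navarro_U_rel [Fact p.Prime] [CharP k p] [IsAlgClosed k]
    (hB : BaseHyp.{u, v} p k (fun _ => True))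
    {A : Type u} [Group A] [Fintype A] {G H : Subgroup A} (hn : G.Normal) (hGH : G ≤ H)
    (hp : ∀ x : A, ∃ n : ℕ, x ^ p ^ n ∈ G) {e : MonoidAlgebra k A}
    (he : IsBlock G e) (hinv : InvBy ⊤ e)
    (hfix : ∀ Q : Subgroup A, Q ≤ H → G ⊔ Q = H →
      (∃ E, IsDefectGroup p ⊤ e E ∧ Q ≤ E) → LocU p G e Q) :
    NavarroEq p G H e := by
  classical
  have : Fintype (Subgroup A) := Fintype.ofFinite _
  have hnG : H ≤ Subgroup.normalizer (G : Set A) := fun x _ => mem_norm_of_normal G x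
  have hinvH : InvBy H e := hinv.mono le_top
  have hpH : ∀ x ∈ H, ∃ n : ℕ, x ^ p ^ n ∈ G := fun x _ => hp x
  have heH : IsBlock H e := isBlock_up' hGH hnG hpH he hinvH
  -- the weight equality for the chain stabilizers
  have hW : ∀ σ : Finset (Subgroup A), σ.Nonempty → IsChain (· ≤ ·) (σ : Set (Subgroup A)) →
      (∀ Q ∈ σ, Q ∈ Supp p G H) → WEq p (G ⊓ stab H σ) (cS (σ.sup id) e) := by
    intro σ hne hσ hσS
    set Q := σ.sup id with hQdef
    have hQσ : Q ∈ σ := sup_mem_chain hne hσ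
    have hQS := hσS Q hQσ
    obtain ⟨hQH, hQp, hGQ⟩ := hQS
    have hHn : ∀ R ∈ σ, stab H σ ≤ Subgroup.normalizer (R : Set A) := fun R hR x hx =>
      (mem_stab.1 hx).2 R hR
    have hCS : H ⊓ Subgroup.centralizer (Q : Set A) ≤ stab H σ := by
      intro x hx
      rw [mem_stab]
      refine ⟨hx.1, fun R hR => ?_⟩
      have hRQ : R ≤ Q := Finset.le_sup (f := id) hR
      exact Subgroup.centralizer_le_normalizer _ (Subgroup.centralizer_le hRQ hx.2)
    have hctx : Ctx p H (stab H σ) Q e :=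
      { hHX := fun x hx => (mem_stab.1 hx).1
        hS := hQp
        hHS := hHn Q hQσ
        hCS := hCS
        supp := heH.suppIn
        inv := hinvH }
    have hsub : ∀ x, (cS Q e).coeff x ≠ 0 → e.coeff x ≠ 0 := by
      intro x hx h0
      apply hx
      rw [coeff_resS]
      split_ifs
      · exact h0
      · rfl
    have hcen : ∀ x, (cS Q e).coeff x ≠ 0 → x ∈ Subgroup.centralizer (Q : Set A) := by
      intro x hx
      by_contra h0
      exact hx (coeff_resS_of_notMem _ h0)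
    have hcC : SuppIn (G ⊓ Subgroup.centralizer (Q : Set A)) (cS Q e) := fun x hx =>
      Subgroup.mem_inf.2 ⟨he.suppIn x (hsub x hx), hcen x hx⟩
    have hCK : G ⊓ Subgroup.centralizer (Q : Set A) ≤ G ⊓ stab H σ :=
      le_inf inf_le_left ((inf_le_inf_right _ hGH).trans hCS)
    have hcinv : InvBy (G ⊓ stab H σ) (cS Q e) := hctx.cS_inv.mono inf_le_right
    have hcc : cS Q e * cS Q e = cS Q e := hctx.cS_idem hQH he.idem
    by_cases hbr : HasBr Q e
    · exact weq_locU hB hQp hCK (inf_le_inf_left _ (hHn Q hQσ)) hsub hcen hcC hcinv hcc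
        (hfix Q hQH hGQ (exists_defect_ge (p := p) hQp hbr))
    · have h0 : cS Q e = 0 := by
        ext y
        by_contra hy
        exact hbr ⟨y, hcen y hy, hsub y hy⟩
      rw [h0]
      exact weq_zero (p := p) _
  -- the conclusion
  intro T hT1 hT2
  let S : Finset (Subgroup A) := Finset.univ.filter (fun Q => Q ∈ Supp p G H)
  have hS : ∀ Q, Q ∈ S ↔ Q ∈ Supp p G H := by intro Q; simp [S]
  have h1 := inv_of_chains hGH hnG hpH he.suppIn hinvH he.idem hW S hS
  have h2 := sum_DZ_supp hGH hnG hpH he hinvH T hT1 hT2 S hS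
  have hpos : 0 < Nat.card H := Nat.card_pos
  exact Nat.eq_of_mul_eq_mul_left hpos (h1.trans h2.symm)

/-- `M = O^p(C_G(Q))`, relative version -/
theorem locU_of_cent_rel [Fact p.Prime] {A : Type u} [Group A] [Finite A] {G H : Subgroup A}
    (hn : G.Normal) (hGH : G ≤ H) {e : MonoidAlgebra k A} {Q : Subgroup A} (hQp : IsPGroup p Q)
    (hQH : Q ≤ H) (hGQ : G ⊔ Q = H)
    (h1 : ∀ S ≤ Q, G ⊔ S = H → IsCyclic ↥((Q ⊓ G) ⊓ Subgroup.centralizer (S : Set A)) ∨
          Q ⊓ Opc p G S = ⊥)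
    (h2 : ∀ E, IsDefectGroup p ⊤ e E → Q ≤ E → IsCyclic ↥(E ⊓ Opc p G Q)) : LocU p G e Q := by
  have hnG : H ≤ Subgroup.normalizer (G : Set A) := fun x _ =>
    mem_norm_of_normal G x
  obtain ⟨K₀, hK₀⟩ := aut_main2 (p := p) (G := G) (X := H) (Q := Q)
    (K := G ⊓ Subgroup.normalizer (Q : Set A)) hGH hnG ⟨hQH, hQp, hGQ⟩ inf_le_left
    inf_le_right (inf_le_inf_left _ (Subgroup.centralizer_le_normalizer _)) h1
  exact ⟨_, K₀, _, hK₀.hyp3, fun x hx hxQ hxp => mem_opc hx hxQ hxp,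
    fun E hE hQE => isCyclic_sec_of_isCyclic (h2 E hE hQE)⟩

end Pool.Agent.Lib.P0c8ca5.Cy
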