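import Mathlib
import Pool.Agent.Lib.P0c8ca5C.EqA

/-!
# Local conditions for Navarro's equality for `(G, H, e)`, all `H > G`
-/

namespace Pool.Agent.Lib.P0c8ca5.Cy

open MonoidAlgebra

universe u v

variable {p : ℕ}

open GensAux in
/-- the subgroups of `E` are generated by two elements and `Q` is not contained in `G` -/
theorem isCyclic_sec_of_rank_two [Fact p.Prime] {A : Type*} [Group A] [Finite A]
    {G : Subgroup A} [hG : G.Normal] {E : Subgroup A} (hE : IsPGroup p E)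
    (hr : ∀ N : Subgroup A, N ≤ E → Group.rank N ≤ 2) {Q : Subgroup A} (hQE : Q ≤ E)
    (hQG : ¬ Q ≤ G) :
    IsCyclic ↥(sec (E ⊓ (G ⊓ Subgroup.normalizer (Q : Set A))) Q) := by
  classical
  have hp : p.Prime := Fact.out
  set M : Subgroup A := E ⊓ (G ⊓ Subgroup.normalizer (Q : Set A)) with hM
  have hMn : M ≤ Subgroup.normalizer (Q : Set A) := inf_le_right.trans inf_le_right
  have hMG : M ≤ G := inf_le_right.trans inf_le_left
  set P : Subgroup A := Q ⊔ M with hP
  have hPE : P ≤ E := sup_le hQE inf_le_left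
  have hPn : P ≤ Subgroup.normalizer (Q : Set A) := sup_le Subgroup.le_normalizer hMn
  have hQP : Q ≤ P := le_sup_left
  have hmem : ∀ x : P, qm Q x (hPn x.2) ∈ sec M Q := by
    rintro ⟨x, hx⟩
    obtain ⟨q, hq, m, hm, rfl⟩ := (mem_sup_norm hMn).1 hx
    have h1 : qm Q (q * m) (hPn hx) = qm Q m (hMn hm) := by
      rw [qm_eq_iff]
      have h2 := (Subgroup.mem_normalizer_iff.1 (hMn (M.inv_mem hm)) q⁻¹).1 (Q.inv_mem hq)
      have e1 : m⁻¹ * q⁻¹ * m⁻¹⁻¹ = (q * m)⁻¹ * m := by group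
      rwa [e1] at h2
    rw [h1]
    exact qm_mem_sec _ hm
  let π : P →* ↥(sec M Q) :=
    { toFun := fun x => ⟨qm Q x (hPn x.2), hmem x⟩
      map_one' := Subtype.ext (qm_eq_one_iff.2 Q.one_mem)
      map_mul' := fun x y => Subtype.ext rfl }
  have hπ : Function.Surjective π := by
    rintro ⟨w, hw⟩
    obtain ⟨x, hx, hx', rfl⟩ := mem_sec.1 hw
    exact ⟨⟨x, (le_sup_right : M ≤ P) hx⟩, rfl⟩
  have hPp : IsPGroup p P := hE.to_le hPE
  have hL : G.subgroupOf P ≠ ⊤ := by
    intro h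
    apply hQG
    intro q hq
    have h1 : (⟨q, hQP hq⟩ : P) ∈ G.subgroupOf P := by rw [h]; exact Subgroup.mem_top _
    exact h1
  obtain ⟨χ, hχ1, hχ2⟩ := exists_char hPp hL
  obtain ⟨q, hq, hχq⟩ : ∃ q, ∃ hq : q ∈ Q, χ ⟨q, hQP hq⟩ ≠ 1 := by
    by_contra hcon
    push Not at hcon
    apply hχ2
    apply MonoidHom.ext
    rintro ⟨x, hx⟩
    obtain ⟨q, hq, m, hm, rfl⟩ := (mem_sup_norm hMn).1 hx
    have h1 : (⟨q * m, hx⟩ : P) = ⟨q, hQP hq⟩ * ⟨m, (le_sup_right : M ≤ P) hm⟩ := rfl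
    rw [h1, map_mul, hcon q hq, one_mul]
    exact hχ1 _ (hMG hm)
  have hord : orderOf (χ ⟨q, hQP hq⟩) = p := by
    have h4 : orderOf (χ ⟨q, hQP hq⟩) ∣ p := by
      have h5 := orderOf_dvd_natCard (χ ⟨q, hQP hq⟩)
      rwa [card_mul_zmod] at h5
    rcases (Nat.dvd_prime hp).1 h4 with h5 | h5
    · exact absurd (orderOf_eq_one_iff.1 h5) hχq
    · exact h5
  have : NeZero p := ⟨hp.ne_zero⟩
  let F : ZMod p × (↥(sec M Q) →* Multiplicative (ZMod p)) →
      (P →* Multiplicative (ZMod p)) := fun ab => (χ ^ (ab.1).val) * (ab.2.comp π)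
  have hinj : Function.Injective F := by
    rintro ⟨a, b⟩ ⟨a', b'⟩ h
    have h1 : ∀ x : P, χ x ^ a.val * b (π x) = χ x ^ a'.val * b' (π x) := fun x =>
      DFunLike.congr_fun h x
    have h2 : a = a' := by
      have h3 := h1 ⟨q, hQP hq⟩
      have h4 : π ⟨q, hQP hq⟩ = 1 := Subtype.ext (qm_eq_one_iff.2 hq)
      rw [h4, map_one, map_one, mul_one, mul_one] at h3
      have h5 := pow_injOn_Iio_orderOf (x := χ ⟨q, hQP hq⟩) (by rw [hord]; exact ZMod.val_lt _)
        (by rw [hord]; exact ZMod.val_lt _) h3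
      exact ZMod.val_injective p h5
    have h3 : b = b' := by
      apply MonoidHom.ext
      intro y
      obtain ⟨x, rfl⟩ := hπ y
      have h4 := h1 x
      rw [h2] at h4
      exact mul_left_cancel h4
    rw [h2, h3]
  have hfin : Finite (NQ Q) := inferInstanceAs (Finite (_ ⧸ _))
  have hsp : IsPGroup p ↥(sec M Q) := hPp.of_surjective π hπ
  have h1 := Nat.card_le_card_of_injective F hinj
  rw [Nat.card_prod, Nat.card_zmod] at h1
  have h3 := card_hom_ge (p := p) hsp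
  have h4 := card_hom_le (p := p) (P := P)
  have h5 : p ^ Group.rank P ≤ p ^ 2 := Nat.pow_le_pow_right hp.pos (hr P hPE)
  have h6 : p ^ (1 + Group.rank ↥(sec M Q)) ≤ p ^ 2 := by
    rw [pow_add, pow_one]
    exact (Nat.mul_le_mul le_rfl h3).trans (h1.trans (h4.trans h5))
  have h7 := (Nat.pow_le_pow_iff_right hp.one_lt).1 h6
  exact isCyclic_of_rank (by omega)

variable {k : Type v} [Field k]

/-- `M = N_G(Q)` -/
theorem locU_of_quot_rel {A : Type u} [Group A] [Fact p.Prime] {G : Subgroup A}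
    {e : MonoidAlgebra k A} {Q : Subgroup A}
    (h : ∀ E, IsDefectGroup p ⊤ e E → Q ≤ E →
      IsCyclic ↥(sec (E ⊓ (G ⊓ Subgroup.normalizer (Q : Set A))) Q)) : LocU p G e Q := by
  refine ⟨G ⊓ Subgroup.normalizer (Q : Set A), G ⊓ Subgroup.normalizer (Q : Set A),
    G ⊓ Subgroup.normalizer (Q : Set A), HypExt.hyp3
    ⟨le_rfl, Subgroup.le_normalizer, ⟨le_rfl, Subgroup.le_normalizer, ⟨1, Subgroup.one_mem _, ?_⟩,
      ?_⟩, fun x hx => ⟨0, ?_⟩⟩, ?_, h⟩
  · rw [Subgroup.zpowers_one_eq_bot, sup_bot_eq]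
  · rw [Subgroup.relIndex_self]
    intro h
    exact (Fact.out : p.Prime).one_lt.ne' (Nat.dvd_one.1 h)
  · rw [pow_zero, pow_one]
    exact hx
  · intro x hx hxQ _
    exact Subgroup.mem_inf.2 ⟨hx, Subgroup.centralizer_le_normalizer _ hxQ⟩

theorem cent_conj {A : Type u} [Group A] (x : A) (Q : Subgroup A) :
    Subgroup.centralizer (Q : Set A)
        = cg x (Subgroup.centralizer ((cg x⁻¹ Q : Subgroup A) : Set A)) := by
  ext y
  rw [mem_cg, Subgroup.mem_centralizer_iff, Subgroup.mem_centralizer_iff]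
  constructor
  · intro h q hq
    have h7 : x * q * x⁻¹ ∈ Q := by
      rw [SetLike.mem_coe, mem_cg, inv_inv] at hq
      exact hq
    have h8 := h _ h7
    calc q * (x⁻¹ * y * x) = x⁻¹ * ((x * q * x⁻¹) * y) * x := by group
      _ = x⁻¹ * (y * (x * q * x⁻¹)) * x := by rw [h8]
      _ = x⁻¹ * y * x * q := by group
  · intro h q hq
    have h7 : x⁻¹ * q * x ∈ ((cg x⁻¹ Q : Subgroup A) : Set A) := by
      rw [SetLike.mem_coe, mem_cg, inv_inv]
      have e1 : x * (x⁻¹ * q * x) * x⁻¹ = q := by group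
      rw [e1]; exact hq
    have h8 := h _ h7
    calc q * y = x * ((x⁻¹ * q * x) * (x⁻¹ * y * x)) * x⁻¹ := by group
      _ = x * (x⁻¹ * y * x * (x⁻¹ * q * x)) * x⁻¹ := by rw [h8]
      _ = y * q := by group

theorem opc_conj_le {A : Type u} [Group A] {G : Subgroup A} (hn : G.Normal) (x : A)
    (Q : Subgroup A) : Opc p G Q ≤ cg x (Opc p G (cg x⁻¹ Q)) := by
  conv_lhs => rw [Opc]
  rw [Subgroup.closure_le]
  rintro y ⟨h6, h7, h8⟩
  rw [SetLike.mem_coe, mem_cg]
  apply mem_opc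
  · have := hn.conj_mem y h6 x⁻¹
    rwa [inv_inv] at this
  · rw [cent_conj x Q, mem_cg] at h7
    exact h7
  · have h9 : orderOf (x⁻¹ * y * x) = orderOf y := by
      have h10 := orderOf_injective (MulAut.conj x⁻¹).toMonoidHom
        (MulAut.conj x⁻¹).injective y
      have e1 : (MulAut.conj x⁻¹).toMonoidHom y = x⁻¹ * y * x := by
        change x⁻¹ * y * x⁻¹⁻¹ = _
        rw [inv_inv]
      rwa [e1] at h10
    rw [Preg, h9]
    exact h8

/-- an element of order `p` modulo `G` in a p-group that is not contained in `G` -/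
theorem exists_mem_pow [Fact p.Prime] {A : Type u} [Group A] {G S : Subgroup A}
    (hp : ∀ x : A, ∃ n : ℕ, x ^ p ^ n ∈ G) (hS : ¬ S ≤ G) :
    ∃ x ∈ S, x ∉ G ∧ x ^ p ∈ G := by
  classical
  obtain ⟨y, hy, hyG⟩ := SetLike.not_le_iff_exists.1 hS
  have h1 := hp y
  have h2 := Nat.find_spec h1
  have h3 : Nat.find h1 ≠ 0 := by
    intro h0
    rw [h0, pow_zero, pow_one] at h2
    exact hyG h2
  obtain ⟨m, hm⟩ := Nat.exists_eq_succ_of_ne_zero h3
  refine ⟨y ^ p ^ m, S.pow_mem hy _, fun h4 => ?_, ?_⟩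
  · exact Nat.find_min h1 (by omega : m < Nat.find h1) h4
  · rw [← pow_mul, ← pow_succ]
    rwa [hm] at h2

/-- **Navarro's equality for all `H > G`.** -/
theorem navarro_gt [Fact p.Prime] [CharP k p] [IsAlgClosed k]
    (hB : BaseHyp.{u, v} p k (fun _ => True))
    {A : Type u} [Group A] [Fintype A] {G : Subgroup A} (hn : G.Normal)
    (hp : ∀ x : A, ∃ n : ℕ, x ^ p ^ n ∈ G) {e : MonoidAlgebra k A}
    (he : IsBlock G e) (hinv : InvBy ⊤ e) {E : Subgroup A} (hE : IsDefectGroup p ⊤ e E)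
    (hloc : (∀ Q ≤ E, ¬ Q ≤ G →
      IsCyclic ↥((E ⊓ G) ⊓ Subgroup.centralizer (Q : Set A)) ∨
        ¬ p ∣ Nat.card ↥(Opc p G Q)) ∨
      ∀ N : Subgroup A, N ≤ E → Group.rank N ≤ 2)
    {H : Subgroup A} (hGH : G < H) : NavarroEq p G H e := by
  classical
  have hnG : (⊤ : Subgroup A) ≤ Subgroup.normalizer (G : Set A) := fun x _ =>
    mem_norm_of_normal G x
  have heT : IsBlock (⊤ : Subgroup A) e := isBlock_up' le_top hnG (fun x _ => hp x) he hinv
  have hQG : ∀ Q : Subgroup A, G ⊔ Q = H → ¬ Q ≤ G := by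
    intro Q h1 h2
    rw [sup_eq_left.2 h2] at h1
    exact hGH.ne h1
  apply navarro_U_rel hB hn hGH.le hp he hinv
  rcases hloc with hloc | hloc
  · -- subgroups of E that are not contained in G
    have h2 : ∀ (E' : Subgroup A), IsDefectGroup p ⊤ e E' → ∀ S ≤ E', ¬ S ≤ G →
        IsCyclic ↥((E' ⊓ G) ⊓ Subgroup.centralizer (S : Set A)) ∨
          ¬ p ∣ Nat.card ↥(Opc p G S) := by
      intro E' hE' S hS hSG
      obtain ⟨x, rfl⟩ := Rk.defect_conj heT hE hE'
      have h3 : cg x⁻¹ S ≤ E := by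
        have := cg_le_cg (g := x⁻¹) hS
        rwa [cg_cg, inv_mul_cancel, cg_one] at this
      have h4 : ¬ cg x⁻¹ S ≤ G := by
        intro h5
        apply hSG
        have := cg_le_cg (g := x) h5
        rwa [cg_cg, mul_inv_cancel, cg_one, cg_normal] at this
      rcases hloc _ h3 h4 with h5 | h5
      · left
        have h6 : (cg x E ⊓ G) ⊓ Subgroup.centralizer (S : Set A)
            = cg x ((E ⊓ G) ⊓ Subgroup.centralizer ((cg x⁻¹ S : Subgroup A) : Set A)) := by
          rw [cg_inf, cg_inf, cg_normal x G, ← cent_conj]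
        rw [h6]
        have h9 := (Subgroup.equivMapOfInjective ((E ⊓ G) ⊓
          Subgroup.centralizer ((cg x⁻¹ S : Subgroup A) : Set A)) (MulAut.conj x).toMonoidHom
          (MulAut.conj x).injective)
        exact isCyclic_of_surjective h9 h9.surjective
      · right
        intro h6
        apply h5
        have h7 := (h6.trans (Subgroup.card_dvd_of_le (opc_conj_le hn x S)))
        rwa [card_cg] at h7
    have hmeet : ∀ P L : Subgroup A, IsPGroup p P → ¬ p ∣ Nat.card L → P ⊓ L = ⊥ := by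
      intro P L hP hL
      have h1 : IsPGroup p ↥(P ⊓ L) := hP.to_le inf_le_left
      by_contra h
      have : Nontrivial ↥(P ⊓ L) := (Subgroup.nontrivial_iff_ne_bot _).2 h
      obtain ⟨n, hn0, hn'⟩ := h1.nontrivial_iff_card.mp this
      apply hL
      have h2 : p ∣ Nat.card ↥(P ⊓ L) := hn'.symm ▸ dvd_pow_self _ (ne_of_gt hn0)
      exact h2.trans (Subgroup.card_dvd_of_le inf_le_right)
    rintro Q hQH hGQ ⟨E₀, hE₀, hQE₀⟩
    refine locU_of_cent_rel hn hGH.le (hE₀.isPGroup.to_le hQE₀) hQH hGQ ?_ ?_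
    · intro S hSQ hGS
      rcases h2 E₀ hE₀ S (hSQ.trans hQE₀) (hQG S hGS) with h | h
      · left
        have h3 : (Q ⊓ G) ⊓ Subgroup.centralizer (S : Set A)
            ≤ (E₀ ⊓ G) ⊓ Subgroup.centralizer (S : Set A) :=
          inf_le_inf_right _ (inf_le_inf_right _ hQE₀)
        exact isCyclic_of_injective (Subgroup.inclusion h3) (Subgroup.inclusion_injective h3)
      · right
        exact hmeet _ _ (hE₀.isPGroup.to_le hQE₀) h
    · intro E' hE' hQE
      rcases h2 E' hE' Q hQE (hQG Q hGQ) with h | h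
      · have h3 : E' ⊓ Opc p G Q ≤ (E' ⊓ G) ⊓ Subgroup.centralizer (Q : Set A) :=
          le_inf (le_inf inf_le_left (inf_le_right.trans ((opc_le G Q).trans inf_le_left)))
            (inf_le_right.trans ((opc_le G Q).trans inf_le_right))
        exact isCyclic_of_injective (Subgroup.inclusion h3) (Subgroup.inclusion_injective h3)
      · rw [hmeet _ _ hE'.isPGroup h]
        exact isCyclic_of_subsingleton
  · rintro Q - hGQ -
    apply locU_of_quot_rel
    intro E' hE' hQE'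
    obtain ⟨x, rfl⟩ := Rk.defect_conj heT hE hE'
    apply isCyclic_sec_of_rank_two hE'.isPGroup ?_ hQE' (hQG Q hGQ)
    intro N hN
    have h1 : cg x⁻¹ N ≤ E := by
      have := cg_le_cg (g := x⁻¹) hN
      rwa [cg_cg, inv_mul_cancel, cg_one] at this
    have h2 : Group.rank N = Group.rank ↥(cg x⁻¹ N) :=
      Group.rank_congr (Subgroup.equivMapOfInjective N (MulAut.conj x⁻¹).toMonoidHom
        (MulAut.conj x⁻¹).injective)
    rw [h2]
    exact hloc _ h1

end Pool.Agent.Lib.P0c8ca5.Cy
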