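import Mathlib
import Pool.Agent.Lib.P0c8ca5.WtEquiv

/-!
# Two finite sets with action and with the same marks at all subgroups `> G`
-/

namespace Pool.Agent.Lib.P0c8ca5.Cy

open MonoidAlgebra

section count

variable {A : Type*} [Group A] [Finite A] {X Y : Type*} [Fintype X] [Fintype Y]

open Classical in
theorem card_ge_eq_sum [Fintype (Subgroup A)] (s : X → Subgroup A) (S : Subgroup A) :
    Nat.card {x : X // S ≤ s x}
      = ∑ S' ∈ Finset.univ.filter (fun S' => S ≤ S'), Nat.card {x : X // s x = S'} := by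
  have h1 : ∀ S' : Subgroup A, Nat.card {x : X // s x = S'}
      = (Finset.univ.filter (fun x => s x = S')).card := fun S' => by
    rw [Nat.card_eq_fintype_card, Fintype.card_subtype]
  have h2 : Nat.card {x : X // S ≤ s x} = (Finset.univ.filter (fun x => S ≤ s x)).card := by
    rw [Nat.card_eq_fintype_card, Fintype.card_subtype]
  rw [h2, Finset.card_eq_sum_card_fiberwise (f := s)
    (t := Finset.univ.filter (fun S' => S ≤ S'))]
  · refine Finset.sum_congr rfl (fun S' hS' => ?_)
    rw [h1]
    congr 1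
    ext x
    simp only [Finset.mem_filter, Finset.mem_univ, true_and]
    constructor
    · rintro ⟨_, h⟩; exact h
    · rintro rfl
      exact ⟨(Finset.mem_filter.1 hS').2, rfl⟩
  · intro x hx
    simpa using hx

theorem card_stab_eq (s : X → Subgroup A) (t : Y → Subgroup A) (G : Subgroup A)
    (h : ∀ H, G < H → Nat.card {x : X // H ≤ s x} = Nat.card {y : Y // H ≤ t y}) :
    ∀ (n : ℕ) (S : Subgroup A), Nat.card A - Nat.card S = n → G < S →
      Nat.card {x : X // s x = S} = Nat.card {y : Y // t y = S} := by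
  classical
  have : Fintype (Subgroup A) := Fintype.ofFinite _
  intro n
  induction n using Nat.strong_induction_on with
  | _ n ih =>
    intro S hn hGS
    have h1 := h S hGS
    rw [card_ge_eq_sum, card_ge_eq_sum] at h1
    have hmem : S ∈ Finset.univ.filter (fun S' : Subgroup A => S ≤ S') := by simp
    rw [← Finset.add_sum_erase _ _ hmem, ← Finset.add_sum_erase _ _ hmem] at h1
    have h2 : ∑ S' ∈ (Finset.univ.filter (fun S' : Subgroup A => S ≤ S')).erase S,
          Nat.card {x : X // s x = S'}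
        = ∑ S' ∈ (Finset.univ.filter (fun S' : Subgroup A => S ≤ S')).erase S,
          Nat.card {y : Y // t y = S'} := by
      refine Finset.sum_congr rfl (fun S' hS' => ?_)
      obtain ⟨h3, h4⟩ := Finset.mem_erase.1 hS'
      have h5 : S ≤ S' := (Finset.mem_filter.1 h4).2
      have h6 : S < S' := lt_of_le_of_ne h5 (Ne.symm h3)
      have h7 : Nat.card S < Nat.card S' := by
        rcases lt_or_eq_of_le (Subgroup.card_le_of_le h5) with h8 | h8
        · exact h8
        · exact absurd (Subgroup.eq_of_le_of_card_ge h5 h8.ge) (Ne.symm h3)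
      have h8 : Nat.card S' ≤ Nat.card A := Subgroup.card_le_card_group S'
      exact ih (Nat.card A - Nat.card S') (by omega) S' rfl (hGS.trans h6)
    omega

open Classical in
theorem sum_fib [Fintype (Subgroup A)] (F : Subgroup A → ℕ) (r : X → Subgroup A) :
    ∑ z, F (r z) = ∑ S : Subgroup A, Nat.card {z : X // r z = S} * F S := by
  rw [← Finset.sum_fiberwise (s := Finset.univ) (g := r)]
  refine Finset.sum_congr rfl (fun S _ => ?_)
  rw [Finset.sum_congr rfl (g := fun _ => F S) (fun z hz => by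
    rw [(Finset.mem_filter.1 hz).2])]
  rw [Finset.sum_const, smul_eq_mul, Nat.card_eq_fintype_card, Fintype.card_subtype]

theorem card_stab_zero {G S : Subgroup A} (h1 : ¬ G < S) (h2 : S ≠ G) (r : X → Subgroup A)
    (hr : ∀ z, G ≤ r z) : Nat.card {z : X // r z = S} = 0 := by
  have : IsEmpty {z : X // r z = S} := ⟨fun z => h1 (lt_of_le_of_ne (by
    have := hr z.1
    rwa [z.2] at this) (Ne.symm h2))⟩
  exact Nat.card_of_isEmpty

theorem cnt_self_split {G H : Subgroup A} (hGH : G ≤ H) (r : X → Subgroup A)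
    (hr : ∀ z, G ≤ r z) :
    cnt r H H = ∑ z, (Nat.card ↥(H ⊓ r z) - Nat.card G) + Nat.card G * Nat.card X := by
  rw [cnt_def, Nat.card_eq_fintype_card (α := X), mul_comm (Nat.card G)]
  have e1 : Fintype.card X * Nat.card G = ∑ _z : X, Nat.card G := by
    rw [Finset.sum_const, smul_eq_mul, Finset.card_univ]
  rw [e1, ← Finset.sum_add_distrib]
  refine Finset.sum_congr rfl (fun z _ => ?_)
  rw [if_pos (sup_eq_left.2 inf_le_left)]
  have h2 : Nat.card G ≤ Nat.card ↥(H ⊓ r z) := Subgroup.card_le_of_le (le_inf hGH (hr z))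
  omega

/-- sums of functions of the stabilizers -/
theorem sum_stab_eq (s : X → Subgroup A) (t : Y → Subgroup A) (G : Subgroup A)
    (hs : ∀ x, G ≤ s x) (ht : ∀ y, G ≤ t y)
    (h : ∀ H, G < H → Nat.card {x : X // H ≤ s x} = Nat.card {y : Y // H ≤ t y})
    (F : Subgroup A → ℕ) (hF : F G = 0) : ∑ x, F (s x) = ∑ y, F (t y) := by
  classical
  have : Fintype (Subgroup A) := Fintype.ofFinite _
  rw [sum_fib F s, sum_fib F t]
  refine Finset.sum_congr rfl (fun S _ => ?_)
  by_cases h1 : G < S
  · rw [card_stab_eq s t G h _ S rfl h1]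
  · by_cases h2 : S = G
    · rw [h2, hF, mul_zero, mul_zero]
    · rw [card_stab_zero h1 h2 s hs, card_stab_zero h1 h2 t ht]

/-- the counts for `N < H` -/
theorem cnt_lt_eq (s : X → Subgroup A) (t : Y → Subgroup A) {G N H : Subgroup A}
    (hs : ∀ x, G ≤ s x) (ht : ∀ y, G ≤ t y)
    (h : ∀ H, G < H → Nat.card {x : X // H ≤ s x} = Nat.card {y : Y // H ≤ t y})
    (hGN : G ≤ N) (hNH : N < H) : cnt s N H = cnt t N H := by
  classical
  rw [cnt_def, cnt_def]
  refine sum_stab_eq s t G hs ht h (fun S => if N ⊔ (H ⊓ S) = H then Nat.card ↥(H ⊓ S) else 0) ?_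
  rw [if_neg]
  have h1 : H ⊓ G = G := inf_eq_right.2 (hGN.trans hNH.le)
  rw [h1, sup_eq_left.2 hGN]
  exact hNH.ne

/-- the counts for `N = H` -/
theorem cnt_self_add (s : X → Subgroup A) (t : Y → Subgroup A) {G H : Subgroup A}
    (hs : ∀ x, G ≤ s x) (ht : ∀ y, G ≤ t y)
    (h : ∀ H, G < H → Nat.card {x : X // H ≤ s x} = Nat.card {y : Y // H ≤ t y})
    (hGH : G ≤ H) :
    cnt s H H + Nat.card G * Nat.card Y = cnt t H H + Nat.card G * Nat.card X := by
  classical
  have h1 := sum_stab_eq s t G hs ht h (fun S => Nat.card ↥(H ⊓ S) - Nat.card G) (by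
    rw [inf_eq_right.2 hGH, Nat.sub_self])
  rw [cnt_self_split hGH s hs, cnt_self_split hGH t ht, h1]
  ring

end count

end Pool.Agent.Lib.P0c8ca5.Cy
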