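import Mathlib
import Pool.Agent.Lib.P0c8ca5C.EqB

/-!
# Navarro's equality when it holds for `(G, H, e)` for all `H > G`

The `A`-sets of the irreducible representations in `e` and of the `G`-classes of the weights of `e`
differ only by free orbits of `A / G`.
-/

namespace Pool.Agent.Lib.P0c8ca5.Cy

open MonoidAlgebra

variable {p : ℕ} {k : Type*} [Field k] {A : Type*} [Group A]
variable [Fintype A] [Fact p.Prime] [CharP k p] [IsAlgClosed k] {G : Subgroup A}
  [hG : G.Normal] {e : MonoidAlgebra k A}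

theorem marks_of_navarro (hp : ∀ x : A, ∃ n : ℕ, x ^ p ^ n ∈ G) (he : IsBlock G e)
    (hinv : InvBy ⊤ e) [Fintype (IrX G e)] [Fintype (WtC p G e)] {H : Subgroup A} (hGH : G ≤ H) :
    NavarroEq p G H e ↔ Nat.card {x : IrX G e // H ≤ stX (G := G) hinv x}
      = Nat.card {y : WtC p G e // H ≤ stZ (p := p) he hinv y} := by
  rw [navarroEq_iff_stZ (le_refl G) hGH (fun x _ => mem_norm_of_normal G x) hp he hinv,
    cnt_fixed hGH (fun x => G_le_stX hinv x), cnt_fixed hGH (fun x => G_le_stZ he hinv x)]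
  exact ⟨fun h => Nat.eq_of_mul_eq_mul_left Nat.card_pos h, fun h => by rw [h]⟩

/-- Navarro's equality for `(N, H, e)` with `N < H` -/
theorem navarro_lt (hp : ∀ x : A, ∃ n : ℕ, x ^ p ^ n ∈ G) (he : IsBlock G e)
    (hinv : InvBy ⊤ e) (h : ∀ H, G < H → NavarroEq p G H e) {N H : Subgroup A} (hGN : G ≤ N)
    (hNH : N < H) (hn : H ≤ Subgroup.normalizer (N : Set A)) : NavarroEq p N H e := by
  classical
  have hfinW : Finite (Wt p G e) := finite_Wt he hinv
  have : Finite (IrX G e) := inferInstance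
  have : Fintype (IrX G e) := Fintype.ofFinite _
  have : Fintype (WtC p G e) := Fintype.ofFinite _
  rw [navarroEq_iff_stZ hGN hNH.le hn hp he hinv]
  exact cnt_lt_eq _ _ (fun x => G_le_stX hinv x) (fun x => G_le_stZ he hinv x)
    (fun H hH => (marks_of_navarro hp he hinv hH.le).1 (h H hH)) hGN hNH

/-- the weight conjecture for the block `e` of `H` and of `G` -/
theorem navarro_self_iff (hp : ∀ x : A, ∃ n : ℕ, x ^ p ^ n ∈ G) (he : IsBlock G e)
    (hinv : InvBy ⊤ e) (h : ∀ H, G < H → NavarroEq p G H e) {H : Subgroup A} (hGH : G ≤ H) :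
    NavarroEq p H H e ↔ NavarroEq p G G e := by
  classical
  have hfinW : Finite (Wt p G e) := finite_Wt he hinv
  have : Finite (IrX G e) := inferInstance
  have : Fintype (IrX G e) := Fintype.ofFinite _
  have : Fintype (WtC p G e) := Fintype.ofFinite _
  rw [navarroEq_iff_stZ hGH (le_refl H) Subgroup.le_normalizer hp he hinv,
    marks_of_navarro hp he hinv (le_refl G)]
  have h1 := cnt_self_add _ _ (fun x => G_le_stX hinv x) (fun x => G_le_stZ he hinv x)
    (fun H hH => (marks_of_navarro hp he hinv hH.le).1 (h H hH)) hGH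
  have e1 : Nat.card {x : IrX G e // G ≤ stX (G := G) hinv x} = Nat.card (IrX G e) :=
    Nat.card_congr (Equiv.subtypeUnivEquiv (fun x => G_le_stX hinv x))
  have e2 : Nat.card {x : WtC p G e // G ≤ stZ (p := p) he hinv x} = Nat.card (WtC p G e) :=
    Nat.card_congr (Equiv.subtypeUnivEquiv (fun x => G_le_stZ he hinv x))
  rw [e1, e2]
  constructor
  · intro h2
    rw [h2] at h1
    exact (Nat.eq_of_mul_eq_mul_left Nat.card_pos (Nat.add_left_cancel h1)).symm
  · intro h2
    rw [h2] at h1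
    exact Nat.add_right_cancel h1

theorem cnt_stZ_top (hp : ∀ x : A, ∃ n : ℕ, x ^ p ^ n ∈ G) (he : IsBlock G e)
    (hinv : InvBy ⊤ e) [Fintype (WtC p G e)] :
    cnt (stZ (p := p) he hinv) ⊤ ⊤
      = Nat.card (⊤ : Subgroup A) * Nat.card (Quotient (wtSetoid p (⊤ : Subgroup A) e ⊤)) := by
  classical
  have : Fintype (Subgroup A) := Fintype.ofFinite _
  have : Fintype (PT p G e) := Fintype.ofFinite _
  have : Fintype (PT p (⊤ : Subgroup A) e) := Fintype.ofFinite _
  have heT : IsBlock (⊤ : Subgroup A) e := isBlock_up le_top hp he hinv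
  have hpT : ∀ x : A, ∃ n : ℕ, x ^ p ^ n ∈ (⊤ : Subgroup A) := fun x => ⟨0, Subgroup.mem_top _⟩
  have hn : (⊤ : Subgroup A) ≤ Subgroup.normalizer ((⊤ : Subgroup A) : Set A) :=
    Subgroup.le_normalizer
  let S : Finset (Subgroup A) := Finset.univ.filter
    (fun Q => Q ≤ (⊤ : Subgroup A) ∧ IsPGroup p Q ∧ (⊤ : Subgroup A) ⊔ Q = ⊤)
  have hS : ∀ Q, Q ∈ S ↔ Q ≤ (⊤ : Subgroup A) ∧ IsPGroup p Q ∧ (⊤ : Subgroup A) ⊔ Q = ⊤ := by
    intro Q; simp [S]
  have h1 := cnt_stP (N := ⊤) (H := ⊤) le_top le_top hp he.suppIn hinv he.idem S hS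
  have h2 := cnt_stP (G := ⊤) (N := ⊤) (H := ⊤) le_top le_top hpT heT.suppIn hinv he.idem S hS
  rw [cnt_weights (G := G) le_rfl hn he hinv] at h1
  rw [cnt_weights (G := ⊤) le_rfl hn heT hinv] at h2
  rw [cnt_stZ le_top le_rfl hn he hinv, h1, ← h2]
  congr 1
  apply Nat.card_congr
  apply Equiv.subtypeUnivEquiv
  intro c h _ w w' hw hww
  rw [← hw]
  exact mkW_eq.2 (WSame.symm ⟨h, Subgroup.mem_top h, hww⟩)

/-- the numbers of characters and of weights of the blocks `e` of `G` and of `A` -/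
theorem card_add_eq (hp : ∀ x : A, ∃ n : ℕ, x ^ p ^ n ∈ G) (he : IsBlock G e)
    (hinv : InvBy ⊤ e) (h : ∀ H, G < H → NavarroEq p G H e) :
    G.index * Nat.card (Quotient (irrInvSetoid (⊤ : Subgroup A) ⊤ e))
        + Nat.card (Quotient (wtSetoid p G e G))
      = G.index * Nat.card (Quotient (wtSetoid p (⊤ : Subgroup A) e ⊤))
        + Nat.card (Quotient (irrInvSetoid G ⊥ e)) := by
  classical
  have hfinW : Finite (Wt p G e) := finite_Wt he hinv
  have : Finite (IrX G e) := inferInstance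
  have : Fintype (IrX G e) := Fintype.ofFinite _
  have : Fintype (WtC p G e) := Fintype.ofFinite _
  have h1 := cnt_self_add _ _ (fun x => G_le_stX hinv x) (fun x => G_le_stZ he hinv x)
    (fun H hH => (marks_of_navarro hp he hinv hH.le).1 (h H hH)) (le_top : G ≤ ⊤)
  rw [cnt_stZ_top hp he hinv, cnt_stX le_top le_rfl Subgroup.le_normalizer hp he.suppIn hinv
    he.idem] at h1
  have h2 : Nat.card (⊤ : Subgroup A) = Nat.card G * G.index := by
    rw [Subgroup.card_top, G.card_mul_index]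
  rw [h2, mul_assoc, mul_assoc, ← mul_add, ← mul_add] at h1
  exact Nat.eq_of_mul_eq_mul_left Nat.card_pos h1

end Pool.Agent.Lib.P0c8ca5.Cy
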